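import Pool.Agent.H290R2.Col.Defs

set_option autoImplicit false

/-! Task A1: measure of a vertex set, no random pair inside `S` (helper540). -/

namespace Pool.Agent.H290R2.Col
open Finset Filter Pool.Agent.H999R2.KSat

theorem mu_nonneg {n : ℕ} (S : Set (Fin n)) : 0 ≤ mu S := E_nonneg fun _ => ind_nonneg _

theorem mu_le_one {n : ℕ} (S : Set (Fin n)) : mu S ≤ 1 :=
  E_le_of_nonneg zero_le_one fun _ => ind_le_one _

theorem mu_mono {n : ℕ} {S S' : Set (Fin n)} (h : S ⊆ S') : mu S ≤ mu S' :=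
  E_mono fun _ => ind_mono fun hv => h hv

theorem a1_sum_ind {α : Type*} (s : Finset α) (P : α → Prop) [DecidablePred P] :
    ∑ x ∈ s, ind (P x) = ((s.filter P).card : ℝ) := by
  rw [Finset.card_filter]
  push_cast
  refine Finset.sum_congr rfl fun x _ => ?_
  by_cases h : P x <;> simp [ind, h]

theorem mu_finset {n : ℕ} (S : Finset (Fin n)) : mu (S : Set (Fin n)) = S.card / n := by
  unfold mu E
  rw [Fintype.card_fin]
  congr 1
  have := a1_sum_ind (univ : Finset (Fin n)) (fun v => v ∈ S)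
  simp only [Finset.filter_univ_mem] at this
  simpa using this

theorem a1_mu_set {n : ℕ} (S : Set (Fin n)) [DecidablePred (· ∈ S)] :
    mu S = ((univ.filter (· ∈ S)).card : ℝ) / n := by
  rw [← mu_finset]
  congr 1
  ext v
  simp

theorem a1_card_NL (n : ℕ) : (Fintype.card (NL n) : ℝ) = n * n - n := by
  have h1 : (Fintype.card (NL n) : ℕ) = (univ : Finset (Fin n)).offDiag.card := by
    rw [Fintype.card_subtype]
    congr 1
    ext x
    simp
  rw [h1, Finset.offDiag_card, Finset.card_univ, Fintype.card_fin, Nat.cast_sub]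
  · push_cast; ring
  · exact Nat.le_mul_self n

theorem a1_inside {n : ℕ} (S : Set (Fin n)) [DecidablePred (· ∈ S)] :
    ∑ e : NL n, ind (e.1.1 ∈ S ∧ e.1.2 ∈ S) =
      (((univ.filter (· ∈ S)).card : ℝ) * (univ.filter (· ∈ S)).card -
        (univ.filter (· ∈ S)).card) := by
  classical
  have h1 : ∑ x ∈ (univ : Finset (Fin n)).offDiag, ind (x.1 ∈ S ∧ x.2 ∈ S) =
      ∑ e : NL n, ind (e.1.1 ∈ S ∧ e.1.2 ∈ S) := by
    apply Finset.sum_subtype
    intro x
    simp
  rw [← h1, a1_sum_ind]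
  have h2 : ((univ : Finset (Fin n)).offDiag.filter (fun x => x.1 ∈ S ∧ x.2 ∈ S)) =
      (univ.filter (· ∈ S)).offDiag := by
    ext x
    simp only [mem_filter, mem_offDiag, mem_univ, true_and]
    tauto
  rw [h2, Finset.offDiag_card, Nat.cast_sub]
  · push_cast; ring
  · exact Nat.le_mul_self _

/-- the probability that no random pair lies inside `S` -/
theorem indep_le {n t : ℕ} (S : Set (Fin n)) (h : 2 / (n : ℝ) ≤ mu S) :
    E (fun W : Fin t → NL n => ind (indep W S)) ≤ Real.exp (-(t * mu S ^ 2 / 2)) := by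
  classical
  rcases Nat.lt_or_ge n 2 with hn | hn
  · interval_cases n
    · have h0 : mu S = 0 := by simp [mu, E]
      rw [h0]
      simp only [ne_eq, OfNat.ofNat_ne_zero, not_false_eq_true, zero_pow, mul_zero, zero_div,
        neg_zero, Real.exp_zero]
      exact E_le_of_nonneg zero_le_one fun _ => ind_le_one _
    · have := mu_le_one S
      norm_num at h
      linarith
  have hn2 : (2 : ℝ) ≤ n := by exact_mod_cast hn
  have : Nonempty (NL n) := ⟨⟨(⟨0, by omega⟩, ⟨1, by omega⟩), by simp⟩⟩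
  have hprod : E (fun W : Fin t → NL n => ind (indep W S)) =
      (E (fun e : NL n => ind (¬ (e.1.1 ∈ S ∧ e.1.2 ∈ S)))) ^ t := by
    have h1 : ∀ W : Fin t → NL n, ind (indep W S) =
        ∏ j, ind (¬ ((W j).1.1 ∈ S ∧ (W j).1.2 ∈ S)) := by
      intro W
      unfold indep
      rw [ind_forall]
    rw [E_congr h1, E_pi (fun (_ : Fin t) (e : NL n) => ind (¬ (e.1.1 ∈ S ∧ e.1.2 ∈ S)))]
    simp
  rw [hprod]
  set s : ℝ := ((univ.filter (· ∈ S)).card : ℝ) with hs
  have hmu : mu S = s / n := a1_mu_set S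
  have hs2 : 2 ≤ s := by
    rw [hmu, div_le_div_iff_of_pos_right (by linarith)] at h
    exact h
  have hval : E (fun e : NL n => ind (e.1.1 ∈ S ∧ e.1.2 ∈ S)) = (s * s - s) / (n * n - n) := by
    unfold E
    rw [a1_card_NL, a1_inside]
  have hone : E (fun e : NL n => ind (¬ (e.1.1 ∈ S ∧ e.1.2 ∈ S))) =
      1 - (s * s - s) / (n * n - n) := by
    rw [← hval]
    have h2 : ∀ e : NL n, ind (¬ (e.1.1 ∈ S ∧ e.1.2 ∈ S)) =
        1 - ind (e.1.1 ∈ S ∧ e.1.2 ∈ S) := fun e => ind_not _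
    rw [E_congr h2, E_sub, E_const]
  have hbase : E (fun e : NL n => ind (¬ (e.1.1 ∈ S ∧ e.1.2 ∈ S))) ≤
      Real.exp (-(mu S ^ 2 / 2)) := by
    rw [hone, hmu]
    have hn1 : (0 : ℝ) < n * n - n := by nlinarith
    have h3 : (s / n) ^ 2 / 2 ≤ (s * s - s) / (n * n - n) := by
      rw [div_pow, div_div, div_le_div_iff₀ (by positivity) hn1]
      have h4 : 0 ≤ s * n * (n * (s - 2) + s) := by
        apply mul_nonneg
        · apply mul_nonneg <;> linarith
        · nlinarith [mul_nonneg (by linarith : (0 : ℝ) ≤ n) (by linarith : (0 : ℝ) ≤ s - 2)]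
      nlinarith
    have h5 := Real.add_one_le_exp (-((s / n) ^ 2 / 2))
    linarith
  calc (E (fun e : NL n => ind (¬ (e.1.1 ∈ S ∧ e.1.2 ∈ S)))) ^ t
      ≤ (Real.exp (-(mu S ^ 2 / 2))) ^ t := by
        apply pow_le_pow_left₀
        · exact E_nonneg fun _ => ind_nonneg _
        · exact hbase
    _ = Real.exp (-(t * mu S ^ 2 / 2)) := by
        rw [← Real.exp_nat_mul]
        congr 1
        ring

theorem indep_anti {n t : ℕ} (W : Fin t → NL n) {S S' : Set (Fin n)} (h : S ⊆ S')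
    (hi : indep W S') : indep W S := fun j hj => hi j ⟨h hj.1, h hj.2⟩

end Pool.Agent.H290R2.Col
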