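import Pool.Agent.H290R2.Col.Defs

/-! Task A2: graph containers, one threshold (Kleitman-Winston algorithm as a recursion). -/

set_option autoImplicit false

namespace Pool.Agent.H290R2.Col
open Finset Filter Pool.Agent.H999R2.KSat

open Classical in
theorem KW_stage {n : ℕ} (R : Fin n → Fin n → Prop) (hR : ∀ v f, R v f → R f v) (d : ℕ)
    (hd : 1 ≤ d) (Q : Finset (Fin n)) :
    ∃ F : Finset (Fin n) → Finset (Fin n) × Finset (Fin n) × Finset (Fin n),
      ∀ I : Finset (Fin n),
        (F I).2.1 ⊆ I ∧ (F I).2.1 ⊆ Q ∧ (F I).1 ⊆ Q ∧ (F I).2.2 ⊆ Q ∧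
        Q ⊆ (F I).1 ∪ (F I).2.1 ∪ (F I).2.2 ∧
        (∀ v ∈ (F I).2.2, ((F I).2.2.filter (fun f => R v f)).card < d) ∧
        ((∀ v ∈ I, ∀ f ∈ I, ¬ R v f) →
          Disjoint (F I).1 I ∧ Disjoint (F I).1 (F I).2.2 ∧
            (F I).2.1.card * d ≤ (F I).1.card) ∧
        ∀ T : Finset (Fin n), (F I).2.1 ⊆ T → T ⊆ I → F T = F I := by
  induction Q using Finset.strongInduction with
  | H Q ih =>
    by_cases hc : ∀ v ∈ Q, (Q.filter (fun f => R v f)).card < d
    · refine ⟨fun _ => (∅, ∅, Q), ?_⟩
      intro I
      refine ⟨Finset.empty_subset _, Finset.empty_subset _, Finset.empty_subset _,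
        Finset.Subset.refl _, by simp, hc, ?_, fun _ _ _ => rfl⟩
      intro _
      simp
    · push Not at hc
      obtain ⟨v, hvQ, hv⟩ := hc
      set N := Q.filter (fun f => R v f) with hN
      have hNQ : N ⊆ Q := Finset.filter_subset _ _
      have hmemN : ∀ x, x ∈ N ↔ x ∈ Q ∧ R v x := fun x => Finset.mem_filter
      obtain ⟨F0, hF0⟩ := ih (Q.erase v) (Finset.erase_ssubset hvQ)
      obtain ⟨F1, hF1⟩ := ih ((Q \ N).erase v) (by
        refine ⟨fun x hx => (Finset.mem_sdiff.1 (Finset.mem_of_mem_erase hx)).1, ?_⟩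
        intro h
        exact Finset.notMem_erase v (Q \ N) (h hvQ))
      refine ⟨fun I => if v ∈ I then (N.erase v ∪ (F1 I).1, insert v (F1 I).2.1, (F1 I).2.2)
        else (insert v (F0 I).1, (F0 I).2.1, (F0 I).2.2), ?_⟩
      intro I
      by_cases hvI : v ∈ I
      · obtain ⟨a1, a2, a3, a4, a5, a6, a7, a8⟩ := hF1 I
        have hsub : ∀ x, x ∈ (Q \ N).erase v → x ∈ Q ∧ x ∉ N ∧ x ≠ v := by
          intro x hx
          rw [Finset.mem_erase, Finset.mem_sdiff] at hx
          exact ⟨hx.2.1, hx.2.2, hx.1⟩
        simp only [hvI, if_true]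
        refine ⟨?_, ?_, ?_, ?_, ?_, a6, ?_, ?_⟩
        · exact Finset.insert_subset hvI a1
        · exact Finset.insert_subset hvQ (fun x hx => (hsub x (a2 hx)).1)
        · exact Finset.union_subset (fun x hx => hNQ (Finset.mem_of_mem_erase hx))
            (fun x hx => (hsub x (a3 hx)).1)
        · exact fun x hx => (hsub x (a4 hx)).1
        · intro x hx
          by_cases hxv : x = v
          · simp [hxv]
          · by_cases hxN : x ∈ N
            · simp [hxv, hxN]
            · have h1 := a5 (Finset.mem_erase.2 ⟨hxv, Finset.mem_sdiff.2 ⟨hx, hxN⟩⟩)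
              simp only [Finset.mem_union, Finset.mem_insert] at h1 ⊢
              tauto
        · intro hI
          obtain ⟨b1, b2, b3⟩ := a7 hI
          have hvN : v ∉ N := fun h => hI v hvI v hvI ((hmemN v).1 h).2
          have hNI : Disjoint N I := by
            rw [Finset.disjoint_left]
            intro x hx hxI
            exact hI v hvI x hxI ((hmemN x).1 hx).2
          have hN1 : Disjoint N (F1 I).1 := by
            rw [Finset.disjoint_left]
            intro x hx hx'
            exact (hsub x (a3 hx')).2.1 hx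
          have hN2 : Disjoint N (F1 I).2.2 := by
            rw [Finset.disjoint_left]
            intro x hx hx'
            exact (hsub x (a4 hx')).2.1 hx
          rw [Finset.erase_eq_of_notMem hvN]
          refine ⟨Finset.disjoint_union_left.2 ⟨hNI, b1⟩, Finset.disjoint_union_left.2 ⟨hN2, b2⟩, ?_⟩
          rw [Finset.card_union_of_disjoint hN1]
          have h1 := Finset.card_insert_le v (F1 I).2.1
          calc (insert v (F1 I).2.1).card * d ≤ ((F1 I).2.1.card + 1) * d :=
                Nat.mul_le_mul_right d h1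
            _ = d + (F1 I).2.1.card * d := by ring
            _ ≤ N.card + (F1 I).1.card := Nat.add_le_add hv b3
        · intro T hT hTI
          have hvT : v ∈ T := hT (Finset.mem_insert_self _ _)
          simp only [hvT, if_true]
          rw [a8 T (fun x hx => hT (Finset.mem_insert_of_mem hx)) hTI]
      · obtain ⟨a1, a2, a3, a4, a5, a6, a7, a8⟩ := hF0 I
        have hsub : ∀ x, x ∈ Q.erase v → x ∈ Q ∧ x ≠ v := by
          intro x hx
          rw [Finset.mem_erase] at hx
          exact ⟨hx.2, hx.1⟩
        simp only [hvI, if_false]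
        refine ⟨a1, fun x hx => (hsub x (a2 hx)).1, ?_, fun x hx => (hsub x (a4 hx)).1, ?_, a6, ?_, ?_⟩
        · exact Finset.insert_subset hvQ (fun x hx => (hsub x (a3 hx)).1)
        · intro x hx
          by_cases hxv : x = v
          · simp [hxv]
          · have h1 := a5 (Finset.mem_erase.2 ⟨hxv, hx⟩)
            simp only [Finset.mem_union, Finset.mem_insert] at h1 ⊢
            tauto
        · intro hI
          obtain ⟨b1, b2, b3⟩ := a7 hI
          refine ⟨Finset.disjoint_insert_left.2 ⟨hvI, b1⟩, Finset.disjoint_insert_left.2 ⟨?_, b2⟩, ?_⟩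
          · exact fun h => (hsub v (a4 h)).2 rfl
          · exact b3.trans (Finset.card_le_card (Finset.subset_insert _ _))
        · intro T hT hTI
          have hvT : v ∉ T := fun h => hvI (hTI h)
          simp only [hvT, if_false]
          rw [a8 T hT hTI]

end Pool.Agent.H290R2.Col
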