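import Pool.Agent.H290R2.Col.Defs
import Pool.Agent.H290R2.Col.A2

set_option autoImplicit false

namespace Pool.Agent.H290R2.Col
open Finset Filter Pool.Agent.H999R2.KSat

open Classical in
theorem KW_multi {n : ℕ} (R : Fin n → Fin n → Prop) (hR : ∀ v f, R v f → R f v) (d : ℕ → ℕ)
    (hd : Antitone d) (hd1 : ∀ i, 1 ≤ d i) :
    ∃ Rm Qs : ℕ → Finset (Fin n) → Finset (Fin n), ∀ I : Finset (Fin n),
      (∀ v ∈ I, ∀ f ∈ I, ¬ R v f) →
      Qs 0 I = univ ∧ ∃ T : ℕ → Finset (Fin n), ∀ i : ℕ,
        T i ⊆ I ∧ Disjoint (Rm i I) I ∧ univ ⊆ Rm i I ∪ T i ∪ Qs i I ∧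
        (T i).card * d i ≤ (Rm i I).card ∧ Qs (i + 1) I ⊆ Qs i I ∧
        (∀ v ∈ Qs (i + 1) I, ((Qs (i + 1) I).filter (fun f => R v f)).card < d (i + 1)) ∧
        Rm i (T i) = Rm i I := by
  choose F hF using fun (i : ℕ) (Q : Finset (Fin n)) => KW_stage R hR (d (i+1)) (hd1 (i+1)) Q
  let st : ℕ → Finset (Fin n) → Finset (Fin n) × Finset (Fin n) × Finset (Fin n) :=
    fun i I => Nat.rec (motive := fun _ => Finset (Fin n) × Finset (Fin n) × Finset (Fin n))
      (∅, ∅, univ) (fun i s => (s.1 ∪ (F i s.2.2 I).1, s.2.1 ∪ (F i s.2.2 I).2.1,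
        (F i s.2.2 I).2.2)) i
  have st0 : ∀ I, st 0 I = (∅, ∅, univ) := fun I => rfl
  have stS : ∀ i I, st (i+1) I = ((st i I).1 ∪ (F i (st i I).2.2 I).1,
      (st i I).2.1 ∪ (F i (st i I).2.2 I).2.1, (F i (st i I).2.2 I).2.2) := fun i I => rfl
  have hS1 : ∀ i I, (st (i+1) I).1 = (st i I).1 ∪ (F i (st i I).2.2 I).1 := fun i I => rfl
  have hS2 : ∀ i I, (st (i+1) I).2.1 = (st i I).2.1 ∪ (F i (st i I).2.2 I).2.1 := fun i I => rfl
  have hS3 : ∀ i I, (st (i+1) I).2.2 = (F i (st i I).2.2 I).2.2 := fun i I => rfl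
  clear_value st
  -- monotonicity of the selection
  have mono : ∀ I i j, i ≤ j → (st i I).2.1 ⊆ (st j I).2.1 := by
    intro I i j hij
    induction j, hij using Nat.le_induction with
    | base => exact Finset.Subset.refl _
    | succ j _ ih =>
      rw [hS2]
      exact ih.trans Finset.subset_union_left
  have sub : ∀ I i, (st i I).2.1 ⊆ I := by
    intro I i
    induction i with
    | zero => rw [st0]; simp
    | succ i ih =>
      rw [hS2]
      exact Finset.union_subset ih (hF i (st i I).2.2 I).1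
  have cons : ∀ I i j, j ≤ i → st j ((st i I).2.1) = st j I := by
    intro I i j
    induction j with
    | zero => intro _; rw [st0, st0]
    | succ j ih =>
      intro hj
      have h1 := ih (by omega)
      have h2 : F j (st j I).2.2 ((st i I).2.1) = F j (st j I).2.2 I := by
        refine (hF j (st j I).2.2 I).2.2.2.2.2.2.2 _ ?_ (sub I i)
        refine Finset.Subset.trans ?_ (mono I (j+1) i hj)
        rw [hS2]
        exact Finset.subset_union_right
      rw [stS, stS, h1, h2]
  refine ⟨fun i I => (st i I).1, fun i I => (st i I).2.2, fun I hI => ⟨by simp [st0],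
    fun i => (st i I).2.1, ?_⟩⟩
  have key : ∀ i : ℕ, Disjoint (st i I).1 I ∧ univ ⊆ (st i I).1 ∪ (st i I).2.1 ∪ (st i I).2.2 ∧
      (st i I).2.1.card * d i ≤ (st i I).1.card ∧ Disjoint (st i I).1 (st i I).2.2 := by
    intro i
    induction i with
    | zero => rw [st0]; simp
    | succ i ih =>
      obtain ⟨h1, h2, h3, h4⟩ := ih
      obtain ⟨g1, g2, g3, g4, g5, g6, g7, g8⟩ := hF i (st i I).2.2 I
      obtain ⟨k1, k2, k3⟩ := g7 hI
      rw [hS1, hS2, hS3]
      refine ⟨?_, ?_, ?_, ?_⟩
      · rw [Finset.disjoint_union_left]; exact ⟨h1, k1⟩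
      · intro x hx
        have hx2 := h2 hx
        simp only [Finset.mem_union] at hx2 ⊢
        rcases hx2 with (h | h) | h
        · exact Or.inl (Or.inl (Or.inl h))
        · exact Or.inl (Or.inr (Or.inl h))
        · have := g5 h
          simp only [Finset.mem_union] at this
          rcases this with (h | h) | h
          · exact Or.inl (Or.inl (Or.inr h))
          · exact Or.inl (Or.inr (Or.inr h))
          · exact Or.inr h
      · have hdis : Disjoint (st i I).1 (F i (st i I).2.2 I).1 :=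
          Finset.disjoint_of_subset_right g3 h4
        rw [Finset.card_union_of_disjoint hdis]
        have hd' : d (i+1) ≤ d i := hd (Nat.le_succ i)
        calc ((st i I).2.1 ∪ (F i (st i I).2.2 I).2.1).card * d (i+1)
            ≤ ((st i I).2.1.card + (F i (st i I).2.2 I).2.1.card) * d (i+1) :=
              Nat.mul_le_mul_right _ (Finset.card_union_le _ _)
          _ = (st i I).2.1.card * d (i+1) + (F i (st i I).2.2 I).2.1.card * d (i+1) := by ring
          _ ≤ (st i I).2.1.card * d i + (F i (st i I).2.2 I).2.1.card * d (i+1) := by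
              gcongr
          _ ≤ (st i I).1.card + (F i (st i I).2.2 I).1.card := add_le_add h3 k3
      · rw [Finset.disjoint_union_left]
        exact ⟨Finset.disjoint_of_subset_right g4 h4, k2⟩
  intro i
  obtain ⟨h1, h2, h3, h4⟩ := key i
  refine ⟨sub I i, h1, h2, h3, ?_, ?_, ?_⟩
  · show (st (i+1) I).2.2 ⊆ (st i I).2.2
    rw [hS3]
    exact (hF i (st i I).2.2 I).2.2.2.1
  · show ∀ v ∈ (st (i+1) I).2.2, ((st (i+1) I).2.2.filter (fun f => R v f)).card < d (i + 1)
    rw [hS3]
    exact (hF i (st i I).2.2 I).2.2.2.2.2.1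
  · show (st i ((st i I).2.1)).1 = (st i I).1
    rw [cons I i i le_rfl]

end Pool.Agent.H290R2.Col
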