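import Pool.Agent.H290R2.Col.Defs
import Pool.Agent.H290R2.Col.A1
import Pool.Agent.H290R2.Col.A3

set_option autoImplicit false

/-! Task A4: deterministic container theorem for vertex covers (helper540). -/

namespace Pool.Agent.H290R2.Col
open Finset Filter Pool.Agent.H999R2.KSat

open Classical in
/-- the number of ordered `R`-pairs inside `Q` -/
noncomputable def a4e {n : ℕ} (R : Fin n → Fin n → Prop) (Q : Finset (Fin n)) : ℕ :=
  ∑ v ∈ Q, (Q.filter (fun f => R v f)).card

open Classical in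
theorem a4_double {n : ℕ} (R : Fin n → Fin n → Prop) (hR : ∀ v f, R v f → R f v)
    (Q D : Finset (Fin n)) :
    ∑ v ∈ Q, (D.filter (fun f => R v f)).card = ∑ f ∈ D, (Q.filter (fun v => R f v)).card := by
  simp_rw [Finset.card_filter]
  rw [Finset.sum_comm]
  refine Finset.sum_congr rfl fun f _ => Finset.sum_congr rfl fun v _ => ?_
  have : R v f ↔ R f v := ⟨hR _ _, hR _ _⟩
  simp [this]

open Classical in
theorem a4_step {n : ℕ} (R : Fin n → Fin n → Prop) (hR : ∀ v f, R v f → R f v)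
    (Q Q' : Finset (Fin n)) (hQ : Q' ⊆ Q) (d : ℕ)
    (hd : ∀ v ∈ Q, (Q.filter (fun f => R v f)).card ≤ d) :
    a4e R Q ≤ a4e R Q' + 2 * ((Q \ Q').card * d) := by
  unfold a4e
  have h1 : ∑ v ∈ Q, (Q.filter (fun f => R v f)).card =
      ∑ v ∈ Q \ Q', (Q.filter (fun f => R v f)).card +
        ∑ v ∈ Q', (Q.filter (fun f => R v f)).card := (Finset.sum_sdiff hQ).symm
  have h2 : ∑ v ∈ Q \ Q', (Q.filter (fun f => R v f)).card ≤ (Q \ Q').card * d := by
    rw [← smul_eq_mul]
    exact Finset.sum_le_card_nsmul _ _ _ fun v hv => hd v (Finset.mem_sdiff.1 hv).1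
  have h3 : ∀ v, (Q.filter (fun f => R v f)).card =
      ((Q \ Q').filter (fun f => R v f)).card + (Q'.filter (fun f => R v f)).card := by
    intro v
    simp_rw [Finset.card_filter]
    exact (Finset.sum_sdiff hQ).symm
  have h4 : ∑ v ∈ Q', (Q.filter (fun f => R v f)).card =
      ∑ v ∈ Q', ((Q \ Q').filter (fun f => R v f)).card +
        ∑ v ∈ Q', (Q'.filter (fun f => R v f)).card := by
    rw [← Finset.sum_add_distrib]
    exact Finset.sum_congr rfl fun v _ => h3 v
  have h5 : ∑ v ∈ Q', ((Q \ Q').filter (fun f => R v f)).card ≤ (Q \ Q').card * d := by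
    rw [a4_double R hR, ← smul_eq_mul]
    refine Finset.sum_le_card_nsmul _ _ _ fun v hv => ?_
    refine le_trans (Finset.card_le_card ?_) (hd v (Finset.mem_sdiff.1 hv).1)
    exact Finset.filter_subset_filter _ hQ
  omega

/-- the statement of `KW_multi` (task A3) for one relation and one sequence of thresholds -/
def A4Hyp {n : ℕ} (R : Fin n → Fin n → Prop) (d : ℕ → ℕ)
    (Rm Qs : ℕ → Finset (Fin n) → Finset (Fin n)) : Prop :=
  open Classical in
  ∀ I : Finset (Fin n),
      (∀ v ∈ I, ∀ f ∈ I, ¬ R v f) →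
      Qs 0 I = univ ∧ ∃ T : ℕ → Finset (Fin n), ∀ i : ℕ,
        T i ⊆ I ∧ Disjoint (Rm i I) I ∧ univ ⊆ Rm i I ∪ T i ∪ Qs i I ∧
        (T i).card * d i ≤ (Rm i I).card ∧ Qs (i + 1) I ⊆ Qs i I ∧
        (∀ v ∈ Qs (i + 1) I, ((Qs (i + 1) I).filter (fun f => R v f)).card < d (i + 1)) ∧
        Rm i (T i) = Rm i I

open Classical in
/-- the counting heart of the argument -/
theorem a4_heart {n : ℕ} (R : Fin n → Fin n → Prop) (hR : ∀ v f, R v f → R f v) (g J : ℕ)
    (hg : 1 ≤ g) (hJ : 1 ≤ J) (hdeg : ∀ v, (univ.filter (fun f => R v f)).card ≤ g * 2 ^ J)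
    (Rm Qs : ℕ → Finset (Fin n) → Finset (Fin n))
    (hKW : A4Hyp R (fun i => g * 2 ^ (J - i)) Rm Qs)
    (I : Finset (Fin n)) (hI : ∀ v ∈ I, ∀ f ∈ I, ¬ R v f) (B : ℝ)
    (hB : (n : ℝ) * g + 8 * J * B ≤ a4e R (univ : Finset (Fin n))) :
    ∃ i < J, ∃ T : Finset (Fin n), Disjoint (Rm (i + 1) T) I ∧
      B ≤ ((Rm (i + 1) T).card : ℝ) * (g * 2 ^ (J - (i + 1)) : ℕ) ∧
      T.card * (g * 2 ^ (J - (i + 1))) ≤ (Rm (i + 1) T).card := by
  obtain ⟨hQ0, T, hT⟩ := hKW I hI
  by_contra hcon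
  push Not at hcon
  have hcon' : ∀ i < J, ((Rm (i + 1) I).card : ℝ) * (g * 2 ^ (J - (i + 1)) : ℕ) < B := by
    intro i hi
    by_contra hlt
    push Not at hlt
    obtain ⟨h1, h2, h3, h4, h5, h6, h7⟩ := hT (i + 1)
    have := hcon i hi (T (i + 1)) (by rw [h7]; exact h2) (by rw [h7]; exact hlt)
    rw [h7] at this
    exact absurd h4 (not_le.2 this)
  have hdegs : ∀ l, ∀ v ∈ Qs l I, ((Qs l I).filter (fun f => R v f)).card ≤ g * 2 ^ (J - l) := by
    intro l
    cases l with
    | zero =>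
      intro v _
      rw [hQ0]
      exact hdeg v
    | succ l =>
      intro v hv
      exact ((hT l).2.2.2.2.2.1 v hv).le
  have hstep : ∀ l < J, a4e R (Qs l I) ≤ a4e R (Qs (l + 1) I) +
      8 * ((Rm (l + 1) I).card * (g * 2 ^ (J - (l + 1)))) := by
    intro l hl
    obtain ⟨h1, h2, h3, h4, -, -, -⟩ := hT (l + 1)
    have hsub := (hT l).2.2.2.2.1
    have hs := a4_step R hR (Qs l I) (Qs (l + 1) I) hsub _ (hdegs l)
    have hpos : 1 ≤ g * 2 ^ (J - (l + 1)) := Nat.mul_pos hg (by positivity)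
    have hTle : (T (l + 1)).card ≤ (Rm (l + 1) I).card :=
      le_trans (Nat.le_mul_of_pos_right _ hpos) h4
    have hcard : (Qs l I \ Qs (l + 1) I).card ≤ 2 * (Rm (l + 1) I).card := by
      have : Qs l I \ Qs (l + 1) I ⊆ Rm (l + 1) I ∪ T (l + 1) := by
        intro v hv
        rw [Finset.mem_sdiff] at hv
        have := h3 (Finset.mem_univ v)
        rw [Finset.mem_union] at this
        exact this.resolve_right hv.2
      have h8 := (Finset.card_le_card this).trans (Finset.card_union_le _ _)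
      omega
    have hpow : g * 2 ^ (J - l) = 2 * (g * 2 ^ (J - (l + 1))) := by
      have : J - l = (J - (l + 1)) + 1 := by omega
      rw [this, pow_succ]
      ring
    rw [hpow] at hs
    have hm : (Qs l I \ Qs (l + 1) I).card * (2 * (g * 2 ^ (J - (l + 1)))) ≤
        (2 * (Rm (l + 1) I).card) * (2 * (g * 2 ^ (J - (l + 1)))) :=
      Nat.mul_le_mul_right _ hcard
    have : 8 * ((Rm (l + 1) I).card * (g * 2 ^ (J - (l + 1)))) =
        2 * ((2 * (Rm (l + 1) I).card) * (2 * (g * 2 ^ (J - (l + 1))))) := by ring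
    omega
  have hind : ∀ l ≤ J, (a4e R (univ : Finset (Fin n)) : ℝ) ≤ a4e R (Qs l I) + 8 * l * B := by
    intro l
    induction l with
    | zero => intro _; rw [hQ0]; simp
    | succ l ih =>
      intro hl
      have h1 := ih (by omega)
      have h2 : (a4e R (Qs l I) : ℝ) ≤ a4e R (Qs (l + 1) I) +
          8 * ((Rm (l + 1) I).card * (g * 2 ^ (J - (l + 1)) : ℕ)) := by
        exact_mod_cast hstep l (by omega)
      have h3 := hcon' l (by omega)
      push_cast at h2 h3 ⊢
      linarith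
  -- strict inequality at the last step
  have hlast : a4e R (Qs J I) ≤ n * g := by
    unfold a4e
    calc ∑ v ∈ Qs J I, ((Qs J I).filter (fun f => R v f)).card
        ≤ (Qs J I).card * (g * 2 ^ (J - J)) := by
          rw [← smul_eq_mul]
          exact Finset.sum_le_card_nsmul _ _ _ (hdegs J)
      _ ≤ n * g := by
          rw [Nat.sub_self, pow_zero, mul_one]
          refine Nat.mul_le_mul_right _ ?_
          calc (Qs J I).card ≤ (univ : Finset (Fin n)).card := Finset.card_le_univ _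
            _ = n := by simp
  have hlt : (a4e R (univ : Finset (Fin n)) : ℝ) < a4e R (Qs J I) + 8 * J * B := by
    obtain ⟨l, rfl⟩ : ∃ l, J = l + 1 := ⟨J - 1, by omega⟩
    have h1 := hind l (by omega)
    have h2 : (a4e R (Qs l I) : ℝ) ≤ a4e R (Qs (l + 1) I) +
        8 * ((Rm (l + 1) I).card * (g * 2 ^ (l + 1 - (l + 1)) : ℕ)) := by
      exact_mod_cast hstep l (by omega)
    have h3 := hcon' l (by omega)
    push_cast at h2 h3 ⊢
    linarith
  have h5 : (a4e R (Qs J I) : ℝ) ≤ n * g := by exact_mod_cast hlast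
  linarith

open Classical in
theorem a4_E_ind {n : ℕ} (P : Fin n → Prop) :
    E (fun f : Fin n => ind (P f)) = ((univ.filter P).card : ℝ) / n := by
  unfold E
  rw [a1_sum_ind, Fintype.card_fin]

theorem KWD {n : ℕ} (Ee : Fin n → Fin n → Prop) (lam Dl : ℝ) (hn : 2 ≤ n) (hlam : 0 < lam)
    (hDl : 0 < Dl) (hDl1 : Dl ≤ 1)
    (hdens : lam ≤ E (fun v : Fin n => E (fun f : Fin n => ind (Ee v f))))
    (hd1 : ∀ v, E (fun f : Fin n => ind (Ee v f)) ≤ Dl)
    (hd2 : ∀ f, E (fun v : Fin n => ind (Ee v f)) ≤ Dl) (h3 : 2 ≤ lam * n) :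
    ∃ (J : ℕ) (Rm : ℕ → Finset (Fin n) → Finset (Fin n)), 1 ≤ J ∧ J ≤ Lg n ∧
      ∀ S : Set (Fin n), (∀ v f, Ee v f → v ∈ S ∨ f ∈ S) →
        ∃ i < J, ∃ T : Finset (Fin n), ((Rm i T : Finset (Fin n)) : Set (Fin n)) ⊆ S ∧
          lam / (32 * J * Dl) ≤ mu ((Rm i T : Finset (Fin n)) : Set (Fin n)) ∧
          (T.card : ℝ) ≤ 16 * J * mu ((Rm i T : Finset (Fin n)) : Set (Fin n)) ^ 2 / lam := by
  classical
  have hn0 : (0 : ℝ) < n := by
    have : (2 : ℝ) ≤ n := by exact_mod_cast hn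
    linarith
  have hne : Nonempty (Fin n) := ⟨⟨0, by omega⟩⟩
  obtain ⟨R, hRdef⟩ : ∃ R : Fin n → Fin n → Prop, ∀ v f, R v f ↔ (Ee v f ∨ Ee f v) :=
    ⟨fun v f => Ee v f ∨ Ee f v, fun _ _ => Iff.rfl⟩
  have hR : ∀ v f, R v f → R f v := fun v f h => (hRdef f v).2 ((hRdef v f).1 h).symm
  have hlamDl : lam ≤ Dl := hdens.trans (E_le_const hd1)
  -- degrees
  have hdegE : ∀ v, ((univ.filter (fun f => Ee v f)).card : ℝ) ≤ Dl * n := by
    intro v
    have := hd1 v
    rwa [a4_E_ind, div_le_iff₀ hn0] at this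
  have hdegE' : ∀ v, ((univ.filter (fun f => Ee f v)).card : ℝ) ≤ Dl * n := by
    intro v
    have := hd2 v
    rwa [a4_E_ind, div_le_iff₀ hn0] at this
  have hdegR : ∀ v, ((univ.filter (fun f => R v f)).card : ℝ) ≤ 2 * Dl * n := by
    intro v
    have h1 : (univ.filter (fun f => R v f)) ⊆
        (univ.filter (fun f => Ee v f)) ∪ (univ.filter (fun f => Ee f v)) := by
      intro f hf
      simp only [hRdef, mem_filter, mem_univ, true_and, mem_union] at hf ⊢
      exact hf
    have h2 := (Finset.card_le_card h1).trans (Finset.card_union_le _ _)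
    have h3 : ((univ.filter (fun f => R v f)).card : ℝ) ≤
        (univ.filter (fun f => Ee v f)).card + (univ.filter (fun f => Ee f v)).card := by
      exact_mod_cast h2
    linarith [hdegE v, hdegE' v]
  -- number of pairs
  have he0 : lam * n ^ 2 ≤ (a4e R (univ : Finset (Fin n)) : ℝ) := by
    have h1 : E (fun v : Fin n => E (fun f : Fin n => ind (Ee v f))) =
        (∑ v : Fin n, ((univ.filter (fun f => Ee v f)).card : ℝ)) / n / n := by
      have : ∀ v : Fin n, E (fun f : Fin n => ind (Ee v f)) =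
          ((univ.filter (fun f => Ee v f)).card : ℝ) / n := fun v => a4_E_ind _
      rw [E_congr this]
      unfold E
      rw [← Finset.sum_div, Fintype.card_fin]
    rw [h1, le_div_iff₀ hn0, le_div_iff₀ hn0] at hdens
    have h2 : (∑ v : Fin n, ((univ.filter (fun f => Ee v f)).card : ℝ)) ≤
        (a4e R (univ : Finset (Fin n)) : ℝ) := by
      unfold a4e
      push_cast
      refine Finset.sum_le_sum fun v _ => ?_
      have : (univ.filter (fun f => Ee v f)).card ≤ (univ.filter (fun f => R v f)).card := by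
        refine Finset.card_le_card fun f hf => ?_
        simp only [hRdef, mem_filter, mem_univ, true_and] at hf ⊢
        exact Or.inl hf
      exact_mod_cast this
    calc lam * n ^ 2 = lam * n * n := by ring
      _ ≤ _ := hdens
      _ ≤ _ := h2
  -- g and J
  set g : ℕ := ⌊lam * n / 2⌋₊ with hgdef
  have hg1 : 1 ≤ g := by
    rw [hgdef]
    exact Nat.one_le_floor_iff _ |>.2 (by linarith)
  have hg2 : (g : ℝ) ≤ lam * n / 2 := Nat.floor_le (by positivity)
  have hgR : (1 : ℝ) ≤ g := by exact_mod_cast hg1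
  have hlog : (n : ℝ) < 2 ^ (Nat.log 2 n + 1) := by
    exact_mod_cast Nat.lt_pow_succ_log_self one_lt_two n
  have hexist : 2 * Dl * n ≤ (g : ℝ) * 2 ^ (Lg n) := by
    have h1 : (2 : ℝ) ^ (Lg n) = 2 * 2 ^ (Nat.log 2 n + 1) := by
      unfold Lg
      rw [show Nat.log 2 n + 2 = (Nat.log 2 n + 1) + 1 from rfl, pow_succ]
      ring
    have h2 : (0 : ℝ) < 2 ^ (Nat.log 2 n + 1) := by positivity
    rw [h1]
    have h4 : Dl * n ≤ n := by nlinarith
    nlinarith
  have hex : ∃ J : ℕ, 2 * Dl * n ≤ (g : ℝ) * 2 ^ J := ⟨_, hexist⟩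
  set J : ℕ := Nat.find hex with hJdef
  have hJspec : 2 * Dl * n ≤ (g : ℝ) * 2 ^ J := Nat.find_spec hex
  have hJle : J ≤ Lg n := Nat.find_min' hex hexist
  have hJ1 : 1 ≤ J := by
    by_contra hcon
    have hJ0 : J = 0 := by omega
    rw [hJ0, pow_zero, mul_one] at hJspec
    have : lam * n ≤ Dl * n := mul_le_mul_of_nonneg_right hlamDl hn0.le
    have : 0 < Dl * n := mul_pos hDl hn0
    linarith
  have hJmin : (g : ℝ) * 2 ^ (J - 1) < 2 * Dl * n := by
    have := Nat.find_min hex (m := J - 1) (by omega)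
    exact not_le.1 this
  have hdeg : ∀ v, (univ.filter (fun f => R v f)).card ≤ g * 2 ^ J := by
    intro v
    have h1 := (hdegR v).trans hJspec
    exact_mod_cast h1
  obtain ⟨Rm, Qs, hKW⟩ := KW_multi R hR (fun i => g * 2 ^ (J - i))
    (by
      intro i j hij
      exact Nat.mul_le_mul_left _ (Nat.pow_le_pow_right (by norm_num) (by omega)))
    (by
      intro i
      exact Nat.mul_pos hg1 (by positivity))
  refine ⟨J, fun i T => Rm (i + 1) T, hJ1, hJle, fun S hS => ?_⟩
  set I : Finset (Fin n) := univ.filter (fun v => v ∉ S) with hIdef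
  have hI : ∀ v ∈ I, ∀ f ∈ I, ¬ R v f := by
    intro v hv f hf h
    simp only [hIdef, mem_filter, mem_univ, true_and] at hv hf
    rcases (hRdef v f).1 h with h | h
    · exact (hS v f h).elim hv hf
    · exact (hS f v h).elim hf hv
  have hJR : (1 : ℝ) ≤ J := by exact_mod_cast hJ1
  obtain ⟨i, hi, T, hT1, hT2, hT3⟩ := a4_heart R hR g J hg1 hJ1 hdeg Rm Qs hKW I hI
    (lam * n ^ 2 / (16 * J)) (by
      have h1 : 8 * (J : ℝ) * (lam * n ^ 2 / (16 * J)) = lam * n ^ 2 / 2 := by
        field_simp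
        norm_num
      rw [h1]
      have h2 : (n : ℝ) * g ≤ n * (lam * n / 2) := mul_le_mul_of_nonneg_left hg2 hn0.le
      have h4 : (n : ℝ) * (lam * n / 2) = lam * n ^ 2 / 2 := by ring
      linarith)
  refine ⟨i, hi, T, ?_, ?_, ?_⟩
  · intro v hv
    by_contra hvS
    have : v ∈ I := by
      simp only [hIdef, mem_filter, mem_univ, true_and]
      exact hvS
    exact (Finset.disjoint_left.1 hT1 hv) this
  · rw [mu_finset]
    have hd : ((g * 2 ^ (J - (i + 1)) : ℕ) : ℝ) ≤ 2 * Dl * n := by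
      have h1 : g * 2 ^ (J - (i + 1)) ≤ g * 2 ^ (J - 1) :=
        Nat.mul_le_mul_left _ (Nat.pow_le_pow_right (by norm_num) (by omega))
      have h2 : ((g * 2 ^ (J - (i + 1)) : ℕ) : ℝ) ≤ (g * 2 ^ (J - 1) : ℕ) := by exact_mod_cast h1
      refine h2.trans ?_
      push_cast
      exact hJmin.le
    have h1 : lam * n ^ 2 / (16 * J) ≤ ((Rm (i + 1) T).card : ℝ) * (2 * Dl * n) :=
      hT2.trans (mul_le_mul_of_nonneg_left hd (by positivity))
    rw [div_le_div_iff₀ (by positivity) hn0]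
    rw [div_le_iff₀ (by positivity)] at h1
    have h4 : lam * n * n ≤ ((Rm (i + 1) T).card : ℝ) * (32 * J * Dl) * n := by
      calc lam * n * n = lam * n ^ 2 := by ring
        _ ≤ _ := h1
        _ = _ := by ring
    exact le_of_mul_le_mul_right h4 hn0
  · rw [mu_finset]
    set c : ℝ := ((Rm (i + 1) T).card : ℝ) with hc
    set dd : ℝ := ((g * 2 ^ (J - (i + 1)) : ℕ) : ℝ) with hdd
    have hdpos : 0 < dd := by
      rw [hdd]
      exact_mod_cast Nat.mul_pos hg1 (by positivity)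
    have h5 : (T.card : ℝ) * dd ≤ c := by
      rw [hc, hdd]
      exact_mod_cast hT3
    have hc0 : 0 ≤ c := by rw [hc]; positivity
    have h6 : lam * n ^ 2 ≤ c * dd * (16 * J) := by
      rw [div_le_iff₀ (by positivity)] at hT2
      exact hT2
    rw [le_div_iff₀ hlam, div_pow, ← mul_div_assoc, le_div_iff₀ (by positivity)]
    have h7 : 0 ≤ (T.card : ℝ) := by positivity
    calc (T.card : ℝ) * lam * n ^ 2 = T.card * (lam * n ^ 2) := by ring
      _ ≤ T.card * (c * dd * (16 * J)) := mul_le_mul_of_nonneg_left h6 h7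
      _ = (T.card * dd) * (c * (16 * J)) := by ring
      _ ≤ c * (c * (16 * J)) := mul_le_mul_of_nonneg_right h5 (by positivity)
      _ = 16 * J * c ^ 2 := by ring

end Pool.Agent.H290R2.Col
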