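import Pool.Agent.H290R2.Col.Defs
import Pool.Agent.H290R2.Col.A1
import Pool.Agent.H290R2.Col.A4

/-! Task A5: probabilistic form of the graph container theorem -/

set_option autoImplicit false

namespace Pool.Agent.H290R2.Col
open Finset Filter Pool.Agent.H999R2.KSat

/-- the conditions satisfied by the containers -/
def a5_Cnd {n : ℕ} (lam Dl : ℝ) (X T : Finset (Fin n)) : Prop :=
  lam / (32 * (Lg n : ℝ) * Dl) ≤ mu (X : Set (Fin n)) ∧
    (T.card : ℝ) ≤ 16 * (Lg n : ℝ) * mu (X : Set (Fin n)) ^ 2 / lam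

theorem a5_sum_le {n : ℕ} (hn : 2 ≤ n) :
    ∑ T : Finset (Fin n), (1 / (n : ℝ) ^ 2) ^ T.card ≤ 3 := by
  have hn0 : (0 : ℝ) < n := by positivity
  have h1 : ∑ T : Finset (Fin n), (1 / (n : ℝ) ^ 2) ^ T.card = (1 + 1 / (n : ℝ) ^ 2) ^ n := by
    have := Finset.prod_one_add (f := fun _ : Fin n => 1 / (n : ℝ) ^ 2) (s := Finset.univ)
    rw [Finset.prod_const, Finset.card_univ, Fintype.card_fin] at this
    rw [this, Finset.powerset_univ]
    apply Finset.sum_congr rfl
    intro T _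
    rw [Finset.prod_const]
  rw [h1]
  have h2 : 1 + 1 / (n : ℝ) ^ 2 ≤ Real.exp (1 / (n : ℝ) ^ 2) := by
    have := Real.add_one_le_exp (1 / (n : ℝ) ^ 2)
    linarith
  have h3 : (1 + 1 / (n : ℝ) ^ 2) ^ n ≤ Real.exp (1 / (n : ℝ) ^ 2) ^ n :=
    pow_le_pow_left₀ (by positivity) h2 n
  refine h3.trans ?_
  rw [← Real.exp_nat_mul]
  have h4 : (n : ℝ) * (1 / (n : ℝ) ^ 2) ≤ 1 := by
    have hn1 : (1 : ℝ) ≤ n := by exact_mod_cast (by omega : 1 ≤ n)
    have : (n : ℝ) * (1 / (n : ℝ) ^ 2) = 1 / n := by field_simp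
    rw [this, div_le_one hn0]
    exact hn1
  have h5 : Real.exp ((n : ℝ) * (1 / (n : ℝ) ^ 2)) ≤ Real.exp 1 := Real.exp_le_exp.mpr h4
  have h6 := Real.exp_one_lt_d9
  linarith

/-- one term of the union bound -/
theorem a5_term {n t : ℕ} (lam Dl : ℝ) (hn : 2 ≤ n) (hlam : 0 < lam) (hDl : 0 < Dl)
    (h1 : 128 * Lg n * Real.log n ≤ lam * t) (h2 : 2 / (n : ℝ) ≤ lam / (32 * Lg n * Dl))
    (X T : Finset (Fin n)) (h : a5_Cnd lam Dl X T) :
    E (fun W : Fin t → NL n => ind (indep W (X : Set (Fin n)))) ≤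
      (1 / (n : ℝ) ^ 2) ^ T.card * Real.exp (-(t * (lam / (32 * Lg n * Dl)) ^ 2 / 4)) := by
  obtain ⟨c1, c2⟩ := h
  have hn0 : (0 : ℝ) < n := by positivity
  have hL : (0 : ℝ) < (Lg n : ℝ) := by
    unfold Lg; positivity
  set r : ℝ := mu (X : Set (Fin n)) with hr
  have hlo : 0 < lam / (32 * (Lg n : ℝ) * Dl) := by positivity
  have hr0 : 0 < r := lt_of_lt_of_le hlo c1
  refine (indep_le (X : Set (Fin n)) (h2.trans c1)).trans ?_
  rw [← hr]
  have e1 : (1 / (n : ℝ) ^ 2) ^ T.card = Real.exp (-(2 * (T.card : ℝ) * Real.log n)) := by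
    have : 1 / (n : ℝ) ^ 2 = Real.exp (-(2 * Real.log n)) := by
      rw [Real.exp_neg, ← Real.log_rpow hn0, Real.exp_log (by positivity)]
      norm_num
    rw [this, ← Real.exp_nat_mul]
    congr 1
    ring
  rw [e1, ← Real.exp_add]
  apply Real.exp_le_exp.mpr
  have hlog : 0 ≤ Real.log n := Real.log_nonneg (by exact_mod_cast (by omega : 1 ≤ n))
  have ht0 : (0 : ℝ) ≤ t := Nat.cast_nonneg t
  have k1 : 2 * (T.card : ℝ) * Real.log n ≤ t * r ^ 2 / 4 := by
    have q1 : 2 * (T.card : ℝ) * Real.log n ≤ 2 * (16 * (Lg n : ℝ) * r ^ 2 / lam) * Real.log n := by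
      gcongr
    refine q1.trans ?_
    have q2 : 2 * (16 * (Lg n : ℝ) * r ^ 2 / lam) * Real.log n =
        (128 * (Lg n : ℝ) * Real.log n) * (r ^ 2 / (4 * lam)) := by
      field_simp
      ring
    rw [q2]
    calc (128 * (Lg n : ℝ) * Real.log n) * (r ^ 2 / (4 * lam))
        ≤ (lam * t) * (r ^ 2 / (4 * lam)) := by gcongr
      _ = t * r ^ 2 / 4 := by field_simp
  have k2 : t * (lam / (32 * (Lg n : ℝ) * Dl)) ^ 2 / 4 ≤ t * r ^ 2 / 4 := by
    gcongr
  have k3 : t * r ^ 2 / 2 = t * r ^ 2 / 4 + t * r ^ 2 / 4 := by ring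
  linarith

/-- A5: probabilistic form of the graph container theorem -/
theorem KWP {n t : ℕ} (Ee : Fin n → Fin n → Prop) (lam Dl : ℝ) (hn : 2 ≤ n) (hlam : 0 < lam)
    (hDl : 0 < Dl) (hDl1 : Dl ≤ 1)
    (hdens : lam ≤ E (fun v : Fin n => E (fun f : Fin n => ind (Ee v f))))
    (hd1 : ∀ v, E (fun f : Fin n => ind (Ee v f)) ≤ Dl)
    (hd2 : ∀ f, E (fun v : Fin n => ind (Ee v f)) ≤ Dl)
    (h1 : 128 * Lg n * Real.log n ≤ lam * t) (h2 : 2 / (n : ℝ) ≤ lam / (32 * Lg n * Dl))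
    (h3 : 2 ≤ lam * n) :
    E (fun W : Fin t → NL n =>
      ind (∃ S : Set (Fin n), indep W S ∧ ∀ v f, Ee v f → v ∈ S ∨ f ∈ S)) ≤ kwb n t lam Dl := by
  classical
  obtain ⟨J, Rm, hJ1, hJ, hK⟩ := KWD Ee lam Dl hn hlam hDl hDl1 hdens hd1 hd2 h3
  have hJ0 : (0 : ℝ) < (J : ℝ) := by exact_mod_cast hJ1
  have hJL : (J : ℝ) ≤ (Lg n : ℝ) := by exact_mod_cast hJ
  have hL : (0 : ℝ) < (Lg n : ℝ) := lt_of_lt_of_le hJ0 hJL
  have hpt : ∀ W : Fin t → NL n,
      ind (∃ S : Set (Fin n), indep W S ∧ ∀ v f, Ee v f → v ∈ S ∨ f ∈ S) ≤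
      ∑ i ∈ range J, ∑ T : Finset (Fin n),
        ind (a5_Cnd lam Dl (Rm i T) T) * ind (indep W ((Rm i T : Finset (Fin n)) : Set (Fin n))) := by
    intro W
    by_cases h : ∃ S : Set (Fin n), indep W S ∧ ∀ v f, Ee v f → v ∈ S ∨ f ∈ S
    · rw [ind_true h]
      obtain ⟨S, hS, hcov⟩ := h
      obtain ⟨i, hi, T, hsub, hmu, hcard⟩ := hK S hcov
      have c : a5_Cnd lam Dl (Rm i T) T := by
        constructor
        · refine le_trans ?_ hmu
          gcongr
        · refine hcard.trans ?_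
          gcongr
      have hind : indep W ((Rm i T : Finset (Fin n)) : Set (Fin n)) := indep_anti W hsub hS
      calc (1 : ℝ) = ind (a5_Cnd lam Dl (Rm i T) T) *
            ind (indep W ((Rm i T : Finset (Fin n)) : Set (Fin n))) := by
            rw [ind_true c, ind_true hind, mul_one]
        _ ≤ ∑ T : Finset (Fin n), ind (a5_Cnd lam Dl (Rm i T) T) *
            ind (indep W ((Rm i T : Finset (Fin n)) : Set (Fin n))) :=
            Finset.single_le_sum (f := fun T : Finset (Fin n) => ind (a5_Cnd lam Dl (Rm i T) T) *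
              ind (indep W ((Rm i T : Finset (Fin n)) : Set (Fin n))))
              (fun T _ => mul_nonneg (ind_nonneg _) (ind_nonneg _)) (Finset.mem_univ T)
        _ ≤ _ := Finset.single_le_sum (f := fun i => ∑ T : Finset (Fin n),
              ind (a5_Cnd lam Dl (Rm i T) T) *
              ind (indep W ((Rm i T : Finset (Fin n)) : Set (Fin n))))
              (fun i _ => Finset.sum_nonneg fun T _ => mul_nonneg (ind_nonneg _) (ind_nonneg _))
              (Finset.mem_range.mpr hi)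
    · rw [ind_false h]
      exact Finset.sum_nonneg fun i _ => Finset.sum_nonneg fun T _ =>
        mul_nonneg (ind_nonneg _) (ind_nonneg _)
  set x : ℝ := Real.exp (-(t * (lam / (32 * Lg n * Dl)) ^ 2 / 4)) with hx
  have hx0 : 0 < x := Real.exp_pos _
  calc E (fun W : Fin t → NL n =>
      ind (∃ S : Set (Fin n), indep W S ∧ ∀ v f, Ee v f → v ∈ S ∨ f ∈ S))
      ≤ E (fun W : Fin t → NL n => ∑ i ∈ range J, ∑ T : Finset (Fin n),
        ind (a5_Cnd lam Dl (Rm i T) T) *
          ind (indep W ((Rm i T : Finset (Fin n)) : Set (Fin n)))) := E_mono hpt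
    _ = ∑ i ∈ range J, ∑ T : Finset (Fin n), ind (a5_Cnd lam Dl (Rm i T) T) *
          E (fun W : Fin t → NL n => ind (indep W ((Rm i T : Finset (Fin n)) : Set (Fin n)))) := by
        rw [E_sum]
        apply Finset.sum_congr rfl
        intro i _
        rw [E_sum]
        apply Finset.sum_congr rfl
        intro T _
        rw [E_mul_left]
    _ ≤ ∑ i ∈ range J, ∑ T : Finset (Fin n), (1 / (n : ℝ) ^ 2) ^ T.card * x := by
        apply Finset.sum_le_sum
        intro i _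
        apply Finset.sum_le_sum
        intro T _
        by_cases h : a5_Cnd lam Dl (Rm i T) T
        · rw [ind_true h, one_mul]
          exact a5_term lam Dl hn hlam hDl h1 h2 (Rm i T) T h
        · rw [ind_false h, zero_mul]
          positivity
    _ ≤ ∑ i ∈ range J, 3 * x := by
        apply Finset.sum_le_sum
        intro i _
        rw [← Finset.sum_mul]
        exact mul_le_mul_of_nonneg_right (a5_sum_le hn) hx0.le
    _ = J * (3 * x) := by
        rw [Finset.sum_const, Finset.card_range, nsmul_eq_mul]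
    _ ≤ (Lg n : ℝ) * (3 * x) := by gcongr
    _ = kwb n t lam Dl := by
        unfold kwb
        rw [← hx]
        ring

end Pool.Agent.H290R2.Col
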