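import Pool.Agent.H290R2.Col.Defs
import Pool.Agent.H290R2.Col.A1

set_option autoImplicit false

namespace Pool.Agent.H290R2.Col
open Finset Filter Pool.Agent.H999R2.KSat

theorem DC {n t m : ℕ} (Qp : (Fin m → Fin n) → Prop) (r : ℝ) (hr : 0 < r) (hn : 0 < n)
    (h2 : 2 / (n : ℝ) ≤ r / 2 ^ m) (hQ : r ≤ E (fun p : Fin m → Fin n => ind (Qp p))) :
    E (fun W : Fin t → NL n =>
      ind (∃ S : Set (Fin n), indep W S ∧ ∀ p, Qp p → ∃ i, p i ∈ S)) ≤
      ((n : ℝ) + 1) ^ m * Real.exp (-(t * (r / 2 ^ m) ^ 2 / 2)) := by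
  have : NeZero n := ⟨hn.ne'⟩
  induction m generalizing r with
  | zero =>
    have h1 : E (fun W : Fin t → NL n =>
        ind (∃ S : Set (Fin n), indep W S ∧ ∀ p, Qp p → ∃ i, p i ∈ S)) ≤ 0 := by
      have h0 : ∀ W : Fin t → NL n,
          ind (∃ S : Set (Fin n), indep W S ∧ ∀ p, Qp p → ∃ i, p i ∈ S) = 0 := by
        intro W
        apply ind_false
        rintro ⟨S, _, hS⟩
        by_cases hq : ∃ p, Qp p
        · obtain ⟨p, hp⟩ := hq
          obtain ⟨i, _⟩ := hS p hp
          exact i.elim0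
        · push Not at hq
          have : E (fun p : Fin 0 → Fin n => ind (Qp p)) = 0 := by
            rw [E_congr (fun p => ind_false (hq p)), E_zero]
          linarith
      rw [E_congr h0, E_zero]
    exact h1.trans (by positivity)
  | succ m ih =>
    set f : Fin n → ℝ := fun x => E (fun p : Fin m → Fin n => ind (Qp (Fin.cons x p))) with hf
    have hEf : r ≤ E f := by
      rw [E_cons] at hQ
      exact hQ
    set R0 : Set (Fin n) := {x | r / 2 ≤ f x} with hR0
    have hmu : r / 2 ≤ mu R0 := by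
      have h3 : E f ≤ mu R0 + r / 2 := by
        have h4 : E f ≤ E (fun x => ind (x ∈ R0) + r / 2) := by
          apply E_mono
          intro x
          by_cases hx : x ∈ R0
          · rw [ind_true hx]
            have : f x ≤ 1 := E_le_const fun p => ind_le_one _
            linarith
          · rw [ind_false hx]
            rw [hR0, Set.mem_ofPred_eq] at hx
            linarith
        rw [E_add, E_const] at h4
        exact h4
      linarith
    have hp1 : (1 : ℝ) ≤ 2 ^ m := one_le_pow₀ (by norm_num)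
    have h5 : r / 2 ^ (m + 1) ≤ r / 2 := by
      apply div_le_div_of_nonneg_left hr.le (by norm_num)
      rw [pow_succ]
      linarith
    have hX : (r / 2) / 2 ^ m = r / 2 ^ (m + 1) := by
      rw [pow_succ, div_div, mul_comm]
    set X : ℝ := Real.exp (-(t * (r / 2 ^ (m + 1)) ^ 2 / 2)) with hXdef
    have hX0 : 0 < X := Real.exp_pos _
    have hA : E (fun W : Fin t → NL n => ind (indep W R0)) ≤ X := by
      refine (indep_le R0 (h2.trans (h5.trans hmu))).trans ?_
      rw [hXdef, Real.exp_le_exp]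
      have h6 : 0 ≤ r / 2 ^ (m + 1) := by positivity
      have h7 : (r / 2 ^ (m + 1)) ^ 2 ≤ mu R0 ^ 2 := by
        apply pow_le_pow_left₀ h6
        exact h5.trans hmu
      have h8 : (0 : ℝ) ≤ t := Nat.cast_nonneg _
      nlinarith [mul_le_mul_of_nonneg_left h7 h8]
    have hB : ∀ x : Fin n, E (fun W : Fin t → NL n => ind (x ∈ R0 ∧
        ∃ S : Set (Fin n), indep W S ∧ ∀ p, Qp (Fin.cons x p) → ∃ i, p i ∈ S)) ≤
        ((n : ℝ) + 1) ^ m * X := by
      intro x
      by_cases hx : x ∈ R0
      · have h9 := ih (fun p => Qp (Fin.cons x p)) (r / 2) (by linarith) (by rw [hX]; exact h2) hx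
        rw [hX] at h9
        refine le_trans (E_mono fun W => ind_mono fun h => h.2) h9
      · have : ∀ W : Fin t → NL n, ind (x ∈ R0 ∧
            ∃ S : Set (Fin n), indep W S ∧ ∀ p, Qp (Fin.cons x p) → ∃ i, p i ∈ S) = 0 :=
          fun W => ind_false fun h => hx h.1
        rw [E_congr this, E_zero]
        positivity
    have hC : ∀ W : Fin t → NL n,
        ind (∃ S : Set (Fin n), indep W S ∧ ∀ p, Qp p → ∃ i, p i ∈ S) ≤
        ind (indep W R0) + ∑ x : Fin n, ind (x ∈ R0 ∧
          ∃ S : Set (Fin n), indep W S ∧ ∀ p, Qp (Fin.cons x p) → ∃ i, p i ∈ S) := by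
      intro W
      have h10 : (∃ S : Set (Fin n), indep W S ∧ ∀ p, Qp p → ∃ i, p i ∈ S) →
          (indep W R0 ∨ ∃ x : Fin n, (x ∈ R0 ∧
          ∃ S : Set (Fin n), indep W S ∧ ∀ p, Qp (Fin.cons x p) → ∃ i, p i ∈ S)) := by
        rintro ⟨S, hS1, hS2⟩
        by_cases hsub : R0 ⊆ S
        · left
          exact indep_anti W hsub hS1
        · right
          rw [Set.not_subset] at hsub
          obtain ⟨x, hx1, hx2⟩ := hsub
          refine ⟨x, hx1, S, hS1, ?_⟩
          intro p hp
          obtain ⟨i, hi⟩ := hS2 _ hp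
          refine Fin.cases ?_ ?_ i hi
          · intro h; exact absurd h hx2
          · intro j h; exact ⟨j, by simpa using h⟩
      refine (ind_mono h10).trans ((ind_or_le _ _).trans ?_)
      exact add_le_add le_rfl (ind_exists_le _)
    calc E (fun W : Fin t → NL n =>
        ind (∃ S : Set (Fin n), indep W S ∧ ∀ p, Qp p → ∃ i, p i ∈ S))
        ≤ E (fun W : Fin t → NL n => ind (indep W R0) + ∑ x : Fin n, ind (x ∈ R0 ∧
          ∃ S : Set (Fin n), indep W S ∧ ∀ p, Qp (Fin.cons x p) → ∃ i, p i ∈ S)) := E_mono hC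
      _ = E (fun W : Fin t → NL n => ind (indep W R0)) +
          ∑ x : Fin n, E (fun W : Fin t → NL n => ind (x ∈ R0 ∧
            ∃ S : Set (Fin n), indep W S ∧ ∀ p, Qp (Fin.cons x p) → ∃ i, p i ∈ S)) := by
          rw [E_add, E_sum]
      _ ≤ X + ∑ _x : Fin n, ((n : ℝ) + 1) ^ m * X :=
          add_le_add hA (Finset.sum_le_sum fun x _ => hB x)
      _ = X + n * (((n : ℝ) + 1) ^ m * X) := by
          rw [Finset.sum_const, Finset.card_univ, Fintype.card_fin, nsmul_eq_mul]
      _ ≤ ((n : ℝ) + 1) ^ (m + 1) * X := by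
          have h11 : (1 : ℝ) ≤ ((n : ℝ) + 1) ^ m :=
            one_le_pow₀ (by linarith [(Nat.cast_nonneg n : (0 : ℝ) ≤ n)])
          rw [pow_succ]
          nlinarith [mul_le_mul_of_nonneg_right h11 hX0.le]

end Pool.Agent.H290R2.Col
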