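import Pool.Agent.H290R2.Col.Defs

/-! A7: extension of rich sequences (helper49) -/

set_option autoImplicit false

namespace Pool.Agent.H290R2.Col
open Finset Filter Pool.Agent.H999R2.KSat

theorem a7_sum_last {g : ℕ} (F : Fin (g + 1) → ℝ) :
    ∑ i ∈ univ.filter (fun i => i < Fin.last g), F i = ∑ i : Fin g, F i.castSucc := by
  rw [Finset.sum_filter, Fin.sum_univ_castSucc, if_neg (lt_irrefl _), add_zero]
  exact Finset.sum_congr rfl fun i _ => if_pos (Fin.castSucc_lt_last i)

theorem a7_sum_cast {g : ℕ} (F : Fin (g + 1) → ℝ) (j : Fin g) :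
    ∑ i ∈ univ.filter (fun i => i < j.castSucc), F i =
      ∑ i ∈ univ.filter (fun i => i < j), F i.castSucc := by
  rw [Finset.sum_filter, Finset.sum_filter, Fin.sum_univ_castSucc,
    if_neg (not_lt_of_gt (Fin.castSucc_lt_last j)), add_zero]
  refine Finset.sum_congr rfl fun i _ => ?_
  simp only [Fin.castSucc_lt_castSucc_iff]

theorem a7_ex_last {g : ℕ} (F : Fin (g + 1) → Prop) :
    (∃ i, i < Fin.last g ∧ F i) ↔ ∃ i : Fin g, F i.castSucc := by
  constructor
  · rintro ⟨i, hi, h⟩
    refine ⟨i.castPred (ne_of_lt hi), ?_⟩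
    rwa [Fin.castSucc_castPred]
  · rintro ⟨i, h⟩
    exact ⟨i.castSucc, Fin.castSucc_lt_last i, h⟩

theorem a7_ex_cast {g : ℕ} (F : Fin (g + 1) → Prop) (j : Fin g) :
    (∃ i, i < j.castSucc ∧ F i) ↔ ∃ i : Fin g, i < j ∧ F i.castSucc := by
  constructor
  · rintro ⟨i, hi, h⟩
    have hi' : i < Fin.last g := lt_trans hi (Fin.castSucc_lt_last j)
    refine ⟨i.castPred (ne_of_lt hi'), ?_, ?_⟩
    · rw [← Fin.castSucc_lt_castSucc_iff, Fin.castSucc_castPred]
      exact hi
    · rwa [Fin.castSucc_castPred]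
  · rintro ⟨i, hi, h⟩
    exact ⟨i.castSucc, Fin.castSucc_lt_castSucc_iff.2 hi, h⟩

/-- Markov -/
theorem a7_markov {α : Type} [Fintype α] {f : α → ℝ} (hf : ∀ x, 0 ≤ f x) {a nu Λ : ℝ}
    (ha : 0 < a) (hnu : 0 < nu) (hΛ : 0 ≤ Λ) (hE : E f ≤ nu * Λ) :
    E (fun x => ind (¬ f x ≤ a * Λ)) ≤ nu / a := by
  rcases hΛ.eq_or_lt with h0 | h0
  · subst h0
    rw [mul_zero] at hE
    have h1 : ∀ x, f x = 0 := by
      intro x
      by_contra hx
      have hx' : 0 < f x := lt_of_le_of_ne (hf x) (Ne.symm hx)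
      have h2 : 0 < ∑ y, f y := lt_of_lt_of_le hx'
        (Finset.single_le_sum (f := f) (fun y _ => hf y) (Finset.mem_univ x))
      have h3 : 0 < E f := by
        unfold E
        have : (0 : ℝ) < Fintype.card α := by
          exact_mod_cast Fintype.card_pos_iff.2 ⟨x⟩
        positivity
      linarith
    have h2 : E (fun x => ind (¬ f x ≤ a * 0)) ≤ 0 := by
      calc E (fun x => ind (¬ f x ≤ a * 0)) = E (fun _ : α => (0 : ℝ)) := by
            refine E_congr fun x => ?_
            rw [ind_false]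
            rw [h1 x, mul_zero]
            simp
        _ = 0 := E_zero
        _ ≤ 0 := le_rfl
    exact h2.trans (by positivity)
  · have h1 : a * Λ * E (fun x => ind (¬ f x ≤ a * Λ)) ≤ E f := by
      rw [← E_mul_left]
      refine E_mono fun x => ?_
      by_cases hx : f x ≤ a * Λ
      · rw [ind_false (not_not.2 hx), mul_zero]
        exact hf x
      · rw [ind_true hx, mul_one]
        exact (not_le.1 hx).le
    rw [le_div_iff₀ ha]
    have h2 : (E (fun x => ind (¬ f x ≤ a * Λ)) * a) * Λ ≤ nu * Λ := by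
      calc _ = a * Λ * E (fun x => ind (¬ f x ≤ a * Λ)) := by ring
        _ ≤ nu * Λ := h1.trans hE
    exact le_of_mul_le_mul_right h2 h0

/-- Markov, simple form -/
theorem a7_markov' {α : Type} [Fintype α] {f : α → ℝ} (hf : ∀ x, 0 ≤ f x) {M c : ℝ}
    (hM : 0 < M) (hE : E f ≤ c * M) :
    E (fun x => ind (¬ f x ≤ M)) ≤ c := by
  have h1 : M * E (fun x => ind (¬ f x ≤ M)) ≤ E f := by
    rw [← E_mul_left]
    refine E_mono fun x => ?_
    by_cases hx : f x ≤ M
    · rw [ind_false (not_not.2 hx), mul_zero]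
      exact hf x
    · rw [ind_true hx, mul_one]
      exact (not_le.1 hx).le
  have h2 : (E (fun x => ind (¬ f x ≤ M))) * M ≤ c * M := by
    calc _ = M * E (fun x => ind (¬ f x ≤ M)) := by ring
      _ ≤ c * M := h1.trans hE
  exact le_of_mul_le_mul_right h2 hM

theorem rich_ext {n m g q : ℕ} (T : (Fin m → Fin n) → Fin n → Fin n → Prop) (b nu lam ta : ℝ)
    (hT : TH T b nu lam ta) (hn : 0 < n) (hb : 0 < b) (hnu : 0 < nu) (hlam : 0 < lam)
    (hta : 0 < ta) (hg : g ≤ q) (n1 : 32 * b * q * lam ^ 2 ≤ ta ^ 2)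
    (P : Fin g → (Fin m → Fin n)) (hP : rich T (ta / 2) (8 * nu * lam / ta) P) :
    ta / (8 * lam) ≤ E (fun p : Fin m → Fin n =>
      ind (rich T (ta / 2) (8 * nu * lam / ta) (Fin.snoc P p : Fin (g + 1) → (Fin m → Fin n)))) := by
  have hne : Nonempty (Fin n) := ⟨⟨0, hn⟩⟩
  have hlk0 : ∀ p, 0 ≤ lk T p := fun p => E_nonneg fun v => E_nonneg fun f => ind_nonneg _
  have hd1 : ∀ p v, 0 ≤ dg1 T p v := fun p v => E_nonneg fun f => ind_nonneg _
  have hd2 : ∀ p f, 0 ≤ dg2 T p f := fun p f => E_nonneg fun v => ind_nonneg _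
  set Λ : ℝ := ∑ i, lk T (P i) with hΛ
  have hΛ0 : 0 ≤ Λ := Finset.sum_nonneg fun i _ => hlk0 _
  have hΛle : Λ ≤ q * lam := by
    calc Λ ≤ ∑ _i : Fin g, lam := Finset.sum_le_sum fun i _ => hT.hvf _
      _ = g * lam := by simp
      _ ≤ q * lam := by
        have : (g : ℝ) ≤ q := by exact_mod_cast hg
        exact mul_le_mul_of_nonneg_right this hlam.le
  -- (1) many links
  have hQ : ta / (2 * lam) ≤ E (fun p : Fin m → Fin n => ind (ta / 2 ≤ lk T p)) := by
    have h1 : E (fun p : Fin m → Fin n => lk T p) ≤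
        E (fun p : Fin m → Fin n => lam * ind (ta / 2 ≤ lk T p) + ta / 2) := by
      refine E_mono fun p => ?_
      by_cases hp : ta / 2 ≤ lk T p
      · rw [ind_true hp, mul_one]
        have := hT.hvf p
        linarith
      · rw [ind_false hp, mul_zero, zero_add]
        exact (not_le.1 hp).le
    rw [E_add, E_mul_left, E_const] at h1
    have h2 := hT.ht
    rw [div_le_iff₀ (by positivity)]
    nlinarith
  -- (2) small overlap
  have hA : E (fun p : Fin m → Fin n => ind (¬ E (fun v : Fin n => E (fun f : Fin n =>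
      ind (T p v f ∧ ∃ i, T (P i) v f))) ≤ ta / 2 / 2)) ≤ ta / (8 * lam) := by
    refine a7_markov' (fun p => E_nonneg fun v => E_nonneg fun f => ind_nonneg _) (by positivity) ?_
    have h1 : E (fun p : Fin m → Fin n => E (fun v : Fin n => E (fun f : Fin n =>
        ind (T p v f ∧ ∃ i, T (P i) v f)))) ≤ b * Λ := by
      calc E (fun p : Fin m → Fin n => E (fun v : Fin n => E (fun f : Fin n =>
            ind (T p v f ∧ ∃ i, T (P i) v f))))
          = E (fun v : Fin n => E (fun f : Fin n => E (fun p : Fin m → Fin n =>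
            ind (T p v f ∧ ∃ i, T (P i) v f)))) := by
              rw [E_comm]
              exact E_congr fun v => E_comm _
        _ ≤ E (fun v : Fin n => E (fun f : Fin n => b * ∑ i, ind (T (P i) v f))) := by
            refine E_mono fun v => E_mono fun f => ?_
            have e1 : ∀ p : Fin m → Fin n, ind (T p v f ∧ ∃ i, T (P i) v f) =
                ind (T p v f) * ind (∃ i, T (P i) v f) := fun p => ind_and _ _
            rw [E_congr e1, E_mul_right]
            exact mul_le_mul (hT.hp v f) (ind_exists_le _) (ind_nonneg _) hb.le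
        _ = b * Λ := by
            have e2 : ∀ v : Fin n, E (fun f : Fin n => b * ∑ i, ind (T (P i) v f)) =
                b * ∑ i, E (fun f : Fin n => ind (T (P i) v f)) := by
              intro v
              rw [E_mul_left, E_sum]
            rw [E_congr e2, E_mul_left, E_sum]
            rfl
    refine h1.trans ?_
    have h2 : b * Λ ≤ b * (q * lam) := mul_le_mul_of_nonneg_left hΛle hb.le
    refine h2.trans ?_
    rw [div_mul_eq_mul_div, le_div_iff₀ (by positivity)]
    nlinarith
  have ha0 : 0 < 8 * nu * lam / ta := by positivity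
  have hnua : nu / (8 * nu * lam / ta) = ta / (8 * lam) := by
    field_simp
  -- (3) small correlation of the first degrees
  have hB : E (fun p : Fin m → Fin n => ind (¬ E (fun v : Fin n =>
      dg1 T p v * ∑ i, dg1 T (P i) v) ≤ (8 * nu * lam / ta) * Λ)) ≤ ta / (8 * lam) := by
    rw [← hnua]
    refine a7_markov (fun p => E_nonneg fun v => mul_nonneg (hd1 _ _)
      (Finset.sum_nonneg fun i _ => hd1 _ _)) ha0 hnu hΛ0 ?_
    calc E (fun p : Fin m → Fin n => E (fun v : Fin n => dg1 T p v * ∑ i, dg1 T (P i) v))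
        = E (fun v : Fin n => E (fun p : Fin m → Fin n => dg1 T p v) * ∑ i, dg1 T (P i) v) := by
          rw [E_comm]
          exact E_congr fun v => E_mul_right _ _
      _ ≤ E (fun v : Fin n => nu * ∑ i, dg1 T (P i) v) := by
          refine E_mono fun v => mul_le_mul_of_nonneg_right (hT.hv v)
            (Finset.sum_nonneg fun i _ => hd1 _ _)
      _ = nu * Λ := by
          rw [E_mul_left, E_sum]
          rfl
  -- (4) small correlation of the second degrees
  have hC : E (fun p : Fin m → Fin n => ind (¬ E (fun f : Fin n =>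
      dg2 T p f * ∑ i, dg2 T (P i) f) ≤ (8 * nu * lam / ta) * Λ)) ≤ ta / (8 * lam) := by
    rw [← hnua]
    refine a7_markov (fun p => E_nonneg fun v => mul_nonneg (hd2 _ _)
      (Finset.sum_nonneg fun i _ => hd2 _ _)) ha0 hnu hΛ0 ?_
    calc E (fun p : Fin m → Fin n => E (fun f : Fin n => dg2 T p f * ∑ i, dg2 T (P i) f))
        = E (fun f : Fin n => E (fun p : Fin m → Fin n => dg2 T p f) * ∑ i, dg2 T (P i) f) := by
          rw [E_comm]
          exact E_congr fun v => E_mul_right _ _
      _ ≤ E (fun f : Fin n => nu * ∑ i, dg2 T (P i) f) := by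
          refine E_mono fun v => mul_le_mul_of_nonneg_right (hT.hf v)
            (Finset.sum_nonneg fun i _ => hd2 _ _)
      _ = nu * Λ := by
          rw [E_mul_left, E_sum, hΛ]
          congr 1
          refine Finset.sum_congr rfl fun i _ => ?_
          show E (fun f : Fin n => E (fun v : Fin n => ind (T (P i) v f))) = lk T (P i)
          unfold lk
          exact E_comm _
  -- combination
  have hpt : ∀ p : Fin m → Fin n,
      ind (ta / 2 ≤ lk T p) - ind (¬ E (fun v : Fin n => E (fun f : Fin n =>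
        ind (T p v f ∧ ∃ i, T (P i) v f))) ≤ ta / 2 / 2) -
        ind (¬ E (fun v : Fin n => dg1 T p v * ∑ i, dg1 T (P i) v) ≤ (8 * nu * lam / ta) * Λ) -
        ind (¬ E (fun f : Fin n => dg2 T p f * ∑ i, dg2 T (P i) f) ≤ (8 * nu * lam / ta) * Λ) ≤
      ind (rich T (ta / 2) (8 * nu * lam / ta)
        (Fin.snoc P p : Fin (g + 1) → (Fin m → Fin n))) := by
    intro p
    by_cases h1 : ta / 2 ≤ lk T p
    swap
    · rw [ind_false h1]
      have := ind_nonneg (¬ E (fun v : Fin n => E (fun f : Fin n =>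
        ind (T p v f ∧ ∃ i, T (P i) v f))) ≤ ta / 2 / 2)
      have := ind_nonneg (¬ E (fun v : Fin n => dg1 T p v * ∑ i, dg1 T (P i) v) ≤
        (8 * nu * lam / ta) * Λ)
      have := ind_nonneg (¬ E (fun f : Fin n => dg2 T p f * ∑ i, dg2 T (P i) f) ≤
        (8 * nu * lam / ta) * Λ)
      have := ind_nonneg (rich T (ta / 2) (8 * nu * lam / ta)
        (Fin.snoc P p : Fin (g + 1) → (Fin m → Fin n)))
      linarith
    by_cases h2 : E (fun v : Fin n => E (fun f : Fin n =>
        ind (T p v f ∧ ∃ i, T (P i) v f))) ≤ ta / 2 / 2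
    swap
    · rw [ind_true h1, ind_true h2]
      have := ind_nonneg (¬ E (fun v : Fin n => dg1 T p v * ∑ i, dg1 T (P i) v) ≤
        (8 * nu * lam / ta) * Λ)
      have := ind_nonneg (¬ E (fun f : Fin n => dg2 T p f * ∑ i, dg2 T (P i) f) ≤
        (8 * nu * lam / ta) * Λ)
      have := ind_nonneg (rich T (ta / 2) (8 * nu * lam / ta)
        (Fin.snoc P p : Fin (g + 1) → (Fin m → Fin n)))
      linarith
    by_cases h3 : E (fun v : Fin n => dg1 T p v * ∑ i, dg1 T (P i) v) ≤ (8 * nu * lam / ta) * Λ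
    swap
    · rw [ind_true h1, ind_true h3]
      have := ind_nonneg (¬ E (fun v : Fin n => E (fun f : Fin n =>
        ind (T p v f ∧ ∃ i, T (P i) v f))) ≤ ta / 2 / 2)
      have := ind_nonneg (¬ E (fun f : Fin n => dg2 T p f * ∑ i, dg2 T (P i) f) ≤
        (8 * nu * lam / ta) * Λ)
      have := ind_nonneg (rich T (ta / 2) (8 * nu * lam / ta)
        (Fin.snoc P p : Fin (g + 1) → (Fin m → Fin n)))
      linarith
    by_cases h4 : E (fun f : Fin n => dg2 T p f * ∑ i, dg2 T (P i) f) ≤ (8 * nu * lam / ta) * Λ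
    swap
    · rw [ind_true h1, ind_true h4]
      have := ind_nonneg (¬ E (fun v : Fin n => E (fun f : Fin n =>
        ind (T p v f ∧ ∃ i, T (P i) v f))) ≤ ta / 2 / 2)
      have := ind_nonneg (¬ E (fun v : Fin n => dg1 T p v * ∑ i, dg1 T (P i) v) ≤
        (8 * nu * lam / ta) * Λ)
      have := ind_nonneg (rich T (ta / 2) (8 * nu * lam / ta)
        (Fin.snoc P p : Fin (g + 1) → (Fin m → Fin n)))
      linarith
    rw [ind_true (P := rich T (ta / 2) (8 * nu * lam / ta)
        (Fin.snoc P p : Fin (g + 1) → (Fin m → Fin n)))]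
    · have := ind_le_one (ta / 2 ≤ lk T p)
      have := ind_nonneg (¬ E (fun v : Fin n => E (fun f : Fin n =>
        ind (T p v f ∧ ∃ i, T (P i) v f))) ≤ ta / 2 / 2)
      have := ind_nonneg (¬ E (fun v : Fin n => dg1 T p v * ∑ i, dg1 T (P i) v) ≤
        (8 * nu * lam / ta) * Λ)
      have := ind_nonneg (¬ E (fun f : Fin n => dg2 T p f * ∑ i, dg2 T (P i) f) ≤
        (8 * nu * lam / ta) * Λ)
      linarith
    · intro j
      rcases Fin.eq_castSucc_or_eq_last j with ⟨j', rfl⟩ | rfl
      · -- old index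
        have := hP j'
        simp only [a7_ex_cast, a7_sum_cast, Fin.snoc_castSucc]
        exact this
      · simp only [a7_ex_last, a7_sum_last, Fin.snoc_castSucc, Fin.snoc_last]
        exact ⟨h1, h2, h3, h4⟩
  have hfin := E_mono hpt
  rw [E_sub, E_sub, E_sub] at hfin
  have hfinal : ta / (8 * lam) = ta / (2 * lam) - 3 * (ta / (8 * lam)) := by
    field_simp
    ring
  linarith

end Pool.Agent.H290R2.Col
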