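import Pool.Agent.H290R2.Col.Defs

/-! Task A8: trimming the union of the links of a rich sequence -/

set_option autoImplicit false

namespace Pool.Agent.H290R2.Col
open Finset Filter Pool.Agent.H999R2.KSat

theorem a8_pt {q : ℕ} (X : Fin q → Prop) :
    ∑ j, (ind (X j) - ind (X j ∧ ∃ i, i < j ∧ X i)) ≤ ind (∃ i, X i) := by
  have hterm : ∀ j, ind (X j) - ind (X j ∧ ∃ i, i < j ∧ X i) =
      ind (X j ∧ ¬ ∃ i, i < j ∧ X i) := by
    intro j
    rw [ind_and, ind_and, ind_not]; ring
  rw [Finset.sum_congr rfl (fun j _ => hterm j)]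
  by_cases h : ∃ j, X j ∧ ¬ ∃ i, i < j ∧ X i
  · obtain ⟨j0, h1, h2⟩ := h
    rw [Finset.sum_eq_single j0]
    · exact ind_mono fun _ => ⟨j0, h1⟩
    · intro j _ hj
      apply ind_false
      rintro ⟨h3, h4⟩
      rcases lt_trichotomy j j0 with h5 | h5 | h5
      · exact h2 ⟨j, h5, h3⟩
      · exact hj h5
      · exact h4 ⟨j0, h5, h1⟩
    · intro h'; exact absurd (Finset.mem_univ _) h'
  · rw [Finset.sum_eq_zero]
    · exact ind_nonneg _
    · intro j _
      apply ind_false
      intro h'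
      exact h ⟨j, h'⟩

theorem a8_sq {q : ℕ} (x : Fin q → ℝ) :
    (∑ j, x j) ^ 2 = ∑ j, x j ^ 2 +
      2 * ∑ j, x j * ∑ i ∈ univ.filter (fun i => i < j), x i := by
  have h1 : (∑ j, x j) ^ 2 = ∑ j, ∑ i, x j * x i := by
    rw [sq, Finset.sum_mul_sum]
  have h2 : ∀ j : Fin q, ∑ i, x j * x i =
      x j ^ 2 + ∑ i ∈ univ.filter (fun i => i < j), x j * x i +
        ∑ i ∈ univ.filter (fun i => j < i), x j * x i := by
    intro j
    have : (univ : Finset (Fin q)) = insert j ((univ.filter (fun i => i < j)) ∪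
        (univ.filter (fun i => j < i))) := by
      ext i
      simp only [mem_univ, mem_insert, mem_union, mem_filter, true_and, true_iff]
      rcases lt_trichotomy i j with h | h | h
      · right; left; exact h
      · left; exact h
      · right; right; exact h
    conv_lhs => rw [this]
    rw [Finset.sum_insert, Finset.sum_union]
    · ring
    · rw [Finset.disjoint_left]
      intro i hi hi'
      simp only [mem_filter, mem_univ, true_and] at hi hi'
      exact lt_asymm hi hi'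
    · simp
  have h3 : ∑ j : Fin q, ∑ i ∈ univ.filter (fun i => j < i), x j * x i =
      ∑ j : Fin q, ∑ i ∈ univ.filter (fun i => i < j), x j * x i := by
    rw [Finset.sum_comm' (t' := univ) (s' := fun j => univ.filter (fun i => i < j))]
    · refine Finset.sum_congr rfl fun j _ => Finset.sum_congr rfl fun i _ => mul_comm _ _
    · intro i j
      simp
  rw [h1, Finset.sum_congr rfl (fun j _ => h2 j), Finset.sum_add_distrib, Finset.sum_add_distrib,
    h3]
  simp_rw [Finset.mul_sum]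
  simp_rw [two_mul, Finset.sum_add_distrib]
  ring

/-- second moment of the sum of degrees -/
theorem a8_mom {n q : ℕ} (b a : ℝ) (hb : 0 < b) (ha : 0 ≤ a) (haq : 2 * a * q ≤ b)
    (d : Fin q → Fin n → ℝ) (h0 : ∀ j v, 0 ≤ d j v) (h1 : ∀ j v, d j v ≤ b)
    (h : ∀ j, E (fun v : Fin n => d j v * ∑ i ∈ univ.filter (fun i => i < j), d i v) ≤
      a * ∑ i ∈ univ.filter (fun i => i < j), E (d i)) :
    E (fun v : Fin n => ind (¬ ∑ j, d j v ≤ 16 * b) * ∑ j, d j v) ≤ (∑ j, E (d j)) / 8 := by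
  set Λ := ∑ j, E (d j) with hΛ
  have hΛ0 : 0 ≤ Λ := Finset.sum_nonneg fun j _ => E_nonneg (h0 j)
  have hsq : E (fun v : Fin n => (∑ j, d j v) ^ 2) ≤ 2 * b * Λ := by
    rw [E_congr (fun v => a8_sq (fun j => d j v)), E_add, E_sum, E_mul_left, E_sum]
    have hA : ∑ j, E (fun v : Fin n => d j v ^ 2) ≤ b * Λ := by
      rw [hΛ, Finset.mul_sum]
      refine Finset.sum_le_sum fun j _ => ?_
      rw [← E_mul_left]
      refine E_mono fun v => ?_
      rw [sq]
      exact mul_le_mul_of_nonneg_right (h1 j v) (h0 j v)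
    have hB : ∑ j, E (fun v : Fin n => d j v * ∑ i ∈ univ.filter (fun i => i < j), d i v) ≤
        a * q * Λ := by
      calc _ ≤ ∑ j : Fin q, a * Λ := by
            refine Finset.sum_le_sum fun j _ => (h j).trans ?_
            refine mul_le_mul_of_nonneg_left ?_ ha
            exact Finset.sum_le_sum_of_subset_of_nonneg (Finset.filter_subset _ _)
              fun i _ _ => E_nonneg (h0 i)
        _ = a * q * Λ := by
            rw [Finset.sum_const, Finset.card_univ, Fintype.card_fin, nsmul_eq_mul]; ring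
    nlinarith [mul_le_mul_of_nonneg_right haq hΛ0]
  have hpt : ∀ v : Fin n, ind (¬ ∑ j, d j v ≤ 16 * b) * ∑ j, d j v ≤
      1 / (16 * b) * (∑ j, d j v) ^ 2 := by
    intro v
    by_cases hv : ∑ j, d j v ≤ 16 * b
    · rw [ind_false (not_not.mpr hv), zero_mul]; positivity
    · rw [ind_true hv, one_mul]
      push Not at hv
      have h5 : 0 ≤ ∑ j, d j v := Finset.sum_nonneg fun j _ => h0 j v
      rw [one_div, inv_mul_eq_div, le_div_iff₀ (by positivity), sq]
      exact mul_le_mul_of_nonneg_left hv.le h5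
  calc _ ≤ E (fun v : Fin n => 1 / (16 * b) * (∑ j, d j v) ^ 2) := E_mono hpt
    _ = 1 / (16 * b) * E (fun v : Fin n => (∑ j, d j v) ^ 2) := E_mul_left _ _
    _ ≤ 1 / (16 * b) * (2 * b * Λ) := mul_le_mul_of_nonneg_left hsq (by positivity)
    _ = Λ / 8 := by field_simp; ring

theorem rich_trim {n m q : ℕ} (T : (Fin m → Fin n) → Fin n → Fin n → Prop) (b l a : ℝ)
    (hn : 0 < n) (hb : 0 < b) (hl : 0 < l) (ha : 0 ≤ a) (haq : 2 * a * q ≤ b)
    (h1 : ∀ p v, dg1 T p v ≤ b) (h2 : ∀ p f, dg2 T p f ≤ b)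
    (P : Fin q → (Fin m → Fin n)) (hP : rich T l a P) :
    ∃ L : Fin n → Fin n → Prop, (∀ v f, L v f → ∃ i, T (P i) v f) ∧
      q * l / 4 ≤ E (fun v : Fin n => E (fun f : Fin n => ind (L v f))) ∧
      (∀ v, E (fun f : Fin n => ind (L v f)) ≤ 16 * b) ∧
      (∀ f, E (fun v : Fin n => ind (L v f)) ≤ 16 * b) := by
  have d1nn : ∀ p v, 0 ≤ dg1 T p v := fun p v => E_nonneg fun f => ind_nonneg _
  have d2nn : ∀ p f, 0 ≤ dg2 T p f := fun p v => E_nonneg fun f => ind_nonneg _
  have e1 : ∀ p, E (dg1 T p) = lk T p := fun p => rfl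
  have e2 : ∀ p, E (dg2 T p) = lk T p := fun p => by
    unfold lk dg2
    exact (E_comm _).symm
  set Λ := ∑ j, lk T (P j) with hΛ
  set S1 : Fin n → ℝ := fun v => ∑ j, dg1 T (P j) v with hS1
  set S2 : Fin n → ℝ := fun f => ∑ j, dg2 T (P j) f with hS2
  have hΛl : q * l ≤ Λ := by
    calc (q : ℝ) * l = ∑ j : Fin q, l := by
          rw [Finset.sum_const, Finset.card_univ, Fintype.card_fin, nsmul_eq_mul]
      _ ≤ Λ := Finset.sum_le_sum fun j _ => (hP j).1
  -- union
  have hU : Λ / 2 ≤ E (fun v : Fin n => E (fun f : Fin n => ind (∃ i, T (P i) v f))) := by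
    have h3 : ∀ v f, ∑ j, (ind (T (P j) v f) - ind (T (P j) v f ∧ ∃ i, i < j ∧ T (P i) v f)) ≤
        ind (∃ i, T (P i) v f) := fun v f => a8_pt (fun i => T (P i) v f)
    refine le_trans ?_ (E_mono fun v => E_mono fun f => h3 v f)
    have h4 : E (fun v : Fin n => E (fun f : Fin n =>
        ∑ j, (ind (T (P j) v f) - ind (T (P j) v f ∧ ∃ i, i < j ∧ T (P i) v f)))) =
        ∑ j, (lk T (P j) - E (fun v : Fin n => E (fun f : Fin n =>
          ind (T (P j) v f ∧ ∃ i, i < j ∧ T (P i) v f)))) := by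
      simp_rw [E_sum]
      refine Finset.sum_congr rfl fun j _ => ?_
      simp_rw [E_sub]
      rfl
    rw [h4, hΛ, Finset.sum_div]
    refine Finset.sum_le_sum fun j _ => ?_
    have h5 := (hP j).1
    have h6 := (hP j).2.1
    linarith
  -- moments
  have hM1 : E (fun v : Fin n => ind (¬ S1 v ≤ 16 * b) * S1 v) ≤ Λ / 8 := by
    have := a8_mom b a hb ha haq (fun j v => dg1 T (P j) v) (fun j v => d1nn _ _)
      (fun j v => h1 _ _) (fun j => (hP j).2.2.1)
    exact this
  have hM2 : E (fun f : Fin n => ind (¬ S2 f ≤ 16 * b) * S2 f) ≤ Λ / 8 := by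
    have h7 := a8_mom b a hb ha haq (fun j v => dg2 T (P j) v) (fun j v => d2nn _ _)
      (fun j v => h2 _ _) (fun j => by
        have h8 := (hP j).2.2.2
        refine h8.trans (le_of_eq ?_)
        congr 1
        exact Finset.sum_congr rfl fun i _ => (e2 _).symm)
    have h9 : ∑ j, E (fun v => dg2 T (P j) v) = Λ := Finset.sum_congr rfl fun j _ => e2 _
    rw [h9] at h7
    exact h7
  have hsum1 : ∀ v, E (fun f : Fin n => ind (∃ i, T (P i) v f)) ≤ S1 v := by
    intro v
    calc _ ≤ E (fun f : Fin n => ∑ i, ind (T (P i) v f)) := E_mono fun f => ind_exists_le _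
      _ = S1 v := by rw [E_sum]; rfl
  have hsum2 : ∀ f, E (fun v : Fin n => ind (∃ i, T (P i) v f)) ≤ S2 f := by
    intro f
    calc _ ≤ E (fun v : Fin n => ∑ i, ind (T (P i) v f)) := E_mono fun v => ind_exists_le _
      _ = S2 f := by rw [E_sum]; rfl
  refine ⟨fun v f => (∃ i, T (P i) v f) ∧ S1 v ≤ 16 * b ∧ S2 f ≤ 16 * b, fun v f h => h.1, ?_,
    ?_, ?_⟩
  · -- density
    have hpt : ∀ v f, ind (∃ i, T (P i) v f) - ind (¬ S1 v ≤ 16 * b) * ind (∃ i, T (P i) v f) -
        ind (¬ S2 f ≤ 16 * b) * ind (∃ i, T (P i) v f) ≤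
        ind ((∃ i, T (P i) v f) ∧ S1 v ≤ 16 * b ∧ S2 f ≤ 16 * b) := by
      intro v f
      by_cases c1 : ∃ i, T (P i) v f <;> by_cases c2 : S1 v ≤ 16 * b <;>
        by_cases c3 : S2 f ≤ 16 * b <;> simp [ind, c1, c2, c3]
    refine le_trans ?_ (E_mono fun v => E_mono fun f => hpt v f)
    simp_rw [E_sub]
    have h10 : E (fun v : Fin n => E (fun f : Fin n =>
        ind (¬ S1 v ≤ 16 * b) * ind (∃ i, T (P i) v f))) ≤ Λ / 8 := by
      refine le_trans (E_mono fun v => ?_) hM1
      rw [E_mul_left]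
      exact mul_le_mul_of_nonneg_left (hsum1 v) (ind_nonneg _)
    have h11 : E (fun v : Fin n => E (fun f : Fin n =>
        ind (¬ S2 f ≤ 16 * b) * ind (∃ i, T (P i) v f))) ≤ Λ / 8 := by
      rw [E_comm]
      refine le_trans (E_mono fun f => ?_) hM2
      rw [E_mul_left]
      exact mul_le_mul_of_nonneg_left (hsum2 f) (ind_nonneg _)
    linarith
  · intro v
    by_cases c : S1 v ≤ 16 * b
    · refine le_trans (E_mono fun f => ind_mono fun h => h.1) ((hsum1 v).trans c)
    · refine E_le_of_nonneg (by positivity) fun f => ?_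
      rw [ind_false (fun h => c h.2.1)]
      positivity
  · intro f
    by_cases c : S2 f ≤ 16 * b
    · refine le_trans (E_mono fun v => ind_mono fun h => h.1) ((hsum2 f).trans c)
    · refine E_le_of_nonneg (by positivity) fun v => ?_
      rw [ind_false (fun h => c h.2.2)]
      positivity

end Pool.Agent.H290R2.Col
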