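import Pool.Agent.H290R2.Col.A5
import Pool.Agent.H290R2.Col.A6
import Pool.Agent.H290R2.Col.A7
import Pool.Agent.H290R2.Col.A8

/-! Task A9: no independent hitting set (assembly). Proof by helper818. -/

set_option autoImplicit false

namespace Pool.Agent.H290R2.Col
open Finset Filter Pool.Agent.H999R2.KSat

theorem a9_indep_append {n s t : ℕ} (W1 : Fin s → NL n) (W2 : Fin t → NL n) (S : Set (Fin n))
    (h : indep (Fin.append W1 W2) S) : indep W1 S ∧ indep W2 S := by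
  refine ⟨fun j => ?_, fun j => ?_⟩
  · have := h (Fin.castAdd t j)
    rwa [Fin.append_left] at this
  · have := h (Fin.natAdd s j)
    rwa [Fin.append_right] at this

/-- a rich sequence whose links are covered by an independent set -/
def a9_E1 {n t m : ℕ} (q : ℕ) (T : (Fin m → Fin n) → Fin n → Fin n → Prop) (l a : ℝ)
    (P : Fin q → (Fin m → Fin n)) (W : Fin t → NL n) : Prop :=
  rich T l a P ∧ ∃ S : Set (Fin n), indep W S ∧ ∀ v f, (∃ i, T (P i) v f) → v ∈ S ∨ f ∈ S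

/-- a rich sequence all of whose extensions meet an independent set -/
def a9_E2 {n t m : ℕ} (g : ℕ) (T : (Fin m → Fin n) → Fin n → Fin n → Prop) (l a : ℝ)
    (P : Fin g → (Fin m → Fin n)) (W : Fin t → NL n) : Prop :=
  rich T l a P ∧ ∃ S : Set (Fin n), indep W S ∧
    ∀ p, rich T l a (Fin.snoc P p : Fin (g + 1) → (Fin m → Fin n)) → ∃ i, p i ∈ S

theorem a9_det {n t m q : ℕ} (T : (Fin m → Fin n) → Fin n → Fin n → Prop) (l a : ℝ)
    (W1 W2 : Fin t → NL n) (S : Set (Fin n)) (h1 : indep W1 S) (h2 : indep W2 S)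
    (hS : ∀ p v f, T p v f → (∃ i, p i ∈ S) ∨ v ∈ S ∨ f ∈ S) :
    (∃ P, a9_E1 q T l a P W1) ∨ ∃ g : Fin q, ∃ P, a9_E2 g.val T l a P W2 := by
  by_contra hcon
  push Not at hcon
  obtain ⟨hn1, hn2⟩ := hcon
  have key : ∀ g : ℕ, g ≤ q → ∃ P : Fin g → (Fin m → Fin n), rich T l a P ∧
      ∀ j i, P j i ∉ S := by
    intro g
    induction g with
    | zero => exact fun _ => ⟨fun j => j.elim0, fun j => j.elim0, fun j => j.elim0⟩
    | succ g ih =>
      intro hg
      obtain ⟨P, hP, hPS⟩ := ih (by omega)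
      have := hn2 ⟨g, by omega⟩ P
      unfold a9_E2 at this
      push Not at this
      obtain ⟨p, hp, hpS⟩ := this hP S h2
      refine ⟨Fin.snoc P p, hp, fun j => ?_⟩
      refine Fin.lastCases ?_ (fun j => ?_) j
      · intro i; rw [Fin.snoc_last]; exact hpS i
      · intro i; rw [Fin.snoc_castSucc]; exact hPS j i
  obtain ⟨P, hP, hPS⟩ := key q le_rfl
  refine hn1 P ⟨hP, S, h1, ?_⟩
  rintro v f ⟨i, hi⟩
  rcases hS (P i) v f hi with ⟨j, hj⟩ | h
  · exact absurd hj (hPS i j)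
  · exact h

theorem a9_kwb_nonneg (n t : ℕ) (lam Dl : ℝ) : 0 ≤ kwb n t lam Dl := by
  unfold kwb; positivity

theorem a9_P1 {n t m q : ℕ} (T : (Fin m → Fin n) → Fin n → Fin n → Prop) (b nu lam ta : ℝ)
    (hT : TH T b nu lam ta) (hn : 2 ≤ n) (hq : 1 ≤ q) (hb : 0 < b) (hb1 : 16 * b ≤ 1)
    (hnu : 0 < nu) (hlam : 0 < lam) (hta : 0 < ta)
    (n2 : 16 * nu * lam * q ≤ b * ta)
    (n3 : 128 * Lg n * Real.log n ≤ (q * ta / 8) * t)
    (n4 : 2 / (n : ℝ) ≤ (q * ta / 8) / (32 * Lg n * (16 * b)))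
    (n5 : 2 ≤ (q * ta / 8) * n) (P : Fin q → (Fin m → Fin n)) :
    E (fun W : Fin t → NL n => ind (a9_E1 q T (ta / 2) (8 * nu * lam / ta) P W)) ≤
      kwb n t (q * ta / 8) (16 * b) := by
  by_cases hP : rich T (ta / 2) (8 * nu * lam / ta) P
  · have hq0 : (0 : ℝ) < q := by exact_mod_cast hq
    obtain ⟨L, hL1, hL2, hL3, hL4⟩ := rich_trim T b (ta / 2) (8 * nu * lam / ta) (by omega) hb
      (by positivity) (by positivity)
      (by
        have : 2 * (8 * nu * lam / ta) * q = (16 * nu * lam * q) / ta := by ring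
        rw [this, div_le_iff₀ hta]; exact n2) hT.h1 hT.h2 P hP
    have h := KWP (n := n) (t := t) L (q * ta / 8) (16 * b) hn (by positivity) (by positivity)
      hb1 (by
        have : (q : ℝ) * ta / 8 = q * (ta / 2) / 4 := by ring
        rw [this]; exact hL2) hL3 hL4 n3 n4 n5
    refine le_trans (E_mono fun W => ind_mono ?_) h
    rintro ⟨_, S, hS, hS'⟩
    exact ⟨S, hS, fun v f hvf => hS' v f (hL1 v f hvf)⟩
  · refine le_trans (E_le_of_nonneg (c := 0) le_rfl fun W => ?_) (a9_kwb_nonneg _ _ _ _)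
    rw [ind_false (fun h => hP h.1)]

theorem a9_P2 {n t m q : ℕ} (T : (Fin m → Fin n) → Fin n → Fin n → Prop) (b nu lam ta : ℝ)
    (hT : TH T b nu lam ta) (hn : 2 ≤ n) (hb : 0 < b)
    (hnu : 0 < nu) (hlam : 0 < lam) (hta : 0 < ta)
    (n1 : 32 * b * q * lam ^ 2 ≤ ta ^ 2) (n6 : 2 / (n : ℝ) ≤ ta / (8 * lam) / 2 ^ m)
    (g : Fin q) (P : Fin g.val → (Fin m → Fin n)) :
    E (fun W : Fin t → NL n => ind (a9_E2 g.val T (ta / 2) (8 * nu * lam / ta) P W)) ≤
      ((n : ℝ) + 1) ^ m * Real.exp (-(t * (ta / (8 * lam) / 2 ^ m) ^ 2 / 2)) := by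
  by_cases hP : rich T (ta / 2) (8 * nu * lam / ta) P
  · have h1 := rich_ext (q := q) T b nu lam ta hT (by omega) hb hnu hlam hta g.isLt.le n1 P hP
    have h := DC (n := n) (t := t) (fun p : Fin m → Fin n =>
      rich T (ta / 2) (8 * nu * lam / ta) (Fin.snoc P p : Fin (g.val + 1) → (Fin m → Fin n)))
      (ta / (8 * lam)) (by positivity) (by omega) n6 h1
    refine le_trans (E_mono fun W => ind_mono ?_) h
    rintro ⟨_, S, hS, hS'⟩
    exact ⟨S, hS, hS'⟩
  · refine le_trans (E_le_of_nonneg (c := 0) le_rfl fun W => ?_) (by positivity)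
    rw [ind_false (fun h => hP h.1)]

theorem ST3 {n t m q : ℕ} (T : (Fin m → Fin n) → Fin n → Fin n → Prop) (b nu lam ta : ℝ)
    (hT : TH T b nu lam ta) (hn : 2 ≤ n) (hq : 1 ≤ q) (hb : 0 < b) (hb1 : 16 * b ≤ 1)
    (hnu : 0 < nu) (hlam : 0 < lam) (hta : 0 < ta)
    (n1 : 32 * b * q * lam ^ 2 ≤ ta ^ 2) (n2 : 16 * nu * lam * q ≤ b * ta)
    (n3 : 128 * Lg n * Real.log n ≤ (q * ta / 8) * t)
    (n4 : 2 / (n : ℝ) ≤ (q * ta / 8) / (32 * Lg n * (16 * b)))
    (n5 : 2 ≤ (q * ta / 8) * n) (n6 : 2 / (n : ℝ) ≤ ta / (8 * lam) / 2 ^ m) :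
    E (fun W : Fin (t + t) → NL n => ind (∃ S : Set (Fin n), indep W S ∧
      ∀ p v f, T p v f → (∃ i, p i ∈ S) ∨ v ∈ S ∨ f ∈ S)) ≤
      (n : ℝ) ^ (m * q) * kwb n t (q * ta / 8) (16 * b) +
        q * ((n : ℝ) + 1) ^ (m * q) * Real.exp (-(t * (ta / (8 * lam) / 2 ^ m) ^ 2 / 2)) := by
  have hne : Nonempty (NL n) := ⟨⟨(⟨0, by omega⟩, ⟨1, by omega⟩), by
    intro h; simp [Fin.ext_iff] at h⟩⟩
  have hneW : Nonempty (Fin t → NL n) := ⟨fun _ => hne.some⟩
  set X : ℝ := Real.exp (-(t * (ta / (8 * lam) / 2 ^ m) ^ 2 / 2)) with hX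
  have hX0 : 0 ≤ X := (Real.exp_pos _).le
  set l : ℝ := ta / 2 with hl
  set a : ℝ := 8 * nu * lam / ta with ha
  rw [E_append]
  have step : ∀ W1 W2 : Fin t → NL n, ind (∃ S : Set (Fin n), indep (Fin.append W1 W2) S ∧
      ∀ p v f, T p v f → (∃ i, p i ∈ S) ∨ v ∈ S ∨ f ∈ S) ≤
      (∑ P : Fin q → (Fin m → Fin n), ind (a9_E1 q T l a P W1)) +
        ∑ g : Fin q, ∑ P : Fin g.val → (Fin m → Fin n), ind (a9_E2 g.val T l a P W2) := by
    intro W1 W2
    refine le_trans (ind_mono (Q := (∃ P, a9_E1 q T l a P W1) ∨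
      ∃ g : Fin q, ∃ P, a9_E2 g.val T l a P W2) ?_) ?_
    · rintro ⟨S, hS, hS'⟩
      obtain ⟨h1, h2⟩ := a9_indep_append W1 W2 S hS
      exact a9_det T l a W1 W2 S h1 h2 hS'
    · refine le_trans (ind_or_le _ _) (add_le_add (ind_exists_le _) ?_)
      refine le_trans (ind_exists_le _) (Finset.sum_le_sum fun g _ => ind_exists_le _)
  refine le_trans (E_mono fun W1 => E_mono fun W2 => step W1 W2) ?_
  rw [E_congr fun W1 => E_add _ _, E_add]
  refine add_le_add ?_ ?_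
  · rw [E_congr fun W1 => E_const _, E_sum]
    refine le_trans (Finset.sum_le_sum fun P _ =>
      a9_P1 T b nu lam ta hT hn hq hb hb1 hnu hlam hta n2 n3 n4 n5 P) ?_
    rw [Finset.sum_const, Finset.card_univ, Fintype.card_fun, Fintype.card_fun,
      Fintype.card_fin, Fintype.card_fin, Fintype.card_fin, nsmul_eq_mul, ← pow_mul]
    push_cast
    exact le_rfl
  · rw [E_const, E_sum]
    have h1 : ∀ g : Fin q, E (fun W2 : Fin t → NL n =>
        ∑ P : Fin g.val → (Fin m → Fin n), ind (a9_E2 g.val T l a P W2)) ≤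
        ((n : ℝ) + 1) ^ (m * q) * X := by
      intro g
      rw [E_sum]
      refine le_trans (Finset.sum_le_sum fun P _ =>
        a9_P2 T b nu lam ta hT hn hb hnu hlam hta n1 n6 g P) ?_
      rw [Finset.sum_const, Finset.card_univ, Fintype.card_fun, Fintype.card_fun,
        Fintype.card_fin, Fintype.card_fin, Fintype.card_fin, nsmul_eq_mul, ← pow_mul]
      push_cast
      rw [← mul_assoc]
      refine mul_le_mul_of_nonneg_right ?_ hX0
      have h2 : (n : ℝ) ^ (m * g.val) ≤ ((n : ℝ) + 1) ^ (m * g.val) :=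
        pow_le_pow_left₀ (by positivity) (by linarith) _
      calc (n : ℝ) ^ (m * g.val) * ((n : ℝ) + 1) ^ m
          ≤ ((n : ℝ) + 1) ^ (m * g.val) * ((n : ℝ) + 1) ^ m :=
            mul_le_mul_of_nonneg_right h2 (by positivity)
        _ = ((n : ℝ) + 1) ^ (m * (g.val + 1)) := by rw [← pow_add]; ring_nf
        _ ≤ ((n : ℝ) + 1) ^ (m * q) :=
            pow_le_pow_right₀ (by linarith [Nat.cast_nonneg (α := ℝ) n])
              (Nat.mul_le_mul_left m g.isLt)
    refine le_trans (Finset.sum_le_sum fun g _ => h1 g) ?_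
    rw [Finset.sum_const, Finset.card_univ, Fintype.card_fin, nsmul_eq_mul, mul_assoc]

end Pool.Agent.H290R2.Col
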