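import Pool.Agent.H290R2.Col.Defs

/-! Task B1: easy facts about killers. -/

set_option autoImplicit false

namespace Pool.Agent.H290R2.Col
open Finset Filter Pool.Agent.H999R2.KSat

theorem ks_anti {n k D : ℕ} {A A' : Set (Cg n k)} (h : A' ⊆ A) {N : Fin D → Fin n}
    {S : Finset (Fin D)} (hk : ks A N S) : ks A' N S :=
  fun a ha c => hk a (h ha) c

theorem ks_mono {n k D : ℕ} {A : Set (Cg n k)} {N : Fin D → Fin n}
    {S S' : Finset (Fin D)} (h : S ⊆ S') (hk : ks A N S) : ks A N S' := by
  intro a ha c
  obtain ⟨i, hi, hc⟩ := hk a ha c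
  exact ⟨i, h hi, hc⟩

theorem ks_card {n k D : ℕ} {A : Set (Cg n k)} (hA : A.Nonempty) {N : Fin D → Fin n}
    {S : Finset (Fin D)} (hk : ks A N S) : k ≤ S.card := by
  obtain ⟨a, ha⟩ := hA
  have h1 : (univ : Finset (Fin k)) ⊆ S.image (fun i => a (N i)) := by
    intro c _
    obtain ⟨i, hi, hc⟩ := hk a ha c
    exact Finset.mem_image.2 ⟨i, hi, hc⟩
  calc k = (univ : Finset (Fin k)).card := by simp
    _ ≤ (S.image (fun i => a (N i))).card := Finset.card_le_card h1
    _ ≤ S.card := Finset.card_image_le

/-- positions outside `S` are irrelevant -/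
theorem ks_congr {n k D : ℕ} {A : Set (Cg n k)} {N N' : Fin D → Fin n} {S : Finset (Fin D)}
    (h : ∀ i ∈ S, N i = N' i) : ks A N S ↔ ks A N' S := by
  constructor
  · intro hk a ha c
    obtain ⟨i, hi, hc⟩ := hk a ha c
    exact ⟨i, hi, by rw [← h i hi]; exact hc⟩
  · intro hk a ha c
    obtain ⟨i, hi, hc⟩ := hk a ha c
    exact ⟨i, hi, by rw [h i hi]; exact hc⟩

theorem irr_b {n k D : ℕ} {b : ℝ} (hb : 0 ≤ b) (A : Set (Cg n k)) (N : Fin D → Fin n)
    (S : Finset (Fin D)) (i : Fin D) (hi : i ∈ S) :
    E (fun v : Fin n => ind (i1 b A (Function.update N i v) S)) ≤ b := by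
  by_cases h : ∃ v0, i1 b A (Function.update N i v0) S
  · obtain ⟨v0, h0⟩ := h
    have h1 := h0.2 i hi
    simp only [Function.update_idem] at h1
    exact (E_mono fun v => ind_mono fun hv => hv.1).trans h1.le
  · push Not at h
    refine E_le_of_nonneg hb fun v => ?_
    rw [ind_false (h v)]
    exact hb

theorem irr_lam {n k D : ℕ} {b lam : ℝ} (hlam : 0 ≤ lam) (A : Set (Cg n k)) (N : Fin D → Fin n)
    (S : Finset (Fin D)) (i l : Fin D) (hi : i ∈ S) (hl : l ∈ S) (hil : i ≠ l) :
    E (fun v : Fin n => E (fun f : Fin n =>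
      ind (i2 b lam A (Function.update (Function.update N i v) l f) S))) ≤ lam := by
  by_cases h : ∃ v0 f0, i2 b lam A (Function.update (Function.update N i v0) l f0) S
  · obtain ⟨v0, f0, h0⟩ := h
    have h1 := h0.2 i hi l hl hil
    have h2 : ∀ v f, Function.update (Function.update
        (Function.update (Function.update N i v0) l f0) i v) l f =
        Function.update (Function.update N i v) l f := by
      intro v f
      rw [Function.update_comm hil, Function.update_idem, Function.update_comm (Ne.symm hil),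
        Function.update_idem, Function.update_comm hil]
    simp only [h2] at h1
    exact (E_mono fun v => E_mono fun f => ind_mono fun hv => hv.1).trans h1.le
  · push Not at h
    refine E_le_of_nonneg hlam fun v => E_le_of_nonneg hlam fun f => ?_
    rw [ind_false (h v f)]
    exact hlam

end Pool.Agent.H290R2.Col
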