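import Pool.Agent.H290R2.Col.Defs

/-! # B10, part A: the static theorem from the statements of B4 - B9 -/

set_option autoImplicit false

namespace Pool.Agent.H290R2.Col
open Finset Filter Pool.Agent.H999R2.KSat

theorem b10_pow6 (D : ℕ) : D ^ 6 ≤ 16 * 4 ^ D := by
  rcases Nat.lt_or_ge D 4 with h | h
  · interval_cases D <;> norm_num
  · induction D, h using Nat.le_induction with
    | base => norm_num
    | succ D hD ih =>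
      have h1 : (D + 1) ^ 6 ≤ 4 * D ^ 6 := by
        obtain ⟨x, rfl⟩ := Nat.exists_eq_add_of_le hD
        ring_nf
        nlinarith [Nat.zero_le (x ^ 6), Nat.zero_le (x ^ 5), Nat.zero_le (x ^ 4),
          Nat.zero_le (x ^ 3), Nat.zero_le (x ^ 2)]
      calc (D + 1) ^ 6 ≤ 4 * D ^ 6 := h1
        _ ≤ 4 * (16 * 4 ^ D) := Nat.mul_le_mul_left _ ih
        _ = 16 * 4 ^ (D + 1) := by ring

/-- no positions kill nothing -/
theorem b10_TD_zero {n k : ℕ} (hk : 3 ≤ k) {A : Set (Cg n k)} (hA : A.Nonempty) : TD 0 A = 0 := by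
  unfold TD
  rw [← E_zero (α := Fin 0 → Fin n)]
  refine E_congr fun N => ind_false fun h => ?_
  obtain ⟨a, ha⟩ := hA
  obtain ⟨i, -⟩ := h a ha ⟨0, by omega⟩
  exact i.elim0

theorem b10_TD_le_one {n k : ℕ} (D : ℕ) (A : Set (Cg n k)) : TD D A ≤ 1 :=
  E_le_of_nonneg zero_le_one fun _ => ind_le_one _

/-- facts about `t1 = t / (2 D)` -/
theorem b10_t1 {n t D : ℕ} (hn : 2 ^ 80 ≤ n) (ht : (n : ℝ) ^ ((2 : ℝ) / 5) ≤ t) (htn : t ≤ n)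
    (hD : 1 ≤ D) (h16 : (16 : ℝ) ^ D ≤ t) :
    (n : ℝ) ^ ((1 : ℝ) / 3) ≤ (t / (2 * D) : ℕ) ∧ t / (2 * D) ≤ n ∧
      (4 : ℝ) ^ D ≤ ((t / (2 * D) : ℕ) : ℝ) ^ ((3 : ℝ) / 5) ∧
      (t : ℝ) / (4 * D) ≤ (t / (2 * D) : ℕ) ∧ (4 * (D : ℝ)) ^ 6 ≤ t ∧ (1 : ℝ) ≤ t := by
  have hn1 : (1 : ℝ) ≤ n := by
    have : (1 : ℕ) ≤ n := le_trans (Nat.one_le_two_pow) hn
    exact_mod_cast this
  have hn0 : (0 : ℝ) ≤ n := by linarith
  have h32 : (2 : ℝ) ^ 32 ≤ t := by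
    refine le_trans ?_ ht
    have h1 : ((2 : ℝ) ^ 80) ≤ n := by exact_mod_cast hn
    have h2 : ((2 : ℝ) ^ (80 : ℕ)) ^ ((2 : ℝ) / 5) ≤ (n : ℝ) ^ ((2 : ℝ) / 5) :=
      Real.rpow_le_rpow (by positivity) h1 (by norm_num)
    have h3 : ((2 : ℝ) ^ (80 : ℕ)) ^ ((2 : ℝ) / 5) = 2 ^ 32 := by
      rw [← Real.rpow_natCast, ← Real.rpow_mul (by norm_num), ← Real.rpow_natCast]
      norm_num
    linarith
  have ht1 : (1 : ℝ) ≤ t := le_trans (by norm_num) h32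
  have ht0 : (0 : ℝ) < t := by linarith
  have hDr : (1 : ℝ) ≤ D := by exact_mod_cast hD
  -- `(4 D)^6 ≤ t`
  have h46 : (4 * (D : ℝ)) ^ 6 ≤ t := by
    have h1 : ((D : ℝ)) ^ 6 ≤ 16 * 4 ^ D := by exact_mod_cast b10_pow6 D
    have h2 : ((4 : ℝ) ^ D) ^ 2 ≤ t := by
      rw [← pow_mul, mul_comm, pow_mul]
      norm_num
      exact h16
    have h3 : (0 : ℝ) < 4 ^ D := by positivity
    -- 65536 * 4^D ≤ t
    have h4 : 65536 * (4 : ℝ) ^ D ≤ t := by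
      by_contra hc
      push Not at hc
      have h5 : (t : ℝ) ^ 2 < (65536 * 4 ^ D) ^ 2 := pow_lt_pow_left₀ hc ht0.le (by norm_num)
      have h6 : (65536 * (4 : ℝ) ^ D) ^ 2 = 2 ^ 32 * (4 ^ D) ^ 2 := by ring
      rw [h6] at h5
      have h7 : (2 : ℝ) ^ 32 * (4 ^ D) ^ 2 ≤ t * t :=
        mul_le_mul h32 h2 (by positivity) ht0.le
      nlinarith
    calc (4 * (D : ℝ)) ^ 6 = 4096 * D ^ 6 := by ring
      _ ≤ 4096 * (16 * 4 ^ D) := by linarith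
      _ = 65536 * 4 ^ D := by ring
      _ ≤ t := h4
  have h4D : 4 * (D : ℝ) ≤ (t : ℝ) ^ ((1 : ℝ) / 6) := by
    have h1 : ((4 * (D : ℝ)) ^ 6) ^ ((1 : ℝ) / 6) ≤ (t : ℝ) ^ ((1 : ℝ) / 6) :=
      Real.rpow_le_rpow (by positivity) h46 (by norm_num)
    have h2 : ((4 * (D : ℝ)) ^ 6) ^ ((1 : ℝ) / 6) = 4 * D := by
      rw [← Real.rpow_natCast (4 * (D : ℝ)) 6, ← Real.rpow_mul (by positivity)]
      norm_num
    linarith
  -- `t / (4 D) ≤ t1`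
  have h2D : (2 * (D : ℝ)) ≤ t := by
    have h1 : (1 : ℝ) ≤ 4 * D := by linarith
    have h2 : 4 * (D : ℝ) ≤ (4 * D) ^ 6 := le_self_pow₀ h1 (by norm_num)
    linarith
  have hfl : (t : ℝ) / (4 * D) ≤ ((t / (2 * D) : ℕ) : ℝ) := by
    have h1 : (t : ℝ) < ((t / (2 * D) : ℕ) + 1 : ℝ) * (2 * D) := by
      have : t < (t / (2 * D) + 1) * (2 * D) := by
        have := Nat.lt_mul_div_succ t (show 0 < 2 * D by omega)
        linarith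
      exact_mod_cast this
    have h3 : (1 : ℕ) ≤ t / (2 * D) := by
      rw [Nat.one_le_div_iff (by omega)]
      exact_mod_cast h2D
    have h4 : (1 : ℝ) ≤ ((t / (2 * D) : ℕ) : ℝ) := by exact_mod_cast h3
    rw [div_le_iff₀ (by positivity)]
    nlinarith
  -- `t ^ (5/6) ≤ t1`
  have h56 : (t : ℝ) ^ ((5 : ℝ) / 6) ≤ ((t / (2 * D) : ℕ) : ℝ) := by
    refine le_trans ?_ hfl
    rw [le_div_iff₀ (by positivity)]
    calc (t : ℝ) ^ ((5 : ℝ) / 6) * (4 * D) ≤ (t : ℝ) ^ ((5 : ℝ) / 6) * (t : ℝ) ^ ((1 : ℝ) / 6) :=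
          mul_le_mul_of_nonneg_left h4D (by positivity)
      _ = t := by
          rw [← Real.rpow_add ht0]
          norm_num
  refine ⟨?_, ?_, ?_, hfl, h46, ht1⟩
  · refine le_trans ?_ h56
    have h1 : ((n : ℝ) ^ ((2 : ℝ) / 5)) ^ ((5 : ℝ) / 6) ≤ (t : ℝ) ^ ((5 : ℝ) / 6) :=
      Real.rpow_le_rpow (by positivity) ht (by norm_num)
    rw [← Real.rpow_mul hn0] at h1
    norm_num at h1 ⊢
    exact h1
  · exact (Nat.div_le_self _ _).trans htn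
  · have h1 : ((t : ℝ) ^ ((5 : ℝ) / 6)) ^ ((3 : ℝ) / 5) ≤
        ((t / (2 * D) : ℕ) : ℝ) ^ ((3 : ℝ) / 5) :=
      Real.rpow_le_rpow (by positivity) h56 (by norm_num)
    rw [← Real.rpow_mul ht0.le] at h1
    refine le_trans ?_ h1
    have h2 : ((16 : ℝ) ^ D) ^ ((1 : ℝ) / 2) ≤ (t : ℝ) ^ ((1 : ℝ) / 2) :=
      Real.rpow_le_rpow (by positivity) h16 (by norm_num)
    have h3 : ((16 : ℝ) ^ D) ^ ((1 : ℝ) / 2) = 4 ^ D := by
      rw [← Real.sqrt_eq_rpow, show (16 : ℝ) = 4 ^ 2 by norm_num, ← pow_mul, mul_comm, pow_mul,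
        Real.sqrt_sq (by positivity)]
    rw [h3] at h2
    norm_num at h2 ⊢
    exact h2

/-- the final estimate -/
theorem b10_final {n t D : ℕ} (hn : 2 ^ 80 ≤ n) (ht : (n : ℝ) ^ ((2 : ℝ) / 5) ≤ t) (htn : t ≤ n)
    (hD : 1 ≤ D) (h16 : (16 : ℝ) ^ D ≤ t) :
    2 * (D : ℝ) * (2 ^ D * (((t / (2 * D) : ℕ) : ℝ) ^ (-(1 + (1 : ℝ) / 400)) +
      (1 + D + (D : ℝ) ^ 2) * (n : ℝ) ^ (-(3 : ℝ)))) ≤
      64 * 256 ^ D * (t : ℝ) ^ (-(1 + (1 : ℝ) / 400)) := by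
  obtain ⟨h1, h2, -, h4, h5, ht1⟩ := b10_t1 hn ht htn hD h16
  have hn1 : (1 : ℝ) ≤ n := by
    have : (1 : ℕ) ≤ n := le_trans (Nat.one_le_two_pow) hn
    exact_mod_cast this
  have hn0 : (0 : ℝ) < n := by linarith
  have ht0 : (0 : ℝ) < t := by linarith
  have hDr : (1 : ℝ) ≤ D := by exact_mod_cast hD
  set t1 : ℝ := ((t / (2 * D) : ℕ) : ℝ) with ht1def
  have ht10 : 0 < t1 := lt_of_lt_of_le (by positivity) h4
  have ht1n : t1 ≤ n := by rw [ht1def]; exact_mod_cast h2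
  -- ta bound from below
  have hta : (n : ℝ) ^ (-(2 : ℝ)) ≤ t1 ^ (-(1 + (1 : ℝ) / 400)) := by
    calc (n : ℝ) ^ (-(2 : ℝ)) ≤ (n : ℝ) ^ (-(1 + (1 : ℝ) / 400)) :=
          Real.rpow_le_rpow_of_exponent_le hn1 (by norm_num)
      _ ≤ t1 ^ (-(1 + (1 : ℝ) / 400)) :=
          Real.rpow_le_rpow_of_nonpos ht10 ht1n (by norm_num)
  have hpoly : 1 + (D : ℝ) + (D : ℝ) ^ 2 ≤ n := by
    have h6 : 1 + (D : ℝ) + (D : ℝ) ^ 2 ≤ (4 * D) ^ 6 := by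
      have e1 : (D : ℝ) ^ 2 ≤ D ^ 6 := pow_le_pow_right₀ hDr (by norm_num)
      have e2 : (D : ℝ) ^ 1 ≤ D ^ 6 := pow_le_pow_right₀ hDr (by norm_num)
      have e3 : (1 : ℝ) ≤ D ^ 6 := one_le_pow₀ hDr
      have e4 : (4 * (D : ℝ)) ^ 6 = 4096 * D ^ 6 := by ring
      rw [e4]
      rw [pow_one] at e2
      linarith
    have h7 : (t : ℝ) ≤ n := by exact_mod_cast htn
    linarith
  have hsec : (1 + D + (D : ℝ) ^ 2) * (n : ℝ) ^ (-(3 : ℝ)) ≤ t1 ^ (-(1 + (1 : ℝ) / 400)) := by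
    refine le_trans ?_ hta
    calc (1 + D + (D : ℝ) ^ 2) * (n : ℝ) ^ (-(3 : ℝ)) ≤ n * (n : ℝ) ^ (-(3 : ℝ)) :=
          mul_le_mul_of_nonneg_right hpoly (by positivity)
      _ = (n : ℝ) ^ (-(2 : ℝ)) := by
          nth_rw 1 [← Real.rpow_one (n : ℝ)]
          rw [← Real.rpow_add hn0]
          norm_num
  have hta2 : t1 ^ (-(1 + (1 : ℝ) / 400)) ≤ (4 * D) ^ 2 * (t : ℝ) ^ (-(1 + (1 : ℝ) / 400)) := by
    calc t1 ^ (-(1 + (1 : ℝ) / 400)) ≤ ((t : ℝ) / (4 * D)) ^ (-(1 + (1 : ℝ) / 400)) :=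
          Real.rpow_le_rpow_of_nonpos (by positivity) h4 (by norm_num)
      _ = (4 * (D : ℝ)) ^ (1 + (1 : ℝ) / 400) * (t : ℝ) ^ (-(1 + (1 : ℝ) / 400)) := by
          rw [Real.div_rpow ht0.le (by positivity), Real.rpow_neg (by positivity : 0 ≤ 4 * (D : ℝ))]
          field_simp
      _ ≤ (4 * (D : ℝ)) ^ 2 * (t : ℝ) ^ (-(1 + (1 : ℝ) / 400)) := by
          refine mul_le_mul_of_nonneg_right ?_ (by positivity)
          rw [← Real.rpow_natCast (4 * (D : ℝ)) 2]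
          exact Real.rpow_le_rpow_of_exponent_le (by linarith) (by norm_num)
  have hD8 : (D : ℝ) ≤ 2 ^ D := by exact_mod_cast (Nat.lt_two_pow_self (n := D)).le
  have hT : 0 ≤ (t : ℝ) ^ (-(1 + (1 : ℝ) / 400)) := by positivity
  calc 2 * (D : ℝ) * (2 ^ D * (t1 ^ (-(1 + (1 : ℝ) / 400)) +
      (1 + D + (D : ℝ) ^ 2) * (n : ℝ) ^ (-(3 : ℝ))))
      ≤ 2 * (D : ℝ) * (2 ^ D * (2 * ((4 * D) ^ 2 * (t : ℝ) ^ (-(1 + (1 : ℝ) / 400))))) := by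
        refine mul_le_mul_of_nonneg_left (mul_le_mul_of_nonneg_left ?_ (by positivity))
          (by positivity)
        linarith
    _ = 64 * (D ^ 3 * 2 ^ D) * (t : ℝ) ^ (-(1 + (1 : ℝ) / 400)) := by ring
    _ ≤ 64 * 256 ^ D * (t : ℝ) ^ (-(1 + (1 : ℝ) / 400)) := by
        refine mul_le_mul_of_nonneg_right (mul_le_mul_of_nonneg_left ?_ (by norm_num)) hT
        calc (D : ℝ) ^ 3 * 2 ^ D ≤ (2 ^ D) ^ 3 * 2 ^ D :=
              mul_le_mul_of_nonneg_right (pow_le_pow_left₀ (by positivity) hD8 3) (by positivity)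
          _ = 16 ^ D := by
              rw [← pow_succ, ← pow_mul, mul_comm, pow_mul]
              norm_num
          _ ≤ 256 ^ D := pow_le_pow_left₀ (by norm_num) (by norm_num) D

/-- the trivial range `t ^ 2 ≤ C * 256 ^ D` -/
theorem b10_triv {n k D t : ℕ} (A : Set (Cg n k)) {C : ℝ} (ht : 1 ≤ t)
    (h : (t : ℝ) ^ 2 ≤ C * 256 ^ D) :
    TD D A ≤ C * 256 ^ D * (t : ℝ) ^ (-(1 + (1 : ℝ) / 400)) := by
  refine (b10_TD_le_one D A).trans ?_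
  have ht1 : (1 : ℝ) ≤ t := by exact_mod_cast ht
  have ht0 : (0 : ℝ) < t := by linarith
  have h1 : (t : ℝ) ^ (1 + (1 : ℝ) / 400) ≤ (t : ℝ) ^ 2 := by
    rw [← Real.rpow_natCast (t : ℝ) 2]
    exact Real.rpow_le_rpow_of_exponent_le ht1 (by norm_num)
  rw [Real.rpow_neg ht0.le, ← div_eq_mul_inv, le_div_iff₀ (by positivity), one_mul]
  exact h1.trans h

/-- the static theorem from the statements of B4 - B9 -/
theorem b10_static_of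
    (R1 : ∀ {n k D t : ℕ} (b : ℝ) (A : Set (Cg n k)) (N : Fin D → Fin n) (S : Finset (Fin D))
      (i : Fin D) (_ : i ∈ S) (_ : 0 ≤ b) (_ : 2 / (n : ℝ) ≤ b)
      (_ : b ≤ E (fun v : Fin n => ind (ks A (Function.update N i v) S))),
      E (fun W : Fin t → NL n => ind (¬ ks (A ∩ Col W) N (S.erase i))) ≤
        Real.exp (-(t * b ^ 2 / 2)))
    (R2 : ∀ {n k D t : ℕ} (b lam : ℝ) (A : Set (Cg n k)) (N : Fin D → Fin n)
      (S : Finset (Fin D)) (i l : Fin D) (_ : i ∈ S) (_ : l ∈ S) (_ : i ≠ l) (_ : 2 ≤ n)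
      (_ : 0 < b) (_ : b ≤ 1) (_ : 0 < lam)
      (_ : lam ≤ E (fun v : Fin n => E (fun f : Fin n =>
        ind (i1 b A (Function.update (Function.update N i v) l f) S))))
      (_ : 128 * Lg n * Real.log n ≤ lam * t) (_ : 2 / (n : ℝ) ≤ lam / (32 * Lg n * b))
      (_ : 2 ≤ lam * n),
      E (fun W : Fin t → NL n => ind (¬ ks (A ∩ Col W) N ((S.erase i).erase l))) ≤
        kwb n t lam b)
    (R3 : ∀ {n k t m q : ℕ} (b nu lam ta : ℝ) (A : Set (Cg n k)) (_ : 1 ≤ k) (_ : 1 ≤ m)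
      (_ : 2 ≤ n) (_ : 1 ≤ q) (_ : 0 < b) (_ : 16 * b ≤ 1)
      (_ : 0 < nu) (_ : 0 < lam) (_ : 0 < ta)
      (_ : 6 * (lam / nu) ^ 2 * b ≤ ta)
      (_ : 32 * b * q * lam ^ 2 ≤ (ta / 6) ^ 2) (_ : 16 * nu * lam * q ≤ b * (ta / 6))
      (_ : 128 * Lg n * Real.log n ≤ (q * (ta / 6) / 8) * t)
      (_ : 2 / (n : ℝ) ≤ (q * (ta / 6) / 8) / (32 * Lg n * (16 * b)))
      (_ : 2 ≤ (q * (ta / 6) / 8) * n) (_ : 2 / (n : ℝ) ≤ (ta / 6) / (8 * lam) / 2 ^ m)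
      (_ : ta ≤ tau b lam (m + 2) A),
      E (fun W : Fin (t + t) → NL n => ind (A ∩ Col W).Nonempty) ≤
        (n : ℝ) ^ (m * q) * kwb n t (q * (ta / 6) / 8) (16 * b) +
          q * ((n : ℝ) + 1) ^ (m * q) *
            Real.exp (-(t * ((ta / 6) / (8 * lam) / 2 ^ m) ^ 2 / 2)))
    (svv_anti : ∀ {n k : ℕ} {s t : ℕ} (_ : s ≤ t) (A : Set (Cg n k)), svv t A ≤ svv s A)
    (assembly : ∀ {n k D T : ℕ} (_ : 3 ≤ k) (_ : 2 ≤ n) (b lam ta et : ℝ) (_ : 0 ≤ ta)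
      (_ : 0 ≤ et)
      (_ : ∀ (A : Set (Cg n k)) (N : Fin D → Fin n) (S : Finset (Fin D)) (i : Fin D), i ∈ S →
        b ≤ E (fun v : Fin n => ind (ks A (Function.update N i v) S)) →
        E (fun W : Fin T → NL n => ind (¬ ks (A ∩ Col W) N (S.erase i))) ≤ et)
      (_ : ∀ (A : Set (Cg n k)) (N : Fin D → Fin n) (S : Finset (Fin D)) (i l : Fin D), i ∈ S →
        l ∈ S → i ≠ l →
        lam ≤ E (fun v : Fin n => E (fun f : Fin n =>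
          ind (i1 b A (Function.update (Function.update N i v) l f) S))) →
        E (fun W : Fin T → NL n => ind (¬ ks (A ∩ Col W) N ((S.erase i).erase l))) ≤ et)
      (_ : ∀ (A : Set (Cg n k)) (m : ℕ), 1 ≤ m → m + 2 ≤ D → ta ≤ tau b lam (m + 2) A →
        E (fun W : Fin T → NL n => ind (A ∩ Col W).Nonempty) ≤ et)
      (A : Set (Cg n k)) (_ : A.Nonempty) (_ : 1 / 2 ≤ svv (D * T) A),
      TD D A ≤ 2 * D * (2 ^ D * (ta + (1 + D + D ^ 2) * et)))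
    (numerics : ∃ n0 : ℕ, ∀ n t D : ℕ, n0 ≤ n → (n : ℝ) ^ ((1 : ℝ) / 3) ≤ t → t ≤ n →
      (4 : ℝ) ^ D ≤ (t : ℝ) ^ ((3 : ℝ) / 5) →
      ∀ b lam ta nu : ℝ, b = (t : ℝ) ^ (-(1 : ℝ) / 2 + 1 / 400) →
        lam = (t : ℝ) ^ (-(1 : ℝ) + 3 / 400) → ta = (t : ℝ) ^ (-(1 + (1 : ℝ) / 400)) →
        nu = (t : ℝ) ^ (-(7 : ℝ) / 10) → ∀ q : ℕ, q = ⌈(t : ℝ) ^ ((1 : ℝ) / 20)⌉₊ →
      2 ≤ n ∧ 1 ≤ q ∧ 0 < b ∧ 16 * b ≤ 1 ∧ 0 < nu ∧ 0 < lam ∧ 0 < ta ∧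
      2 / (n : ℝ) ≤ b ∧ Real.exp (-((t + t : ℕ) * b ^ 2 / 2)) ≤ (n : ℝ) ^ (-(3 : ℝ)) ∧
      128 * Lg n * Real.log n ≤ lam * (t + t : ℕ) ∧ 2 / (n : ℝ) ≤ lam / (32 * Lg n * b) ∧
      2 ≤ lam * n ∧ kwb n (t + t) lam b ≤ (n : ℝ) ^ (-(3 : ℝ)) ∧
      6 * (lam / nu) ^ 2 * b ≤ ta ∧ 32 * b * q * lam ^ 2 ≤ (ta / 6) ^ 2 ∧
      16 * nu * lam * q ≤ b * (ta / 6) ∧
      128 * Lg n * Real.log n ≤ (q * (ta / 6) / 8) * t ∧
      2 / (n : ℝ) ≤ (q * (ta / 6) / 8) / (32 * Lg n * (16 * b)) ∧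
      2 ≤ (q * (ta / 6) / 8) * n ∧
      ∀ m : ℕ, m ≤ D → 2 / (n : ℝ) ≤ (ta / 6) / (8 * lam) / 2 ^ m ∧
        (n : ℝ) ^ (m * q) * kwb n t (q * (ta / 6) / 8) (16 * b) +
          q * ((n : ℝ) + 1) ^ (m * q) *
            Real.exp (-(t * ((ta / 6) / (8 * lam) / 2 ^ m) ^ 2 / 2)) ≤ (n : ℝ) ^ (-(3 : ℝ)))
    (k : ℕ) (hk : 3 ≤ k) : ∃ C : ℝ, 1 ≤ C ∧ Static k (1 / 400) C 256 := by
  obtain ⟨n0, hnum⟩ := numerics
  set n1 : ℕ := max n0 (2 ^ 80) with hn1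
  have hn1one : (1 : ℝ) ≤ n1 := by
    have h1 : 2 ^ 80 ≤ n1 := le_max_right _ _
    have : (1 : ℕ) ≤ n1 := le_trans (Nat.one_le_two_pow) h1
    exact_mod_cast this
  refine ⟨64 + (n1 : ℝ) ^ 2, by nlinarith, ?_⟩
  intro n t D A hA ht htn hs
  have hC0 : (0 : ℝ) ≤ 64 + (n1 : ℝ) ^ 2 := by positivity
  -- `D = 0`
  rcases Nat.eq_zero_or_pos D with rfl | hD
  · rw [b10_TD_zero hk hA]
    positivity
  -- `t = 0`
  rcases Nat.eq_zero_or_pos t with rfl | htpos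
  · have hn : n = 0 := by
      by_contra hc
      have : (0 : ℝ) < (n : ℝ) ^ ((2 : ℝ) / 5) :=
        Real.rpow_pos_of_pos (by exact_mod_cast Nat.pos_of_ne_zero hc) _
      rw [Nat.cast_zero] at ht
      linarith
    subst hn
    have h0 : TD D A = 0 := by
      unfold TD E
      have : IsEmpty (Fin D → Fin 0) := ⟨fun N => (N ⟨0, hD⟩).elim0⟩
      simp
    rw [h0]
    positivity
  -- small `n`
  rcases Nat.lt_or_ge n n1 with hnlt | hnge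
  · refine b10_triv A htpos ?_
    have h1 : (t : ℝ) ≤ n1 := by exact_mod_cast (htn.trans hnlt.le)
    have h2 : (t : ℝ) ^ 2 ≤ (n1 : ℝ) ^ 2 := pow_le_pow_left₀ (by positivity) h1 2
    have h3 : (1 : ℝ) ≤ 256 ^ D := one_le_pow₀ (by norm_num)
    nlinarith
  have hn80 : 2 ^ 80 ≤ n := (le_max_right _ _).trans hnge
  have hn0' : n0 ≤ n := (le_max_left _ _).trans hnge
  -- large `D`
  rcases lt_or_ge (t : ℝ) ((16 : ℝ) ^ D) with h16 | h16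
  · refine b10_triv A htpos ?_
    have h2 : (t : ℝ) ^ 2 ≤ ((16 : ℝ) ^ D) ^ 2 := pow_le_pow_left₀ (by positivity) h16.le 2
    have h3 : ((16 : ℝ) ^ D) ^ 2 = 256 ^ D := by
      rw [← pow_mul, mul_comm, pow_mul]
      norm_num
    rw [h3] at h2
    have h4 : (0 : ℝ) ≤ 256 ^ D := by positivity
    nlinarith
  -- main case
  obtain ⟨h1, h2, h3, h4, h5, ht1⟩ := b10_t1 hn80 ht htn hD h16
  set t1 : ℕ := t / (2 * D) with ht1def
  obtain ⟨hn2, hq, hb, hb16, hnu, hlam, hta, nb, nR1, nR2a, nR2b, nR2c, nR2d, h6, m1, m2, m3, m4,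
    m5, m6⟩ := hnum n t1 D hn0' h1 h2 h3 _ _ _ _ rfl rfl rfl rfl _ rfl
  have key := assembly (n := n) (k := k) (D := D) (T := t1 + t1) hk hn2
    ((t1 : ℝ) ^ (-(1 : ℝ) / 2 + 1 / 400)) ((t1 : ℝ) ^ (-(1 : ℝ) + 3 / 400))
    ((t1 : ℝ) ^ (-(1 + (1 : ℝ) / 400))) ((n : ℝ) ^ (-(3 : ℝ))) hta.le (by positivity)
    (fun A N S i hi h => (R1 _ A N S i hi hb.le nb h).trans nR1)
    (fun A N S i l hi hl hil h =>
      (R2 _ _ A N S i l hi hl hil hn2 hb (by linarith) hlam h nR2a nR2b nR2c).trans nR2d)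
    (fun A m hm hmD h => by
      obtain ⟨m6a, m6b⟩ := m6 m (by omega)
      exact (R3 _ _ _ _ A (by omega) hm hn2 hq hb hb16 hnu hlam hta h6 m1 m2 m3 m4 m5 m6a
        h).trans m6b)
    A hA (hs.trans (svv_anti (by
      have : t / (2 * D) * (2 * D) ≤ t := Nat.div_mul_le_self _ _
      calc D * (t1 + t1) = t / (2 * D) * (2 * D) := by rw [← ht1def]; ring
        _ ≤ t := this) A))
  refine key.trans ((b10_final hn80 ht htn hD h16).trans ?_)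
  have hT : 0 ≤ (t : ℝ) ^ (-(1 + (1 : ℝ) / 400)) := by positivity
  have hP : (0 : ℝ) ≤ 256 ^ D := by positivity
  refine mul_le_mul_of_nonneg_right (mul_le_mul_of_nonneg_right ?_ hP) hT
  nlinarith [sq_nonneg (n1 : ℝ)]

end Pool.Agent.H290R2.Col
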