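import Pool.Agent.H290R2.Col.Defs

set_option autoImplicit false

namespace Pool.Agent.H290R2.Col
open Finset Filter Pool.Agent.H999R2.KSat

/-- averages of functions of the restriction of a tuple to the positions in `S` -/
theorem b2_E_restrict {n D m : ℕ} (hn : 0 < n) (S : Finset (Fin D)) (e : Fin m ≃ {x // x ∈ S})
    (g : (Fin m → Fin n) → ℝ) :
    E (fun N : Fin D → Fin n => g (fun x => N (e x))) = E g := by
  haveI : Nonempty (Fin n) := ⟨⟨0, hn⟩⟩
  have h1 := E_equiv (Equiv.piEquivPiSubtypeProd (fun x : Fin D => x ∈ S) (fun _ => Fin n))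
    (fun z : ({x : Fin D // x ∈ S} → Fin n) × ({x : Fin D // ¬ x ∈ S} → Fin n) =>
      g (fun x => z.1 (e x)))
  have h2 : E (fun N : Fin D → Fin n => g (fun x => N (e x))) =
      E (fun z : ({x : Fin D // x ∈ S} → Fin n) × ({x : Fin D // ¬ x ∈ S} → Fin n) =>
      g (fun x => z.1 (e x))) := by
    rw [← h1]
    rfl
  rw [h2, E_prod (fun (a : {x : Fin D // x ∈ S} → Fin n)
    (_ : {x : Fin D // ¬ x ∈ S} → Fin n) => g (fun x => a (e x)))]
  simp_rw [E_const]
  rw [← E_equiv (Equiv.arrowCongr e.symm (Equiv.refl (Fin n))) g]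
  rfl

theorem b2_ks {n k D m : ℕ} (A : Set (Cg n k)) (S : Finset (Fin D)) (e : Fin m ≃ {x // x ∈ S})
    (N : Fin D → Fin n) : ks A N S ↔ ks A (fun x => N (e x)) univ := by
  unfold ks
  constructor
  · intro h a ha c
    obtain ⟨i, hi, hc⟩ := h a ha c
    refine ⟨e.symm ⟨i, hi⟩, mem_univ _, ?_⟩
    simpa using hc
  · intro h a ha c
    obtain ⟨x, -, hc⟩ := h a ha c
    exact ⟨e x, (e x).2, hc⟩

theorem b2_upd {n D m : ℕ} (S : Finset (Fin D)) (e : Fin m ≃ {x // x ∈ S})
    (N : Fin D → Fin n) (x : Fin m) (v : Fin n) :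
    (fun y => Function.update N (e x).1 v (e y).1) =
      Function.update (fun y => N (e y)) x v := by
  funext y
  by_cases h : y = x
  · subst h; simp
  · have h' : ((e y).1 : Fin D) ≠ (e x).1 := fun hh => h (e.injective (Subtype.ext hh))
    rw [Function.update_of_ne h, Function.update_of_ne h']

theorem b2_i1 {n k D m : ℕ} (b : ℝ) (A : Set (Cg n k)) (S : Finset (Fin D))
    (e : Fin m ≃ {x // x ∈ S}) (N : Fin D → Fin n) :
    i1 b A N S ↔ i1 b A (fun x => N (e x)) univ := by
  unfold i1
  rw [b2_ks A S e N]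
  refine and_congr_right fun _ => ?_
  have key : ∀ x : Fin m, E (fun v : Fin n => ind (ks A (Function.update N (e x).1 v) S)) =
      E (fun v : Fin n => ind (ks A (Function.update (fun y => N (e y)) x v) univ)) := by
    intro x
    refine E_congr fun v => ind_congr ?_
    rw [b2_ks A S e, b2_upd S e N x v]
  constructor
  · intro h x _
    rw [← key x]
    exact h _ (e x).2
  · intro h i hi
    have := h (e.symm ⟨i, hi⟩) (mem_univ _)
    rw [← key] at this
    simpa using this

theorem b2_i2 {n k D m : ℕ} (b lam : ℝ) (A : Set (Cg n k)) (S : Finset (Fin D))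
    (e : Fin m ≃ {x // x ∈ S}) (N : Fin D → Fin n) :
    i2 b lam A N S ↔ i2 b lam A (fun x => N (e x)) univ := by
  unfold i2
  rw [b2_i1 b A S e N]
  refine and_congr_right fun _ => ?_
  have key : ∀ x y : Fin m, E (fun v : Fin n => E (fun f : Fin n =>
        ind (i1 b A (Function.update (Function.update N (e x).1 v) (e y).1 f) S))) =
      E (fun v : Fin n => E (fun f : Fin n =>
        ind (i1 b A (Function.update (Function.update (fun z => N (e z)) x v) y f) univ))) := by
    intro x y
    refine E_congr fun v => E_congr fun f => ind_congr ?_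
    rw [b2_i1 b A S e, b2_upd S e _ y f, b2_upd S e N x v]
  constructor
  · intro h x _ y _ hxy
    rw [← key x y]
    exact h _ (e x).2 _ (e y).2 (fun hh => hxy (e.injective (Subtype.ext hh)))
  · intro h i hi l hl hil
    have := h (e.symm ⟨i, hi⟩) (mem_univ _) (e.symm ⟨l, hl⟩) (mem_univ _)
      (fun hh => hil (by simpa using hh))
    rw [← key] at this
    simpa using this

theorem i2_transport {n k D : ℕ} (hn : 0 < n) (b lam : ℝ) (A : Set (Cg n k))
    (S : Finset (Fin D)) :
    E (fun N : Fin D → Fin n => ind (i2 b lam A N S)) = tau b lam S.card A := by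
  have e : Fin S.card ≃ {x // x ∈ S} := S.equivFin.symm
  unfold tau
  rw [← b2_E_restrict hn S e]
  exact E_congr fun N => ind_congr (b2_i2 b lam A S e N)

theorem i2_perm {n k D : ℕ} (b lam : ℝ) (A : Set (Cg n k)) (π : Equiv.Perm (Fin D))
    (N : Fin D → Fin n) : i2 b lam A (fun i => N (π i)) univ ↔ i2 b lam A N univ := by
  have e : Fin D ≃ {x : Fin D // x ∈ (univ : Finset (Fin D))} :=
    (Equiv.subtypeUnivEquiv (fun x => mem_univ x)).symm
  let e' : Fin D ≃ {x : Fin D // x ∈ (univ : Finset (Fin D))} :=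
    π.trans (Equiv.subtypeUnivEquiv (fun x => mem_univ x)).symm
  rw [b2_i2 b lam A univ e' N]
  rfl

end Pool.Agent.H290R2.Col
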