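import Pool.Agent.H290R2.Col.B1
import Pool.Agent.H290R2.Col.B2

/-! Task B3 (helper57): extraction of a hypergraph from the doubly irreducible killers. -/

set_option autoImplicit false

namespace Pool.Agent.H290R2.Col
open Finset Filter Pool.Agent.H999R2.KSat

/-- the tuple `(v, f, p)` -/
def b3c {n m : ℕ} (v f : Fin n) (p : Fin m → Fin n) : Fin (m + 2) → Fin n :=
  Fin.cons v (Fin.cons f p)

theorem b3_upd0 {n m : ℕ} (v v' f : Fin n) (p : Fin m → Fin n) :
    Function.update (b3c v f p) 0 v' = b3c v' f p := by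
  rw [b3c, Fin.update_cons_zero, b3c]

theorem b3_upd1 {n m : ℕ} (v f f' : Fin n) (p : Fin m → Fin n) :
    Function.update (b3c v f p) 1 f' = b3c v f' p := by
  have h : (1 : Fin (m + 2)) = Fin.succ 0 := rfl
  rw [b3c, b3c, h, ← Fin.cons_update, Fin.update_cons_zero]

theorem b3_upd2 {n m : ℕ} (v f x x' : Fin n) (p : Fin m → Fin n) :
    Function.update (b3c v f (Fin.cons x p : Fin (m + 1) → Fin n)) (Fin.succ (Fin.succ 0)) x' =
      b3c v f (Fin.cons x' p : Fin (m + 1) → Fin n) := by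
  rw [b3c, b3c, ← Fin.cons_update, ← Fin.cons_update, Fin.update_cons_zero]

theorem b3_swap {n m : ℕ} (v f : Fin n) (p : Fin m → Fin n) :
    (fun i => b3c v f p (Equiv.swap 0 1 i)) = b3c f v p := by
  funext i
  induction i using Fin.cases with
  | zero =>
    rw [Equiv.swap_apply_left]
    rfl
  | succ i =>
    induction i using Fin.cases with
    | zero =>
      have h : (Fin.succ 0 : Fin (m + 2)) = 1 := rfl
      rw [h, Equiv.swap_apply_right]
      rfl
    | succ i =>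
      rw [Equiv.swap_apply_of_ne_of_ne (Fin.succ_ne_zero _)]
      · rfl
      · intro h
        have h1 : (1 : Fin (m + 2)) = Fin.succ 0 := rfl
        rw [h1] at h
        exact Fin.succ_ne_zero _ (Fin.succ_injective _ h)

theorem b3_i2_swap {n k m : ℕ} (b lam : ℝ) (A : Set (Cg n k)) (v f : Fin n) (p : Fin m → Fin n) :
    i2 b lam A (b3c v f p) univ ↔ i2 b lam A (b3c f v p) univ := by
  rw [← b3_swap f v p]
  exact i2_perm b lam A (Equiv.swap 0 1) (b3c f v p)

/-- splitting off the first two coordinates -/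
theorem b3_E {n m : ℕ} (F : (Fin (m + 2) → Fin n) → ℝ) :
    E F = E (fun v : Fin n => E (fun f : Fin n => E (fun p : Fin m → Fin n => F (b3c v f p)))) := by
  rw [E_cons]
  refine E_congr fun v => ?_
  rw [E_cons]
  rfl

/-- invariance of the average under permutations of the positions -/
theorem b3_Eperm {n D : ℕ} (π : Equiv.Perm (Fin D)) (F : (Fin D → Fin n) → ℝ) :
    E (fun N : Fin D → Fin n => F (fun i => N (π i))) = E F :=
  E_equiv (Equiv.arrowCongr π.symm (Equiv.refl (Fin n))) F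

theorem b3_lam {n k m : ℕ} {b lam : ℝ} (hlam : 0 ≤ lam) (hn : 0 < n) (A : Set (Cg n k))
    (p : Fin m → Fin n) :
    E (fun v : Fin n => E (fun f : Fin n => ind (i2 b lam A (b3c v f p) univ))) ≤ lam := by
  have h := irr_lam (b := b) hlam A (b3c ⟨0, hn⟩ ⟨0, hn⟩ p) univ 0 1 (mem_univ _) (mem_univ _)
    (by simp)
  simpa only [b3_upd0, b3_upd1] using h

theorem b3_b0 {n k m : ℕ} {b lam : ℝ} (hb : 0 ≤ b) (A : Set (Cg n k)) (f : Fin n)
    (p : Fin m → Fin n) :
    E (fun v : Fin n => ind (i2 b lam A (b3c v f p) univ)) ≤ b := by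
  have h := irr_b hb A (b3c f f p) univ 0 (mem_univ _)
  refine le_trans (E_mono fun v => ind_mono fun hv => ?_) h
  rw [b3_upd0]
  exact hv.1

theorem b3_b1 {n k m : ℕ} {b lam : ℝ} (hb : 0 ≤ b) (A : Set (Cg n k)) (v : Fin n)
    (p : Fin m → Fin n) :
    E (fun f : Fin n => ind (i2 b lam A (b3c v f p) univ)) ≤ b := by
  have h := irr_b hb A (b3c v v p) univ 1 (mem_univ _)
  refine le_trans (E_mono fun f => ind_mono fun hv => ?_) h
  rw [b3_upd1]
  exact hv.1

theorem b3_b2 {n k m : ℕ} {b lam : ℝ} (hb : 0 ≤ b) (A : Set (Cg n k)) (v f : Fin n) :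
    E (fun p : Fin (m + 1) → Fin n => ind (i2 b lam A (b3c v f p) univ)) ≤ b := by
  rw [E_cons, E_comm]
  refine E_le_of_nonneg hb fun p => ?_
  have h := irr_b hb A (b3c v f (Fin.cons v p : Fin (m + 1) → Fin n)) univ
    (Fin.succ (Fin.succ 0)) (mem_univ _)
  refine le_trans (E_mono fun x => ind_mono fun hx => ?_) h
  rw [b3_upd2]
  exact hx.1

/-- B3, extraction of a hypergraph from the doubly irreducible killers. -/
theorem extr {n k m : ℕ} (b nu lam ta : ℝ) (A : Set (Cg n k)) (hm : 1 ≤ m) (hn : 0 < n)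
    (hb : 0 < b) (hnu : 0 < nu) (hlam : 0 < lam) (hta : 0 < ta)
    (h6 : 6 * (lam / nu) ^ 2 * b ≤ ta) (h : ta ≤ tau b lam (m + 2) A) :
    ∃ T : (Fin m → Fin n) → Fin n → Fin n → Prop, TH T b nu lam (ta / 6) ∧
      ∀ p v f, T p v f → ks A (Fin.cons v (Fin.cons f p) : Fin (m + 2) → Fin n) univ := by
  obtain ⟨m, rfl⟩ : ∃ m', m = m' + 1 := ⟨m - 1, by omega⟩
  set I : (Fin (m + 3) → Fin n) → Prop := fun N => i2 b lam A N univ with hI
  set Dv : Fin n → ℝ := fun v =>
    E (fun f : Fin n => E (fun p : Fin (m + 1) → Fin n => ind (I (b3c v f p)))) with hDv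
  set U : Set (Fin n) := {v | nu ≤ Dv v} with hU
  set T : (Fin (m + 1) → Fin n) → Fin n → Fin n → Prop := fun p v f =>
    I (b3c v f p) ∧ v ∉ U ∧ f ∉ U with hT
  have hTI : ∀ p v f, T p v f → I (b3c v f p) := fun p v f h => h.1
  -- the measure of `U`
  have hDsum : E Dv ≤ lam := by
    have e : E Dv = E (fun p : Fin (m + 1) → Fin n =>
        E (fun v : Fin n => E (fun f : Fin n => ind (I (b3c v f p))))) := by
      calc E Dv = E (fun v : Fin n => E (fun p : Fin (m + 1) → Fin n =>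
            E (fun f : Fin n => ind (I (b3c v f p))))) :=
            E_congr fun v => E_comm (fun (f : Fin n) (p : Fin (m + 1) → Fin n) =>
              ind (I (b3c v f p)))
        _ = _ := E_comm (fun (v : Fin n) (p : Fin (m + 1) → Fin n) =>
              E (fun f : Fin n => ind (I (b3c v f p))))
    rw [e]
    exact E_le_of_nonneg hlam.le fun p => b3_lam hlam.le hn A p
  have hmuU : mu U ≤ lam / nu := by
    rw [le_div_iff₀ hnu, mu, ← E_mul_right]
    refine le_trans (E_mono fun v => ?_) hDsum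
    by_cases hv : v ∈ U
    · rw [ind_true hv, one_mul]
      exact hv
    · rw [ind_false hv, zero_mul]
      exact E_nonneg fun f => E_nonneg fun p => ind_nonneg _
  have hmu0 : 0 ≤ mu U := E_nonneg fun v => ind_nonneg _
  -- the two kinds of pairs
  have hgood : E (fun N : Fin (m + 3) → Fin n => ind (I N ∧ N 0 ∉ U ∧ N 1 ∉ U)) =
      E (fun p : Fin (m + 1) → Fin n => lk T p) := by
    rw [b3_E]
    unfold lk
    rw [E_comm (fun (p : Fin (m + 1) → Fin n) (v : Fin n) => E (fun f : Fin n => ind (T p v f)))]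
    refine E_congr fun v => ?_
    rw [E_comm]
    rfl
  have hbad : E (fun N : Fin (m + 3) → Fin n => ind (I N ∧ N 0 ∈ U ∧ N 1 ∈ U)) ≤
      b * (lam / nu) ^ 2 := by
    rw [b3_E]
    calc E (fun v : Fin n => E (fun f : Fin n => E (fun p : Fin (m + 1) → Fin n =>
          ind (I (b3c v f p) ∧ (b3c v f p) 0 ∈ U ∧ (b3c v f p) 1 ∈ U))))
        ≤ E (fun v : Fin n => E (fun f : Fin n => ind (v ∈ U) * (ind (f ∈ U) * b))) := by
          refine E_mono fun v => E_mono fun f => ?_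
          calc E (fun p : Fin (m + 1) → Fin n =>
                ind (I (b3c v f p) ∧ (b3c v f p) 0 ∈ U ∧ (b3c v f p) 1 ∈ U))
              = E (fun p : Fin (m + 1) → Fin n =>
                  ind (v ∈ U) * (ind (f ∈ U)) * ind (I (b3c v f p))) := by
                refine E_congr fun p => ?_
                have e0 : (b3c v f p) 0 = v := rfl
                have e1 : (b3c v f p) 1 = f := rfl
                rw [e0, e1, ind_and, ind_and]
                ring
            _ = ind (v ∈ U) * (ind (f ∈ U)) *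
                  E (fun p : Fin (m + 1) → Fin n => ind (I (b3c v f p))) := E_mul_left _ _
            _ ≤ ind (v ∈ U) * (ind (f ∈ U)) * b :=
                mul_le_mul_of_nonneg_left (b3_b2 hb.le A v f)
                  (mul_nonneg (ind_nonneg _) (ind_nonneg _))
            _ = _ := by ring
      _ = mu U * (mu U * b) := by
          simp only [E_mul_left, E_mul_right]
          rfl
      _ ≤ (lam / nu) * ((lam / nu) * b) := by
          gcongr
      _ = _ := by ring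
  have hne01 : (0 : Fin (m + 3)) ≠ 1 := by simp
  have hne02 : (0 : Fin (m + 3)) ≠ 2 := by
    intro h0
    have h1 := congrArg Fin.val h0
    rw [Fin.val_two] at h1
    simp at h1
  have hne12 : (1 : Fin (m + 3)) ≠ 2 := by
    intro h0
    have h1 := congrArg Fin.val h0
    rw [Fin.val_two] at h1
    simp at h1
  have hpermE : ∀ (s : Set (Fin n)) (π : Equiv.Perm (Fin (m + 3))),
      E (fun N : Fin (m + 3) → Fin n => ind (I N ∧ N (π 0) ∈ s ∧ N (π 1) ∈ s)) =
      E (fun N : Fin (m + 3) → Fin n => ind (I N ∧ N 0 ∈ s ∧ N 1 ∈ s)) := by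
    intro s π
    rw [← b3_Eperm π (fun N : Fin (m + 3) → Fin n => ind (I N ∧ N 0 ∈ s ∧ N 1 ∈ s))]
    refine E_congr fun N => ind_congr ?_
    have : I (fun i => N (π i)) ↔ I N := i2_perm b lam A π N
    simp only [this]
  have h02 : ∀ s : Set (Fin n), E (fun N : Fin (m + 3) → Fin n => ind (I N ∧ N 0 ∈ s ∧ N 2 ∈ s)) =
      E (fun N : Fin (m + 3) → Fin n => ind (I N ∧ N 0 ∈ s ∧ N 1 ∈ s)) := by
    intro s
    rw [← hpermE s (Equiv.swap 1 2), Equiv.swap_apply_of_ne_of_ne hne01 hne02,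
      Equiv.swap_apply_left]
  have h21 : ∀ s : Set (Fin n), E (fun N : Fin (m + 3) → Fin n => ind (I N ∧ N 2 ∈ s ∧ N 1 ∈ s)) =
      E (fun N : Fin (m + 3) → Fin n => ind (I N ∧ N 0 ∈ s ∧ N 1 ∈ s)) := by
    intro s
    rw [← hpermE s (Equiv.swap 0 2), Equiv.swap_apply_left,
      Equiv.swap_apply_of_ne_of_ne hne01.symm hne12]
  have hpig : ∀ N : Fin (m + 3) → Fin n, ind (I N) ≤
      (ind (I N ∧ N 0 ∈ Uᶜ ∧ N 1 ∈ Uᶜ) + ind (I N ∧ N 0 ∈ Uᶜ ∧ N 2 ∈ Uᶜ) +
        ind (I N ∧ N 2 ∈ Uᶜ ∧ N 1 ∈ Uᶜ)) +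
      (ind (I N ∧ N 0 ∈ U ∧ N 1 ∈ U) + ind (I N ∧ N 0 ∈ U ∧ N 2 ∈ U) +
        ind (I N ∧ N 2 ∈ U ∧ N 1 ∈ U)) := by
    intro N
    have hnn := ind_nonneg (I N ∧ N 0 ∈ Uᶜ ∧ N 1 ∈ Uᶜ)
    have hnn2 := ind_nonneg (I N ∧ N 0 ∈ Uᶜ ∧ N 2 ∈ Uᶜ)
    have hnn3 := ind_nonneg (I N ∧ N 2 ∈ Uᶜ ∧ N 1 ∈ Uᶜ)
    have hnn4 := ind_nonneg (I N ∧ N 0 ∈ U ∧ N 1 ∈ U)
    have hnn5 := ind_nonneg (I N ∧ N 0 ∈ U ∧ N 2 ∈ U)
    have hnn6 := ind_nonneg (I N ∧ N 2 ∈ U ∧ N 1 ∈ U)
    by_cases hIN : I N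
    · rw [ind_true hIN]
      by_cases h0 : N 0 ∈ U <;> by_cases h1 : N 1 ∈ U <;> by_cases h2 : N 2 ∈ U
      · linarith [ind_true (P := I N ∧ N 0 ∈ U ∧ N 1 ∈ U) ⟨hIN, h0, h1⟩]
      · linarith [ind_true (P := I N ∧ N 0 ∈ U ∧ N 1 ∈ U) ⟨hIN, h0, h1⟩]
      · linarith [ind_true (P := I N ∧ N 0 ∈ U ∧ N 2 ∈ U) ⟨hIN, h0, h2⟩]
      · linarith [ind_true (P := I N ∧ N 2 ∈ Uᶜ ∧ N 1 ∈ Uᶜ) ⟨hIN, h2, h1⟩]
      · linarith [ind_true (P := I N ∧ N 2 ∈ U ∧ N 1 ∈ U) ⟨hIN, h2, h1⟩]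
      · linarith [ind_true (P := I N ∧ N 0 ∈ Uᶜ ∧ N 2 ∈ Uᶜ) ⟨hIN, h0, h2⟩]
      · linarith [ind_true (P := I N ∧ N 0 ∈ Uᶜ ∧ N 1 ∈ Uᶜ) ⟨hIN, h0, h1⟩]
      · linarith [ind_true (P := I N ∧ N 0 ∈ Uᶜ ∧ N 1 ∈ Uᶜ) ⟨hIN, h0, h1⟩]
    · rw [ind_false hIN]
      linarith
  have hsum : tau b lam (m + 3) A ≤
      3 * E (fun p : Fin (m + 1) → Fin n => lk T p) + 3 * (b * (lam / nu) ^ 2) := by
    have e1 := E_mono hpig
    rw [E_add, E_add, E_add, E_add, E_add, h02, h21, h02, h21] at e1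
    have e2 : E (fun N : Fin (m + 3) → Fin n => ind (I N ∧ N 0 ∈ Uᶜ ∧ N 1 ∈ Uᶜ)) =
      E (fun p : Fin (m + 1) → Fin n => lk T p) := hgood
    rw [e2] at e1
    have e3 : tau b lam (m + 3) A = E (fun N : Fin (m + 3) → Fin n => ind (I N)) := rfl
    rw [e3]
    linarith
  refine ⟨T, ⟨?_, ?_, ?_, ?_, ?_, ?_, ?_⟩, fun p v f hT => hT.1.1.1⟩
  · intro v f
    exact le_trans (E_mono fun p => ind_mono (hTI p v f)) (b3_b2 hb.le A v f)
  · intro v
    by_cases hv : v ∈ U
    · refine le_trans (le_of_eq ?_) hnu.le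
      have : ∀ (p : Fin (m + 1) → Fin n), E (fun f : Fin n => ind (T p v f)) = 0 := by
        intro p
        have h0 : ∀ f, ind (T p v f) = 0 := fun f => ind_false fun hh => hh.2.1 hv
        rw [E_congr h0, E_zero]
      rw [E_congr this, E_zero]
    · rw [E_comm]
      refine le_trans (E_mono fun f => E_mono fun p => ind_mono (hTI p v f)) ?_
      exact (not_le.1 hv).le
  · intro f
    by_cases hf : f ∈ U
    · refine le_trans (le_of_eq ?_) hnu.le
      have : ∀ (p : Fin (m + 1) → Fin n), E (fun v : Fin n => ind (T p v f)) = 0 := by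
        intro p
        have h0 : ∀ v, ind (T p v f) = 0 := fun v => ind_false fun hh => hh.2.2 hf
        rw [E_congr h0, E_zero]
      rw [E_congr this, E_zero]
    · rw [E_comm]
      refine le_trans (E_mono fun v => E_mono fun p =>
        ind_mono fun hh => (b3_i2_swap b lam A v f p).1 (hTI p v f hh)) ?_
      exact (not_le.1 hf).le
  · intro p
    exact le_trans (E_mono fun v => E_mono fun f => ind_mono (hTI p v f)) (b3_lam hlam.le hn A p)
  · intro p v
    exact le_trans (E_mono fun f => ind_mono (hTI p v f)) (b3_b1 hb.le A v p)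
  · intro p f
    exact le_trans (E_mono fun v => ind_mono (hTI p v f)) (b3_b0 hb.le A f p)
  · have h3 : ta ≤ tau b lam (m + 3) A := h
    nlinarith

end Pool.Agent.H290R2.Col
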