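import Pool.Agent.H290R2.Col.A9
import Pool.Agent.H290R2.Col.B3

/-! Task B6 (helper57): third reduction. -/

set_option autoImplicit false

namespace Pool.Agent.H290R2.Col
open Finset Filter Pool.Agent.H999R2.KSat

/-- B6, third reduction. -/
theorem R3 {n k t m q : ℕ} (b nu lam ta : ℝ) (A : Set (Cg n k)) (hk : 1 ≤ k) (hm : 1 ≤ m)
    (hn : 2 ≤ n) (hq : 1 ≤ q) (hb : 0 < b) (hb1 : 16 * b ≤ 1)
    (hnu : 0 < nu) (hlam : 0 < lam) (hta : 0 < ta)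
    (h6 : 6 * (lam / nu) ^ 2 * b ≤ ta)
    (n1 : 32 * b * q * lam ^ 2 ≤ (ta / 6) ^ 2) (n2 : 16 * nu * lam * q ≤ b * (ta / 6))
    (n3 : 128 * Lg n * Real.log n ≤ (q * (ta / 6) / 8) * t)
    (n4 : 2 / (n : ℝ) ≤ (q * (ta / 6) / 8) / (32 * Lg n * (16 * b)))
    (n5 : 2 ≤ (q * (ta / 6) / 8) * n) (n6 : 2 / (n : ℝ) ≤ (ta / 6) / (8 * lam) / 2 ^ m)
    (h : ta ≤ tau b lam (m + 2) A) :
    E (fun W : Fin (t + t) → NL n => ind (A ∩ Col W).Nonempty) ≤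
      (n : ℝ) ^ (m * q) * kwb n t (q * (ta / 6) / 8) (16 * b) +
        q * ((n : ℝ) + 1) ^ (m * q) *
          Real.exp (-(t * ((ta / 6) / (8 * lam) / 2 ^ m) ^ 2 / 2)) := by
  obtain ⟨T, hT, hks⟩ := extr b nu lam ta A hm (by omega) hb hnu hlam hta h6 h
  refine le_trans ?_ (ST3 (t := t) T b nu lam (ta / 6) hT hn hq hb hb1 hnu hlam (by positivity)
    n1 n2 n3 n4 n5 n6)
  refine E_mono fun W => ind_mono ?_
  rintro ⟨a, haA, haW⟩
  refine ⟨{x | a x = (⟨0, hk⟩ : Fin k)}, ?_, ?_⟩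
  · intro j hj
    exact haW j (hj.1.trans hj.2.symm)
  · intro p v f hpvf
    obtain ⟨i, -, hi⟩ := hks p v f hpvf a haA (⟨0, hk⟩ : Fin k)
    induction i using Fin.cases with
    | zero => exact Or.inr (Or.inl hi)
    | succ i =>
      induction i using Fin.cases with
      | zero => exact Or.inr (Or.inr hi)
      | succ i => exact Or.inl ⟨i, hi⟩

end Pool.Agent.H290R2.Col
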