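import Pool.Agent.H290R2.Col.Defs

/-! Survival probabilities. -/

set_option autoImplicit false

namespace Pool.Agent.H290R2.Col
open Finset Filter Pool.Agent.H999R2.KSat

theorem svv_nonneg {n k : ℕ} (t : ℕ) (A : Set (Cg n k)) : 0 ≤ svv t A :=
  E_nonneg fun _ => ind_nonneg _

theorem svv_le_one {n k : ℕ} (t : ℕ) (A : Set (Cg n k)) : svv t A ≤ 1 :=
  E_le_of_nonneg zero_le_one fun _ => ind_le_one _

theorem svv_empty {n k : ℕ} (t : ℕ) : svv t (∅ : Set (Cg n k)) = 0 := by
  unfold svv
  rw [E_congr (g := fun _ => (0 : ℝ)) fun W => ind_false (by simp), E_zero]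

theorem b7_append {n k s t : ℕ} (W : Fin s → NL n) (W' : Fin t → NL n) :
    (Col (Fin.append W W') : Set (Cg n k)) = Col W ∩ Col W' := by
  ext a
  constructor
  · intro h
    refine ⟨fun j => ?_, fun j => ?_⟩
    · have := h (Fin.castAdd t j)
      rwa [Fin.append_left] at this
    · have := h (Fin.natAdd s j)
      rwa [Fin.append_right] at this
  · rintro ⟨h1, h2⟩ j
    refine Fin.addCases (fun i => ?_) (fun i => ?_) j
    · rw [Fin.append_left]
      exact h1 i
    · rw [Fin.append_right]
      exact h2 i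

theorem svv_add {n k : ℕ} (s t : ℕ) (A : Set (Cg n k)) :
    svv (s + t) A = E (fun W : Fin s → NL n => svv t (A ∩ Col W)) := by
  unfold svv
  rw [E_append]
  refine E_congr fun W => E_congr fun W' => ?_
  rw [b7_append, Set.inter_assoc]

theorem svv_anti {n k : ℕ} {s t : ℕ} (h : s ≤ t) (A : Set (Cg n k)) : svv t A ≤ svv s A := by
  obtain ⟨d, rfl⟩ := Nat.exists_eq_add_of_le h
  rw [svv_add]
  refine E_mono fun W => ?_
  exact E_le_of_nonneg (ind_nonneg _) fun W' => ind_mono fun h => h.mono Set.inter_subset_left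

/-- exactly: `A` nonempty after the first `u` of the `s` pairs -/
theorem svv_prefix {n k : ℕ} (s u : ℕ) (hu : u ≤ s) (hn : 2 ≤ n) (A : Set (Cg n k)) :
    E (fun W : Fin s → NL n => ind (A ∩ PF W u).Nonempty) = svv u A := by
  obtain ⟨d, rfl⟩ := Nat.exists_eq_add_of_le hu
  have hne : Nonempty (NL n) := ⟨⟨(⟨0, by omega⟩, ⟨1, by omega⟩), by simp⟩⟩
  rw [E_append]
  unfold svv
  refine E_congr fun W => ?_
  have h1 : ∀ W' : Fin d → NL n, (PF (Fin.append W W') u : Set (Cg n k)) = Col W := by
    intro W'
    ext a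
    constructor
    · intro h j
      have := h (Fin.castAdd d j) (by simp)
      rwa [Fin.append_left] at this
    · intro h j
      refine Fin.addCases (fun i => ?_) (fun i => ?_) j
      · intro _
        rw [Fin.append_left]
        exact h i
      · intro hi
        simp at hi
  rw [E_congr (g := fun _ => ind (A ∩ Col W).Nonempty) fun W' => by rw [h1 W'], E_const]

end Pool.Agent.H290R2.Col
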