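import Pool.Agent.H290R2.Col.Defs
import Pool.Agent.H290R2.Col.B1
import Pool.Agent.H290R2.Col.B2
import Pool.Agent.H290R2.Col.B7

/-!
# Task B8: the rounds (main recursion of the static theorem)
-/

set_option autoImplicit false

namespace Pool.Agent.H290R2.Col
open Finset Filter Pool.Agent.H999R2.KSat

/-- the condition under which the position `i` can be erased -/
def b8_P {n k D : ℕ} (b : ℝ) (A : Set (Cg n k)) (N : Fin D → Fin n) (S : Finset (Fin D))
    (i : Fin D) : Prop :=
  b ≤ E (fun v : Fin n => ind (ks A (Function.update N i v) S))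

/-- the condition under which the positions `i`, `l` can be erased -/
def b8_Q {n k D : ℕ} (b lam : ℝ) (A : Set (Cg n k)) (N : Fin D → Fin n) (S : Finset (Fin D))
    (i l : Fin D) : Prop :=
  i ≠ l ∧ lam ≤ E (fun v : Fin n => E (fun f : Fin n =>
        ind (i1 b A (Function.update (Function.update N i v) l f) S)))

/-- the error term of the set of positions `S` -/
noncomputable def b8_err {n k D : ℕ} (b lam : ℝ) (A A' : Set (Cg n k)) (N : Fin D → Fin n)
    (S : Finset (Fin D)) : ℝ :=
  ind (i2 b lam A N S) +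
    ∑ i ∈ S, ind (b8_P b A N S i ∧ ¬ ks A' N (S.erase i)) +
    ∑ i ∈ S, ∑ l ∈ S, ind (b8_Q b lam A N S i l ∧ ¬ ks A' N ((S.erase i).erase l))

/-- the probability that at most `j` positions kill -/
noncomputable def b8_K {n k : ℕ} (D j : ℕ) (A : Set (Cg n k)) : ℝ :=
  E (fun N : Fin D → Fin n => ind (∃ S : Finset (Fin D), S.card ≤ j ∧ ks A N S))

theorem b8_err_nonneg {n k D : ℕ} (b lam : ℝ) (A A' : Set (Cg n k)) (N : Fin D → Fin n)
    (S : Finset (Fin D)) : 0 ≤ b8_err b lam A A' N S := by
  unfold b8_err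
  have h1 := ind_nonneg (i2 b lam A N S)
  have h2 : 0 ≤ ∑ i ∈ S, ind (b8_P b A N S i ∧ ¬ ks A' N (S.erase i)) :=
    Finset.sum_nonneg fun i _ => ind_nonneg _
  have h3 : 0 ≤ ∑ i ∈ S, ∑ l ∈ S,
      ind (b8_Q b lam A N S i l ∧ ¬ ks A' N ((S.erase i).erase l)) :=
    Finset.sum_nonneg fun i _ => Finset.sum_nonneg fun l _ => ind_nonneg _
  linarith

theorem b8_pointwise {n k D : ℕ} (p : ℕ) (b lam : ℝ) (A A' : Set (Cg n k)) (hA : A' ⊆ A)
    (N : Fin D → Fin n) :
    ind (∃ S : Finset (Fin D), S.card ≤ p + 1 ∧ ks A N S) ≤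
      ind (∃ S : Finset (Fin D), S.card ≤ p ∧ ks A' N S) +
      ∑ S ∈ univ.filter (fun S : Finset (Fin D) => S.card = p + 1), b8_err b lam A A' N S := by
  have herr : 0 ≤ ∑ S ∈ univ.filter (fun S : Finset (Fin D) => S.card = p + 1),
      b8_err b lam A A' N S := Finset.sum_nonneg fun S _ => b8_err_nonneg _ _ _ _ _ _
  by_cases hex : ∃ S : Finset (Fin D), S.card ≤ p + 1 ∧ ks A N S
  · rw [ind_true hex]
    by_cases hsm : ∃ S : Finset (Fin D), S.card ≤ p ∧ ks A' N S
    · rw [ind_true hsm]; linarith
    · rw [ind_false hsm, zero_add]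
      obtain ⟨S, hS, hk⟩ := hex
      have hcard : S.card = p + 1 := by
        by_contra hne
        exact hsm ⟨S, by omega, ks_anti hA hk⟩
      have hge : b8_err b lam A A' N S ≤
          ∑ S ∈ univ.filter (fun S : Finset (Fin D) => S.card = p + 1), b8_err b lam A A' N S :=
        Finset.single_le_sum (f := fun S => b8_err b lam A A' N S)
          (fun S _ => b8_err_nonneg _ _ _ _ _ _) (by simp [hcard])
      refine le_trans ?_ hge
      unfold b8_err
      have h1 := ind_nonneg (i2 b lam A N S)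
      have h2 : 0 ≤ ∑ i ∈ S, ind (b8_P b A N S i ∧ ¬ ks A' N (S.erase i)) :=
        Finset.sum_nonneg fun i _ => ind_nonneg _
      have h3 : 0 ≤ ∑ i ∈ S, ∑ l ∈ S,
          ind (b8_Q b lam A N S i l ∧ ¬ ks A' N ((S.erase i).erase l)) :=
        Finset.sum_nonneg fun i _ => Finset.sum_nonneg fun l _ => ind_nonneg _
      by_cases hi1 : i1 b A N S
      · by_cases hi2 : i2 b lam A N S
        · rw [ind_true hi2]; linarith
        · -- some pair
          have hex2 : ∃ i ∈ S, ∃ l ∈ S, b8_Q b lam A N S i l := by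
            by_contra hcon
            refine hi2 ⟨hi1, fun i hi l hl hil => ?_⟩
            by_contra hlt
            exact hcon ⟨i, hi, l, hl, hil, not_lt.1 hlt⟩
          obtain ⟨i, hi, l, hl, hQ⟩ := hex2
          have hnk : ¬ ks A' N ((S.erase i).erase l) := by
            intro hk'
            refine hsm ⟨(S.erase i).erase l, ?_, hk'⟩
            have h4 := Finset.card_erase_le (s := S.erase i) (a := l)
            have h5 := Finset.card_erase_of_mem hi
            omega
          have h4 : (1 : ℝ) ≤ ∑ i ∈ S, ∑ l ∈ S,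
              ind (b8_Q b lam A N S i l ∧ ¬ ks A' N ((S.erase i).erase l)) := by
            calc (1 : ℝ) = ind (b8_Q b lam A N S i l ∧ ¬ ks A' N ((S.erase i).erase l)) :=
                  (ind_true ⟨hQ, hnk⟩).symm
              _ ≤ ∑ l ∈ S, ind (b8_Q b lam A N S i l ∧ ¬ ks A' N ((S.erase i).erase l)) :=
                  Finset.single_le_sum
                    (f := fun l => ind (b8_Q b lam A N S i l ∧ ¬ ks A' N ((S.erase i).erase l)))
                    (fun l _ => ind_nonneg _) hl
              _ ≤ _ := Finset.single_le_sum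
                    (f := fun i => ∑ l ∈ S,
                      ind (b8_Q b lam A N S i l ∧ ¬ ks A' N ((S.erase i).erase l)))
                    (fun i _ => Finset.sum_nonneg fun l _ => ind_nonneg _) hi
          linarith
      · have hex1 : ∃ i ∈ S, b8_P b A N S i := by
          by_contra hcon
          refine hi1 ⟨hk, fun i hi => ?_⟩
          by_contra hlt
          exact hcon ⟨i, hi, not_lt.1 hlt⟩
        obtain ⟨i, hi, hP⟩ := hex1
        have hnk : ¬ ks A' N (S.erase i) := by
          intro hk'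
          refine hsm ⟨S.erase i, ?_, hk'⟩
          have h5 := Finset.card_erase_of_mem hi
          omega
        have h4 : (1 : ℝ) ≤ ∑ i ∈ S, ind (b8_P b A N S i ∧ ¬ ks A' N (S.erase i)) := by
          calc (1 : ℝ) = ind (b8_P b A N S i ∧ ¬ ks A' N (S.erase i)) :=
                (ind_true ⟨hP, hnk⟩).symm
            _ ≤ _ := Finset.single_le_sum
                  (f := fun i => ind (b8_P b A N S i ∧ ¬ ks A' N (S.erase i)))
                  (fun i _ => ind_nonneg _) hi
        linarith
  · rw [ind_false hex]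
    have := ind_nonneg (∃ S : Finset (Fin D), S.card ≤ p ∧ ks A' N S)
    linarith

/-- small killers do not exist -/
theorem b8_small {n k : ℕ} (D j : ℕ) (hk : 3 ≤ k) (hj : j < 3) (R : ℕ) (A : Set (Cg n k)) :
    svv R A * b8_K D j A = 0 := by
  rcases A.eq_empty_or_nonempty with rfl | hA
  · rw [svv_empty, zero_mul]
  · have : b8_K D j A = 0 := by
      unfold b8_K
      rw [← E_zero (α := Fin D → Fin n)]
      refine E_congr fun N => ind_false ?_
      rintro ⟨S, hS, hkk⟩
      have := ks_card hA hkk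
      omega
    rw [this, mul_zero]

theorem b8_E_err {n k D T : ℕ} (hn : 2 ≤ n) (b lam ta et : ℝ) (hta : 0 ≤ ta)
    (het : 0 ≤ et)
    (H1 : ∀ (A : Set (Cg n k)) (N : Fin D → Fin n) (S : Finset (Fin D)) (i : Fin D), i ∈ S →
      b ≤ E (fun v : Fin n => ind (ks A (Function.update N i v) S)) →
      E (fun W : Fin T → NL n => ind (¬ ks (A ∩ Col W) N (S.erase i))) ≤ et)
    (H2 : ∀ (A : Set (Cg n k)) (N : Fin D → Fin n) (S : Finset (Fin D)) (i l : Fin D), i ∈ S →
      l ∈ S → i ≠ l →
      lam ≤ E (fun v : Fin n => E (fun f : Fin n =>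
        ind (i1 b A (Function.update (Function.update N i v) l f) S))) →
      E (fun W : Fin T → NL n => ind (¬ ks (A ∩ Col W) N ((S.erase i).erase l))) ≤ et)
    (H3 : ∀ (A : Set (Cg n k)) (m : ℕ), 1 ≤ m → m + 2 ≤ D → ta ≤ tau b lam (m + 2) A →
      E (fun W : Fin T → NL n => ind (A ∩ Col W).Nonempty) ≤ et)
    (A : Set (Cg n k)) (h : (Fin T → NL n) → ℝ) (h0 : ∀ W, 0 ≤ h W) (h1 : ∀ W, h W ≤ 1)
    (hT : E h ≤ svv T A) (S : Finset (Fin D)) (hS : 3 ≤ S.card) :
    E (fun N : Fin D → Fin n => E (fun W : Fin T → NL n =>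
      h W * b8_err b lam A (A ∩ Col W) N S)) ≤ ta + (1 + D + D ^ 2) * et := by
  have hSD : S.card ≤ D := by
    simpa using Finset.card_le_univ S
  have hE0 : 0 ≤ E h := E_nonneg h0
  have hE1 : E h ≤ 1 := E_le_of_nonneg zero_le_one h1
  -- first term
  have t1 : E (fun N : Fin D → Fin n => E (fun W : Fin T → NL n =>
      h W * ind (i2 b lam A N S))) ≤ ta + et := by
    have e1 : E (fun N : Fin D → Fin n => E (fun W : Fin T → NL n =>
        h W * ind (i2 b lam A N S))) = E h * tau b lam S.card A := by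
      rw [← i2_transport (by omega) b lam A S, ← E_mul_left]
      refine E_congr fun N => ?_
      rw [E_mul_right]
    rw [e1]
    have htau0 : 0 ≤ tau b lam S.card A := E_nonneg fun _ => ind_nonneg _
    have htau1 : tau b lam S.card A ≤ 1 := E_le_of_nonneg zero_le_one fun _ => ind_le_one _
    by_cases hc : ta ≤ tau b lam S.card A
    · have h3 : E h ≤ et := by
        refine hT.trans ?_
        have := H3 A (S.card - 2) (by omega) (by omega)
          (by rw [show S.card - 2 + 2 = S.card by omega]; exact hc)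
        exact this
      nlinarith
    · push Not at hc
      nlinarith
  -- second term
  have t2 : ∀ i ∈ S, E (fun N : Fin D → Fin n => E (fun W : Fin T → NL n =>
      h W * ind (b8_P b A N S i ∧ ¬ ks (A ∩ Col W) N (S.erase i)))) ≤ et := by
    intro i hi
    refine E_le_of_nonneg het fun N => ?_
    have e1 : E (fun W : Fin T → NL n =>
        h W * ind (b8_P b A N S i ∧ ¬ ks (A ∩ Col W) N (S.erase i))) ≤
        E (fun W : Fin T → NL n => ind (b8_P b A N S i ∧ ¬ ks (A ∩ Col W) N (S.erase i))) := by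
      refine E_mono fun W => ?_
      exact mul_le_of_le_one_left (ind_nonneg _) (h1 W)
    refine e1.trans ?_
    by_cases hP : b8_P b A N S i
    · refine le_trans (E_mono fun W => ind_mono fun hh => hh.2) (H1 A N S i hi hP)
    · refine E_le_of_nonneg het fun W => ?_
      rw [ind_false fun hh => hP hh.1]
      exact het
  -- third term
  have t3 : ∀ i ∈ S, ∀ l ∈ S, E (fun N : Fin D → Fin n => E (fun W : Fin T → NL n =>
      h W * ind (b8_Q b lam A N S i l ∧ ¬ ks (A ∩ Col W) N ((S.erase i).erase l)))) ≤ et := by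
    intro i hi l hl
    refine E_le_of_nonneg het fun N => ?_
    have e1 : E (fun W : Fin T → NL n =>
        h W * ind (b8_Q b lam A N S i l ∧ ¬ ks (A ∩ Col W) N ((S.erase i).erase l))) ≤
        E (fun W : Fin T → NL n =>
          ind (b8_Q b lam A N S i l ∧ ¬ ks (A ∩ Col W) N ((S.erase i).erase l))) := by
      refine E_mono fun W => ?_
      exact mul_le_of_le_one_left (ind_nonneg _) (h1 W)
    refine e1.trans ?_
    by_cases hQ : b8_Q b lam A N S i l
    · exact le_trans (E_mono fun W => ind_mono fun hh => hh.2) (H2 A N S i l hi hl hQ.1 hQ.2)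
    · refine E_le_of_nonneg het fun W => ?_
      rw [ind_false fun hh => hQ hh.1]
      exact het
  -- sum
  have hsum : E (fun N : Fin D → Fin n => E (fun W : Fin T → NL n =>
      h W * b8_err b lam A (A ∩ Col W) N S)) =
      E (fun N : Fin D → Fin n => E (fun W : Fin T → NL n => h W * ind (i2 b lam A N S))) +
      ∑ i ∈ S, E (fun N : Fin D → Fin n => E (fun W : Fin T → NL n =>
        h W * ind (b8_P b A N S i ∧ ¬ ks (A ∩ Col W) N (S.erase i)))) +
      ∑ i ∈ S, ∑ l ∈ S, E (fun N : Fin D → Fin n => E (fun W : Fin T → NL n =>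
        h W * ind (b8_Q b lam A N S i l ∧ ¬ ks (A ∩ Col W) N ((S.erase i).erase l)))) := by
    have g1 : ∀ N : Fin D → Fin n, E (fun W : Fin T → NL n =>
        h W * b8_err b lam A (A ∩ Col W) N S) =
        E (fun W : Fin T → NL n => h W * ind (i2 b lam A N S)) +
        ∑ i ∈ S, E (fun W : Fin T → NL n =>
          h W * ind (b8_P b A N S i ∧ ¬ ks (A ∩ Col W) N (S.erase i))) +
        ∑ i ∈ S, ∑ l ∈ S, E (fun W : Fin T → NL n =>
          h W * ind (b8_Q b lam A N S i l ∧ ¬ ks (A ∩ Col W) N ((S.erase i).erase l))) := by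
      intro N
      have g2 : ∀ W : Fin T → NL n, h W * b8_err b lam A (A ∩ Col W) N S =
          h W * ind (i2 b lam A N S) +
          (∑ i ∈ S, h W * ind (b8_P b A N S i ∧ ¬ ks (A ∩ Col W) N (S.erase i))) +
          ∑ i ∈ S, ∑ l ∈ S,
            h W * ind (b8_Q b lam A N S i l ∧ ¬ ks (A ∩ Col W) N ((S.erase i).erase l)) := by
        intro W
        unfold b8_err
        rw [mul_add, mul_add, Finset.mul_sum, Finset.mul_sum]
        congr 1
        exact Finset.sum_congr rfl fun i _ => Finset.mul_sum _ _ _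
      rw [E_congr g2, E_add, E_add, E_sum, E_sum]
      congr 1
      exact Finset.sum_congr rfl fun i _ => E_sum _ _
    rw [E_congr g1, E_add, E_add, E_sum, E_sum]
    congr 1
    exact Finset.sum_congr rfl fun i _ => E_sum _ _
  rw [hsum]
  have s2 : ∑ i ∈ S, E (fun N : Fin D → Fin n => E (fun W : Fin T → NL n =>
        h W * ind (b8_P b A N S i ∧ ¬ ks (A ∩ Col W) N (S.erase i)))) ≤ S.card * et := by
    have := Finset.sum_le_card_nsmul S _ et t2
    simpa [nsmul_eq_mul] using this
  have s3 : ∑ i ∈ S, ∑ l ∈ S, E (fun N : Fin D → Fin n => E (fun W : Fin T → NL n =>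
        h W * ind (b8_Q b lam A N S i l ∧ ¬ ks (A ∩ Col W) N ((S.erase i).erase l)))) ≤
      S.card * (S.card * et) := by
    have h5 : ∀ i ∈ S, ∑ l ∈ S, E (fun N : Fin D → Fin n => E (fun W : Fin T → NL n =>
        h W * ind (b8_Q b lam A N S i l ∧ ¬ ks (A ∩ Col W) N ((S.erase i).erase l)))) ≤
        S.card * et := by
      intro i hi
      have := Finset.sum_le_card_nsmul S _ et (t3 i hi)
      simpa [nsmul_eq_mul] using this
    have := Finset.sum_le_card_nsmul S _ _ h5
    simpa [nsmul_eq_mul] using this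
  have hcD : (S.card : ℝ) ≤ D := by exact_mod_cast hSD
  have hc0 : (0 : ℝ) ≤ S.card := Nat.cast_nonneg _
  have s4 : (S.card : ℝ) * et ≤ D * et := mul_le_mul_of_nonneg_right hcD het
  have s5 : (S.card : ℝ) * (S.card * et) ≤ D * (D * et) :=
    mul_le_mul hcD s4 (mul_nonneg hc0 het) (hc0.trans hcD)
  nlinarith

theorem b8_claim {n k D T : ℕ} (hk : 3 ≤ k) (hn : 2 ≤ n) (b lam ta et : ℝ) (hta : 0 ≤ ta)
    (het : 0 ≤ et)
    (H1 : ∀ (A : Set (Cg n k)) (N : Fin D → Fin n) (S : Finset (Fin D)) (i : Fin D), i ∈ S →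
      b ≤ E (fun v : Fin n => ind (ks A (Function.update N i v) S)) →
      E (fun W : Fin T → NL n => ind (¬ ks (A ∩ Col W) N (S.erase i))) ≤ et)
    (H2 : ∀ (A : Set (Cg n k)) (N : Fin D → Fin n) (S : Finset (Fin D)) (i l : Fin D), i ∈ S →
      l ∈ S → i ≠ l →
      lam ≤ E (fun v : Fin n => E (fun f : Fin n =>
        ind (i1 b A (Function.update (Function.update N i v) l f) S))) →
      E (fun W : Fin T → NL n => ind (¬ ks (A ∩ Col W) N ((S.erase i).erase l))) ≤ et)
    (H3 : ∀ (A : Set (Cg n k)) (m : ℕ), 1 ≤ m → m + 2 ≤ D → ta ≤ tau b lam (m + 2) A →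
      E (fun W : Fin T → NL n => ind (A ∩ Col W).Nonempty) ≤ et) :
    ∀ j : ℕ, j ≤ D → ∀ R : ℕ, j ≤ R → ∀ A : Set (Cg n k),
      svv (R * T) A * b8_K D j A ≤ j * (2 ^ D * (ta + (1 + D + D ^ 2) * et)) := by
  have hE0 : 0 ≤ (2 : ℝ) ^ D * (ta + (1 + D + D ^ 2) * et) := by positivity
  intro j
  induction j with
  | zero =>
    intro _ R _ A
    rw [b8_small D 0 hk (by norm_num)]
    simp
  | succ j ih =>
    intro hjD R hR A
    by_cases hj3 : j + 1 < 3
    · rw [b8_small D (j + 1) hk hj3]
      positivity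
    · push Not at hj3
      obtain ⟨R', rfl⟩ : ∃ R', R = R' + 1 := ⟨R - 1, by omega⟩
      set h : (Fin T → NL n) → ℝ := fun W => svv (R' * T) (A ∩ Col W) with hh
      have h0 : ∀ W, 0 ≤ h W := fun W => svv_nonneg _ _
      have h1 : ∀ W, h W ≤ 1 := fun W => svv_le_one _ _
      have hsv : svv ((R' + 1) * T) A = E h := by
        rw [show (R' + 1) * T = T + R' * T by ring, svv_add]
      have hT : E h ≤ svv T A := by
        rw [← hsv]
        exact svv_anti (by nlinarith) A
      rw [hsv]
      have e1 : E h * b8_K D (j + 1) A = E (fun N : Fin D → Fin n => E (fun W : Fin T → NL n =>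
          h W * ind (∃ S : Finset (Fin D), S.card ≤ j + 1 ∧ ks A N S))) := by
        unfold b8_K
        rw [← E_mul_left]
        refine E_congr fun N => ?_
        rw [E_mul_right]
      have e2 : E (fun N : Fin D → Fin n => E (fun W : Fin T → NL n =>
          h W * ind (∃ S : Finset (Fin D), S.card ≤ j + 1 ∧ ks A N S))) ≤
          E (fun N : Fin D → Fin n => E (fun W : Fin T → NL n =>
            h W * ind (∃ S : Finset (Fin D), S.card ≤ j ∧ ks (A ∩ Col W) N S))) +
          ∑ S ∈ univ.filter (fun S : Finset (Fin D) => S.card = j + 1),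
            E (fun N : Fin D → Fin n => E (fun W : Fin T → NL n =>
              h W * b8_err b lam A (A ∩ Col W) N S)) := by
        have g1 : ∀ N : Fin D → Fin n, E (fun W : Fin T → NL n =>
            h W * ind (∃ S : Finset (Fin D), S.card ≤ j + 1 ∧ ks A N S)) ≤
            E (fun W : Fin T → NL n =>
              h W * ind (∃ S : Finset (Fin D), S.card ≤ j ∧ ks (A ∩ Col W) N S)) +
            ∑ S ∈ univ.filter (fun S : Finset (Fin D) => S.card = j + 1),
              E (fun W : Fin T → NL n => h W * b8_err b lam A (A ∩ Col W) N S) := by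
          intro N
          have g2 : ∀ W : Fin T → NL n,
              h W * ind (∃ S : Finset (Fin D), S.card ≤ j + 1 ∧ ks A N S) ≤
              h W * ind (∃ S : Finset (Fin D), S.card ≤ j ∧ ks (A ∩ Col W) N S) +
              ∑ S ∈ univ.filter (fun S : Finset (Fin D) => S.card = j + 1),
                h W * b8_err b lam A (A ∩ Col W) N S := by
            intro W
            rw [← Finset.mul_sum, ← mul_add]
            exact mul_le_mul_of_nonneg_left
              (b8_pointwise j b lam A (A ∩ Col W) Set.inter_subset_left N) (h0 W)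
          refine (E_mono g2).trans (le_of_eq ?_)
          rw [E_add, E_sum]
        refine (E_mono g1).trans (le_of_eq ?_)
        rw [E_add, E_sum]
      have e3 : E (fun N : Fin D → Fin n => E (fun W : Fin T → NL n =>
            h W * ind (∃ S : Finset (Fin D), S.card ≤ j ∧ ks (A ∩ Col W) N S))) ≤
          j * (2 ^ D * (ta + (1 + D + D ^ 2) * et)) := by
        rw [E_comm]
        refine E_le_of_nonneg (by positivity) fun W => ?_
        rw [E_mul_left]
        exact ih (by omega) R' (by omega) (A ∩ Col W)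
      have e4 : ∑ S ∈ univ.filter (fun S : Finset (Fin D) => S.card = j + 1),
            E (fun N : Fin D → Fin n => E (fun W : Fin T → NL n =>
              h W * b8_err b lam A (A ∩ Col W) N S)) ≤
          2 ^ D * (ta + (1 + D + D ^ 2) * et) := by
        have h5 : ∀ S ∈ univ.filter (fun S : Finset (Fin D) => S.card = j + 1),
            E (fun N : Fin D → Fin n => E (fun W : Fin T → NL n =>
              h W * b8_err b lam A (A ∩ Col W) N S)) ≤ ta + (1 + D + D ^ 2) * et := by
          intro S hS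
          have hc : S.card = j + 1 := by simpa using hS
          exact b8_E_err hn b lam ta et hta het H1 H2 H3 A h h0 h1 hT S (by omega)
        have h6 := Finset.sum_le_card_nsmul _ _ _ h5
        refine h6.trans ?_
        rw [nsmul_eq_mul]
        have h7 : (univ.filter (fun S : Finset (Fin D) => S.card = j + 1)).card ≤ 2 ^ D := by
          refine (Finset.card_le_univ _).trans ?_
          simp
        have h8 : ((univ.filter (fun S : Finset (Fin D) => S.card = j + 1)).card : ℝ) ≤ 2 ^ D := by
          exact_mod_cast h7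
        exact mul_le_mul_of_nonneg_right h8 (by positivity)
      rw [e1]
      refine e2.trans ?_
      push_cast
      linarith

theorem assembly {n k D T : ℕ} (hk : 3 ≤ k) (hn : 2 ≤ n) (b lam ta et : ℝ) (hta : 0 ≤ ta)
    (het : 0 ≤ et)
    (H1 : ∀ (A : Set (Cg n k)) (N : Fin D → Fin n) (S : Finset (Fin D)) (i : Fin D), i ∈ S →
      b ≤ E (fun v : Fin n => ind (ks A (Function.update N i v) S)) →
      E (fun W : Fin T → NL n => ind (¬ ks (A ∩ Col W) N (S.erase i))) ≤ et)
    (H2 : ∀ (A : Set (Cg n k)) (N : Fin D → Fin n) (S : Finset (Fin D)) (i l : Fin D), i ∈ S →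
      l ∈ S → i ≠ l →
      lam ≤ E (fun v : Fin n => E (fun f : Fin n =>
        ind (i1 b A (Function.update (Function.update N i v) l f) S))) →
      E (fun W : Fin T → NL n => ind (¬ ks (A ∩ Col W) N ((S.erase i).erase l))) ≤ et)
    (H3 : ∀ (A : Set (Cg n k)) (m : ℕ), 1 ≤ m → m + 2 ≤ D → ta ≤ tau b lam (m + 2) A →
      E (fun W : Fin T → NL n => ind (A ∩ Col W).Nonempty) ≤ et)
    (A : Set (Cg n k)) (hA : A.Nonempty) (hs : 1 / 2 ≤ svv (D * T) A) :
    TD D A ≤ 2 * D * (2 ^ D * (ta + (1 + D + D ^ 2) * et)) := by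
  have h1 := b8_claim hk hn b lam ta et hta het H1 H2 H3 D le_rfl D le_rfl A
  have h2 : TD D A ≤ b8_K D D A := by
    refine E_mono fun N => ind_mono fun hkk => ⟨univ, ?_, hkk⟩
    simp
  have h3 : 0 ≤ b8_K D D A := E_nonneg fun _ => ind_nonneg _
  nlinarith

end Pool.Agent.H290R2.Col
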