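import Pool.Agent.H290R2.Col.Defs

/-!
# Numerical inequalities for the static theorem
-/

namespace Pool.Agent.H290R2.Col

open Finset

/-- the common hypotheses, in terms of `u = t ^ (1 / 400)`, `x = log t`, `y = log n` -/
structure b9_H (u x y N L q : ℝ) : Prop where
  x1 : 1 ≤ x
  K : 10 ^ 13 * x ^ 4 ≤ u ^ 2
  u1 : 1 ≤ u
  y1 : x ≤ y
  y3 : y ≤ 3 * x
  N1 : u ^ 400 ≤ N
  Ny : N = Real.exp y
  L1 : 1 ≤ L
  L9 : L ≤ 9 * x
  q1 : u ^ 20 ≤ q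
  q2 : q ≤ 2 * u ^ 20

namespace b9_H

variable {u x y N L q : ℝ} (h : b9_H u x y N L q)

include h

theorem x_pow (i : ℕ) (hi : i ≤ 4) : x ^ i ≤ x ^ 4 := pow_le_pow_right₀ h.x1 hi

theorem hp {c : ℝ} (hc : c ≤ 10 ^ 13 * x ^ 4) {i j : ℕ} (hij : i + 2 ≤ j) :
    c * u ^ i ≤ u ^ j := by
  have hu : (0 : ℝ) < u ^ i := pow_pos (by linarith [h.u1]) i
  have h1 : u ^ 2 ≤ u ^ (j - i) := pow_le_pow_right₀ h.u1 (by omega)
  have h2 : u ^ j = u ^ (j - i) * u ^ i := by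
    rw [← pow_add]
    congr 1
    omega
  rw [h2]
  exact mul_le_mul_of_nonneg_right ((hc.trans h.K).trans h1) hu.le

theorem u_pos : 0 < u := by linarith [h.u1]

theorem up (i : ℕ) : 0 < u ^ i := pow_pos h.u_pos i

theorem N_pos : 0 < N := lt_of_lt_of_le (h.up 400) h.N1

theorem q_pos : 0 < q := lt_of_lt_of_le (h.up 20) h.q1

theorem L_pos : 0 < L := by linarith [h.L1]

/-- powers of `x` are at most `x ^ 4` -/
theorem c0 {c : ℝ} (hc : c ≤ 10 ^ 13) : c ≤ 10 ^ 13 * x ^ 4 := by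
  have := h.x_pow 0 (by norm_num)
  simp only [pow_zero] at this
  linarith

theorem c1 {c : ℝ} (hc : c ≤ 10 ^ 13 * x) : c ≤ 10 ^ 13 * x ^ 4 := by
  have := h.x_pow 1 (by norm_num)
  simp only [pow_one] at this
  linarith

theorem c2 {c : ℝ} (hc : c ≤ 10 ^ 13 * x ^ 2) : c ≤ 10 ^ 13 * x ^ 4 := by
  have := h.x_pow 2 (by norm_num)
  linarith

theorem c3 {c : ℝ} (hc : c ≤ 10 ^ 13 * x ^ 3) : c ≤ 10 ^ 13 * x ^ 4 := by
  have := h.x_pow 3 (by norm_num)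
  linarith

/-- `2 / N` is small -/
theorem twoN {r : ℝ} (hr : 0 < r) (h1 : 2 * r ≤ u ^ 400) : 2 / N ≤ 1 / r := by
  rw [div_le_div_iff₀ h.N_pos hr]
  linarith [h.N1]

theorem Ly : L * y ≤ 27 * x ^ 2 := by
  have h1 := h.L9
  have h2 := h.y3
  have h3 := h.x1
  have h4 := h.y1
  have h5 := h.L1
  nlinarith

theorem L_sq : L ^ 2 ≤ 81 * x ^ 2 := by
  have h1 := h.L9
  have h5 := h.L1
  nlinarith

theorem i3 : 16 * (u ^ 199)⁻¹ ≤ 1 := by
  rw [← div_eq_mul_inv, div_le_one (h.up _)]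
  have := h.hp (c := 16) (h.c0 (by norm_num)) (i := 0) (j := 199) (by norm_num)
  simpa using this

theorem i4 : 2 / N ≤ (u ^ 199)⁻¹ := by
  rw [← one_div]
  exact h.twoN (h.up _) (h.hp (h.c0 (by norm_num)) (by norm_num))

theorem i5 : Real.exp (-((u ^ 400 + u ^ 400) * ((u ^ 199)⁻¹) ^ 2 / 2)) ≤ Real.exp (-(3 * y)) := by
  apply Real.exp_le_exp.2
  have e : (u ^ 400 + u ^ 400) * ((u ^ 199)⁻¹) ^ 2 / 2 = u ^ 2 := by
    have := h.u_pos.ne'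
    field_simp
    ring
  rw [e]
  have h1 := h.c1 (c := 9 * x) (by linarith [h.x1])
  linarith [h.y3, h.K]

theorem i6 : 128 * L * y ≤ (u ^ 397)⁻¹ * (u ^ 400 + u ^ 400) := by
  have e : (u ^ 397)⁻¹ * (u ^ 400 + u ^ 400) = 2 * u ^ 3 := by
    have := h.u_pos.ne'
    field_simp
    ring
  rw [e]
  have h1 := h.Ly
  have h2 := h.hp (c := 3456 * x ^ 2) (h.c2 (by nlinarith [h.x1])) (i := 0) (j := 3) (by norm_num)
  have h3 := h.up 3
  simp only [pow_zero, mul_one] at h2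
  linarith

theorem i7 : 2 / N ≤ (u ^ 397)⁻¹ / (32 * L * (u ^ 199)⁻¹) := by
  have e : (u ^ 397)⁻¹ / (32 * L * (u ^ 199)⁻¹) = 1 / (32 * L * u ^ 198) := by
    have := h.u_pos.ne'
    have := h.L_pos.ne'
    field_simp
  rw [e]
  refine h.twoN (mul_pos (by linarith [h.L1]) (h.up _)) ?_
  have := h.hp (c := 64 * L) (h.c1 (by linarith [h.L9, h.x1])) (i := 198) (j := 400) (by norm_num)
  linarith

theorem i8 : 2 ≤ (u ^ 397)⁻¹ * N := by
  have h1 := h.hp (c := 2) (h.c0 (by norm_num)) (i := 397) (j := 400) (by norm_num)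
  rw [inv_mul_eq_div, le_div_iff₀ (h.up _)]
  linarith [h.N1]

theorem i9 : 3 * L * Real.exp (-((u ^ 400 + u ^ 400) *
    ((u ^ 397)⁻¹ / (32 * L * (u ^ 199)⁻¹)) ^ 2 / 4)) ≤ Real.exp (-(3 * y)) := by
  have e : (u ^ 400 + u ^ 400) * ((u ^ 397)⁻¹ / (32 * L * (u ^ 199)⁻¹)) ^ 2 / 4 =
      u ^ 4 / (2048 * L ^ 2) := by
    have := h.u_pos.ne'
    have := h.L_pos.ne'
    field_simp
    ring
  rw [e]
  have h1 : 3 * L ≤ Real.exp (3 * L) := by linarith [Real.add_one_le_exp (3 * L)]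
  refine (mul_le_mul_of_nonneg_right h1 (Real.exp_pos _).le).trans ?_
  rw [← Real.exp_add]
  apply Real.exp_le_exp.2
  have h2 : 3 * L + 3 * y ≤ u ^ 4 / (2048 * L ^ 2) := by
    rw [le_div_iff₀ (by have := h.L_pos; positivity)]
    have h3 : 3 * L + 3 * y ≤ 36 * x := by linarith [h.L9, h.y3]
    have h4 : (3 * L + 3 * y) * (2048 * L ^ 2) ≤ 36 * x * (2048 * (81 * x ^ 2)) := by
      apply mul_le_mul h3 (by linarith [h.L_sq]) (by positivity) (by linarith [h.x1])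
    have h5 := h.hp (c := 36 * x * (2048 * (81 * x ^ 2))) (h.c3 (by
      have : 0 ≤ x ^ 3 := by have := h.x1; positivity
      nlinarith)) (i := 0) (j := 4) (by norm_num)
    simp only [pow_zero, mul_one] at h5
    linarith
  linarith

theorem i10 : 6 * ((u ^ 397)⁻¹ / (u ^ 280)⁻¹) ^ 2 * (u ^ 199)⁻¹ ≤ (u ^ 401)⁻¹ := by
  have e : 6 * ((u ^ 397)⁻¹ / (u ^ 280)⁻¹) ^ 2 * (u ^ 199)⁻¹ = 6 / u ^ 433 := by
    have := h.u_pos.ne'
    field_simp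
  rw [e, ← one_div, div_le_div_iff₀ (h.up _) (h.up _), one_mul]
  exact h.hp (h.c0 (by norm_num)) (by norm_num)

theorem i11 : 32 * (u ^ 199)⁻¹ * q * ((u ^ 397)⁻¹) ^ 2 ≤ ((u ^ 401)⁻¹ / 6) ^ 2 := by
  have e : 32 * (u ^ 199)⁻¹ * q * ((u ^ 397)⁻¹) ^ 2 = 32 * q / u ^ 993 := by
    have := h.u_pos.ne'
    field_simp
  have e' : ((u ^ 401)⁻¹ / 6) ^ 2 = 1 / (36 * u ^ 802) := by
    have := h.u_pos.ne'
    field_simp
    norm_num
  rw [e, e', div_le_div_iff₀ (h.up _) (mul_pos (by norm_num) (h.up _)), one_mul]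
  have h1 := h.hp (c := 2304) (h.c0 (by norm_num)) (i := 822) (j := 993) (by norm_num)
  have h2 : 32 * q * (36 * u ^ 802) ≤ 32 * (2 * u ^ 20) * (36 * u ^ 802) :=
    mul_le_mul_of_nonneg_right (mul_le_mul_of_nonneg_left h.q2 (by norm_num))
      (mul_pos (by norm_num) (h.up 802)).le
  have e2 : 32 * (2 * u ^ 20) * (36 * u ^ 802) = 2304 * u ^ 822 := by ring
  linarith

theorem i12 : 16 * (u ^ 280)⁻¹ * (u ^ 397)⁻¹ * q ≤ (u ^ 199)⁻¹ * ((u ^ 401)⁻¹ / 6) := by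
  have e : 16 * (u ^ 280)⁻¹ * (u ^ 397)⁻¹ * q = 16 * q / u ^ 677 := by
    have := h.u_pos.ne'
    field_simp
  have e' : (u ^ 199)⁻¹ * ((u ^ 401)⁻¹ / 6) = 1 / (6 * u ^ 600) := by
    have := h.u_pos.ne'
    field_simp
  rw [e, e', div_le_div_iff₀ (h.up _) (mul_pos (by norm_num) (h.up _)), one_mul]
  have h1 := h.hp (c := 192) (h.c0 (by norm_num)) (i := 620) (j := 677) (by norm_num)
  have h2 : 16 * q * (6 * u ^ 600) ≤ 16 * (2 * u ^ 20) * (6 * u ^ 600) :=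
    mul_le_mul_of_nonneg_right (mul_le_mul_of_nonneg_left h.q2 (by norm_num))
      (mul_pos (by norm_num) (h.up 600)).le
  have e2 : 16 * (2 * u ^ 20) * (6 * u ^ 600) = 192 * u ^ 620 := by ring
  linarith

theorem i13 : 128 * L * y ≤ (q * ((u ^ 401)⁻¹ / 6) / 8) * u ^ 400 := by
  have e : (q * ((u ^ 401)⁻¹ / 6) / 8) * u ^ 400 = q / (48 * u) := by
    have := h.u_pos.ne'
    field_simp
    ring
  rw [e, le_div_iff₀ (mul_pos (by norm_num) h.u_pos)]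
  have h1 := h.hp (c := 165888 * x ^ 2) (h.c2 (by nlinarith [h.x1])) (i := 1) (j := 20)
    (by norm_num)
  rw [pow_one] at h1
  have h2 := h.Ly
  have h3 : 128 * L * y * (48 * u) ≤ 165888 * x ^ 2 * u := by
    have := h.u_pos
    nlinarith
  linarith [h.q1]

theorem i14 : 2 / N ≤ (q * ((u ^ 401)⁻¹ / 6) / 8) / (32 * L * (16 * (u ^ 199)⁻¹)) := by
  have e : (q * ((u ^ 401)⁻¹ / 6) / 8) / (32 * L * (16 * (u ^ 199)⁻¹)) =
      q / (24576 * L * u ^ 202) := by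
    have := h.u_pos.ne'
    have := h.L_pos.ne'
    field_simp
    ring
  have hL := h.L_pos
  have hu := h.up 202
  have h1 := h.hp (c := 49152 * L) (h.c1 (by linarith [h.L9, h.x1])) (i := 202) (j := 420)
    (by norm_num)
  have h2 : u ^ 420 ≤ q * N := by
    have e2 : u ^ 420 = u ^ 20 * u ^ 400 := by rw [← pow_add]
    rw [e2]
    exact mul_le_mul h.q1 h.N1 (h.up _).le h.q_pos.le
  rw [e, div_le_div_iff₀ h.N_pos (by positivity)]
  linarith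

theorem i15 : 2 ≤ (q * ((u ^ 401)⁻¹ / 6) / 8) * N := by
  have e : (q * ((u ^ 401)⁻¹ / 6) / 8) * N = q * N / (48 * u ^ 401) := by
    have := h.u_pos.ne'
    field_simp
    ring
  have hu := h.up 401
  have h1 := h.hp (c := 96) (h.c0 (by norm_num)) (i := 401) (j := 420) (by norm_num)
  have h2 : u ^ 420 ≤ q * N := by
    have e2 : u ^ 420 = u ^ 20 * u ^ 400 := by rw [← pow_add]
    rw [e2]
    exact mul_le_mul h.q1 h.N1 (h.up _).le h.q_pos.le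
  rw [e, le_div_iff₀ (by positivity)]
  linarith

theorem i16 {m : ℕ} (hm : (4 : ℝ) ^ m ≤ u ^ 240) :
    2 / N ≤ ((u ^ 401)⁻¹ / 6) / (8 * (u ^ 397)⁻¹) / 2 ^ m := by
  have e : ((u ^ 401)⁻¹ / 6) / (8 * (u ^ 397)⁻¹) / 2 ^ m = 1 / (48 * u ^ 4 * 2 ^ m) := by
    have := h.u_pos.ne'
    field_simp
    norm_num
  rw [e]
  have hu := h.up 4
  have h2 : (2 : ℝ) ^ m ≤ u ^ 120 := by
    have h3 : ((2 : ℝ) ^ m) ^ 2 ≤ (u ^ 120) ^ 2 := by
      rw [← pow_mul, ← pow_mul, mul_comm m 2, pow_mul]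
      norm_num
      exact hm
    exact (pow_le_pow_iff_left₀ (by positivity) (h.up _).le (by norm_num)).1 h3
  refine h.twoN (by positivity) ?_
  have h1 := h.hp (c := 96) (h.c0 (by norm_num)) (i := 124) (j := 400) (by norm_num)
  have h4 : 2 * (48 * u ^ 4 * 2 ^ m) ≤ 2 * (48 * u ^ 4 * u ^ 120) := by gcongr
  have e2 : 2 * (48 * u ^ 4 * u ^ 120) = 96 * u ^ 124 := by ring
  linarith

omit h in
theorem half {z : ℝ} (hz : z ≤ -(3 * y) - 1) : Real.exp z ≤ Real.exp (-(3 * y)) / 2 := by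
  have h1 := Real.exp_le_exp.2 hz
  rw [Real.exp_sub] at h1
  refine h1.trans ?_
  have h2 : (2 : ℝ) ≤ Real.exp 1 := by
    have := Real.add_one_le_exp (1 : ℝ)
    linarith
  exact div_le_div_of_nonneg_left (Real.exp_pos _).le (by norm_num) h2

theorem q_one : 1 ≤ q := (one_le_pow₀ h.u1).trans h.q1

theorem i17 {m : ℕ} {Q : ℕ} (hQ : q = Q) (hm : (m : ℝ) ≤ x) :
    N ^ (m * Q) * (3 * L * Real.exp (-(u ^ 400 *
      ((q * ((u ^ 401)⁻¹ / 6) / 8) / (32 * L * (16 * (u ^ 199)⁻¹))) ^ 2 / 4))) ≤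
      Real.exp (-(3 * y)) / 2 := by
  have e : u ^ 400 * ((q * ((u ^ 401)⁻¹ / 6) / 8) / (32 * L * (16 * (u ^ 199)⁻¹))) ^ 2 / 4 =
      q ^ 2 / (2415919104 * L ^ 2 * u ^ 4) := by
    have := h.u_pos.ne'
    have := h.L_pos.ne'
    field_simp
    ring
  have h0 : N ^ (m * Q) = Real.exp (m * q * y) := by
    rw [h.Ny, ← Real.exp_nat_mul, hQ]
    push_cast
    rfl
  have h1 : 3 * L ≤ Real.exp (3 * L) := by linarith [Real.add_one_le_exp (3 * L)]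
  rw [e, h0]
  have hL := h.L_pos
  have hq := h.q_pos
  have hx := h.x1
  calc Real.exp (m * q * y) * (3 * L * Real.exp (-(q ^ 2 / (2415919104 * L ^ 2 * u ^ 4))))
      ≤ Real.exp (m * q * y) * (Real.exp (3 * L) *
        Real.exp (-(q ^ 2 / (2415919104 * L ^ 2 * u ^ 4)))) := by gcongr
    _ = Real.exp (m * q * y + (3 * L + -(q ^ 2 / (2415919104 * L ^ 2 * u ^ 4)))) := by
        rw [Real.exp_add, Real.exp_add]
    _ ≤ _ := ?_
  apply b9_H.half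
  have h2 : 40 * q * x ^ 2 ≤ q ^ 2 / (2415919104 * L ^ 2 * u ^ 4) := by
    rw [le_div_iff₀ (by have := h.up 4; positivity)]
    have h3 := h.hp (c := 40 * 2415919104 * 81 * x ^ 4)
      (by have : 0 ≤ x ^ 4 := by positivity
          nlinarith) (i := 4) (j := 20) (by norm_num)
    have h4 : 40 * q * x ^ 2 * (2415919104 * L ^ 2 * u ^ 4) ≤
        40 * q * x ^ 2 * (2415919104 * (81 * x ^ 2) * u ^ 4) := by
      have := h.L_sq
      have := h.up 4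
      gcongr
    have e2 : 40 * q * x ^ 2 * (2415919104 * (81 * x ^ 2) * u ^ 4) =
        q * (40 * 2415919104 * 81 * x ^ 4 * u ^ 4) := by ring
    have h5 : q * (40 * 2415919104 * 81 * x ^ 4 * u ^ 4) ≤ q * q :=
      mul_le_mul_of_nonneg_left (h3.trans h.q1) hq.le
    nlinarith
  have h6 : (m : ℝ) * q * y ≤ 3 * q * x ^ 2 := by
    have h7 : (m : ℝ) * y ≤ x * (3 * x) :=
      mul_le_mul hm h.y3 (by linarith [h.y1]) (by linarith)
    nlinarith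
  have h8 : 3 * L + 3 * y + 1 ≤ 37 * q * x ^ 2 := by
    have h9 : 3 * L + 3 * y + 1 ≤ 37 * x := by linarith [h.L9, h.y3]
    have h10 : x ≤ q * x ^ 2 := by
      have := h.q_one
      have h11 : x ≤ x ^ 2 := by nlinarith
      nlinarith
    linarith
  linarith

theorem i18 {m : ℕ} {Q : ℕ} (hQ : q = Q) (hm : (m : ℝ) ≤ x) (hm4 : (4 : ℝ) ^ m ≤ u ^ 240)
    (hN2 : 2 ≤ N) :
    q * (N + 1) ^ (m * Q) *
      Real.exp (-(u ^ 400 * (((u ^ 401)⁻¹ / 6) / (8 * (u ^ 397)⁻¹) / 2 ^ m) ^ 2 / 2)) ≤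
      Real.exp (-(3 * y)) / 2 := by
  have e : u ^ 400 * (((u ^ 401)⁻¹ / 6) / (8 * (u ^ 397)⁻¹) / 2 ^ m) ^ 2 / 2 =
      u ^ 392 / (4608 * 4 ^ m) := by
    have := h.u_pos.ne'
    have e4 : (4 : ℝ) ^ m = 2 ^ m * 2 ^ m := by rw [← mul_pow]; norm_num
    rw [e4]
    field_simp
    norm_num
  have h0 : (N + 1) ^ (m * Q) ≤ Real.exp (6 * x ^ 2 * q) := by
    have h1 : N + 1 ≤ Real.exp (6 * x) := by
      have h2 : N + 1 ≤ N * N := by nlinarith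
      have h3 : N * N = Real.exp (y + y) := by rw [Real.exp_add, ← h.Ny]
      rw [h3] at h2
      exact h2.trans (Real.exp_le_exp.2 (by linarith [h.y3]))
    have h4 : (N + 1) ^ (m * Q) ≤ (Real.exp (6 * x)) ^ (m * Q) :=
      pow_le_pow_left₀ (by linarith) h1 _
    refine h4.trans ?_
    rw [← Real.exp_nat_mul]
    apply Real.exp_le_exp.2
    push_cast
    rw [← hQ]
    have hq := h.q_pos
    have hx := h.x1
    have : (m : ℝ) * q * (6 * x) ≤ x * q * (6 * x) := by gcongr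
    linarith
  have h1 : q ≤ Real.exp q := by linarith [Real.add_one_le_exp q]
  rw [e]
  have hq := h.q_pos
  have hx := h.x1
  calc q * (N + 1) ^ (m * Q) * Real.exp (-(u ^ 392 / (4608 * 4 ^ m)))
      ≤ Real.exp q * Real.exp (6 * x ^ 2 * q) * Real.exp (-(u ^ 392 / (4608 * 4 ^ m))) := by
        have : 0 ≤ (N + 1) ^ (m * Q) := by positivity
        gcongr
    _ = Real.exp (q + 6 * x ^ 2 * q + -(u ^ 392 / (4608 * 4 ^ m))) := by
        rw [Real.exp_add, Real.exp_add]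
    _ ≤ _ := ?_
  apply b9_H.half
  have h2 : 34 * x ^ 2 * u ^ 20 ≤ u ^ 392 / (4608 * 4 ^ m) := by
    rw [le_div_iff₀ (by positivity)]
    have h3 := h.hp (c := 156672 * x ^ 2) (h.c2 (by nlinarith)) (i := 260) (j := 392)
      (by norm_num)
    have h4 : 34 * x ^ 2 * u ^ 20 * (4608 * 4 ^ m) ≤
        34 * x ^ 2 * u ^ 20 * (4608 * u ^ 240) := by
      have := h.up 20
      gcongr
    have e2 : 34 * x ^ 2 * u ^ 20 * (4608 * u ^ 240) = 156672 * x ^ 2 * u ^ 260 := by ring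
    linarith
  have h5 : 17 * x ^ 2 * q ≤ 34 * x ^ 2 * u ^ 20 := by
    have := mul_le_mul_of_nonneg_left h.q2 (show (0 : ℝ) ≤ 17 * x ^ 2 by positivity)
    linarith
  have h6 : q + 6 * x ^ 2 * q + 3 * y + 1 ≤ 17 * x ^ 2 * q := by
    have h7 : x ≤ x ^ 2 := by nlinarith
    have h8 : q ≤ x ^ 2 * q := by nlinarith
    have h9 : x ≤ x ^ 2 * q := by
      have := h.q_one
      nlinarith
    linarith [h.y3]
  linarith

end b9_H

theorem b9_ev : ∃ X : ℝ, ∀ x : ℝ, X ≤ x → 1 ≤ x ∧ 10 ^ 13 * x ^ 4 ≤ Real.exp (x / 400) ^ 2 := by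
  have h1 : Filter.Tendsto (fun x : ℝ => Real.exp x / x ^ 4) Filter.atTop Filter.atTop :=
    Real.tendsto_exp_div_pow_atTop 4
  have h2 := (h1.eventually_ge_atTop (10 ^ 13 * 200 ^ 4)).exists_forall_of_atTop
  obtain ⟨X, hX⟩ := h2
  refine ⟨max (200 * X) 1, fun x hx => ?_⟩
  have hx1 : 1 ≤ x := le_trans (le_max_right _ _) hx
  refine ⟨hx1, ?_⟩
  have h3 := hX (x / 200) (by linarith [le_trans (le_max_left _ _) hx])
  rw [le_div_iff₀ (by positivity)] at h3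
  have h4 : Real.exp (x / 400) ^ 2 = Real.exp (x / 200) := by
    rw [← Real.exp_nat_mul]
    congr 1
    push_cast
    ring
  rw [h4]
  refine le_trans (le_of_eq ?_) h3
  ring

theorem b9_rpow {T x : ℝ} (hT : 0 < T) (hx : x = Real.log T) (a : ℝ) (k : ℕ)
    (h : a = -(k : ℝ) / 400) : T ^ a = (Real.exp (x / 400) ^ k)⁻¹ := by
  rw [Real.rpow_def_of_pos hT, ← Real.exp_nat_mul, ← Real.exp_neg, h, ← hx]
  congr 1
  ring

theorem b9_rpow' {T x : ℝ} (hT : 0 < T) (hx : x = Real.log T) (a : ℝ) (k : ℕ)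
    (h : a = (k : ℝ) / 400) : T ^ a = Real.exp (x / 400) ^ k := by
  rw [Real.rpow_def_of_pos hT, ← Real.exp_nat_mul, h, ← hx]
  congr 1
  ring

theorem numerics : ∃ n0 : ℕ, ∀ n t D : ℕ, n0 ≤ n → (n : ℝ) ^ ((1 : ℝ) / 3) ≤ t → t ≤ n →
    (4 : ℝ) ^ D ≤ (t : ℝ) ^ ((3 : ℝ) / 5) →
    ∀ b lam ta nu : ℝ, b = (t : ℝ) ^ (-(1 : ℝ) / 2 + 1 / 400) →
      lam = (t : ℝ) ^ (-(1 : ℝ) + 3 / 400) → ta = (t : ℝ) ^ (-(1 + (1 : ℝ) / 400)) →
      nu = (t : ℝ) ^ (-(7 : ℝ) / 10) → ∀ q : ℕ, q = ⌈(t : ℝ) ^ ((1 : ℝ) / 20)⌉₊ →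
    2 ≤ n ∧ 1 ≤ q ∧ 0 < b ∧ 16 * b ≤ 1 ∧ 0 < nu ∧ 0 < lam ∧ 0 < ta ∧
    2 / (n : ℝ) ≤ b ∧ Real.exp (-((t + t : ℕ) * b ^ 2 / 2)) ≤ (n : ℝ) ^ (-(3 : ℝ)) ∧
    128 * Lg n * Real.log n ≤ lam * (t + t : ℕ) ∧ 2 / (n : ℝ) ≤ lam / (32 * Lg n * b) ∧
    2 ≤ lam * n ∧ kwb n (t + t) lam b ≤ (n : ℝ) ^ (-(3 : ℝ)) ∧
    6 * (lam / nu) ^ 2 * b ≤ ta ∧ 32 * b * q * lam ^ 2 ≤ (ta / 6) ^ 2 ∧
    16 * nu * lam * q ≤ b * (ta / 6) ∧
    128 * Lg n * Real.log n ≤ (q * (ta / 6) / 8) * t ∧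
    2 / (n : ℝ) ≤ (q * (ta / 6) / 8) / (32 * Lg n * (16 * b)) ∧
    2 ≤ (q * (ta / 6) / 8) * n ∧
    ∀ m : ℕ, m ≤ D → 2 / (n : ℝ) ≤ (ta / 6) / (8 * lam) / 2 ^ m ∧
      (n : ℝ) ^ (m * q) * kwb n t (q * (ta / 6) / 8) (16 * b) +
        q * ((n : ℝ) + 1) ^ (m * q) *
          Real.exp (-(t * ((ta / 6) / (8 * lam) / 2 ^ m) ^ 2 / 2)) ≤ (n : ℝ) ^ (-(3 : ℝ)) := by
  obtain ⟨X, hX⟩ := b9_ev
  refine ⟨⌈Real.exp (3 * max X 1)⌉₊ + 2, ?_⟩
  intro n t D hn ht htn hD b lam ta nu hb hlam hta hnu q hq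
  have hn2 : (2 : ℝ) ≤ n := by
    have : 2 ≤ n := by omega
    exact_mod_cast this
  have hn0 : (0 : ℝ) < n := by linarith
  have hnX : Real.exp (3 * max X 1) ≤ n := by
    have h1 := Nat.le_ceil (Real.exp (3 * max X 1))
    have h2 : ((⌈Real.exp (3 * max X 1)⌉₊ : ℕ) : ℝ) ≤ n := by
      exact_mod_cast (by omega : ⌈Real.exp (3 * max X 1)⌉₊ ≤ n)
    linarith
  have ht0 : (0 : ℝ) < t := lt_of_lt_of_le (Real.rpow_pos_of_pos hn0 _) ht
  obtain ⟨y, hy⟩ : ∃ y : ℝ, y = Real.log n := ⟨_, rfl⟩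
  obtain ⟨x, hx⟩ : ∃ x : ℝ, x = Real.log t := ⟨_, rfl⟩
  have hy3 : y ≤ 3 * x := by
    have h1 := Real.log_le_log (Real.rpow_pos_of_pos hn0 _) ht
    rw [Real.log_rpow hn0, ← hx, ← hy] at h1
    linarith
  have hyX : 3 * max X 1 ≤ y := by
    have h1 := Real.log_le_log (Real.exp_pos _) hnX
    rwa [Real.log_exp, ← hy] at h1
  have hxX : max X 1 ≤ x := by linarith
  have hyx : x ≤ y := by
    rw [hx, hy]
    exact Real.log_le_log ht0 (by exact_mod_cast htn)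
  obtain ⟨hx1, hK⟩ := hX x (le_trans (le_max_left _ _) hxX)
  obtain ⟨u, hu⟩ : ∃ u : ℝ, u = Real.exp (x / 400) := ⟨_, rfl⟩
  rw [← hu] at hK
  have hu1 : 1 ≤ u := by
    rw [hu]
    exact Real.one_le_exp (by linarith)
  have htu : (t : ℝ) = u ^ 400 := by
    have h1 := b9_rpow' ht0 hx 1 400 (by norm_num)
    rwa [Real.rpow_one, ← hu] at h1
  have hny : (n : ℝ) = Real.exp y := by rw [hy, Real.exp_log hn0]
  have hb' : b = (u ^ 199)⁻¹ := by rw [hb, hu]; exact b9_rpow ht0 hx _ 199 (by norm_num)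
  have hlam' : lam = (u ^ 397)⁻¹ := by rw [hlam, hu]; exact b9_rpow ht0 hx _ 397 (by norm_num)
  have hta' : ta = (u ^ 401)⁻¹ := by rw [hta, hu]; exact b9_rpow ht0 hx _ 401 (by norm_num)
  have hnu' : nu = (u ^ 280)⁻¹ := by rw [hnu, hu]; exact b9_rpow ht0 hx _ 280 (by norm_num)
  have hq' : (t : ℝ) ^ ((1 : ℝ) / 20) = u ^ 20 := by
    rw [hu]; exact b9_rpow' ht0 hx _ 20 (by norm_num)
  have hD' : (4 : ℝ) ^ D ≤ u ^ 240 := by
    have h1 : (t : ℝ) ^ ((3 : ℝ) / 5) = u ^ 240 := by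
      rw [hu]; exact b9_rpow' ht0 hx _ 240 (by norm_num)
    rwa [h1] at hD
  have hq1 : u ^ 20 ≤ (q : ℝ) := by
    rw [hq, ← hq']
    exact Nat.le_ceil _
  have hu20 : 1 ≤ u ^ 20 := one_le_pow₀ hu1
  have hq2 : (q : ℝ) ≤ 2 * u ^ 20 := by
    have h1 : ((⌈(t : ℝ) ^ ((1 : ℝ) / 20)⌉₊ : ℕ) : ℝ) < (t : ℝ) ^ ((1 : ℝ) / 20) + 1 :=
      Nat.ceil_lt_add_one (by positivity)
    rw [← hq, hq'] at h1
    linarith
  have hL1 : (1 : ℝ) ≤ (Lg n : ℝ) := by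
    have : 1 ≤ Lg n := by unfold Lg; omega
    exact_mod_cast this
  have hL9 : (Lg n : ℝ) ≤ 9 * x := by
    have h1 : (Lg n : ℝ) = (Nat.log 2 n : ℝ) + 2 := by unfold Lg; push_cast; rfl
    have h2 : (Nat.log 2 n : ℝ) * Real.log 2 ≤ y := by
      have h3 : (2 : ℝ) ^ Nat.log 2 n ≤ n := by
        exact_mod_cast Nat.pow_log_le_self 2 (by omega : n ≠ 0)
      have h4 := Real.log_le_log (by positivity) h3
      rwa [Real.log_pow, ← hy] at h4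
    have h5 := Real.log_two_gt_d9
    have h6 : (0 : ℝ) ≤ (Nat.log 2 n : ℝ) := by positivity
    have h7 : (Nat.log 2 n : ℝ) * 0.6 ≤ y := by nlinarith
    rw [h1]
    linarith
  have H : b9_H u x y n (Lg n) q :=
    ⟨hx1, hK, hu1, hyx, hy3, by rw [← htu]; exact_mod_cast htn, hny, hL1, hL9, hq1, hq2⟩
  have hn3 : (n : ℝ) ^ (-(3 : ℝ)) = Real.exp (-(3 * y)) := by
    rw [Real.rpow_def_of_pos hn0, ← hy]
    congr 1
    ring
  rw [hn3, hb', hlam', hta', hnu', ← hy]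
  have htt : ((t + t : ℕ) : ℝ) = u ^ 400 + u ^ 400 := by push_cast; rw [htu]
  unfold kwb
  rw [htt, htu]
  refine ⟨by omega, ?_, by have := H.up 199; positivity, H.i3, by have := H.up 280; positivity,
    by have := H.up 397; positivity, by have := H.up 401; positivity, H.i4, H.i5, H.i6, H.i7,
    H.i8, H.i9, H.i10, H.i11, H.i12, H.i13, H.i14, H.i15, ?_⟩
  · have : (0 : ℝ) < q := H.q_pos
    exact_mod_cast this
  intro m hm
  have hm4 : (4 : ℝ) ^ m ≤ u ^ 240 :=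
    (pow_le_pow_right₀ (by norm_num) hm).trans hD'
  have hmx : (m : ℝ) ≤ x := by
    have h1 : Real.exp (m : ℝ) ≤ (4 : ℝ) ^ m := by
      have h2 : Real.exp 1 ≤ 4 := by linarith [Real.exp_one_lt_d9]
      have h3 : Real.exp (m : ℝ) = Real.exp 1 ^ m := by
        rw [← Real.exp_nat_mul, mul_one]
      rw [h3]
      exact pow_le_pow_left₀ (Real.exp_pos _).le h2 m
    have h4 : u ^ 240 = Real.exp (240 * (x / 400)) := by
      rw [hu, ← Real.exp_nat_mul]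
      norm_num
    rw [h4] at hm4
    have h5 := Real.exp_le_exp.1 (h1.trans hm4)
    linarith
  refine ⟨H.i16 hm4, ?_⟩
  have h1 := H.i17 (m := m) (Q := q) rfl hmx
  have h2 := H.i18 (m := m) (Q := q) rfl hmx hm4 hn2
  linarith

end Pool.Agent.H290R2.Col
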