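import Pool.Agent.H290R2.Col.Defs

/-! Blueprint: exact statements of the tasks (proofs sorry). Import `Pool.Agent.H290R2.Col.Defs`
(and, if needed, finished modules), never this file. -/

set_option autoImplicit false

namespace Pool.Agent.H290R2.Col
open Finset Filter Pool.Agent.H999R2.KSat

/-! ## PART A: containers -/

/-! ### Task A1 -/
theorem mu_nonneg {n : ℕ} (S : Set (Fin n)) : 0 ≤ mu S := by
  sorry
theorem mu_le_one {n : ℕ} (S : Set (Fin n)) : mu S ≤ 1 := by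
  sorry
theorem mu_mono {n : ℕ} {S S' : Set (Fin n)} (h : S ⊆ S') : mu S ≤ mu S' := by
  sorry
theorem mu_finset {n : ℕ} (S : Finset (Fin n)) : mu (S : Set (Fin n)) = S.card / n := by
  sorry
/-- the probability that no random pair lies inside `S` -/
theorem indep_le {n t : ℕ} (S : Set (Fin n)) (h : 2 / (n : ℝ) ≤ mu S) :
    E (fun W : Fin t → NL n => ind (indep W S)) ≤ Real.exp (-(t * mu S ^ 2 / 2)) := by
  sorry
theorem indep_anti {n t : ℕ} (W : Fin t → NL n) {S S' : Set (Fin n)} (h : S ⊆ S')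
    (hi : indep W S') : indep W S := by
  sorry

/-! ### Task A2 (one threshold) -/
open Classical in
theorem KW_stage {n : ℕ} (R : Fin n → Fin n → Prop) (hR : ∀ v f, R v f → R f v) (d : ℕ)
    (hd : 1 ≤ d) (Q : Finset (Fin n)) :
    ∃ F : Finset (Fin n) → Finset (Fin n) × Finset (Fin n) × Finset (Fin n),
      ∀ I : Finset (Fin n),
        (F I).2.1 ⊆ I ∧ (F I).2.1 ⊆ Q ∧ (F I).1 ⊆ Q ∧ (F I).2.2 ⊆ Q ∧
        Q ⊆ (F I).1 ∪ (F I).2.1 ∪ (F I).2.2 ∧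
        (∀ v ∈ (F I).2.2, ((F I).2.2.filter (fun f => R v f)).card < d) ∧
        ((∀ v ∈ I, ∀ f ∈ I, ¬ R v f) →
          Disjoint (F I).1 I ∧ Disjoint (F I).1 (F I).2.2 ∧
            (F I).2.1.card * d ≤ (F I).1.card) ∧
        ∀ T : Finset (Fin n), (F I).2.1 ⊆ T → T ⊆ I → F T = F I := by
  sorry

/-! ### Task A3 (all thresholds; uses A2) -/
open Classical in
theorem KW_multi {n : ℕ} (R : Fin n → Fin n → Prop) (hR : ∀ v f, R v f → R f v) (d : ℕ → ℕ)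
    (hd : Antitone d) (hd1 : ∀ i, 1 ≤ d i) :
    ∃ Rm Qs : ℕ → Finset (Fin n) → Finset (Fin n), ∀ I : Finset (Fin n),
      (∀ v ∈ I, ∀ f ∈ I, ¬ R v f) →
      Qs 0 I = univ ∧ ∃ T : ℕ → Finset (Fin n), ∀ i : ℕ,
        T i ⊆ I ∧ Disjoint (Rm i I) I ∧ univ ⊆ Rm i I ∪ T i ∪ Qs i I ∧
        (T i).card * d i ≤ (Rm i I).card ∧ Qs (i + 1) I ⊆ Qs i I ∧
        (∀ v ∈ Qs (i + 1) I, ((Qs (i + 1) I).filter (fun f => R v f)).card < d (i + 1)) ∧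
        Rm i (T i) = Rm i I := by
  sorry

/-! ### Task A4 (deterministic container theorem for vertex covers; uses A1, A3) -/
theorem KWD {n : ℕ} (Ee : Fin n → Fin n → Prop) (lam Dl : ℝ) (hn : 2 ≤ n) (hlam : 0 < lam)
    (hDl : 0 < Dl) (hDl1 : Dl ≤ 1)
    (hdens : lam ≤ E (fun v : Fin n => E (fun f : Fin n => ind (Ee v f))))
    (hd1 : ∀ v, E (fun f : Fin n => ind (Ee v f)) ≤ Dl)
    (hd2 : ∀ f, E (fun v : Fin n => ind (Ee v f)) ≤ Dl) (h3 : 2 ≤ lam * n) :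
    ∃ (J : ℕ) (Rm : ℕ → Finset (Fin n) → Finset (Fin n)), 1 ≤ J ∧ J ≤ Lg n ∧
      ∀ S : Set (Fin n), (∀ v f, Ee v f → v ∈ S ∨ f ∈ S) →
        ∃ i < J, ∃ T : Finset (Fin n), ((Rm i T : Finset (Fin n)) : Set (Fin n)) ⊆ S ∧
          lam / (32 * J * Dl) ≤ mu ((Rm i T : Finset (Fin n)) : Set (Fin n)) ∧
          (T.card : ℝ) ≤ 16 * J * mu ((Rm i T : Finset (Fin n)) : Set (Fin n)) ^ 2 / lam := by
  sorry

/-! ### Task A5 (probabilistic form; uses A1, A4) -/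
theorem KWP {n t : ℕ} (Ee : Fin n → Fin n → Prop) (lam Dl : ℝ) (hn : 2 ≤ n) (hlam : 0 < lam)
    (hDl : 0 < Dl) (hDl1 : Dl ≤ 1)
    (hdens : lam ≤ E (fun v : Fin n => E (fun f : Fin n => ind (Ee v f))))
    (hd1 : ∀ v, E (fun f : Fin n => ind (Ee v f)) ≤ Dl)
    (hd2 : ∀ f, E (fun v : Fin n => ind (Ee v f)) ≤ Dl)
    (h1 : 128 * Lg n * Real.log n ≤ lam * t) (h2 : 2 / (n : ℝ) ≤ lam / (32 * Lg n * Dl))
    (h3 : 2 ≤ lam * n) :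
    E (fun W : Fin t → NL n =>
      ind (∃ S : Set (Fin n), indep W S ∧ ∀ v f, Ee v f → v ∈ S ∨ f ∈ S)) ≤ kwb n t lam Dl := by
  sorry

/-! ### Task A6 (dense hypergraph containers; uses A1) -/
theorem DC {n t m : ℕ} (Qp : (Fin m → Fin n) → Prop) (r : ℝ) (hr : 0 < r) (hn : 0 < n)
    (h2 : 2 / (n : ℝ) ≤ r / 2 ^ m) (hQ : r ≤ E (fun p : Fin m → Fin n => ind (Qp p))) :
    E (fun W : Fin t → NL n =>
      ind (∃ S : Set (Fin n), indep W S ∧ ∀ p, Qp p → ∃ i, p i ∈ S)) ≤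
      ((n : ℝ) + 1) ^ m * Real.exp (-(t * (r / 2 ^ m) ^ 2 / 2)) := by
  sorry

/-! ### Task A7 (extension of rich sequences) -/
theorem rich_ext {n m g q : ℕ} (T : (Fin m → Fin n) → Fin n → Fin n → Prop) (b nu lam ta : ℝ)
    (hT : TH T b nu lam ta) (hn : 0 < n) (hb : 0 < b) (hnu : 0 < nu) (hlam : 0 < lam)
    (hta : 0 < ta) (hg : g ≤ q) (n1 : 32 * b * q * lam ^ 2 ≤ ta ^ 2)
    (P : Fin g → (Fin m → Fin n)) (hP : rich T (ta / 2) (8 * nu * lam / ta) P) :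
    ta / (8 * lam) ≤ E (fun p : Fin m → Fin n =>
      ind (rich T (ta / 2) (8 * nu * lam / ta) (Fin.snoc P p : Fin (g + 1) → (Fin m → Fin n)))) := by
  sorry

/-! ### Task A8 (trimming the union of the links of a rich sequence) -/
theorem rich_trim {n m q : ℕ} (T : (Fin m → Fin n) → Fin n → Fin n → Prop) (b l a : ℝ)
    (hn : 0 < n) (hb : 0 < b) (hl : 0 < l) (ha : 0 ≤ a) (haq : 2 * a * q ≤ b)
    (h1 : ∀ p v, dg1 T p v ≤ b) (h2 : ∀ p f, dg2 T p f ≤ b)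
    (P : Fin q → (Fin m → Fin n)) (hP : rich T l a P) :
    ∃ L : Fin n → Fin n → Prop, (∀ v f, L v f → ∃ i, T (P i) v f) ∧
      q * l / 4 ≤ E (fun v : Fin n => E (fun f : Fin n => ind (L v f))) ∧
      (∀ v, E (fun f : Fin n => ind (L v f)) ≤ 16 * b) ∧
      (∀ f, E (fun v : Fin n => ind (L v f)) ≤ 16 * b) := by
  sorry

/-! ### Task A9 (no independent hitting set; uses A5, A6, A7, A8) -/
theorem ST3 {n t m q : ℕ} (T : (Fin m → Fin n) → Fin n → Fin n → Prop) (b nu lam ta : ℝ)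
    (hT : TH T b nu lam ta) (hn : 2 ≤ n) (hq : 1 ≤ q) (hb : 0 < b) (hb1 : 16 * b ≤ 1)
    (hnu : 0 < nu) (hlam : 0 < lam) (hta : 0 < ta)
    (n1 : 32 * b * q * lam ^ 2 ≤ ta ^ 2) (n2 : 16 * nu * lam * q ≤ b * ta)
    (n3 : 128 * Lg n * Real.log n ≤ (q * ta / 8) * t)
    (n4 : 2 / (n : ℝ) ≤ (q * ta / 8) / (32 * Lg n * (16 * b)))
    (n5 : 2 ≤ (q * ta / 8) * n) (n6 : 2 / (n : ℝ) ≤ ta / (8 * lam) / 2 ^ m) :
    E (fun W : Fin (t + t) → NL n => ind (∃ S : Set (Fin n), indep W S ∧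
      ∀ p v f, T p v f → (∃ i, p i ∈ S) ∨ v ∈ S ∨ f ∈ S)) ≤
      (n : ℝ) ^ (m * q) * kwb n t (q * ta / 8) (16 * b) +
        q * ((n : ℝ) + 1) ^ (m * q) * Real.exp (-(t * (ta / (8 * lam) / 2 ^ m) ^ 2 / 2)) := by
  sorry

/-! ## PART B: killers and rounds -/

/-! ### Task B1 (easy facts) -/
theorem ks_anti {n k D : ℕ} {A A' : Set (Cg n k)} (h : A' ⊆ A) {N : Fin D → Fin n}
    {S : Finset (Fin D)} (hk : ks A N S) : ks A' N S := by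
  sorry
theorem ks_mono {n k D : ℕ} {A : Set (Cg n k)} {N : Fin D → Fin n}
    {S S' : Finset (Fin D)} (h : S ⊆ S') (hk : ks A N S) : ks A N S' := by
  sorry
theorem ks_card {n k D : ℕ} {A : Set (Cg n k)} (hA : A.Nonempty) {N : Fin D → Fin n}
    {S : Finset (Fin D)} (hk : ks A N S) : k ≤ S.card := by
  sorry
/-- positions outside `S` are irrelevant -/
theorem ks_congr {n k D : ℕ} {A : Set (Cg n k)} {N N' : Fin D → Fin n} {S : Finset (Fin D)}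
    (h : ∀ i ∈ S, N i = N' i) : ks A N S ↔ ks A N' S := by
  sorry
theorem irr_b {n k D : ℕ} {b : ℝ} (hb : 0 ≤ b) (A : Set (Cg n k)) (N : Fin D → Fin n)
    (S : Finset (Fin D)) (i : Fin D) (hi : i ∈ S) :
    E (fun v : Fin n => ind (i1 b A (Function.update N i v) S)) ≤ b := by
  sorry
theorem irr_lam {n k D : ℕ} {b lam : ℝ} (hlam : 0 ≤ lam) (A : Set (Cg n k)) (N : Fin D → Fin n)
    (S : Finset (Fin D)) (i l : Fin D) (hi : i ∈ S) (hl : l ∈ S) (hil : i ≠ l) :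
    E (fun v : Fin n => E (fun f : Fin n =>
      ind (i2 b lam A (Function.update (Function.update N i v) l f) S))) ≤ lam := by
  sorry

/-! ### Task B2 (transport of positions) -/
theorem i2_transport {n k D : ℕ} (hn : 0 < n) (b lam : ℝ) (A : Set (Cg n k))
    (S : Finset (Fin D)) :
    E (fun N : Fin D → Fin n => ind (i2 b lam A N S)) = tau b lam S.card A := by
  sorry
theorem i2_perm {n k D : ℕ} (b lam : ℝ) (A : Set (Cg n k)) (π : Equiv.Perm (Fin D))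
    (N : Fin D → Fin n) : i2 b lam A (fun i => N (π i)) univ ↔ i2 b lam A N univ := by
  sorry

/-! ### Task B3 (extraction of a hypergraph from the doubly irreducible killers; uses B1, B2) -/
theorem extr {n k m : ℕ} (b nu lam ta : ℝ) (A : Set (Cg n k)) (hm : 1 ≤ m) (hn : 0 < n)
    (hb : 0 < b) (hnu : 0 < nu) (hlam : 0 < lam) (hta : 0 < ta)
    (h6 : 6 * (lam / nu) ^ 2 * b ≤ ta) (h : ta ≤ tau b lam (m + 2) A) :
    ∃ T : (Fin m → Fin n) → Fin n → Fin n → Prop, TH T b nu lam (ta / 6) ∧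
      ∀ p v f, T p v f → ks A (Fin.cons v (Fin.cons f p) : Fin (m + 2) → Fin n) univ := by
  sorry

/-! ### Task B4 (first reduction; uses A1) -/
theorem R1 {n k D t : ℕ} (b : ℝ) (A : Set (Cg n k)) (N : Fin D → Fin n) (S : Finset (Fin D))
    (i : Fin D) (hi : i ∈ S) (hb0 : 0 ≤ b) (hb : 2 / (n : ℝ) ≤ b)
    (h : b ≤ E (fun v : Fin n => ind (ks A (Function.update N i v) S))) :
    E (fun W : Fin t → NL n => ind (¬ ks (A ∩ Col W) N (S.erase i))) ≤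
      Real.exp (-(t * b ^ 2 / 2)) := by
  sorry

/-! ### Task B5 (second reduction; uses A5, B1) -/
theorem R2 {n k D t : ℕ} (b lam : ℝ) (A : Set (Cg n k)) (N : Fin D → Fin n)
    (S : Finset (Fin D)) (i l : Fin D) (hi : i ∈ S) (hl : l ∈ S) (hil : i ≠ l) (hn : 2 ≤ n)
    (hb : 0 < b) (hb1 : b ≤ 1) (hlam : 0 < lam)
    (h : lam ≤ E (fun v : Fin n => E (fun f : Fin n =>
      ind (i1 b A (Function.update (Function.update N i v) l f) S))))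
    (h1 : 128 * Lg n * Real.log n ≤ lam * t) (h2 : 2 / (n : ℝ) ≤ lam / (32 * Lg n * b))
    (h3 : 2 ≤ lam * n) :
    E (fun W : Fin t → NL n => ind (¬ ks (A ∩ Col W) N ((S.erase i).erase l))) ≤
      kwb n t lam b := by
  sorry

/-! ### Task B6 (third reduction; uses A9, B3) -/
theorem R3 {n k t m q : ℕ} (b nu lam ta : ℝ) (A : Set (Cg n k)) (hk : 1 ≤ k) (hm : 1 ≤ m)
    (hn : 2 ≤ n) (hq : 1 ≤ q) (hb : 0 < b) (hb1 : 16 * b ≤ 1)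
    (hnu : 0 < nu) (hlam : 0 < lam) (hta : 0 < ta)
    (h6 : 6 * (lam / nu) ^ 2 * b ≤ ta)
    (n1 : 32 * b * q * lam ^ 2 ≤ (ta / 6) ^ 2) (n2 : 16 * nu * lam * q ≤ b * (ta / 6))
    (n3 : 128 * Lg n * Real.log n ≤ (q * (ta / 6) / 8) * t)
    (n4 : 2 / (n : ℝ) ≤ (q * (ta / 6) / 8) / (32 * Lg n * (16 * b)))
    (n5 : 2 ≤ (q * (ta / 6) / 8) * n) (n6 : 2 / (n : ℝ) ≤ (ta / 6) / (8 * lam) / 2 ^ m)
    (h : ta ≤ tau b lam (m + 2) A) :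
    E (fun W : Fin (t + t) → NL n => ind (A ∩ Col W).Nonempty) ≤
      (n : ℝ) ^ (m * q) * kwb n t (q * (ta / 6) / 8) (16 * b) +
        q * ((n : ℝ) + 1) ^ (m * q) *
          Real.exp (-(t * ((ta / 6) / (8 * lam) / 2 ^ m) ^ 2 / 2)) := by
  sorry

/-! ### Task B7 (survival probabilities) -/
theorem svv_nonneg {n k : ℕ} (t : ℕ) (A : Set (Cg n k)) : 0 ≤ svv t A := by
  sorry
theorem svv_le_one {n k : ℕ} (t : ℕ) (A : Set (Cg n k)) : svv t A ≤ 1 := by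
  sorry
theorem svv_empty {n k : ℕ} (t : ℕ) : svv t (∅ : Set (Cg n k)) = 0 := by
  sorry
theorem svv_add {n k : ℕ} (s t : ℕ) (A : Set (Cg n k)) :
    svv (s + t) A = E (fun W : Fin s → NL n => svv t (A ∩ Col W)) := by
  sorry
theorem svv_anti {n k : ℕ} {s t : ℕ} (h : s ≤ t) (A : Set (Cg n k)) : svv t A ≤ svv s A := by
  sorry
/-- exactly: `A` nonempty after the first `u` of the `s` pairs -/
theorem svv_prefix {n k : ℕ} (s u : ℕ) (hu : u ≤ s) (hn : 2 ≤ n) (A : Set (Cg n k)) :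
    E (fun W : Fin s → NL n => ind (A ∩ PF W u).Nonempty) = svv u A := by
  sorry

/-! ### Task B8 (the rounds; uses B1, B2, B7) -/
theorem assembly {n k D T : ℕ} (hk : 3 ≤ k) (hn : 2 ≤ n) (b lam ta et : ℝ) (hta : 0 ≤ ta)
    (het : 0 ≤ et)
    (H1 : ∀ (A : Set (Cg n k)) (N : Fin D → Fin n) (S : Finset (Fin D)) (i : Fin D), i ∈ S →
      b ≤ E (fun v : Fin n => ind (ks A (Function.update N i v) S)) →
      E (fun W : Fin T → NL n => ind (¬ ks (A ∩ Col W) N (S.erase i))) ≤ et)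
    (H2 : ∀ (A : Set (Cg n k)) (N : Fin D → Fin n) (S : Finset (Fin D)) (i l : Fin D), i ∈ S →
      l ∈ S → i ≠ l →
      lam ≤ E (fun v : Fin n => E (fun f : Fin n =>
        ind (i1 b A (Function.update (Function.update N i v) l f) S))) →
      E (fun W : Fin T → NL n => ind (¬ ks (A ∩ Col W) N ((S.erase i).erase l))) ≤ et)
    (H3 : ∀ (A : Set (Cg n k)) (m : ℕ), 1 ≤ m → m + 2 ≤ D → ta ≤ tau b lam (m + 2) A →
      E (fun W : Fin T → NL n => ind (A ∩ Col W).Nonempty) ≤ et)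
    (A : Set (Cg n k)) (hA : A.Nonempty) (hs : 1 / 2 ≤ svv (D * T) A) :
    TD D A ≤ 2 * D * (2 ^ D * (ta + (1 + D + D ^ 2) * et)) := by
  sorry

/-! ### Task B9 (numerical inequalities for the static theorem) -/
theorem numerics : ∃ n0 : ℕ, ∀ n t D : ℕ, n0 ≤ n → (n : ℝ) ^ ((1 : ℝ) / 3) ≤ t → t ≤ n →
    (4 : ℝ) ^ D ≤ (t : ℝ) ^ ((3 : ℝ) / 5) →
    ∀ b lam ta nu : ℝ, b = (t : ℝ) ^ (-(1 : ℝ) / 2 + 1 / 400) →
      lam = (t : ℝ) ^ (-(1 : ℝ) + 3 / 400) → ta = (t : ℝ) ^ (-(1 + (1 : ℝ) / 400)) →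
      nu = (t : ℝ) ^ (-(7 : ℝ) / 10) → ∀ q : ℕ, q = ⌈(t : ℝ) ^ ((1 : ℝ) / 20)⌉₊ →
    2 ≤ n ∧ 1 ≤ q ∧ 0 < b ∧ 16 * b ≤ 1 ∧ 0 < nu ∧ 0 < lam ∧ 0 < ta ∧
    2 / (n : ℝ) ≤ b ∧ Real.exp (-((t + t : ℕ) * b ^ 2 / 2)) ≤ (n : ℝ) ^ (-(3 : ℝ)) ∧
    128 * Lg n * Real.log n ≤ lam * (t + t : ℕ) ∧ 2 / (n : ℝ) ≤ lam / (32 * Lg n * b) ∧
    2 ≤ lam * n ∧ kwb n (t + t) lam b ≤ (n : ℝ) ^ (-(3 : ℝ)) ∧
    6 * (lam / nu) ^ 2 * b ≤ ta ∧ 32 * b * q * lam ^ 2 ≤ (ta / 6) ^ 2 ∧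
    16 * nu * lam * q ≤ b * (ta / 6) ∧
    128 * Lg n * Real.log n ≤ (q * (ta / 6) / 8) * t ∧
    2 / (n : ℝ) ≤ (q * (ta / 6) / 8) / (32 * Lg n * (16 * b)) ∧
    2 ≤ (q * (ta / 6) / 8) * n ∧
    ∀ m : ℕ, m ≤ D → 2 / (n : ℝ) ≤ (ta / 6) / (8 * lam) / 2 ^ m ∧
      (n : ℝ) ^ (m * q) * kwb n t (q * (ta / 6) / 8) (16 * b) +
        q * ((n : ℝ) + 1) ^ (m * q) *
          Real.exp (-(t * ((ta / 6) / (8 * lam) / 2 ^ m) ^ 2 / 2)) ≤ (n : ℝ) ^ (-(3 : ℝ)) := by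
  sorry

/-! ### Task B10 (the static theorem; uses B4, B5, B6, B7, B8, B9) -/
theorem static (k : ℕ) (hk : 3 ≤ k) : ∃ C : ℝ, 1 ≤ C ∧ Static k (1 / 400) C 256 := by
  sorry

/-! ## PART C: dynamics -/

/-! ### Task C1 (telescoping; uses B7) -/
theorem tele {n k : ℕ} (s t : ℕ) (hn : 2 ≤ n) (A : Set (Cg n k)) :
    E (fun W : Fin s → NL n => ∑ u ∈ range s,
      ind ((A ∩ PF W u).Nonempty ∧ svv t (A ∩ PF W u) < 1 / 2)) ≤ 2 * t := by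
  sorry

/-! ### Task C2 (dyadic rate function, bound for `TD`) -/
theorem rhf_nonneg {n k : ℕ} (c : ℝ) (i0 i1 : ℕ) (A : Set (Cg n k)) : 0 ≤ rhf c i0 i1 A := by
  sorry
theorem TD_le_one {n k : ℕ} (D : ℕ) (A : Set (Cg n k)) : TD D A ≤ 1 := by
  sorry
theorem TD_rhf {n k : ℕ} (c C B : ℝ) (i0 i1 : ℕ) (hc : 0 ≤ c) (hS : Static k c C B) (hC : 1 ≤ C)
    (hB : 1 ≤ B) (hi : i0 ≤ i1) (h0 : (n : ℝ) ^ ((2 : ℝ) / 5) ≤ (2 : ℝ) ^ i0)
    (h1 : 2 ^ i1 ≤ n) (D : ℕ) (A : Set (Cg n k)) (hA : A.Nonempty) :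
    TD D A ≤ C * B ^ D * (rhf c i0 i1 A) ^ 2 := by
  sorry

/-! ### Task C3 (total rate; uses C1) -/
theorem Phi_le {n k : ℕ} (c : ℝ) (i0 i1 s : ℕ) (hn : 2 ≤ n) (A : Set (Cg n k)) :
    E (fun W : Fin s → NL n => ∑ u ∈ range s,
      ind (A ∩ PF W u).Nonempty * rhf c i0 i1 (A ∩ PF W u)) ≤
      2 * 2 ^ i0 + 4 * ∑ i ∈ Ico i0 i1, ((2 : ℝ) ^ i) ^ ((1 - c) / 2) +
        s * ((2 : ℝ) ^ i1) ^ (-((1 + c) / 2)) := by
  sorry

/-! ### Task C4 (lazy comparison) -/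
theorem lazy {n k : ℕ} (s : ℕ) (hn : 2 ≤ n) (b : ℝ) (hb : 0 ≤ b) (F : Set (Cg n k) → ℝ)
    (hF : ∀ A, 0 ≤ F A) (A : Set (Cg n k)) :
    E (fun r : Fin s → Fin (n + 1) => E (fun Y : Fin s → NL n =>
      ∑ u ∈ range s, b ^ (nst r u) * F (A ∩ BS r Y u))) ≤
      (1 + 2 * b / (n + 1)) ^ s *
        E (fun Y : Fin s → NL n => ∑ u ∈ range s, F (A ∩ PF Y u)) := by
  sorry

/-! ### Task C5 (Minkowski) -/
theorem mink {Ω Z : Type} [Fintype Ω] [Fintype Z] (s : ℕ) (g : Ω → ℕ → Z → ℝ) (R : Ω → ℕ → ℝ)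
    (hR : ∀ ω u, 0 ≤ R ω u) (hg : ∀ ω u x, 0 ≤ g ω u x)
    (h : ∀ ω u, u < s → E (fun x => g ω u x ^ 2) ≤ R ω u ^ 2) :
    E (fun x => (E (fun ω => ∑ u ∈ range s, g ω u x)) ^ 2) ≤
      (E (fun ω => ∑ u ∈ range s, R ω u)) ^ 2 := by
  sorry

/-! ### Task C6 (representation of a random pair relative to a vertex) -/
theorem E_Ph {n : ℕ} (hn : 2 ≤ n) (v : Fin (n + 1)) (g : NL (n + 1) → ℝ) :
    E g = E (fun r : Fin (n + 1) => E (fun y : NL n => E (fun z : Fin n => g (Ph v r y z)))) := by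
  sorry
theorem E_Ph_tuple {n M : ℕ} (hn : 2 ≤ n) (v : Fin (n + 1)) (g : (Fin M → NL (n + 1)) → ℝ) :
    E g = E (fun r : Fin M → Fin (n + 1) => E (fun Y : Fin M → NL n =>
      E (fun Z : Fin M → Fin n => g (fun j => Ph v (r j) (Y j) (Z j))))) := by
  sorry
theorem E_pairs {n : ℕ} (g : NL (n + 1) → ℝ) :
    E g = E (fun v : Fin (n + 1) => E (fun z : Fin n =>
      g ⟨(v, v.succAbove z), (Fin.succAbove_ne v z).symm⟩)) := by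
  sorry

/-! ### Task C7 (pointwise decomposition at a vertex; uses C6) -/
theorem vdp {n k M s : ℕ} (hn : 2 ≤ n) (v : Fin (n + 1)) (rG : Fin M → Fin (n + 1))
    (YG : Fin M → NL n) (Z : Fin M → Fin n) (z : Fin n) :
    RC s (Col (fun j => Ph v (rG j) (YG j) (Z j)) : Set (Cg (n + 1) k)) -
      RC s (Col (fun j => Ph v (rG j) (YG j) (Z j)) ∩
        {a : Cg (n + 1) k | pr a ⟨(v, v.succAbove z), (Fin.succAbove_ne v z).symm⟩}) ≤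
      E (fun r : Fin s → Fin (n + 1) => E (fun Y : Fin s → NL n => ∑ u ∈ range s,
        E (fun Z' : Fin s → Fin n =>
          ind (((BS rG YG M : Set (Cg n k)) ∩ BS r Y u).Nonempty ∧
            kk ((BS rG YG M : Set (Cg n k)) ∩ BS r Y u) rG Z r Z' u z)))) := by
  sorry

/-! ### Task C8 (marginals) -/
theorem E_kk {n k M s : ℕ} (B : Set (Cg n k)) (rG : Fin M → Fin (n + 1))
    (r : Fin s → Fin (n + 1)) (u : ℕ) :
    E (fun Z : Fin M → Fin n => E (fun z : Fin n => E (fun Z' : Fin s → Fin n =>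
      ind (kk B rG Z r Z' u z)))) = TD (1 + nst rG M + nst r u) B := by
  sorry
theorem E_pow_nst {n M : ℕ} (hn : 1 ≤ n) (x : ℝ) (hx : 0 ≤ x) :
    E (fun r : Fin M → Fin (n + 1) => x ^ (nst r M)) ≤ (1 + 2 * x / (n + 1)) ^ M := by
  sorry

/-! ### Task C9 (second moment at a vertex; uses C4, C5, C6, C7, C8) -/
theorem dsq_v {n k M s : ℕ} (hn : 2 ≤ n) (v : Fin (n + 1)) (rh : Set (Cg n k) → ℝ)
    (C1 b Φ : ℝ) (hrh : ∀ A, 0 ≤ rh A) (hC1 : 0 ≤ C1) (hb : 1 ≤ b)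
    (hTD : ∀ (D : ℕ) (A : Set (Cg n k)), A.Nonempty → TD D A ≤ C1 * (b ^ 2) ^ D * rh A ^ 2)
    (hΦ : ∀ A : Set (Cg n k), E (fun W : Fin s → NL n => ∑ u ∈ range s,
      ind (A ∩ PF W u).Nonempty * rh (A ∩ PF W u)) ≤ Φ) :
    E (fun G : Fin M → NL (n + 1) => E (fun z : Fin n =>
      (RC s (Col G : Set (Cg (n + 1) k)) -
        RC s (Col G ∩ {a : Cg (n + 1) k |
          pr a ⟨(v, v.succAbove z), (Fin.succAbove_ne v z).symm⟩})) ^ 2)) ≤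
      C1 * b ^ 2 * (1 + 2 * b ^ 2 / (n + 1)) ^ M * ((1 + 2 * b / (n + 1)) ^ s * Φ) ^ 2 := by
  sorry

/-! ### Task C10 (facts about `RC`) -/
theorem RC_nonneg {n k : ℕ} (s : ℕ) (A : Set (Cg n k)) : 0 ≤ RC s A := by
  sorry
theorem RC_mono {n k : ℕ} (s : ℕ) {A B : Set (Cg n k)} (h : A ⊆ B) : RC s A ≤ RC s B := by
  sorry
theorem RC_empty {n k : ℕ} (s : ℕ) : RC s (∅ : Set (Cg n k)) = 0 := by
  sorry
theorem E_RC_ge (k n m s : ℕ) :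
    (s : ℝ) * pc k n (m + s) ≤ E (fun F : Fin m → NL n => RC s (Col F : Set (Cg n k))) := by
  sorry

/-! ### Task C11 (Efron-Stein; uses `Pool.Agent.H999R2.KSat.ES`, C6, C10) -/
theorem sharp_gen {k n M s : ℕ} (V : ℝ)
    (hV : ∀ v : Fin (n + 1), E (fun G : Fin M → NL (n + 1) => E (fun z : Fin n =>
      (RC s (Col G : Set (Cg (n + 1) k)) -
        RC s (Col G ∩ {a : Cg (n + 1) k |
          pr a ⟨(v, v.succAbove z), (Fin.succAbove_ne v z).symm⟩})) ^ 2)) ≤ V) :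
    (1 - pc k (n + 1) (M + 1)) * ((s : ℝ) * pc k (n + 1) (M + 1 + s)) ^ 2 ≤ (M + 1) * V := by
  sorry

/-! ### Task C12 (numerics; uses C2, C3, C9, C11) -/
theorem hsharp_col (k : ℕ) (hk : 1 ≤ k) (c C B : ℝ) (hc : 0 < c) (hc5 : c ≤ 1 / 5) (hC : 1 ≤ C)
    (hB : 1 ≤ B) (hS : Static k c C B) :
    ∀ Λ δ : ℝ, 0 < δ → ∃ n0 : ℕ, ∀ n m : ℕ, n0 ≤ n → (m : ℝ) ≤ Λ * n →
      (1 - pc k n m) * pc k n (m + ⌊(n : ℝ) ^ (1 - c / 4)⌋₊) ^ 2 ≤ δ := by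
  sorry

/-! ## PART D: supermultiplicativity and convergence -/

/-! ### Task D1 (basic facts about `pc`) -/
theorem pc_zero (k n : ℕ) (hk : 1 ≤ k) : pc k n 0 = 1 := by
  sorry
theorem pc_nonneg (k n m : ℕ) : 0 ≤ pc k n m := by
  sorry
theorem pc_le_one (k n m : ℕ) : pc k n m ≤ 1 := by
  sorry
theorem pc_succ_le (k n m : ℕ) : pc k n (m + 1) ≤ pc k n m := by
  sorry
theorem pc_anti (k n : ℕ) {m m' : ℕ} (h : m ≤ m') : pc k n m' ≤ pc k n m := by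
  sorry
theorem first_moment (k n m : ℕ) (hk : 1 ≤ k) (hn : 2 * k ≤ n) :
    pc k n m ≤ (k : ℝ) ^ n * (1 - 1 / (2 * k)) ^ m := by
  sorry

/-! ### Task D2 (one more vertex) -/
theorem pc_one (k n m : ℕ) (hn : 1 ≤ n) (hk : 1 ≤ k) :
    (((n : ℝ) - 1) / (n + 1)) ^ m * pc k n m ≤ pc k (n + 1) m := by
  sorry

/-! ### Task D3 (loops kill) -/
theorem qq_eq (k n m : ℕ) (hn : 1 ≤ n) (hk : 1 ≤ k) :
    qq m (Set.univ : Set (Cg n k)) = (1 - 1 / (n : ℝ)) ^ m * pc k n m := by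
  sorry

/-! ### Task D4 (interpolation) -/
theorem interp_col (N1 N2 k m : ℕ) (h1 : 0 < N1) (h2 : 0 < N2)
    (A1 : Set (Cg N1 k)) (A2 : Set (Cg N2 k)) :
    ∑ j ∈ range (m + 1), (m.choose j : ℝ) * ((N1 : ℝ) / (N1 + N2)) ^ j *
      ((N2 : ℝ) / (N1 + N2)) ^ (m - j) * (qq j A1 * qq (m - j) A2) ≤
      qq m (rectc A1 A2) := by
  sorry

/-! ### Task D5 (uses D1, D3, D4) -/
theorem pc_two (N1 N2 k m m1 m2 : ℕ) (d : ℝ) (h1 : 2 ≤ N1) (h2 : 2 ≤ N2) (hk : 1 ≤ k)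
    (hd : 0 ≤ d) (hdm : 4 * (m : ℝ) ≤ d ^ 2)
    (hm1 : m * (N1 : ℝ) / (N1 + N2) + d ≤ m1) (hm2 : m * (N2 : ℝ) / (N1 + N2) + d ≤ m2) :
    1 / 2 * ((1 - 1 / (N1 : ℝ)) ^ m * (1 - 1 / (N2 : ℝ)) ^ m) * (pc k N1 m1 * pc k N2 m2) ≤
      pc k (N1 + N2) m := by
  sorry

/-! ### Task D6 (the structure `HypC`; uses C12, D1, D2, D5) -/
theorem hypC_col (k : ℕ) (hk : 3 ≤ k) (c C B : ℝ) (hc : 0 < c) (hc5 : c ≤ 1 / 5) (hC : 1 ≤ C)
    (hB : 1 ≤ B) (hS : Static k c C B) : HypC (c / 4) (fun n m => pc k n m) := by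
  sorry

/-! ### Task D7 -/
theorem HypC.le_one {θ : ℝ} {p : ℕ → ℕ → ℝ} (h : HypC θ p) (n m : ℕ) : p n m ≤ 1 := by
  sorry
theorem HypC.anti {θ : ℝ} {p : ℕ → ℕ → ℝ} (h : HypC θ p) (n : ℕ) {m m' : ℕ} (hm : m ≤ m') :
    p n m' ≤ p n m := by
  sorry
theorem HypC.first_bound {θ : ℝ} {p : ℕ → ℕ → ℝ} (h : HypC θ p) (δ : ℝ) (hδ : 0 < δ) :
    ∃ Λ : ℝ, 0 < Λ ∧ ∃ n1 : ℕ, ∀ n m : ℕ, n1 ≤ n → δ ≤ p n m → (m : ℝ) ≤ Λ * n := by
  sorry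
theorem HypC.Mxc_spec {θ : ℝ} {p : ℕ → ℕ → ℝ} (h : HypC θ p) :
    ∃ n1 : ℕ, ∀ n : ℕ, n1 ≤ n → 1 / 2 ≤ p n (Mxc p n) ∧ ∀ m, 1 / 2 ≤ p n m → m ≤ Mxc p n := by
  sorry

/-! ### Task D8 (uses D7) -/
theorem HypC.stepA {θ : ℝ} {p : ℕ → ℕ → ℝ} (h : HypC θ p) (δ : ℝ) (hδ : 0 < δ) :
    ∃ n0 : ℕ, ∀ n m : ℕ, n0 ≤ n → δ ≤ p n m → (m : ℝ) ≤ Mxc p n + (n : ℝ) ^ (1 - θ) := by
  sorry
theorem HypC.stepA' {θ : ℝ} {p : ℕ → ℕ → ℝ} (h : HypC θ p) (ε : ℝ) (hε : 0 < ε) :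
    ∃ n0 : ℕ, ∀ n m : ℕ, n0 ≤ n → (m : ℝ) + (n : ℝ) ^ (1 - θ) ≤ Mxc p n → 1 - ε ≤ p n m := by
  sorry

/-! ### Task D9 (uses D7, D8) -/
theorem HypC.stepB {θ : ℝ} {p : ℕ → ℕ → ℝ} (h : HypC θ p) :
    ∃ C : ℝ, 0 < C ∧ ∃ n0 : ℕ, ∀ N1 N2 : ℕ, n0 ≤ N1 → n0 ≤ N2 →
      N1 + N2 ≤ 4 * N1 → N1 + N2 ≤ 4 * N2 →
      min ((Mxc p N1 : ℝ) / N1) ((Mxc p N2 : ℝ) / N2) -
        C * ((N1 + N2 : ℕ) : ℝ) ^ (-θ) ≤
        (Mxc p (N1 + N2) : ℝ) / ((N1 + N2 : ℕ) : ℝ) := by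
  sorry

/-! ### Task D10 (uses D7, D8) -/
theorem HypC.stepC {θ : ℝ} {p : ℕ → ℕ → ℝ} (h : HypC θ p) :
    ∃ C : ℝ, 0 < C ∧ ∃ n0 : ℕ, ∀ N : ℕ, n0 ≤ N →
      (Mxc p N : ℝ) / N - C * (N : ℝ) ^ (-θ) ≤
        (Mxc p (N + 1) : ℝ) / ((N + 1 : ℕ) : ℝ) := by
  sorry

/-! ### Task D11 (uses `Pool.Agent.H999R2.KSat.SQ`, D7-D10) -/
theorem HypC.convergence {θ : ℝ} {p : ℕ → ℕ → ℝ} (h : HypC θ p) :
    ∃ rs : ℝ, (∀ r, r < rs → Tendsto (fun n : ℕ => p n ⌊r * (n : ℝ)⌋₊) atTop (nhds 1)) ∧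
      (∀ r, rs < r → Tendsto (fun n : ℕ => p n ⌊r * (n : ℝ)⌋₊) atTop (nhds 0)) := by
  sorry

/-! ## PART T: transfer to simple graphs -/

/-! ### Task T1 (counting) -/
open Classical in
theorem count_all (n m : ℕ) :
    Nat.card {G : SimpleGraph (Fin n) // G.edgeSet.ncard = m} * (2 ^ m * m.factorial) =
      (univ.filter (fun F : Fin m → NL n => dst F)).card := by
  sorry
open Classical in
theorem count_col (n k m : ℕ) :
    Nat.card {G : SimpleGraph (Fin n) // G.edgeSet.ncard = m ∧ G.Colorable k} *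
      (2 ^ m * m.factorial) =
      (univ.filter (fun F : Fin m → NL n => dst F ∧ (Col F : Set (Cg n k)).Nonempty)).card := by
  sorry

/-! ### Task T2 (a random tuple of pairs is simple with probability bounded below) -/
open Classical in
theorem dst_lower (Λ : ℝ) : ∃ c : ℝ, 0 < c ∧ ∃ n0 : ℕ, ∀ n m : ℕ, n0 ≤ n →
    (m : ℝ) ≤ Λ * n → c * (Fintype.card (Fin m → NL n) : ℝ) ≤
      (univ.filter (fun F : Fin m → NL n => dst F)).card := by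
  sorry

/-! ### Task T3 (limit transfer; uses T1, T2) -/
theorem transfer_col (k : ℕ) (rs : ℝ)
    (h1 : ∀ r, r < rs → Tendsto (fun n : ℕ => pc k n ⌊r * (n : ℝ)⌋₊) atTop (nhds 1))
    (h0 : ∀ r, rs < r → Tendsto (fun n : ℕ => pc k n ⌊r * (n : ℝ)⌋₊) atTop (nhds 0)) :
    ∀ ε : ℝ, 0 < ε →
      Filter.Tendsto
        (fun n : ℕ =>
          (Nat.card {G : SimpleGraph (Fin n) //
              G.edgeSet.ncard = ⌊(rs - ε) * (n : ℝ)⌋₊ ∧ G.Colorable k} : ℝ) /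
          (Nat.card {G : SimpleGraph (Fin n) //
              G.edgeSet.ncard = ⌊(rs - ε) * (n : ℝ)⌋₊} : ℝ))
        Filter.atTop (nhds 1) ∧
      Filter.Tendsto
        (fun n : ℕ =>
          (Nat.card {G : SimpleGraph (Fin n) //
              G.edgeSet.ncard = ⌊(rs + ε) * (n : ℝ)⌋₊ ∧ G.Colorable k} : ℝ) /
          (Nat.card {G : SimpleGraph (Fin n) //
              G.edgeSet.ncard = ⌊(rs + ε) * (n : ℝ)⌋₊} : ℝ))
        Filter.atTop (nhds 0) := by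
  sorry

/-! ### The frozen statement S13275, by assembly -/
theorem main :
    ∀ k : ℕ, 3 ≤ k → ∃ c : ℝ, ∀ ε : ℝ, 0 < ε →
      Filter.Tendsto
        (fun n : ℕ =>
          (Nat.card {G : SimpleGraph (Fin n) //
              G.edgeSet.ncard = ⌊(c - ε) * (n : ℝ)⌋₊ ∧ G.Colorable k} : ℝ) /
          (Nat.card {G : SimpleGraph (Fin n) //
              G.edgeSet.ncard = ⌊(c - ε) * (n : ℝ)⌋₊} : ℝ))
        Filter.atTop (nhds 1) ∧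
      Filter.Tendsto
        (fun n : ℕ =>
          (Nat.card {G : SimpleGraph (Fin n) //
              G.edgeSet.ncard = ⌊(c + ε) * (n : ℝ)⌋₊ ∧ G.Colorable k} : ℝ) /
          (Nat.card {G : SimpleGraph (Fin n) //
              G.edgeSet.ncard = ⌊(c + ε) * (n : ℝ)⌋₊} : ℝ))
        Filter.atTop (nhds 0) := by
  intro k hk
  obtain ⟨C, hC, hS⟩ := static k hk
  have hyp := hypC_col k hk (1 / 400) C 256 (by norm_num) (by norm_num) hC (by norm_num) hS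
  obtain ⟨rs, h1, h0⟩ := hyp.convergence
  exact ⟨rs, transfer_col k rs h1 h0⟩

end Pool.Agent.H290R2.Col
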