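import Pool.Agent.H290R2.Col.B7

set_option autoImplicit false

namespace Pool.Agent.H290R2.Col
open Finset Filter Pool.Agent.H999R2.KSat

theorem C1.prefix_t {n k : ℕ} (s t u : ℕ) (hu : u ≤ s) (hn : 2 ≤ n) (A : Set (Cg n k)) :
    E (fun W : Fin s → NL n => svv t (A ∩ PF W u)) = svv (u + t) A := by
  obtain ⟨d, rfl⟩ := Nat.exists_eq_add_of_le hu
  rw [E_append, svv_add]
  refine E_congr fun W1 => ?_
  have hne : Nonempty (NL n) := ⟨⟨(⟨0, by omega⟩, ⟨1, by omega⟩), by simp⟩⟩
  have hPF : ∀ W2 : Fin d → NL n,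
      (PF (Fin.append W1 W2) u : Set (Cg n k)) = Col W1 := by
    intro W2
    ext a
    constructor
    · intro h j
      have := h (Fin.castAdd d j) (by simp)
      rwa [Fin.append_left] at this
    · intro h j hj
      have hj' : j = Fin.castAdd d ⟨j.val, hj⟩ := by ext; simp
      rw [hj', Fin.append_left]
      exact h _
  simp only [hPF]
  exact E_const _

theorem C1.pointwise {n k : ℕ} (t : ℕ) (B : Set (Cg n k)) :
    ind (B.Nonempty ∧ svv t B < 1 / 2) ≤ 2 * (ind B.Nonempty - svv t B) := by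
  by_cases h : B.Nonempty
  · rw [ind_true h]
    by_cases h2 : svv t B < 1 / 2
    · rw [ind_true ⟨h, h2⟩]; linarith
    · rw [ind_false (fun hh => h2 hh.2)]
      have := svv_le_one t B
      linarith
  · rw [ind_false h, ind_false (fun hh => h hh.1)]
    have h0 : svv t B = 0 := by
      unfold svv
      rw [E_congr (g := fun _ => (0 : ℝ)), E_zero]
      intro W
      apply ind_false
      rintro ⟨a, ha⟩
      exact h ⟨a, ha.1⟩
    rw [h0]; norm_num

theorem tele {n k : ℕ} (s t : ℕ) (hn : 2 ≤ n) (A : Set (Cg n k)) :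
    E (fun W : Fin s → NL n => ∑ u ∈ range s,
      ind ((A ∩ PF W u).Nonempty ∧ svv t (A ∩ PF W u) < 1 / 2)) ≤ 2 * t := by
  rw [E_sum]
  have h1 : ∀ u ∈ range s, E (fun W : Fin s → NL n =>
      ind ((A ∩ PF W u).Nonempty ∧ svv t (A ∩ PF W u) < 1 / 2)) ≤
      2 * (svv u A - svv (t + u) A) := by
    intro u hu
    have hu' : u ≤ s := (Finset.mem_range.1 hu).le
    calc E (fun W : Fin s → NL n =>
        ind ((A ∩ PF W u).Nonempty ∧ svv t (A ∩ PF W u) < 1 / 2))
        ≤ E (fun W : Fin s → NL n =>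
          2 * (ind (A ∩ PF W u).Nonempty - svv t (A ∩ PF W u))) :=
          E_mono fun W => C1.pointwise t _
      _ = 2 * (svv u A - svv (t + u) A) := by
          rw [E_mul_left, E_sub, svv_prefix s u hu' hn A, C1.prefix_t s t u hu' hn A,
            Nat.add_comm u t]
  refine (Finset.sum_le_sum h1).trans ?_
  rw [← Finset.mul_sum, Finset.sum_sub_distrib]
  have h2 := Finset.sum_range_add (fun u => svv u A) s t
  have h3 := Finset.sum_range_add (fun u => svv u A) t s
  rw [Nat.add_comm t s] at h3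
  have h4 : 0 ≤ ∑ x ∈ range t, svv (s + x) A := Finset.sum_nonneg fun x _ => svv_nonneg _ _
  have h5 : ∑ x ∈ range t, svv x A ≤ t := by
    calc ∑ x ∈ range t, svv x A ≤ ∑ _x ∈ range t, (1 : ℝ) :=
          Finset.sum_le_sum fun x _ => svv_le_one _ _
      _ = t := by simp
  linarith

end Pool.Agent.H290R2.Col
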