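import Pool.Agent.H290R2.Col.Defs

/-! Task C10: facts about `RC`. -/

set_option autoImplicit false

namespace Pool.Agent.H290R2.Col
open Finset Filter Pool.Agent.H999R2.KSat

theorem RC_nonneg {n k : ℕ} (s : ℕ) (A : Set (Cg n k)) : 0 ≤ RC s A :=
  E_nonneg fun _ => Finset.sum_nonneg fun _ _ => ind_nonneg _

theorem RC_mono {n k : ℕ} (s : ℕ) {A B : Set (Cg n k)} (h : A ⊆ B) : RC s A ≤ RC s B := by
  refine E_mono fun W => Finset.sum_le_sum fun u _ => ind_mono ?_
  rintro ⟨a, ha, hW⟩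
  exact ⟨a, h ha, hW⟩

theorem RC_empty {n k : ℕ} (s : ℕ) : RC s (∅ : Set (Cg n k)) = 0 := by
  unfold RC
  have h : ∀ W : Fin s → NL n, ∑ u ∈ range s, ind (∃ a ∈ (∅ : Set (Cg n k)),
      ∀ l : Fin s, l.val < u → pr a (W l)) = 0 := by
    intro W
    refine Finset.sum_eq_zero fun u _ => ind_false ?_
    rintro ⟨a, ha, -⟩
    exact ha
  rw [E_congr h]
  exact E_zero

theorem E_RC_ge (k n m s : ℕ) :
    (s : ℝ) * pc k n (m + s) ≤ E (fun F : Fin m → NL n => RC s (Col F : Set (Cg n k))) := by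
  have h1 : (s : ℝ) * pc k n (m + s) = E (fun F : Fin m → NL n =>
      E (fun W : Fin s → NL n => ∑ _u ∈ range s,
        ind ((Col (Fin.append F W) : Set (Cg n k)).Nonempty))) := by
    unfold pc
    rw [E_append (X := NL n) (fun F => ind ((Col F : Set (Cg n k)).Nonempty)), ← E_mul_left]
    refine E_congr fun F => ?_
    rw [← E_mul_left]
    refine E_congr fun W => ?_
    rw [Finset.sum_const, Finset.card_range, nsmul_eq_mul]
  rw [h1]
  refine E_mono fun F => ?_
  unfold RC
  refine E_mono fun W => Finset.sum_le_sum fun u _ => ind_mono ?_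
  rintro ⟨a, ha⟩
  refine ⟨a, fun j => ?_, fun l _ => ?_⟩
  · have := ha (Fin.castAdd s j)
    rwa [Fin.append_left] at this
  · have := ha (Fin.natAdd m l)
    rwa [Fin.append_right] at this

end Pool.Agent.H290R2.Col
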