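import Pool.Agent.H290R2.Col.Defs
import Pool.Agent.H999R2.KSat.ES

/-!
# Task C11: Efron-Stein (helper895; adapted from helper999's module `KSat.SH`)
-/

set_option autoImplicit false

namespace Pool.Agent.H290R2.Col
open Finset Filter Pool.Agent.H999R2.KSat

/-- ordered pairs of distinct vertices as (vertex, other vertex) -/
def c11_equiv (n : ℕ) : (Fin (n + 1) × Fin n) ≃ NL (n + 1) where
  toFun x := ⟨(x.1, x.1.succAbove x.2), (Fin.succAbove_ne x.1 x.2).symm⟩
  invFun e := (e.1.1, (finSuccAboveEquiv e.1.1).symm ⟨e.1.2, fun h => e.2 h.symm⟩)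
  left_inv := by
    rintro ⟨v, z⟩
    have h : (finSuccAboveEquiv v).symm ⟨v.succAbove z, fun h =>
        (Fin.succAbove_ne v z).symm h.symm⟩ = z := by
      rw [Equiv.symm_apply_eq]
      rfl
    exact Prod.ext rfl h
  right_inv := by
    rintro ⟨⟨a, b⟩, hab⟩
    apply Subtype.ext
    apply Prod.ext
    · rfl
    · change a.succAbove ((finSuccAboveEquiv a).symm ⟨b, _⟩) = b
      have h := (finSuccAboveEquiv a).apply_symm_apply ⟨b, fun h => hab h.symm⟩
      exact congrArg Subtype.val h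

theorem c11_E_pairs {n : ℕ} (g : NL (n + 1) → ℝ) :
    E g = E (fun v : Fin (n + 1) => E (fun z : Fin n =>
      g ⟨(v, v.succAbove z), (Fin.succAbove_ne v z).symm⟩)) := by
  rw [← E_equiv (c11_equiv n) g]
  exact E_prod (fun (v : Fin (n + 1)) (z : Fin n) =>
    g ⟨(v, v.succAbove z), (Fin.succAbove_ne v z).symm⟩)

theorem c11_RC_empty {n k : ℕ} (s : ℕ) : RC s (∅ : Set (Cg n k)) = 0 := by
  unfold RC
  have : ∀ W : Fin s → NL n, (∑ u ∈ range s, ind (∃ a ∈ (∅ : Set (Cg n k)),
      ∀ l : Fin s, l.val < u → pr a (W l))) = 0 := by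
    intro W
    apply Finset.sum_eq_zero
    intro u _
    apply ind_false
    rintro ⟨a, ha, _⟩
    exact ha
  rw [E_congr this, E_zero]

theorem c11_E_RC_ge (k n m s : ℕ) :
    (s : ℝ) * pc k n (m + s) ≤ E (fun F : Fin m → NL n => RC s (Col F : Set (Cg n k))) := by
  have h1 : (s : ℝ) * pc k n (m + s) = E (fun F : Fin m → NL n =>
      E (fun W : Fin s → NL n => ∑ _u ∈ range s,
        ind ((Col (Fin.append F W) : Set (Cg n k)).Nonempty))) := by
    unfold pc
    rw [E_append (X := NL n) (fun F => ind ((Col F : Set (Cg n k)).Nonempty)), ← E_mul_left]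
    refine E_congr fun F => ?_
    rw [← E_mul_left]
    refine E_congr fun W => ?_
    rw [Finset.sum_const, Finset.card_range, nsmul_eq_mul]
  rw [h1]
  refine E_mono fun F => ?_
  unfold RC
  refine E_mono fun W => Finset.sum_le_sum fun u _ => ind_mono ?_
  rintro ⟨a, ha⟩
  refine ⟨a, fun j => ?_, fun l _ => ?_⟩
  · have := ha (Fin.castAdd s j)
    rwa [Fin.append_left] at this
  · have := ha (Fin.natAdd m l)
    rwa [Fin.append_right] at this

theorem c11_pc_nonneg (k n m : ℕ) : 0 ≤ pc k n m := by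
  unfold pc
  exact E_nonneg fun F => ind_nonneg _

theorem c11_pc_le_one (k n m : ℕ) : pc k n m ≤ 1 := by
  unfold pc
  exact E_le_of_nonneg zero_le_one fun F => ind_le_one _

theorem c11_Col_insertNth {n k M : ℕ} (j : Fin (M + 1)) (x : NL n) (G : Fin M → NL n) :
    (Col (j.insertNth x G : Fin (M + 1) → NL n) : Set (Cg n k)) = Col G ∩ {a | pr a x} := by
  ext a
  simp only [Col, Set.mem_setOf_eq, Set.mem_inter_iff]
  rw [Fin.forall_iff_succAbove j]
  simp only [Fin.insertNth_apply_same, Fin.insertNth_apply_succAbove]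
  tauto

theorem c11_var_upper {k n M s : ℕ} (V : ℝ)
    (hV : ∀ v : Fin (n + 1), E (fun G : Fin M → NL (n + 1) => E (fun z : Fin n =>
      (RC s (Col G : Set (Cg (n + 1) k)) -
        RC s (Col G ∩ {a : Cg (n + 1) k |
          pr a ⟨(v, v.succAbove z), (Fin.succAbove_ne v z).symm⟩})) ^ 2)) ≤ V) :
    E (fun F : Fin (M + 1) → NL (n + 1) => RC s (Col F : Set (Cg (n + 1) k)) ^ 2)
      - (E (fun F : Fin (M + 1) → NL (n + 1) => RC s (Col F : Set (Cg (n + 1) k)))) ^ 2 ≤
      ((M : ℝ) + 1) * V := by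
  have h1 := efron_stein (M + 1)
    (fun F : Fin (M + 1) → NL (n + 1) => RC s (Col F : Set (Cg (n + 1) k)))
    (fun j F => RC s (Col (j.removeNth F) : Set (Cg (n + 1) k))) (by
      intro j F y
      simp only [Fin.removeNth_update])
  refine h1.trans ?_
  have h2 : ∀ j : Fin (M + 1), E (fun F : Fin (M + 1) → NL (n + 1) =>
      (RC s (Col F : Set (Cg (n + 1) k)) - RC s (Col (j.removeNth F) : Set (Cg (n + 1) k))) ^ 2) ≤
      V := by
    intro j
    rw [E_insertNth j, E_comm]
    have h3 : E (fun G : Fin M → NL (n + 1) => E (fun e : NL (n + 1) =>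
        (RC s (Col (j.insertNth e G : Fin (M + 1) → NL (n + 1)) : Set (Cg (n + 1) k)) -
          RC s (Col (j.removeNth (j.insertNth e G : Fin (M + 1) → NL (n + 1))) :
            Set (Cg (n + 1) k))) ^ 2)) =
        E (fun v : Fin (n + 1) => E (fun G : Fin M → NL (n + 1) => E (fun z : Fin n =>
      (RC s (Col G : Set (Cg (n + 1) k)) -
        RC s (Col G ∩ {a : Cg (n + 1) k |
          pr a ⟨(v, v.succAbove z), (Fin.succAbove_ne v z).symm⟩})) ^ 2))) := by
      rw [E_comm]
      rw [c11_E_pairs, ]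
      refine E_congr fun v => ?_
      rw [E_comm]
      refine E_congr fun G => E_congr fun z => ?_
      rw [c11_Col_insertNth, Fin.removeNth_insertNth]
      ring
    refine le_trans (le_of_eq h3) ?_
    exact E_le_const hV
  calc _ ≤ ∑ _j : Fin (M + 1), V := Finset.sum_le_sum fun j _ => h2 j
    _ = _ := by
        rw [Finset.sum_const, Finset.card_univ, Fintype.card_fin, nsmul_eq_mul]
        push_cast
        ring

theorem c11_var_lower (k s n m : ℕ) [Nonempty (Fin m → NL n)] :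
    (1 - pc k n m) * ((s : ℝ) * pc k n (m + s)) ^ 2 ≤
    E (fun F : Fin m → NL n => RC s (Col F : Set (Cg n k)) ^ 2)
      - (E (fun F : Fin m → NL n => RC s (Col F : Set (Cg n k)))) ^ 2 := by
  rw [← E_sq_sub_mean]
  set μ := E (fun F : Fin m → NL n => RC s (Col F : Set (Cg n k))) with hμ
  have h1 : (s : ℝ) * pc k n (m + s) ≤ μ := c11_E_RC_ge k n m s
  have h2 : 0 ≤ (s : ℝ) * pc k n (m + s) := mul_nonneg (by positivity) (c11_pc_nonneg _ _ _)
  have h3 : ((s : ℝ) * pc k n (m + s)) ^ 2 ≤ μ ^ 2 := pow_le_pow_left₀ h2 h1 2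
  have h4 : 0 ≤ 1 - pc k n m := by linarith [c11_pc_le_one k n m]
  have h5 : (1 - pc k n m) * μ ^ 2
      = E (fun F : Fin m → NL n => ind (¬ (Col F : Set (Cg n k)).Nonempty) * μ ^ 2) := by
    rw [E_mul_right]
    congr 1
    simp only [ind_not]
    rw [E_sub, E_const]
    rfl
  calc _ ≤ (1 - pc k n m) * μ ^ 2 := mul_le_mul_of_nonneg_left h3 h4
    _ = _ := h5
    _ ≤ _ := by
        refine E_mono fun F => ?_
        by_cases hF : (Col F : Set (Cg n k)).Nonempty
        · rw [ind_false (not_not.2 hF), zero_mul]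
          exact sq_nonneg _
        · rw [ind_true hF, one_mul, Set.not_nonempty_iff_eq_empty.1 hF, c11_RC_empty]
          rw [zero_sub, neg_sq]

/-- **Task C11.** -/
theorem sharp_gen {k n M s : ℕ} (V : ℝ)
    (hV : ∀ v : Fin (n + 1), E (fun G : Fin M → NL (n + 1) => E (fun z : Fin n =>
      (RC s (Col G : Set (Cg (n + 1) k)) -
        RC s (Col G ∩ {a : Cg (n + 1) k |
          pr a ⟨(v, v.succAbove z), (Fin.succAbove_ne v z).symm⟩})) ^ 2)) ≤ V) :
    (1 - pc k (n + 1) (M + 1)) * ((s : ℝ) * pc k (n + 1) (M + 1 + s)) ^ 2 ≤ (M + 1) * V := by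
  rcases isEmpty_or_nonempty (NL (n + 1)) with hE | hE
  · have hpc : pc k (n + 1) (M + 1 + s) = 0 := by
      unfold pc E
      have : IsEmpty (Fin (M + 1 + s) → NL (n + 1)) :=
        ⟨fun F => hE.elim (F ⟨0, by omega⟩)⟩
      simp
    rw [hpc, mul_zero]
    have hV0 : 0 ≤ V := le_trans (E_nonneg fun G => E_nonneg fun z => sq_nonneg _) (hV 0)
    have : 0 ≤ ((M : ℝ) + 1) * V := by positivity
    simpa using this
  · exact (c11_var_lower k s (n + 1) (M + 1)).trans (c11_var_upper V hV)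

end Pool.Agent.H290R2.Col
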