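import Pool.Agent.H290R2.Col.Defs

/-!
Task C2 (dyadic rate function, bound for `TD`), by helper880 for helper290.
-/

set_option autoImplicit false

namespace Pool.Agent.H290R2.Col
open Finset Filter Pool.Agent.H999R2.KSat

theorem rhf_nonneg {n k : ℕ} (c : ℝ) (i0 i1 : ℕ) (A : Set (Cg n k)) : 0 ≤ rhf c i0 i1 A := by
  unfold rhf
  have h1 := ind_nonneg (svv (2 ^ i0) A < 1 / 2)
  have h2 : 0 ≤ ∑ i ∈ Ico i0 i1, ((2 : ℝ) ^ i) ^ (-((1 + c) / 2)) *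
      ind (svv (2 ^ (i + 1)) A < 1 / 2) :=
    Finset.sum_nonneg fun i _ => mul_nonneg (Real.rpow_nonneg (by positivity) _) (ind_nonneg _)
  have h3 : (0 : ℝ) ≤ ((2 : ℝ) ^ i1) ^ (-((1 + c) / 2)) := Real.rpow_nonneg (by positivity) _
  linarith

theorem TD_le_one {n k : ℕ} (D : ℕ) (A : Set (Cg n k)) : TD D A ≤ 1 :=
  E_le_of_nonneg zero_le_one fun _ => ind_le_one _

/-- the last good index -/
theorem c2_last (P : ℕ → Prop) (i0 i1 : ℕ) (hi : i0 ≤ i1) (h0 : P i0) :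
    ∃ i, i0 ≤ i ∧ i ≤ i1 ∧ P i ∧ (i = i1 ∨ (i < i1 ∧ ¬ P (i + 1))) := by
  induction i1, hi using Nat.le_induction with
  | base => exact ⟨i0, le_rfl, le_rfl, h0, Or.inl rfl⟩
  | succ m hm ih =>
    obtain ⟨i, h1, h2, h3, h4⟩ := ih
    rcases h4 with h4 | h4
    · subst h4
      by_cases h5 : P (i + 1)
      · exact ⟨i + 1, by omega, le_rfl, h5, Or.inl rfl⟩
      · exact ⟨i, h1, by omega, h3, Or.inr ⟨by omega, h5⟩⟩
    · exact ⟨i, h1, by omega, h3, Or.inr ⟨by omega, h4.2⟩⟩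

theorem TD_rhf {n k : ℕ} (c C B : ℝ) (i0 i1 : ℕ) (hc : 0 ≤ c) (hS : Static k c C B) (hC : 1 ≤ C)
    (hB : 1 ≤ B) (hi : i0 ≤ i1) (h0 : (n : ℝ) ^ ((2 : ℝ) / 5) ≤ (2 : ℝ) ^ i0)
    (h1 : 2 ^ i1 ≤ n) (D : ℕ) (A : Set (Cg n k)) (hA : A.Nonempty) :
    TD D A ≤ C * B ^ D * (rhf c i0 i1 A) ^ 2 := by
  have hCB : 1 ≤ C * B ^ D := by
    have := one_le_pow₀ hB (n := D)
    nlinarith
  have hind := ind_nonneg (svv (2 ^ i0) A < 1 / 2)
  have hterm : ∀ i, (0 : ℝ) ≤ ((2 : ℝ) ^ i) ^ (-((1 + c) / 2)) *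
      ind (svv (2 ^ (i + 1)) A < 1 / 2) :=
    fun i => mul_nonneg (Real.rpow_nonneg (by positivity) _) (ind_nonneg _)
  have hsum : 0 ≤ ∑ i ∈ Ico i0 i1, ((2 : ℝ) ^ i) ^ (-((1 + c) / 2)) *
      ind (svv (2 ^ (i + 1)) A < 1 / 2) := Finset.sum_nonneg fun i _ => hterm i
  have hlast : (0 : ℝ) ≤ ((2 : ℝ) ^ i1) ^ (-((1 + c) / 2)) := Real.rpow_nonneg (by positivity) _
  by_cases hP0 : 1 / 2 ≤ svv (2 ^ i0) A
  · obtain ⟨i, hi0, hi1, hPi, hcase⟩ := c2_last (fun i => 1 / 2 ≤ svv (2 ^ i) A) i0 i1 hi hP0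
    have hT := hS n (2 ^ i) D A hA
      (by
        push_cast
        exact h0.trans (pow_le_pow_right₀ (by norm_num) hi0))
      (le_trans (Nat.pow_le_pow_right (by norm_num) hi1) h1) hPi
    push_cast at hT
    have hw : ((2 : ℝ) ^ i) ^ (-((1 + c) / 2)) ≤ rhf c i0 i1 A := by
      unfold rhf
      rcases hcase with h | ⟨h, hn⟩
      · subst h
        linarith
      · have h2 : ((2 : ℝ) ^ i) ^ (-((1 + c) / 2)) * ind (svv (2 ^ (i + 1)) A < 1 / 2) ≤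
            ∑ i ∈ Ico i0 i1, ((2 : ℝ) ^ i) ^ (-((1 + c) / 2)) *
              ind (svv (2 ^ (i + 1)) A < 1 / 2) :=
          Finset.single_le_sum (f := fun i => ((2 : ℝ) ^ i) ^ (-((1 + c) / 2)) *
              ind (svv (2 ^ (i + 1)) A < 1 / 2)) (fun i _ => hterm i)
            (Finset.mem_Ico.mpr ⟨hi0, h⟩)
        rw [ind_true (not_le.mp hn), mul_one] at h2
        linarith
    have hw0 : (0 : ℝ) ≤ ((2 : ℝ) ^ i) ^ (-((1 + c) / 2)) := Real.rpow_nonneg (by positivity) _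
    have hw2 : (((2 : ℝ) ^ i) ^ (-((1 + c) / 2))) ^ 2 = ((2 : ℝ) ^ i) ^ (-(1 + c)) := by
      rw [← Real.rpow_natCast, ← Real.rpow_mul (by positivity)]
      congr 1
      push_cast
      ring
    refine hT.trans ?_
    rw [← hw2]
    refine mul_le_mul_of_nonneg_left ?_ (by linarith)
    exact pow_le_pow_left₀ hw0 hw 2
  · have h1 : 1 ≤ rhf c i0 i1 A := by
      unfold rhf
      rw [ind_true (not_le.mp hP0)]
      linarith
    have h2 : 1 ≤ (rhf c i0 i1 A) ^ 2 := one_le_pow₀ h1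
    have h3 := TD_le_one D A
    nlinarith

end Pool.Agent.H290R2.Col
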