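import Pool.Agent.H290R2.Col.Defs

/-!
# Task C4: lazy comparison (recursion on the first step)
-/

set_option autoImplicit false

namespace Pool.Agent.H290R2.Col
open Finset Filter Pool.Agent.H999R2.KSat

/-- left side of the comparison -/
noncomputable def c4Psi {n k : ℕ} (b : ℝ) (F : Set (Cg n k) → ℝ) (s : ℕ) (A : Set (Cg n k)) : ℝ :=
  E (fun r : Fin s → Fin (n + 1) => E (fun Y : Fin s → NL n =>
      ∑ u ∈ range s, b ^ (nst r u) * F (A ∩ BS r Y u)))

/-- right side of the comparison -/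
noncomputable def c4Phi {n k : ℕ} (F : Set (Cg n k) → ℝ) (s : ℕ) (A : Set (Cg n k)) : ℝ :=
  E (fun Y : Fin s → NL n => ∑ u ∈ range s, F (A ∩ PF Y u))

theorem c4_nonempty {n : ℕ} (hn : 2 ≤ n) : Nonempty (NL n) :=
  ⟨⟨(⟨0, by omega⟩, ⟨1, by omega⟩), by simp [Fin.ext_iff]⟩⟩

theorem c4_PF_zero {n k s : ℕ} (Y : Fin s → NL n) (A : Set (Cg n k)) : A ∩ PF Y 0 = A := by
  ext a
  simp [PF]

theorem c4_PF_succ {n k s : ℕ} (y : NL n) (Y : Fin s → NL n) (u : ℕ) (A : Set (Cg n k)) :
    A ∩ PF (Fin.cons y Y : Fin (s + 1) → NL n) (u + 1) = (A ∩ {a | pr a y}) ∩ PF Y u := by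
  ext a
  simp only [PF, Set.mem_inter_iff, Set.mem_ofPred_eq]
  constructor
  · rintro ⟨h1, h2⟩
    refine ⟨⟨h1, ?_⟩, fun j hj => ?_⟩
    · have := h2 0 (by simp)
      simpa using this
    · have := h2 j.succ (by simpa using hj)
      simpa using this
  · rintro ⟨⟨h1, h2⟩, h3⟩
    refine ⟨h1, fun j hj => ?_⟩
    refine Fin.cases ?_ (fun i hi => ?_) j hj
    · intro _
      simpa using h2
    · have := h3 i (by simpa using hi)
      simpa using this

theorem c4_BS_zero {n k s : ℕ} (r : Fin s → Fin (n + 1)) (Y : Fin s → NL n)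
    (A : Set (Cg n k)) : A ∩ BS r Y 0 = A := by
  ext a
  simp [BS]

theorem c4_BS_succ_lt {n k s : ℕ} (r0 : Fin (n + 1)) (h0 : r0.val < 2)
    (r : Fin s → Fin (n + 1)) (y : NL n) (Y : Fin s → NL n) (u : ℕ) (A : Set (Cg n k)) :
    A ∩ BS (Fin.cons r0 r : Fin (s + 1) → Fin (n + 1)) (Fin.cons y Y : Fin (s + 1) → NL n)
      (u + 1) = A ∩ BS r Y u := by
  ext a
  simp only [BS, Set.mem_inter_iff, Set.mem_ofPred_eq]
  refine and_congr_right fun _ => ?_
  constructor
  · intro h j hj hr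
    have := h j.succ (by simpa using hj) (by simpa using hr)
    simpa using this
  · intro h j hj hr
    revert hj hr
    refine Fin.cases ?_ (fun i => ?_) j
    · intro _ hr
      exact absurd h0 (by simpa using hr)
    · intro hi hr
      have := h i (by simpa using hi) (by simpa using hr)
      simpa using this

theorem c4_BS_succ_ge {n k s : ℕ} (r0 : Fin (n + 1)) (h0 : ¬ r0.val < 2)
    (r : Fin s → Fin (n + 1)) (y : NL n) (Y : Fin s → NL n) (u : ℕ) (A : Set (Cg n k)) :
    A ∩ BS (Fin.cons r0 r : Fin (s + 1) → Fin (n + 1)) (Fin.cons y Y : Fin (s + 1) → NL n)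
      (u + 1) = (A ∩ {a | pr a y}) ∩ BS r Y u := by
  ext a
  simp only [BS, Set.mem_inter_iff, Set.mem_ofPred_eq]
  constructor
  · rintro ⟨h1, h⟩
    refine ⟨⟨h1, ?_⟩, fun j hj hr => ?_⟩
    · have := h 0 (by simp) (by simpa using h0)
      simpa using this
    · have := h j.succ (by simpa using hj) (by simpa using hr)
      simpa using this
  · rintro ⟨⟨h1, h2⟩, h⟩
    refine ⟨h1, fun j hj hr => ?_⟩
    revert hj hr
    refine Fin.cases ?_ (fun i => ?_) j
    · intro _ _
      simpa using h2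
    · intro hi hr
      have := h i (by simpa using hi) (by simpa using hr)
      simpa using this

theorem c4_nst_zero {n s : ℕ} (r : Fin s → Fin (n + 1)) : nst r 0 = 0 := by
  simp [nst]

theorem c4_nst_succ {n s : ℕ} (r0 : Fin (n + 1)) (r : Fin s → Fin (n + 1)) (u : ℕ) :
    nst (Fin.cons r0 r : Fin (s + 1) → Fin (n + 1)) (u + 1) =
      (if r0.val < 2 then 1 else 0) + nst r u := by
  unfold nst
  rw [Fin.card_filter_univ_succ']
  congr 1
  · by_cases h : r0.val < 2 <;> simp [h]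
  · congr 1
    ext j
    simp

theorem c4_Phi_succ {n k : ℕ} (hn : 2 ≤ n) (F : Set (Cg n k) → ℝ) (s : ℕ) (A : Set (Cg n k)) :
    c4Phi F (s + 1) A = F A + E (fun y : NL n => c4Phi F s (A ∩ {a | pr a y})) := by
  have := c4_nonempty hn
  unfold c4Phi
  rw [E_cons]
  have : ∀ y : NL n, E (fun G : Fin s → NL n =>
      ∑ u ∈ range (s + 1), F (A ∩ PF (Fin.cons y G : Fin (s + 1) → NL n) u)) =
      F A + E (fun Y : Fin s → NL n => ∑ u ∈ range s, F ((A ∩ {a | pr a y}) ∩ PF Y u)) := by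
    intro y
    have h2 : ∀ G : Fin s → NL n,
        ∑ u ∈ range (s + 1), F (A ∩ PF (Fin.cons y G : Fin (s + 1) → NL n) u) =
        F A + ∑ u ∈ range s, F ((A ∩ {a | pr a y}) ∩ PF G u) := by
      intro G
      rw [Finset.sum_range_succ', c4_PF_zero, add_comm]
      congr 1
      exact Finset.sum_congr rfl (fun u _ => by rw [c4_PF_succ])
    rw [E_congr h2, E_add, E_const]
  rw [E_congr this, E_add, E_const]

theorem c4_Phi_nonneg {n k : ℕ} (F : Set (Cg n k) → ℝ) (hF : ∀ A, 0 ≤ F A) (s : ℕ)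
    (A : Set (Cg n k)) : 0 ≤ c4Phi F s A :=
  E_nonneg fun _ => Finset.sum_nonneg fun _ _ => hF _

theorem c4_Phi_mono {n k : ℕ} (hn : 2 ≤ n) (F : Set (Cg n k) → ℝ) (hF : ∀ A, 0 ≤ F A) (s : ℕ) :
    ∀ A : Set (Cg n k), c4Phi F s A ≤ c4Phi F (s + 1) A := by
  induction s with
  | zero =>
    intro A
    have h0 : c4Phi F 0 A = 0 := by
      unfold c4Phi
      simp [E]
    rw [h0]
    exact c4_Phi_nonneg F hF _ _
  | succ s ih =>
    intro A
    rw [c4_Phi_succ hn F (s + 1) A, c4_Phi_succ hn F s A]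
    have := E_mono (f := fun y : NL n => c4Phi F s (A ∩ {a | pr a y}))
      (g := fun y : NL n => c4Phi F (s + 1) (A ∩ {a | pr a y})) (fun y => ih _)
    linarith

theorem c4_two {n : ℕ} (hn : 2 ≤ n) :
    E (fun r0 : Fin (n + 1) => ind (r0.val < 2)) ≤ 2 / ((n : ℝ) + 1) := by
  unfold E
  rw [Fintype.card_fin]
  push_cast
  apply div_le_div_of_nonneg_right _ (by positivity)
  have h1 : ∀ r0 : Fin (n + 1), ind (r0.val < 2) =
      if r0 ∈ ({⟨0, by omega⟩, ⟨1, by omega⟩} : Finset (Fin (n + 1))) then (1:ℝ) else 0 := by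
    intro r0
    by_cases h : r0.val < 2
    · rw [ind_true h, if_pos]
      simp only [Finset.mem_insert, Finset.mem_singleton, Fin.ext_iff]
      omega
    · rw [ind_false h, if_neg]
      simp only [Finset.mem_insert, Finset.mem_singleton, Fin.ext_iff]
      omega
  rw [Finset.sum_congr rfl (fun r0 _ => h1 r0), Finset.sum_ite_mem, Finset.univ_inter,
    Finset.sum_const, nsmul_eq_mul, mul_one]
  exact_mod_cast Finset.card_le_two

theorem c4_Psi_nonneg {n k : ℕ} (b : ℝ) (hb : 0 ≤ b) (F : Set (Cg n k) → ℝ)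
    (hF : ∀ A, 0 ≤ F A) (s : ℕ) (A : Set (Cg n k)) : 0 ≤ c4Psi b F s A :=
  E_nonneg fun _ => E_nonneg fun _ => Finset.sum_nonneg fun _ _ =>
    mul_nonneg (pow_nonneg hb _) (hF _)

theorem c4_Psi_succ {n k : ℕ} (hn : 2 ≤ n) (b : ℝ) (hb : 0 ≤ b) (F : Set (Cg n k) → ℝ)
    (hF : ∀ A, 0 ≤ F A) (s : ℕ) (A : Set (Cg n k)) :
    c4Psi b F (s + 1) A ≤ F A + 2 * b / ((n : ℝ) + 1) * c4Psi b F s A +
      E (fun y : NL n => c4Psi b F s (A ∩ {a | pr a y})) := by
  have := c4_nonempty hn
  have key : ∀ r0 : Fin (n + 1), E (fun r : Fin s → Fin (n + 1) =>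
      E (fun Y : Fin (s + 1) → NL n => ∑ u ∈ range (s + 1),
        b ^ (nst (Fin.cons r0 r : Fin (s + 1) → Fin (n + 1)) u) *
          F (A ∩ BS (Fin.cons r0 r : Fin (s + 1) → Fin (n + 1)) Y u))) ≤
      F A + ind (r0.val < 2) * (b * c4Psi b F s A) +
        E (fun y : NL n => c4Psi b F s (A ∩ {a | pr a y})) := by
    intro r0
    by_cases h0 : r0.val < 2
    · have e1 : ∀ r : Fin s → Fin (n + 1), E (fun Y : Fin (s + 1) → NL n =>
          ∑ u ∈ range (s + 1), b ^ (nst (Fin.cons r0 r : Fin (s + 1) → Fin (n + 1)) u) *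
          F (A ∩ BS (Fin.cons r0 r : Fin (s + 1) → Fin (n + 1)) Y u)) =
          F A + b * E (fun Y : Fin s → NL n =>
            ∑ u ∈ range s, b ^ (nst r u) * F (A ∩ BS r Y u)) := by
        intro r
        rw [E_cons]
        have e2 : ∀ y : NL n, E (fun G : Fin s → NL n => ∑ u ∈ range (s + 1),
            b ^ (nst (Fin.cons r0 r : Fin (s + 1) → Fin (n + 1)) u) *
            F (A ∩ BS (Fin.cons r0 r : Fin (s + 1) → Fin (n + 1))
              (Fin.cons y G : Fin (s + 1) → NL n) u)) =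
            F A + b * E (fun Y : Fin s → NL n =>
              ∑ u ∈ range s, b ^ (nst r u) * F (A ∩ BS r Y u)) := by
          intro y
          have e3 : ∀ G : Fin s → NL n, ∑ u ∈ range (s + 1),
              b ^ (nst (Fin.cons r0 r : Fin (s + 1) → Fin (n + 1)) u) *
              F (A ∩ BS (Fin.cons r0 r : Fin (s + 1) → Fin (n + 1))
                (Fin.cons y G : Fin (s + 1) → NL n) u) =
              F A + b * ∑ u ∈ range s, b ^ (nst r u) * F (A ∩ BS r G u) := by
            intro G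
            rw [Finset.sum_range_succ', c4_BS_zero, c4_nst_zero, pow_zero, one_mul, add_comm,
              Finset.mul_sum]
            congr 1
            refine Finset.sum_congr rfl (fun u _ => ?_)
            rw [c4_BS_succ_lt r0 h0, c4_nst_succ, if_pos h0, pow_add, pow_one, mul_assoc]
          rw [E_congr e3, E_add, E_const, E_mul_left]
        rw [E_congr e2, E_const]
      rw [E_congr e1, E_add, E_const, E_mul_left, ind_true h0, one_mul]
      have : 0 ≤ E (fun y : NL n => c4Psi b F s (A ∩ {a | pr a y})) :=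
        E_nonneg fun y => c4_Psi_nonneg b hb F hF s _
      unfold c4Psi at this ⊢
      linarith
    · have e1 : ∀ r : Fin s → Fin (n + 1), E (fun Y : Fin (s + 1) → NL n =>
          ∑ u ∈ range (s + 1), b ^ (nst (Fin.cons r0 r : Fin (s + 1) → Fin (n + 1)) u) *
          F (A ∩ BS (Fin.cons r0 r : Fin (s + 1) → Fin (n + 1)) Y u)) =
          F A + E (fun y : NL n => E (fun Y : Fin s → NL n =>
            ∑ u ∈ range s, b ^ (nst r u) * F ((A ∩ {a | pr a y}) ∩ BS r Y u))) := by
        intro r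
        rw [E_cons]
        have e2 : ∀ y : NL n, E (fun G : Fin s → NL n => ∑ u ∈ range (s + 1),
            b ^ (nst (Fin.cons r0 r : Fin (s + 1) → Fin (n + 1)) u) *
            F (A ∩ BS (Fin.cons r0 r : Fin (s + 1) → Fin (n + 1))
              (Fin.cons y G : Fin (s + 1) → NL n) u)) =
            F A + E (fun Y : Fin s → NL n =>
              ∑ u ∈ range s, b ^ (nst r u) * F ((A ∩ {a | pr a y}) ∩ BS r Y u)) := by
          intro y
          have e3 : ∀ G : Fin s → NL n, ∑ u ∈ range (s + 1),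
              b ^ (nst (Fin.cons r0 r : Fin (s + 1) → Fin (n + 1)) u) *
              F (A ∩ BS (Fin.cons r0 r : Fin (s + 1) → Fin (n + 1))
                (Fin.cons y G : Fin (s + 1) → NL n) u) =
              F A + ∑ u ∈ range s, b ^ (nst r u) * F ((A ∩ {a | pr a y}) ∩ BS r G u) := by
            intro G
            rw [Finset.sum_range_succ', c4_BS_zero, c4_nst_zero, pow_zero, one_mul, add_comm]
            congr 1
            refine Finset.sum_congr rfl (fun u _ => ?_)
            rw [c4_BS_succ_ge r0 h0, c4_nst_succ, if_neg h0, zero_add]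
          rw [E_congr e3, E_add, E_const]
        rw [E_congr e2, E_add, E_const]
      rw [E_congr e1, E_add, E_const, ind_false h0, zero_mul, add_zero]
      have : E (fun r : Fin s → Fin (n + 1) => E (fun y : NL n => E (fun Y : Fin s → NL n =>
            ∑ u ∈ range s, b ^ (nst r u) * F ((A ∩ {a | pr a y}) ∩ BS r Y u)))) =
          E (fun y : NL n => c4Psi b F s (A ∩ {a | pr a y})) := by
        rw [E_comm]
        rfl
      rw [this]
  have h1 : c4Psi b F (s + 1) A ≤ E (fun r0 : Fin (n + 1) =>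
      F A + ind (r0.val < 2) * (b * c4Psi b F s A) +
        E (fun y : NL n => c4Psi b F s (A ∩ {a | pr a y}))) := by
    unfold c4Psi
    rw [E_cons (X := Fin (n + 1))]
    exact E_mono key
  refine h1.trans ?_
  rw [E_add, E_add, E_const, E_const, E_mul_right]
  have h2 := c4_two hn
  have h3 : 0 ≤ b * c4Psi b F s A := mul_nonneg hb (c4_Psi_nonneg b hb F hF s A)
  have h4 := mul_le_mul_of_nonneg_right h2 h3
  have h5 : 2 / ((n : ℝ) + 1) * (b * c4Psi b F s A) = 2 * b / ((n : ℝ) + 1) * c4Psi b F s A := by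
    ring
  linarith

theorem lazy {n k : ℕ} (s : ℕ) (hn : 2 ≤ n) (b : ℝ) (hb : 0 ≤ b) (F : Set (Cg n k) → ℝ)
    (hF : ∀ A, 0 ≤ F A) (A : Set (Cg n k)) :
    E (fun r : Fin s → Fin (n + 1) => E (fun Y : Fin s → NL n =>
      ∑ u ∈ range s, b ^ (nst r u) * F (A ∩ BS r Y u))) ≤
      (1 + 2 * b / (n + 1)) ^ s *
        E (fun Y : Fin s → NL n => ∑ u ∈ range s, F (A ∩ PF Y u)) := by
  change c4Psi b F s A ≤ (1 + 2 * b / (n + 1)) ^ s * c4Phi F s A
  set x : ℝ := 2 * b / ((n : ℝ) + 1) with hx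
  have hx0 : 0 ≤ x := by positivity
  induction s generalizing A with
  | zero =>
    have h0 : c4Phi F 0 A = 0 := by
      unfold c4Phi
      simp [E]
    have h1 : c4Psi b F 0 A = 0 := by
      unfold c4Psi
      simp [E]
    rw [h0, h1]
    simp
  | succ s ih =>
    have h1 := c4_Psi_succ hn b hb F hF s A
    rw [← hx] at h1
    have h2 : E (fun y : NL n => c4Psi b F s (A ∩ {a | pr a y})) ≤
        (1 + x) ^ s * E (fun y : NL n => c4Phi F s (A ∩ {a | pr a y})) := by
      rw [← E_mul_left]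
      exact E_mono (fun y => ih _)
    have h3 := ih A
    have h4 := c4_Phi_mono hn F hF s A
    have h5 := c4_Phi_succ hn F s A
    have h6 : 1 ≤ (1 + x) ^ s := one_le_pow₀ (by linarith)
    have h7 := hF A
    have h8 : x * c4Psi b F s A ≤ x * ((1 + x) ^ s * c4Phi F s A) :=
      mul_le_mul_of_nonneg_left h3 hx0
    have h9 : F A ≤ (1 + x) ^ s * F A := le_mul_of_one_le_left h7 h6
    have h10 : (1 + x) ^ s * (x * c4Phi F s A) ≤ (1 + x) ^ s * (x * c4Phi F (s + 1) A) :=
      mul_le_mul_of_nonneg_left (mul_le_mul_of_nonneg_left h4 hx0) (by positivity)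
    calc c4Psi b F (s + 1) A
        ≤ (1 + x) ^ s * F A + x * ((1 + x) ^ s * c4Phi F s A) +
          (1 + x) ^ s * E (fun y : NL n => c4Phi F s (A ∩ {a | pr a y})) := by linarith
      _ = (1 + x) ^ s * c4Phi F (s + 1) A + (1 + x) ^ s * (x * c4Phi F s A) := by
          rw [h5]; ring
      _ ≤ (1 + x) ^ s * c4Phi F (s + 1) A + (1 + x) ^ s * (x * c4Phi F (s + 1) A) := by
          linarith
      _ = (1 + x) ^ (s + 1) * c4Phi F (s + 1) A := by ring

end Pool.Agent.H290R2.Col
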