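import Pool.Agent.H290R2.Col.Defs

set_option autoImplicit false

namespace Pool.Agent.H290R2.Col
open Finset Filter Pool.Agent.H999R2.KSat

theorem C5.E_CS {Z : Type} [Fintype Z] (f g : Z → ℝ) :
    (E fun x => f x * g x) ^ 2 ≤ E (fun x => f x ^ 2) * E (fun x => g x ^ 2) := by
  unfold E
  rw [div_pow, div_mul_div_comm, ← sq (Fintype.card Z : ℝ)]
  exact div_le_div_of_nonneg_right (Finset.sum_mul_sq_le_sq_mul_sq _ _ _) (by positivity)

theorem mink {Ω Z : Type} [Fintype Ω] [Fintype Z] (s : ℕ) (g : Ω → ℕ → Z → ℝ) (R : Ω → ℕ → ℝ)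
    (hR : ∀ ω u, 0 ≤ R ω u) (hg : ∀ ω u x, 0 ≤ g ω u x)
    (h : ∀ ω u, u < s → E (fun x => g ω u x ^ 2) ≤ R ω u ^ 2) :
    E (fun x => (E (fun ω => ∑ u ∈ range s, g ω u x)) ^ 2) ≤
      (E (fun ω => ∑ u ∈ range s, R ω u)) ^ 2 := by
  have hcs : ∀ ω u ω' u', u < s → u' < s →
      E (fun x => g ω u x * g ω' u' x) ≤ R ω u * R ω' u' := by
    intro ω u ω' u' hu hu'
    have h1 := C5.E_CS (g ω u) (g ω' u')
    have h2 : E (fun x => g ω u x ^ 2) * E (fun x => g ω' u' x ^ 2) ≤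
        R ω u ^ 2 * R ω' u' ^ 2 :=
      mul_le_mul (h ω u hu) (h ω' u' hu') (E_nonneg fun x => sq_nonneg _) (sq_nonneg _)
    have h3 : (E fun x => g ω u x * g ω' u' x) ^ 2 ≤ (R ω u * R ω' u') ^ 2 := by
      rw [mul_pow]; exact h1.trans h2
    exact le_of_sq_le_sq h3 (mul_nonneg (hR _ _) (hR _ _))
  have hexp : ∀ (G : Ω → ℕ → ℝ), (E (fun ω => ∑ u ∈ range s, G ω u)) ^ 2 =
      E (fun ω => E (fun ω' => ∑ u ∈ range s, ∑ u' ∈ range s, G ω u * G ω' u')) := by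
    intro G
    rw [sq, ← E_mul_right]
    refine E_congr fun ω => ?_
    rw [← E_mul_left]
    refine E_congr fun ω' => ?_
    rw [Finset.sum_mul_sum]
  rw [hexp R, E_congr (fun x => hexp (fun ω u => g ω u x)), E_comm]
  refine E_mono fun ω => ?_
  rw [E_comm]
  refine E_mono fun ω' => ?_
  rw [E_sum]
  refine Finset.sum_le_sum fun u hu => ?_
  rw [E_sum]
  refine Finset.sum_le_sum fun u' hu' => ?_
  exact hcs ω u ω' u' (Finset.mem_range.1 hu) (Finset.mem_range.1 hu')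

end Pool.Agent.H290R2.Col
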