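import Pool.Agent.H290R2.Col.Defs

/-!
# Task C6: representation of a random pair relative to a vertex
-/

set_option autoImplicit false

namespace Pool.Agent.H290R2.Col
open Finset Filter Pool.Agent.H999R2.KSat

theorem c6_bij1 (n : ℕ) : Function.Bijective (fun p : Fin (n + 1) × Fin n =>
    (⟨(p.1, p.1.succAbove p.2), (Fin.succAbove_ne p.1 p.2).symm⟩ : NL (n + 1))) := by
  constructor
  · rintro ⟨v, z⟩ ⟨v', z'⟩ h
    simp only [Subtype.mk.injEq, Prod.mk.injEq] at h
    obtain ⟨h1, h2⟩ := h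
    subst h1
    have := Fin.succAbove_right_injective h2
    simp [this]
  · rintro ⟨⟨a, b⟩, h⟩
    obtain ⟨z, hz⟩ := Fin.exists_succAbove_eq (x := b) (y := a) (fun e => h e.symm)
    exact ⟨(a, z), by simp [hz]⟩

/-- the pairs of distinct vertices -/
noncomputable def c6_e1 (n : ℕ) : Fin (n + 1) × Fin n ≃ NL (n + 1) :=
  Equiv.ofBijective _ (c6_bij1 n)

theorem c6_card (n : ℕ) : Fintype.card (NL (n + 1)) = (n + 1) * n := by
  rw [← Fintype.card_congr (c6_e1 n)]
  simp

theorem E_pairs {n : ℕ} (g : NL (n + 1) → ℝ) :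
    E g = E (fun v : Fin (n + 1) => E (fun z : Fin n =>
      g ⟨(v, v.succAbove z), (Fin.succAbove_ne v z).symm⟩)) := by
  rw [← E_equiv (c6_e1 n) g]
  exact E_prod (fun (v : Fin (n + 1)) (z : Fin n) =>
    g ⟨(v, v.succAbove z), (Fin.succAbove_ne v z).symm⟩)

/-- the three kinds of pairs relative to `v` -/
def c6_phi {n : ℕ} (v : Fin (n + 1)) : Fin n ⊕ (Fin n ⊕ NL n) → NL (n + 1)
  | Sum.inl z => ⟨(v, v.succAbove z), (Fin.succAbove_ne v z).symm⟩
  | Sum.inr (Sum.inl z) => ⟨(v.succAbove z, v), Fin.succAbove_ne v z⟩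
  | Sum.inr (Sum.inr y) => ⟨(v.succAbove y.1.1, v.succAbove y.1.2),
      fun h => y.2 (Fin.succAbove_right_injective h)⟩

theorem c6_bij2 {n : ℕ} (v : Fin (n + 1)) : Function.Bijective (c6_phi v) := by
  constructor
  · rintro (z | (z | y)) (z' | (z' | y')) h
    · simp only [c6_phi, Subtype.mk.injEq, Prod.mk.injEq, true_and] at h
      rw [Fin.succAbove_right_injective h]
    · simp only [c6_phi, Subtype.mk.injEq, Prod.mk.injEq] at h
      exact absurd h.1.symm (Fin.succAbove_ne v z')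
    · simp only [c6_phi, Subtype.mk.injEq, Prod.mk.injEq] at h
      exact absurd h.1.symm (Fin.succAbove_ne v _)
    · simp only [c6_phi, Subtype.mk.injEq, Prod.mk.injEq] at h
      exact absurd h.1 (Fin.succAbove_ne v z)
    · simp only [c6_phi, Subtype.mk.injEq, Prod.mk.injEq, and_true] at h
      rw [Fin.succAbove_right_injective h]
    · simp only [c6_phi, Subtype.mk.injEq, Prod.mk.injEq] at h
      exact absurd h.2.symm (Fin.succAbove_ne v _)
    · simp only [c6_phi, Subtype.mk.injEq, Prod.mk.injEq] at h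
      exact absurd h.1 (Fin.succAbove_ne v _)
    · simp only [c6_phi, Subtype.mk.injEq, Prod.mk.injEq] at h
      exact absurd h.2 (Fin.succAbove_ne v _)
    · simp only [c6_phi, Subtype.mk.injEq, Prod.mk.injEq] at h
      have h1 := Fin.succAbove_right_injective h.1
      have h2 := Fin.succAbove_right_injective h.2
      obtain ⟨⟨a, b⟩, hy⟩ := y
      obtain ⟨⟨a', b'⟩, hy'⟩ := y'
      simp only at h1 h2
      subst h1 h2
      rfl
  · rintro ⟨⟨a, b⟩, h⟩
    rcases eq_or_ne a v with ha | ha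
    · obtain ⟨z, hz⟩ := Fin.exists_succAbove_eq (x := b) (y := v) (fun e => h (ha.trans e.symm))
      refine ⟨Sum.inl z, ?_⟩
      simp [c6_phi, hz, ha]
    · rcases eq_or_ne b v with hb | hb
      · obtain ⟨z, hz⟩ := Fin.exists_succAbove_eq (x := a) (y := v) ha
        refine ⟨Sum.inr (Sum.inl z), ?_⟩
        simp [c6_phi, hz, hb]
      · obtain ⟨z, hz⟩ := Fin.exists_succAbove_eq (x := a) (y := v) ha
        obtain ⟨w, hw⟩ := Fin.exists_succAbove_eq (x := b) (y := v) hb
        refine ⟨Sum.inr (Sum.inr ⟨(z, w), fun e => h ?_⟩), ?_⟩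
        · rw [← hz, ← hw]
          simp only at e
          rw [e]
        · simp [c6_phi, hz, hw]

theorem c6_sum {n : ℕ} (v : Fin (n + 1)) (g : NL (n + 1) → ℝ) :
    ∑ e, g e = ∑ z : Fin n, g ⟨(v, v.succAbove z), (Fin.succAbove_ne v z).symm⟩ +
      (∑ z : Fin n, g ⟨(v.succAbove z, v), Fin.succAbove_ne v z⟩ +
      ∑ y : NL n, g ⟨(v.succAbove y.1.1, v.succAbove y.1.2),
        fun h => y.2 (Fin.succAbove_right_injective h)⟩) := by
  rw [← Equiv.sum_comp (Equiv.ofBijective _ (c6_bij2 v)) g]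
  rw [Fintype.sum_sum_type, Fintype.sum_sum_type]
  rfl

theorem E_Ph {n : ℕ} (hn : 2 ≤ n) (v : Fin (n + 1)) (g : NL (n + 1) → ℝ) :
    E g = E (fun r : Fin (n + 1) => E (fun y : NL n => E (fun z : Fin n => g (Ph v r y z)))) := by
  obtain ⟨m, rfl⟩ : ∃ m, n = m + 2 := ⟨n - 2, by omega⟩
  have hcard : (Fintype.card (NL (m + 2 + 1)) : ℝ) = ((m : ℝ) + 3) * ((m : ℝ) + 2) := by
    rw [c6_card]; push_cast; ring
  have hcard2 : (Fintype.card (NL (m + 2)) : ℝ) = ((m : ℝ) + 2) * ((m : ℝ) + 1) := by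
    rw [c6_card]; push_cast; ring
  have : Nonempty (NL (m + 2)) := by
    rw [← Fintype.card_pos_iff, c6_card]; positivity
  set S1 : ℝ := ∑ z : Fin (m + 2), g ⟨(v, v.succAbove z), (Fin.succAbove_ne v z).symm⟩ with hS1
  set S2 : ℝ := ∑ z : Fin (m + 2), g ⟨(v.succAbove z, v), Fin.succAbove_ne v z⟩ with hS2
  set S3 : ℝ := ∑ y : NL (m + 2), g ⟨(v.succAbove y.1.1, v.succAbove y.1.2),
        fun h => y.2 (Fin.succAbove_right_injective h)⟩ with hS3
  have hL : E g = (S1 + (S2 + S3)) / (((m : ℝ) + 3) * ((m : ℝ) + 2)) := by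
    unfold E
    rw [hcard, c6_sum v g]
  have h0 : E (fun y : NL (m + 2) => E (fun z : Fin (m + 2) => g (Ph v 0 y z))) =
      S1 / ((m : ℝ) + 2) := by
    have : ∀ y : NL (m + 2), E (fun z : Fin (m + 2) => g (Ph v 0 y z)) = S1 / ((m : ℝ) + 2) := by
      intro y
      unfold E
      simp only [Ph, Fin.val_zero, if_true, Fintype.card_fin]
      push_cast
      rfl
    rw [E_congr this, E_const]
  have h1 : E (fun y : NL (m + 2) => E (fun z : Fin (m + 2) => g (Ph v (Fin.succ 0) y z))) =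
      S2 / ((m : ℝ) + 2) := by
    have : ∀ y : NL (m + 2), E (fun z : Fin (m + 2) => g (Ph v (Fin.succ 0) y z)) =
        S2 / ((m : ℝ) + 2) := by
      intro y
      unfold E
      simp only [Ph, Fin.val_succ, Fin.val_zero, zero_add, one_ne_zero, if_false, if_true,
        Fintype.card_fin]
      push_cast
      rfl
    rw [E_congr this, E_const]
  have h2 : ∀ i : Fin (m + 1), E (fun y : NL (m + 2) => E (fun z : Fin (m + 2) =>
      g (Ph v (Fin.succ (Fin.succ i)) y z))) = S3 / (((m : ℝ) + 2) * ((m : ℝ) + 1)) := by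
    intro i
    have : ∀ y : NL (m + 2), E (fun z : Fin (m + 2) => g (Ph v (Fin.succ (Fin.succ i)) y z)) =
        g ⟨(v.succAbove y.1.1, v.succAbove y.1.2),
          fun h => y.2 (Fin.succAbove_right_injective h)⟩ := by
      intro y
      have h3 : ∀ z : Fin (m + 2), g (Ph v (Fin.succ (Fin.succ i)) y z) =
          g ⟨(v.succAbove y.1.1, v.succAbove y.1.2),
          fun h => y.2 (Fin.succAbove_right_injective h)⟩ := by
        intro z
        simp [Ph, Fin.val_succ]
      rw [E_congr h3, E_const]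
    rw [E_congr this]
    unfold E
    rw [hcard2]
  rw [hL]
  have hR : E (fun r : Fin (m + 2 + 1) => E (fun y : NL (m + 2) => E (fun z : Fin (m + 2) =>
      g (Ph v r y z)))) = (S1 / ((m : ℝ) + 2) + (S2 / ((m : ℝ) + 2) +
        ((m : ℝ) + 1) * (S3 / (((m : ℝ) + 2) * ((m : ℝ) + 1))))) / ((m : ℝ) + 3) := by
    rw [E, Fin.sum_univ_succ, Fin.sum_univ_succ, h0, h1, Finset.sum_congr rfl (fun i _ => h2 i)]
    simp only [Finset.sum_const, Finset.card_univ, Fintype.card_fin, nsmul_eq_mul]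
    push_cast
    congr 1
    ring
  rw [hR]
  have a1 : ((m : ℝ) + 1) ≠ 0 := by positivity
  have a2 : ((m : ℝ) + 2) ≠ 0 := by positivity
  have a3 : ((m : ℝ) + 3) ≠ 0 := by positivity
  field_simp

theorem c6_E_fin0 {X : Type} [Fintype X] (g : (Fin 0 → X) → ℝ) (x : Fin 0 → X) : E g = g x := by
  have : ∀ y : Fin 0 → X, g y = g x := fun y => by rw [Subsingleton.elim y x]
  rw [E_congr this]
  have : Nonempty (Fin 0 → X) := ⟨x⟩
  rw [E_const]

theorem E_Ph_tuple {n M : ℕ} (hn : 2 ≤ n) (v : Fin (n + 1)) (g : (Fin M → NL (n + 1)) → ℝ) :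
    E g = E (fun r : Fin M → Fin (n + 1) => E (fun Y : Fin M → NL n =>
      E (fun Z : Fin M → Fin n => g (fun j => Ph v (r j) (Y j) (Z j))))) := by
  induction M with
  | zero =>
    rw [c6_E_fin0 g (fun j => j.elim0), c6_E_fin0 _ (fun j => j.elim0),
      c6_E_fin0 _ (fun j => j.elim0), c6_E_fin0 _ (fun j => j.elim0)]
    congr 1
    funext j
    exact j.elim0
  | succ M ih =>
    rw [E_cons g]
    rw [E_congr (fun x => ih (fun G => g (Fin.cons x G)))]
    rw [E_Ph hn v]
    rw [E_cons (fun r : Fin (M + 1) → Fin (n + 1) => E (fun Y : Fin (M + 1) → NL n =>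
      E (fun Z : Fin (M + 1) → Fin n => g (fun j => Ph v (r j) (Y j) (Z j)))))]
    refine E_congr fun r => ?_
    have hR : ∀ R : Fin M → Fin (n + 1), E (fun Y : Fin (M + 1) → NL n =>
        E (fun Z : Fin (M + 1) → Fin n =>
          g (fun j => Ph v ((Fin.cons r R : Fin (M + 1) → Fin (n + 1)) j) (Y j) (Z j)))) =
        E (fun y : NL n => E (fun z : Fin n => E (fun Y : Fin M → NL n => E (fun Z : Fin M → Fin n =>
          g (Fin.cons (Ph v r y z) (fun j => Ph v (R j) (Y j) (Z j))))))) := by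
      intro R
      rw [E_cons (fun Y : Fin (M + 1) → NL n => E (fun Z : Fin (M + 1) → Fin n =>
          g (fun j => Ph v ((Fin.cons r R : Fin (M + 1) → Fin (n + 1)) j) (Y j) (Z j))))]
      refine E_congr fun y => ?_
      refine Eq.trans ?_ (E_comm (fun (Y : Fin M → NL n) (z : Fin n) => E (fun Z : Fin M → Fin n =>
        g (Fin.cons (Ph v r y z) (fun j => Ph v (R j) (Y j) (Z j))))))
      refine E_congr fun Y => ?_
      rw [E_cons (fun Z : Fin (M + 1) → Fin n =>
          g (fun j => Ph v ((Fin.cons r R : Fin (M + 1) → Fin (n + 1)) j)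
            ((Fin.cons y Y : Fin (M + 1) → NL n) j) (Z j)))]
      refine E_congr fun z => E_congr fun Z => ?_
      congr 1
      funext j
      refine Fin.cases ?_ (fun i => ?_) j
      · simp
      · simp
    rw [E_congr hR]
    refine Eq.trans ?_ (E_comm (fun (y : NL n) (R : Fin M → Fin (n + 1)) => E (fun z : Fin n =>
      E (fun Y : Fin M → NL n => E (fun Z : Fin M → Fin n =>
        g (Fin.cons (Ph v r y z) (fun j => Ph v (R j) (Y j) (Z j))))))))
    refine E_congr fun y => ?_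
    exact E_comm (fun (z : Fin n) (R : Fin M → Fin (n + 1)) =>
      E (fun Y : Fin M → NL n => E (fun Z : Fin M → Fin n =>
        g (Fin.cons (Ph v r y z) (fun j => Ph v (R j) (Y j) (Z j))))))

end Pool.Agent.H290R2.Col
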