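import Pool.Agent.H290R2.Col.Defs

/-! Task C8: marginals. -/

set_option autoImplicit false

namespace Pool.Agent.H290R2.Col
open Finset Filter Pool.Agent.H999R2.KSat

section

variable {X : Type} [Fintype X]

theorem c8_restrict [Nonempty X] {ι : Type} [Fintype ι] [DecidableEq ι] (p : ι → Prop)
    [DecidablePred p] (g : ({i // p i} → X) → ℝ) :
    E (fun Z : ι → X => g (fun i => Z i.1)) = E g := by
  have h1 := E_equiv (Equiv.piEquivPiSubtypeProd p (fun _ : ι => X))
    (fun z : ({i // p i} → X) × ({i // ¬ p i} → X) => g z.1)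
  have h2 : E (fun Z : ι → X => g (fun i => Z i.1)) =
      E (fun Z : ι → X => (fun z : ({i // p i} → X) × ({i // ¬ p i} → X) => g z.1)
        ((Equiv.piEquivPiSubtypeProd p (fun _ : ι => X)) Z)) := rfl
  rw [h2, h1, E_prod (fun (x : {i // p i} → X) (_ : {i // ¬ p i} → X) => g x)]
  refine E_congr fun x => ?_
  exact E_const _

theorem c8_sum {α β : Type} [Fintype α] [Fintype β] [DecidableEq α] [DecidableEq β]
    (h : (α ⊕ β → X) → ℝ) :
    E h = E (fun u : α → X => E (fun v : β → X => h (Sum.elim u v))) := by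
  rw [← E_equiv (Equiv.sumArrowEquivProdArrow α β X).symm h]
  exact E_prod (fun (u : α → X) (v : β → X) => h (Sum.elim u v))

theorem c8_unit (h : (Unit → X) → ℝ) : E h = E (fun z : X => h (fun _ => z)) := by
  rw [← E_equiv (Equiv.funUnique Unit X).symm h]
  rfl

end

/-- every `a ∈ B` shows all colours on the family -/
def c8_KS {n k : ℕ} {ι : Type} (B : Set (Cg n k)) (N : ι → Fin n) : Prop :=
  ∀ a ∈ B, ∀ c : Fin k, ∃ i, a (N i) = c

theorem c8_TD {n k : ℕ} {ι : Type} [Fintype ι] [DecidableEq ι] (B : Set (Cg n k)) (D : ℕ)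
    (hD : Fintype.card ι = D) :
    TD D B = E (fun N : ι → Fin n => ind (c8_KS B N)) := by
  have e : Fin D ≃ ι := Fintype.equivOfCardEq (by rw [Fintype.card_fin, hD])
  rw [← E_equiv (Equiv.arrowCongr e (Equiv.refl (Fin n))) (fun N : ι → Fin n => ind (c8_KS B N))]
  unfold TD
  refine E_congr fun N => ind_congr ?_
  constructor
  · intro h a ha c
    obtain ⟨i, -, hi⟩ := h a ha c
    exact ⟨e i, by simpa [Equiv.arrowCongr] using hi⟩
  · intro h a ha c
    obtain ⟨i, hi⟩ := h a ha c
    exact ⟨e.symm i, mem_univ _, by simpa [Equiv.arrowCongr] using hi⟩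

theorem E_kk {n k M s : ℕ} (B : Set (Cg n k)) (rG : Fin M → Fin (n + 1))
    (r : Fin s → Fin (n + 1)) (u : ℕ) :
    E (fun Z : Fin M → Fin n => E (fun z : Fin n => E (fun Z' : Fin s → Fin n =>
      ind (kk B rG Z r Z' u z)))) = TD (1 + nst rG M + nst r u) B := by
  rcases Nat.eq_zero_or_pos n with hn | hn
  · subst hn
    have h1 : ∀ Z : Fin M → Fin 0, E (fun z : Fin 0 => E (fun Z' : Fin s → Fin 0 =>
        ind (kk B rG Z r Z' u z))) = 0 := by
      intro Z
      simp [E]
    rw [E_congr h1, E_zero]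
    unfold TD
    have : IsEmpty (Fin (1 + nst rG M + nst r u) → Fin 0) :=
      ⟨fun f => (f ⟨0, by omega⟩).elim0⟩
    simp [E]
  have : Nonempty (Fin n) := ⟨⟨0, hn⟩⟩
  have hcard : Fintype.card ((Unit ⊕ {j : Fin M // (rG j).val < 2}) ⊕
      {l : Fin s // l.val < u ∧ (r l).val < 2}) = 1 + nst rG M + nst r u := by
    rw [Fintype.card_sum, Fintype.card_sum, Fintype.card_unit, Fintype.card_subtype,
      Fintype.card_subtype]
    unfold nst
    congr 3
    ext j
    simp
  rw [c8_TD (ι := (Unit ⊕ {j : Fin M // (rG j).val < 2}) ⊕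
      {l : Fin s // l.val < u ∧ (r l).val < 2}) B _ hcard, c8_sum, c8_sum, c8_unit, E_comm]
  refine E_congr fun z => ?_
  have h1 : ∀ Z : Fin M → Fin n, E (fun Z' : Fin s → Fin n => ind (kk B rG Z r Z' u z)) =
      E (fun V : {l : Fin s // l.val < u ∧ (r l).val < 2} → Fin n =>
        ind (c8_KS B (Sum.elim (Sum.elim (fun _ : Unit => z)
          (fun j : {j : Fin M // (rG j).val < 2} => Z j.1)) V))) := by
    intro Z
    rw [← c8_restrict (fun l : Fin s => l.val < u ∧ (r l).val < 2)]
    refine E_congr fun Z' => ind_congr ?_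
    constructor
    · intro h a ha c
      rcases h a ha c with ⟨j, hj, h1⟩ | ⟨l, hl, hl2, h1⟩ | h1
      · exact ⟨Sum.inl (Sum.inr ⟨j, hj⟩), h1⟩
      · exact ⟨Sum.inr ⟨l, hl, hl2⟩, h1⟩
      · exact ⟨Sum.inl (Sum.inl ()), h1⟩
    · intro h a ha c
      obtain ⟨i, hi⟩ := h a ha c
      rcases i with (i | ⟨j, hj⟩) | ⟨l, hl, hl2⟩
      · exact Or.inr (Or.inr hi)
      · exact Or.inl ⟨j, hj, hi⟩
      · exact Or.inr (Or.inl ⟨l, hl, hl2, hi⟩)
  rw [E_congr h1]
  exact c8_restrict (fun j : Fin M => (rG j).val < 2)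
    (fun W : {j : Fin M // (rG j).val < 2} → Fin n =>
      E (fun V : {l : Fin s // l.val < u ∧ (r l).val < 2} → Fin n =>
        ind (c8_KS B (Sum.elim (Sum.elim (fun _ : Unit => z) W) V))))

theorem E_pow_nst {n M : ℕ} (hn : 1 ≤ n) (x : ℝ) (hx : 0 ≤ x) :
    E (fun r : Fin M → Fin (n + 1) => x ^ (nst r M)) ≤ (1 + 2 * x / (n + 1)) ^ M := by
  have h1 : ∀ r : Fin M → Fin (n + 1), x ^ (nst r M) =
      ∏ p, (if (r p).val < 2 then x else 1) := by
    intro r
    unfold nst
    rw [Finset.prod_ite, Finset.prod_const, Finset.prod_const_one, mul_one]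
    congr 2
    ext j
    simp
  rw [E_congr h1, E_pi (fun _ : Fin M => fun y : Fin (n + 1) => if y.val < 2 then x else 1),
    Finset.prod_const, Finset.card_univ, Fintype.card_fin]
  apply pow_le_pow_left₀
  · apply E_nonneg
    intro y
    split_ifs
    · exact hx
    · norm_num
  have h2 : ∀ y : Fin (n + 1), (if y.val < 2 then x else (1 : ℝ)) ≤
      1 + (if y.val < 2 then x else 0) := by
    intro y
    split_ifs <;> linarith
  refine (E_mono h2).trans ?_
  rw [E_add, E_const]
  have h3 : E (fun y : Fin (n + 1) => if y.val < 2 then x else 0) ≤ 2 * x / (n + 1) := by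
    unfold E
    rw [Fintype.card_fin]
    push_cast
    apply div_le_div_of_nonneg_right _ (by positivity)
    rw [← Finset.sum_filter, Finset.sum_const, nsmul_eq_mul]
    apply mul_le_mul_of_nonneg_right _ hx
    have h4 : (univ.filter (fun y : Fin (n + 1) => y.val < 2)).card ≤ 2 := by
      have h5 : (univ.filter (fun y : Fin (n + 1) => y.val < 2)).card ≤ (range 2).card := by
        apply Finset.card_le_card_of_injOn (fun y => y.val)
        · intro y hy
          simpa using hy
        · intro y _ z _ h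
          exact Fin.ext h
      simpa using h5
    exact_mod_cast h4
  linarith

end Pool.Agent.H290R2.Col
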