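import Pool.Agent.H290R2.Col.Defs

/-!
Task D1 (basic facts about `pc`), by helper880 for helper290.
-/

set_option autoImplicit false

namespace Pool.Agent.H290R2.Col
open Finset Filter Pool.Agent.H999R2.KSat

theorem pc_zero (k n : ℕ) (hk : 1 ≤ k) : pc k n 0 = 1 := by
  unfold pc
  have h : ∀ F : Fin 0 → NL n, ind ((Col F : Set (Cg n k)).Nonempty) = 1 := by
    intro F
    apply ind_true
    exact ⟨fun _ => ⟨0, by omega⟩, fun j => j.elim0⟩
  rw [E_congr h, E_const]

theorem pc_nonneg (k n m : ℕ) : 0 ≤ pc k n m := E_nonneg fun _ => ind_nonneg _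

theorem pc_le_one (k n m : ℕ) : pc k n m ≤ 1 := E_le_of_nonneg zero_le_one fun _ => ind_le_one _

theorem pc_succ_le (k n m : ℕ) : pc k n (m + 1) ≤ pc k n m := by
  unfold pc
  rw [E_cons]
  refine E_le_of_nonneg (pc_nonneg k n m) fun x => E_mono fun G => ind_mono ?_
  rintro ⟨a, ha⟩
  exact ⟨a, fun j => by simpa using ha j.succ⟩

theorem pc_anti (k n : ℕ) {m m' : ℕ} (h : m ≤ m') : pc k n m' ≤ pc k n m := by
  induction m', h using Nat.le_induction with
  | base => exact le_rfl
  | succ l _ ih => exact (pc_succ_le k n l).trans ih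

/-- the number of ordered pairs of distinct vertices -/
theorem d1_card (n : ℕ) : (Fintype.card (NL n) : ℝ) = (n : ℝ) * n - n := by
  have h1 : Fintype.card (NL n) = Fintype.card (Fin n × Fin n) -
      Fintype.card {e : Fin n × Fin n // e.1 = e.2} := by
    have := Fintype.card_subtype_compl (fun e : Fin n × Fin n => e.1 = e.2)
    rw [← this]
  have h2 : Fintype.card {e : Fin n × Fin n // e.1 = e.2} = n := by
    have e : {e : Fin n × Fin n // e.1 = e.2} ≃ Fin n :=
      { toFun := fun e => e.1.1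
        invFun := fun i => ⟨(i, i), rfl⟩
        left_inv := by
          rintro ⟨⟨a, b⟩, h⟩
          simp only at h
          subst h
          rfl
        right_inv := fun i => rfl }
    rw [Fintype.card_congr e, Fintype.card_fin]
  rw [h1, h2, Fintype.card_prod, Fintype.card_fin, Nat.cast_sub (Nat.le_mul_self n)]
  push_cast
  ring

/-- a colouring is proper on a random pair with probability at most `1 - 1/(2k)` -/
theorem d1_pair (k n : ℕ) (hk : 1 ≤ k) (hn : 2 * k ≤ n) (a : Cg n k) :
    E (fun e : NL n => ind (pr a e)) ≤ 1 - 1 / (2 * k) := by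
  classical
  have hk' : (1 : ℝ) ≤ k := by exact_mod_cast hk
  have hn' : 2 * (k : ℝ) ≤ n := by exact_mod_cast hn
  have hn1 : (0 : ℝ) < (n : ℝ) * n - n := by nlinarith
  unfold E
  rw [d1_card, div_le_iff₀ hn1]
  have h1 : ∑ e : NL n, ind (pr a e) ≤ ∑ e : Fin n × Fin n, ind (a e.1 ≠ a e.2) := by
    have h2 : ∑ e : NL n, ind (pr a e) =
        ∑ e ∈ (univ : Finset (Fin n × Fin n)).filter (fun e => e.1 ≠ e.2),
          ind (a e.1 ≠ a e.2) := by
      rw [Finset.sum_subtype (p := fun e : Fin n × Fin n => e.1 ≠ e.2) _ (by simp)]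
      rfl
    rw [h2]
    exact Finset.sum_le_sum_of_subset_of_nonneg (Finset.filter_subset _ _)
      fun _ _ _ => ind_nonneg _
  have h2 : ∑ e : Fin n × Fin n, ind (a e.1 ≠ a e.2) =
      (n : ℝ) * n - ∑ e : Fin n × Fin n, ind (a e.1 = a e.2) := by
    have h3 : ∀ e : Fin n × Fin n, ind (a e.1 ≠ a e.2) = 1 - ind (a e.1 = a e.2) :=
      fun e => ind_not _
    simp only [h3, Finset.sum_sub_distrib, Finset.sum_const, card_univ, Fintype.card_prod,
      Fintype.card_fin, nsmul_eq_mul, mul_one]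
    push_cast
    ring
  have h3 : ∑ e : Fin n × Fin n, ind (a e.1 = a e.2) =
      ∑ c : Fin k, (∑ u : Fin n, ind (a u = c)) ^ 2 := by
    have h4 : ∀ c : Fin k, (∑ u : Fin n, ind (a u = c)) ^ 2 =
        ∑ e : Fin n × Fin n, ind (a e.1 = c) * ind (a e.2 = c) := by
      intro c
      rw [sq, Finset.sum_mul_sum, Fintype.sum_prod_type]
    simp only [h4]
    rw [Finset.sum_comm]
    refine Finset.sum_congr rfl fun e _ => ?_
    rw [Finset.sum_eq_single (a e.1)]
    · rw [ind_true rfl, one_mul]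
      exact ind_congr eq_comm
    · intro b _ hb
      rw [ind_false (Ne.symm hb), zero_mul]
    · intro h
      exact absurd (Finset.mem_univ _) h
  have h4 : ∑ c : Fin k, ∑ u : Fin n, ind (a u = c) = n := by
    rw [Finset.sum_comm]
    have : ∀ u : Fin n, ∑ c : Fin k, ind (a u = c) = 1 := by
      intro u
      rw [Finset.sum_eq_single (a u)]
      · exact ind_true rfl
      · intro b _ hb
        exact ind_false (Ne.symm hb)
      · intro h
        exact absurd (Finset.mem_univ _) h
    simp [this]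
  have h5 := sq_sum_le_card_mul_sum_sq (s := (univ : Finset (Fin k)))
    (f := fun c => ∑ u : Fin n, ind (a u = c))
  rw [h4, card_univ, Fintype.card_fin, ← h3] at h5
  refine h1.trans ?_
  rw [h2]
  have hkpos : (0 : ℝ) < k := by linarith
  have h6 : (n : ℝ) ^ 2 / k ≤ ∑ e : Fin n × Fin n, ind (a e.1 = a e.2) := by
    rw [div_le_iff₀ hkpos]
    linarith
  have h7 : (n : ℝ) * n - (n : ℝ) ^ 2 / k ≤ (1 - 1 / (2 * k)) * ((n : ℝ) * n - n) := by
    have h8 : (1 - 1 / (2 * k)) * ((n : ℝ) * n - n) - ((n : ℝ) * n - (n : ℝ) ^ 2 / k) =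
        n * (n - 2 * k + 1) / (2 * k) := by
      field_simp
      ring
    have h9 : 0 ≤ (n : ℝ) * (n - 2 * k + 1) / (2 * k) := by
      apply div_nonneg
      · apply mul_nonneg
        · positivity
        · linarith
      · positivity
    linarith
  linarith

theorem first_moment (k n m : ℕ) (hk : 1 ≤ k) (hn : 2 * k ≤ n) :
    pc k n m ≤ (k : ℝ) ^ n * (1 - 1 / (2 * k)) ^ m := by
  classical
  have h1 : pc k n m ≤ E (fun F : Fin m → NL n => ∑ a : Cg n k, ind (∀ j, pr a (F j))) := by
    unfold pc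
    refine E_mono fun F => ?_
    refine le_trans (ind_mono ?_) (ind_exists_le (fun a : Cg n k => ∀ j, pr a (F j)))
    rintro ⟨a, ha⟩
    exact ⟨a, ha⟩
  refine h1.trans ?_
  rw [E_sum]
  have h2 : ∀ a : Cg n k, E (fun F : Fin m → NL n => ind (∀ j, pr a (F j))) ≤
      (1 - 1 / (2 * (k : ℝ))) ^ m := by
    intro a
    have h3 : ∀ F : Fin m → NL n, ind (∀ j, pr a (F j)) = ∏ j, ind (pr a (F j)) :=
      fun F => ind_forall _
    rw [E_congr h3, E_pi (fun _ e => ind (pr a e)), Finset.prod_const, card_univ,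
      Fintype.card_fin]
    exact pow_le_pow_left₀ (E_nonneg fun _ => ind_nonneg _) (d1_pair k n hk hn a) m
  refine (Finset.sum_le_sum fun a _ => h2 a).trans ?_
  rw [Finset.sum_const, card_univ, nsmul_eq_mul, Fintype.card_fun, Fintype.card_fin,
    Fintype.card_fin]
  push_cast
  exact le_rfl

end Pool.Agent.H290R2.Col
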