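import Pool.Agent.H290R2.Col.Defs

/-!
# Task D2: one more vertex (helper246)
-/

set_option autoImplicit false

namespace Pool.Agent.H290R2.Col
open Finset Filter Pool.Agent.H999R2.KSat

theorem d2_card (n : ℕ) : (Fintype.card (NL n) : ℝ) = (n : ℝ) * ((n : ℝ) - 1) := by
  have h : Fintype.card (NL n) = n * n - n := by
    rw [Fintype.card_subtype]
    have : (Finset.univ.filter (fun e : Fin n × Fin n => e.1 ≠ e.2)) =
        (Finset.univ : Finset (Fin n)).offDiag := by
      ext e
      simp [Finset.mem_offDiag]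
    rw [this, Finset.offDiag_card]
    simp
  rw [h, Nat.cast_sub (Nat.le_mul_self n)]
  push_cast
  ring

/-- the embedding of pairs -/
def d2_up {n : ℕ} (e : NL n) : NL (n + 1) :=
  ⟨(e.1.1.castSucc, e.1.2.castSucc), fun h => e.2 (Fin.castSucc_injective n h)⟩

theorem d2_up_inj {n : ℕ} : Function.Injective (d2_up (n := n)) := by
  intro e f h
  have h1 := congrArg (fun x : NL (n + 1) => x.1.1) h
  have h2 := congrArg (fun x : NL (n + 1) => x.1.2) h
  simp only [d2_up] at h1 h2
  apply Subtype.ext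
  exact Prod.ext (Fin.castSucc_injective n h1) (Fin.castSucc_injective n h2)

theorem d2_sum (k n m : ℕ) (hk : 1 ≤ k) :
    ∑ F : Fin m → NL n, ind ((Col F : Set (Cg n k)).Nonempty) ≤
      ∑ G : Fin m → NL (n + 1), ind ((Col G : Set (Cg (n + 1) k)).Nonempty) := by
  classical
  let e : (Fin m → NL n) ↪ (Fin m → NL (n + 1)) :=
    ⟨fun F j => d2_up (F j), fun F G h => by
      funext j
      exact d2_up_inj (congrFun h j)⟩
  calc ∑ F : Fin m → NL n, ind ((Col F : Set (Cg n k)).Nonempty)
      ≤ ∑ F : Fin m → NL n, ind ((Col (e F) : Set (Cg (n + 1) k)).Nonempty) := by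
        apply Finset.sum_le_sum
        intro F _
        apply ind_mono
        rintro ⟨a, ha⟩
        refine ⟨fun i => if h : (i : ℕ) < n then a ⟨i, h⟩ else ⟨0, hk⟩, ?_⟩
        intro j
        have := ha j
        unfold pr at this ⊢
        simpa [e, d2_up] using this
    _ = ∑ G ∈ Finset.univ.map e, ind ((Col G : Set (Cg (n + 1) k)).Nonempty) := by
        rw [Finset.sum_map]
    _ ≤ _ := by
        apply Finset.sum_le_sum_of_subset_of_nonneg (Finset.subset_univ _)
        intro i _ _
        exact ind_nonneg _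

theorem pc_one (k n m : ℕ) (hn : 1 ≤ n) (hk : 1 ≤ k) :
    (((n : ℝ) - 1) / (n + 1)) ^ m * pc k n m ≤ pc k (n + 1) m := by
  rcases Nat.eq_zero_or_pos m with hm | hm
  · subst hm
    have h1 : ∀ N : ℕ, pc k N 0 = 1 := by
      intro N
      unfold pc
      rw [E_congr (g := fun _ => (1 : ℝ))]
      · exact E_const 1
      · intro F
        apply ind_true
        exact ⟨fun _ => ⟨0, hk⟩, fun j => j.elim0⟩
    rw [h1, h1]
    simp
  · rcases Nat.lt_or_ge 1 n with h2 | h2
    · have hS := d2_sum k n m hk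
      have hn1 : (1 : ℝ) < n := by exact_mod_cast h2
      have hc1 : (0 : ℝ) < (n : ℝ) * ((n : ℝ) - 1) := by nlinarith
      have hc2 : (0 : ℝ) < ((n : ℝ) + 1) * (n : ℝ) := by nlinarith
      unfold pc E
      rw [Fintype.card_fun, Fintype.card_fun, Fintype.card_fin]
      push_cast
      rw [d2_card, d2_card]
      push_cast
      have he : (((n : ℝ) - 1) / (n + 1)) ^ m *
          ((∑ F : Fin m → NL n, ind ((Col F : Set (Cg n k)).Nonempty)) /
            ((n : ℝ) * ((n : ℝ) - 1)) ^ m) =
          (∑ F : Fin m → NL n, ind ((Col F : Set (Cg n k)).Nonempty)) /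
            (((n : ℝ) + 1) * (n : ℝ)) ^ m := by
        have h3 : ((n : ℝ) - 1) ≠ 0 := by linarith
        have h4 : ((n : ℝ) + 1) ≠ 0 := by linarith
        have h5 : (n : ℝ) ≠ 0 := by linarith
        rw [div_pow, mul_pow, mul_pow]
        field_simp
      rw [he]
      have : ((n : ℝ) + 1) * ((n : ℝ) + 1 - 1) = ((n : ℝ) + 1) * n := by ring
      rw [this]
      exact div_le_div_of_nonneg_right hS (pow_pos hc2 m).le
    · have h1 : n = 1 := by omega
      subst h1
      have : (((1 : ℕ) : ℝ) - 1) / (((1 : ℕ) : ℝ) + 1) = 0 := by norm_num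
      rw [this, zero_pow hm.ne', zero_mul]
      exact E_nonneg fun _ => ind_nonneg _

end Pool.Agent.H290R2.Col
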