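import Pool.Agent.H290R2.Col.Defs

set_option autoImplicit false

namespace Pool.Agent.H290R2.Col
open Finset Filter Pool.Agent.H999R2.KSat

theorem d3_card_NL (n : ℕ) : (Fintype.card (NL n) : ℝ) = (n : ℝ) * n - n := by
  classical
  have h1 : Fintype.card (NL n) = Fintype.card (Fin n × Fin n) -
      Fintype.card {e : Fin n × Fin n // e.1 = e.2} := by
    rw [Fintype.card_subtype_compl (fun e : Fin n × Fin n => e.1 = e.2)]
  have h2 : Fintype.card {e : Fin n × Fin n // e.1 = e.2} = n := by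
    have e : {e : Fin n × Fin n // e.1 = e.2} ≃ Fin n :=
      { toFun := fun x => x.1.1
        invFun := fun i => ⟨(i, i), rfl⟩
        left_inv := by rintro ⟨⟨a, b⟩, h⟩; simp only at h; subst h; rfl
        right_inv := fun i => rfl }
    rw [Fintype.card_congr e, Fintype.card_fin]
  rw [h1, h2, Fintype.card_prod, Fintype.card_fin, Nat.cast_sub (Nat.le_mul_self n)]
  push_cast
  ring

theorem d3_one (n : ℕ) (hn : 1 ≤ n) (g : Fin n × Fin n → ℝ) (hg : ∀ x, x.1 = x.2 → g x = 0) :
    E g = (1 - 1 / (n : ℝ)) * E (fun e : NL n => g e.1) := by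
  classical
  have hn0 : (n : ℝ) ≠ 0 := by positivity
  have hs : ∑ e : NL n, g e.1 = ∑ x, g x := by
    have h1 : ∑ x, g x = ∑ x ∈ univ.filter (fun x : Fin n × Fin n => x.1 ≠ x.2), g x := by
      symm
      apply Finset.sum_filter_of_ne
      intro x _ hx h
      exact hx (hg x h)
    rw [h1]
    exact (Finset.sum_subtype (univ.filter (fun x : Fin n × Fin n => x.1 ≠ x.2))
      (fun x => by simp) g).symm
  unfold E
  rw [hs, d3_card_NL, Fintype.card_prod, Fintype.card_fin]
  push_cast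
  rcases Nat.lt_or_ge 1 n with h | h
  · have h2 : (n : ℝ) - 1 ≠ 0 := by
      have : (1 : ℝ) < n := by exact_mod_cast h
      linarith
    have h3 : (n : ℝ) * n - n = n * (n - 1) := by ring
    rw [h3]
    field_simp
  · have h1 : n = 1 := le_antisymm h hn
    subst h1
    have : ∑ x : Fin 1 × Fin 1, g x = 0 := by
      apply Finset.sum_eq_zero
      intro x _
      exact hg x (Subsingleton.elim _ _)
    rw [this]
    simp

theorem d3_aux {n k : ℕ} (hn : 1 ≤ n) (m : ℕ) : ∀ A : Set (Cg n k),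
    qq m A = (1 - 1 / (n : ℝ)) ^ m *
      E (fun F : Fin m → NL n => ind (∃ a ∈ A, ∀ j, pr a (F j))) := by
  induction m with
  | zero =>
    intro A
    unfold qq
    rw [pow_zero, one_mul]
    have h1 : ∀ F : Fin 0 → Fin n × Fin n,
        ind (∃ a ∈ A, ∀ j, a (F j).1 ≠ a (F j).2) = ind (∃ a : Cg n k, a ∈ A) := by
      intro F
      apply ind_congr
      constructor
      · rintro ⟨a, ha, -⟩; exact ⟨a, ha⟩
      · rintro ⟨a, ha⟩; exact ⟨a, ha, fun j => j.elim0⟩
    have h2 : ∀ F : Fin 0 → NL n,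
        ind (∃ a ∈ A, ∀ j, pr a (F j)) = ind (∃ a : Cg n k, a ∈ A) := by
      intro F
      apply ind_congr
      constructor
      · rintro ⟨a, ha, -⟩; exact ⟨a, ha⟩
      · rintro ⟨a, ha⟩; exact ⟨a, ha, fun j => j.elim0⟩
    rw [E_congr h1, E_congr h2, E_const, E_const]
  | succ m ih =>
    intro A
    unfold qq
    rw [E_cons, E_cons]
    have h1 : ∀ x : Fin n × Fin n, E (fun G : Fin m → Fin n × Fin n =>
        ind (∃ a ∈ A, ∀ j, a ((Fin.cons x G : Fin (m + 1) → Fin n × Fin n) j).1 ≠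
          a ((Fin.cons x G : Fin (m + 1) → Fin n × Fin n) j).2)) =
        qq m (A ∩ {a : Cg n k | a x.1 ≠ a x.2}) := by
      intro x
      unfold qq
      refine E_congr fun G => ind_congr ?_
      constructor
      · rintro ⟨a, ha, h⟩
        refine ⟨a, ⟨ha, ?_⟩, fun j => ?_⟩
        · simpa using h 0
        · simpa using h j.succ
      · rintro ⟨a, ⟨ha, h0⟩, h⟩
        refine ⟨a, ha, fun j => ?_⟩
        refine Fin.cases ?_ (fun i => ?_) j
        · simpa using h0
        · simpa using h i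
    have h2 : ∀ x : NL n, E (fun G : Fin m → NL n =>
        ind (∃ a ∈ A, ∀ j, pr a ((Fin.cons x G : Fin (m + 1) → NL n) j))) =
        E (fun G : Fin m → NL n =>
          ind (∃ a ∈ A ∩ {a : Cg n k | a x.1.1 ≠ a x.1.2}, ∀ j, pr a (G j))) := by
      intro x
      refine E_congr fun G => ind_congr ?_
      constructor
      · rintro ⟨a, ha, h⟩
        refine ⟨a, ⟨ha, ?_⟩, fun j => ?_⟩
        · simpa [pr] using h 0
        · simpa using h j.succ
      · rintro ⟨a, ⟨ha, h0⟩, h⟩
        refine ⟨a, ha, fun j => ?_⟩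
        refine Fin.cases ?_ (fun i => ?_) j
        · simpa [pr] using h0
        · simpa using h i
    rw [E_congr h1, E_congr h2, d3_one n hn (fun x => qq m (A ∩ {a : Cg n k | a x.1 ≠ a x.2}))]
    · have h3 : ∀ e : NL n, qq m (A ∩ {a : Cg n k | a e.1.1 ≠ a e.1.2}) =
          (1 - 1 / (n : ℝ)) ^ m * E (fun G : Fin m → NL n =>
          ind (∃ a ∈ A ∩ {a : Cg n k | a e.1.1 ≠ a e.1.2}, ∀ j, pr a (G j))) := fun e => ih _
      rw [E_congr h3, E_mul_left, pow_succ]
      ring
    · intro x hx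
      unfold qq
      have h4 : ∀ F : Fin m → Fin n × Fin n,
          ind (∃ a ∈ A ∩ {a : Cg n k | a x.1 ≠ a x.2}, ∀ j, a (F j).1 ≠ a (F j).2) = 0 := by
        intro F
        apply ind_false
        rintro ⟨a, ⟨-, h0⟩, -⟩
        exact h0 (by rw [hx])
      rw [E_congr h4, E_zero]

/-! ### Task D3 (loops kill) -/
theorem qq_eq (k n m : ℕ) (hn : 1 ≤ n) (hk : 1 ≤ k) :
    qq m (Set.univ : Set (Cg n k)) = (1 - 1 / (n : ℝ)) ^ m * pc k n m := by
  rw [d3_aux hn m]
  unfold pc
  congr 1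
  refine E_congr fun F => ind_congr ?_
  constructor
  · rintro ⟨a, -, h⟩; exact ⟨a, h⟩
  · rintro ⟨a, h⟩; exact ⟨a, trivial, h⟩

end Pool.Agent.H290R2.Col
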