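import Pool.Agent.H290R2.Col.Defs

/-! Task D4: interpolation between two blocks of vertices and the whole vertex set. -/

set_option autoImplicit false

namespace Pool.Agent.H290R2.Col
open Finset Filter Pool.Agent.H999R2.KSat

/-- the colourings not constant on the pair `x` -/
def d4P {n k : ℕ} (x : Fin n × Fin n) : Set (Cg n k) := {a | a x.1 ≠ a x.2}

/-- the colourings not constant on the pairs of `F` -/
def d4S {n k m : ℕ} (F : Fin m → Fin n × Fin n) : Set (Cg n k) := {a | ∀ j, a (F j).1 ≠ a (F j).2}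

/-- the pair of vertices of the first block -/
def d4l (N1 N2 : ℕ) (x : Fin N1 × Fin N1) : Fin (N1 + N2) × Fin (N1 + N2) :=
  (Fin.castAdd N2 x.1, Fin.castAdd N2 x.2)

/-- the pair of vertices of the second block -/
def d4r (N1 N2 : ℕ) (x : Fin N2 × Fin N2) : Fin (N1 + N2) × Fin (N1 + N2) :=
  (Fin.natAdd N1 x.1, Fin.natAdd N1 x.2)

theorem d4_qq {n k : ℕ} (m : ℕ) (A : Set (Cg n k)) :
    qq m A = E (fun F : Fin m → Fin n × Fin n => ind (A ∩ d4S F).Nonempty) := rfl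

theorem d4_ind {n k : ℕ} (R : Set (Cg n k)) (x : Fin n × Fin n) :
    ind (R ∩ d4P x).Nonempty = 1 - ind (∀ a ∈ R, a x.1 = a x.2) := by
  rw [← ind_not]
  apply ind_congr
  constructor
  · rintro ⟨a, haR, hp⟩ hall
    exact hp (hall a haR)
  · intro hne
    push Not at hne
    obtain ⟨a, haR, hp⟩ := hne
    exact ⟨a, haR, hp⟩

/-- the density of the killing pairs is the sum of the squares of the densities of the classes -/
theorem d4_pair {n n' k : ℕ} (e : Fin n' → Fin n) (R : Set (Cg n k)) [Fintype (R → Fin k)] :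
    E (fun x : Fin n' × Fin n' => ind (∀ a ∈ R, a (e x.1) = a (e x.2))) =
      ∑ φ : R → Fin k, (E (fun u : Fin n' => ind ((fun a : R => a.1 (e u)) = φ))) ^ 2 := by
  classical
  have h : ∀ x : Fin n' × Fin n', ind (∀ a ∈ R, a (e x.1) = a (e x.2)) =
      ∑ φ : R → Fin k, ind ((fun a : R => a.1 (e x.1)) = φ) *
        ind ((fun a : R => a.1 (e x.2)) = φ) := by
    intro x
    rw [Finset.sum_eq_single (fun a : R => a.1 (e x.1))]
    · rw [ind_true (rfl : (fun a : R => a.1 (e x.1)) = (fun a : R => a.1 (e x.1))), one_mul]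
      apply ind_congr
      constructor
      · intro h
        funext a
        exact (h a.1 a.2).symm
      · intro h a ha
        exact (congrFun h ⟨a, ha⟩).symm
    · intro φ _ hφ
      rw [ind_false (Ne.symm hφ), zero_mul]
    · intro h
      exact absurd (Finset.mem_univ _) h
  rw [E_congr h, E_sum]
  refine Finset.sum_congr rfl fun φ _ => ?_
  rw [E_prod_mul (fun u : Fin n' => ind ((fun a : R => a.1 (e u)) = φ))
    (fun u : Fin n' => ind ((fun a : R => a.1 (e u)) = φ)), sq]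

theorem d4_split {N1 N2 : ℕ} (h1 : 0 < N1) (h2 : 0 < N2) (g : Fin (N1 + N2) → ℝ) :
    E g = ((N1 : ℝ) / (N1 + N2)) * E (fun u : Fin N1 => g (Fin.castAdd N2 u)) +
      ((N2 : ℝ) / (N1 + N2)) * E (fun u : Fin N2 => g (Fin.natAdd N1 u)) := by
  have hN1 : (N1 : ℝ) ≠ 0 := by positivity
  have hN2 : (N2 : ℝ) ≠ 0 := by positivity
  have hN : (N1 : ℝ) + N2 ≠ 0 := by positivity
  unfold E
  rw [Fin.sum_univ_add]
  simp only [Fintype.card_fin]
  push_cast
  field_simp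

/-- one step of the interpolation -/
theorem d4_step {N1 N2 : ℕ} (k : ℕ) (h1 : 0 < N1) (h2 : 0 < N2) (R : Set (Cg (N1 + N2) k)) :
    ((N1 : ℝ) / (N1 + N2)) *
        E (fun x : Fin N1 × Fin N1 => ind (R ∩ d4P (d4l N1 N2 x)).Nonempty) +
      ((N2 : ℝ) / (N1 + N2)) *
        E (fun x : Fin N2 × Fin N2 => ind (R ∩ d4P (d4r N1 N2 x)).Nonempty) ≤
      E (fun x : Fin (N1 + N2) × Fin (N1 + N2) => ind (R ∩ d4P x).Nonempty) := by
  classical
  have hN1 : (0 : ℝ) < N1 := by positivity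
  have hN2 : (0 : ℝ) < N2 := by positivity
  haveI : Nonempty (Fin N1) := ⟨⟨0, h1⟩⟩
  haveI : Nonempty (Fin N2) := ⟨⟨0, h2⟩⟩
  haveI : Nonempty (Fin (N1 + N2)) := ⟨⟨0, by omega⟩⟩
  haveI : Fintype (R → Fin k) := Fintype.ofFinite _
  have hp : (0 : ℝ) ≤ (N1 : ℝ) / (N1 + N2) := by positivity
  have hq : (0 : ℝ) ≤ (N2 : ℝ) / (N1 + N2) := by positivity
  have hpq : (N1 : ℝ) / (N1 + N2) + (N2 : ℝ) / (N1 + N2) = 1 := by
    rw [← add_div]; exact div_self (by positivity)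
  have e1 : E (fun x : Fin N1 × Fin N1 => ind (R ∩ d4P (d4l N1 N2 x)).Nonempty) =
      1 - ∑ φ : R → Fin k, (E (fun u : Fin N1 =>
        ind ((fun a : R => a.1 (Fin.castAdd N2 u)) = φ))) ^ 2 := by
    rw [← d4_pair (Fin.castAdd N2) R, E_congr (fun x => d4_ind R (d4l N1 N2 x)), E_sub, E_const]
    rfl
  have e2 : E (fun x : Fin N2 × Fin N2 => ind (R ∩ d4P (d4r N1 N2 x)).Nonempty) =
      1 - ∑ φ : R → Fin k, (E (fun u : Fin N2 =>
        ind ((fun a : R => a.1 (Fin.natAdd N1 u)) = φ))) ^ 2 := by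
    rw [← d4_pair (Fin.natAdd N1) R, E_congr (fun x => d4_ind R (d4r N1 N2 x)), E_sub, E_const]
    rfl
  have e3 : E (fun x : Fin (N1 + N2) × Fin (N1 + N2) => ind (R ∩ d4P x).Nonempty) =
      1 - ∑ φ : R → Fin k, (E (fun u : Fin (N1 + N2) =>
        ind ((fun a : R => a.1 u) = φ))) ^ 2 := by
    rw [← d4_pair (fun u => u) R, E_congr (fun x => d4_ind R x), E_sub, E_const]
  rw [e1, e2, e3]
  have key : ∑ φ : R → Fin k, (E (fun u : Fin (N1 + N2) =>
        ind ((fun a : R => a.1 u) = φ))) ^ 2 ≤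
      ((N1 : ℝ) / (N1 + N2)) * ∑ φ : R → Fin k, (E (fun u : Fin N1 =>
        ind ((fun a : R => a.1 (Fin.castAdd N2 u)) = φ))) ^ 2 +
      ((N2 : ℝ) / (N1 + N2)) * ∑ φ : R → Fin k, (E (fun u : Fin N2 =>
        ind ((fun a : R => a.1 (Fin.natAdd N1 u)) = φ))) ^ 2 := by
    rw [Finset.mul_sum, Finset.mul_sum, ← Finset.sum_add_distrib]
    refine Finset.sum_le_sum fun φ _ => ?_
    rw [d4_split h1 h2 (fun u => ind ((fun a : R => a.1 u) = φ))]
    set x := E (fun u : Fin N1 => ind ((fun a : R => a.1 (Fin.castAdd N2 u)) = φ))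
    set y := E (fun u : Fin N2 => ind ((fun a : R => a.1 (Fin.natAdd N1 u)) = φ))
    set p := (N1 : ℝ) / (N1 + N2)
    set q := (N2 : ℝ) / (N1 + N2)
    have hq' : q = 1 - p := by linarith
    have h3 : p * x ^ 2 + q * y ^ 2 - (p * x + q * y) ^ 2 = p * q * (x - y) ^ 2 := by
      rw [hq']; ring
    have h4 : 0 ≤ p * q * (x - y) ^ 2 := mul_nonneg (mul_nonneg hp hq) (sq_nonneg _)
    linarith
  nlinarith [key, hpq]

theorem d4_succ {n k : ℕ} (m : ℕ) (A : Set (Cg n k)) :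
    qq (m + 1) A = E (fun c : Fin n × Fin n => qq m (A ∩ d4P c)) := by
  unfold qq
  rw [E_cons]
  refine E_congr fun c => E_congr fun G => ?_
  apply ind_congr
  constructor
  · rintro ⟨a, haA, haS⟩
    exact ⟨a, ⟨haA, by simpa [d4P] using haS 0⟩, fun j => by simpa using haS j.succ⟩
  · rintro ⟨a, ⟨haA, hac⟩, haS⟩
    refine ⟨a, haA, fun j => ?_⟩
    refine Fin.cases ?_ (fun j => ?_) j
    · simpa [d4P] using hac
    · simpa using haS j

theorem d4_zero {n k : ℕ} (A : Set (Cg n k)) : qq 0 A = ind A.Nonempty := by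
  rw [d4_qq]
  have h : ∀ F : Fin 0 → Fin n × Fin n, ind (A ∩ d4S F).Nonempty = ind A.Nonempty := by
    intro F
    have : (d4S F : Set (Cg n k)) = Set.univ := by
      ext a; simp [d4S]
    rw [this, Set.inter_univ]
  rw [E_congr h]
  exact E_const _

theorem d4_rect_nonempty {N1 N2 k : ℕ} (A1 : Set (Cg N1 k)) (A2 : Set (Cg N2 k)) :
    (rectc A1 A2).Nonempty ↔ A1.Nonempty ∧ A2.Nonempty := by
  constructor
  · rintro ⟨a, h1, h2⟩
    exact ⟨⟨_, h1⟩, ⟨_, h2⟩⟩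
  · rintro ⟨⟨a1, h1⟩, ⟨a2, h2⟩⟩
    refine ⟨Fin.append a1 a2, ?_, ?_⟩
    · simpa [Fin.append_left] using h1
    · simpa [Fin.append_right] using h2

theorem d4_anti {N1 N2 : ℕ} (k m : ℕ) (h1 : 0 < N1) (h2 : 0 < N2) :
    ∀ (A1 : Set (Cg N1 k)) (A2 : Set (Cg N2 k)),
    ∑ ij ∈ antidiagonal m, (m.choose ij.1 : ℝ) * (((N1 : ℝ) / (N1 + N2)) ^ ij.1 *
      ((N2 : ℝ) / (N1 + N2)) ^ ij.2 * (qq ij.1 A1 * qq ij.2 A2)) ≤
      qq m (rectc A1 A2) := by
  induction m with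
  | zero =>
    intro A1 A2
    simp only [Finset.Nat.antidiagonal_zero, sum_singleton, Nat.choose_self, Nat.cast_one, pow_zero,
      one_mul]
    rw [d4_zero, d4_zero, d4_zero, ← ind_and]
    exact ind_mono (d4_rect_nonempty A1 A2).2
  | succ m ih =>
    intro A1 A2
    set p : ℝ := (N1 : ℝ) / (N1 + N2) with hp
    set q : ℝ := (N2 : ℝ) / (N1 + N2) with hq
    have hp0 : 0 ≤ p := by positivity
    have hq0 : 0 ≤ q := by positivity
    have hpas := Finset.sum_antidiagonal_choose_succ_mul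
      (fun i j => p ^ i * q ^ j * (qq i A1 * qq j A2)) m
    rw [hpas]
    have hA : ∑ ij ∈ antidiagonal m, (m.choose ij.1 : ℝ) *
        (p ^ ij.1 * q ^ (ij.2 + 1) * (qq ij.1 A1 * qq (ij.2 + 1) A2)) =
        q * E (fun c : Fin N2 × Fin N2 => ∑ ij ∈ antidiagonal m, (m.choose ij.1 : ℝ) *
          (p ^ ij.1 * q ^ ij.2 * (qq ij.1 A1 * qq ij.2 (A2 ∩ d4P c)))) := by
      rw [E_sum, Finset.mul_sum]
      refine Finset.sum_congr rfl fun ij _ => ?_
      rw [d4_succ]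
      have : ∀ c : Fin N2 × Fin N2, (m.choose ij.1 : ℝ) *
          (p ^ ij.1 * q ^ ij.2 * (qq ij.1 A1 * qq ij.2 (A2 ∩ d4P c))) =
          ((m.choose ij.1 : ℝ) * (p ^ ij.1 * q ^ ij.2 * qq ij.1 A1)) *
            qq ij.2 (A2 ∩ d4P c) := by intro c; ring
      rw [E_congr this, E_mul_left]
      ring
    have hB : ∑ ij ∈ antidiagonal m, (m.choose ij.2 : ℝ) *
        (p ^ (ij.1 + 1) * q ^ ij.2 * (qq (ij.1 + 1) A1 * qq ij.2 A2)) =
        p * E (fun c : Fin N1 × Fin N1 => ∑ ij ∈ antidiagonal m, (m.choose ij.1 : ℝ) *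
          (p ^ ij.1 * q ^ ij.2 * (qq ij.1 (A1 ∩ d4P c) * qq ij.2 A2))) := by
      rw [E_sum, Finset.mul_sum]
      refine Finset.sum_congr rfl fun ij hij => ?_
      rw [d4_succ]
      have hch : m.choose ij.2 = m.choose ij.1 := by
        have := mem_antidiagonal.1 hij
        rw [← this]
        exact (Nat.choose_symm_add).symm
      have : ∀ c : Fin N1 × Fin N1, (m.choose ij.1 : ℝ) *
          (p ^ ij.1 * q ^ ij.2 * (qq ij.1 (A1 ∩ d4P c) * qq ij.2 A2)) =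
          ((m.choose ij.1 : ℝ) * (p ^ ij.1 * q ^ ij.2 * qq ij.2 A2)) *
            qq ij.1 (A1 ∩ d4P c) := by intro c; ring
      rw [E_congr this, E_mul_left, hch]
      ring
    rw [hA, hB]
    have hA' : E (fun c : Fin N2 × Fin N2 => ∑ ij ∈ antidiagonal m, (m.choose ij.1 : ℝ) *
          (p ^ ij.1 * q ^ ij.2 * (qq ij.1 A1 * qq ij.2 (A2 ∩ d4P c)))) ≤
        E (fun F : Fin m → Fin (N1 + N2) × Fin (N1 + N2) => E (fun c : Fin N2 × Fin N2 =>
          ind (rectc A1 A2 ∩ d4S F ∩ d4P (d4r N1 N2 c)).Nonempty)) := by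
      rw [← E_comm]
      refine E_mono fun c => ?_
      refine (ih A1 (A2 ∩ d4P c)).trans (le_of_eq ?_)
      rw [d4_qq]
      refine E_congr fun F => ?_
      congr 2
      ext a
      constructor
      · rintro ⟨⟨ha1, ha2, hp⟩, haF⟩
        exact ⟨⟨⟨ha1, ha2⟩, haF⟩, hp⟩
      · rintro ⟨⟨⟨ha1, ha2⟩, haF⟩, hp⟩
        exact ⟨⟨ha1, ha2, hp⟩, haF⟩
    have hB' : E (fun c : Fin N1 × Fin N1 => ∑ ij ∈ antidiagonal m, (m.choose ij.1 : ℝ) *
          (p ^ ij.1 * q ^ ij.2 * (qq ij.1 (A1 ∩ d4P c) * qq ij.2 A2))) ≤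
        E (fun F : Fin m → Fin (N1 + N2) × Fin (N1 + N2) => E (fun c : Fin N1 × Fin N1 =>
          ind (rectc A1 A2 ∩ d4S F ∩ d4P (d4l N1 N2 c)).Nonempty)) := by
      rw [← E_comm]
      refine E_mono fun c => ?_
      refine (ih (A1 ∩ d4P c) A2).trans (le_of_eq ?_)
      rw [d4_qq]
      refine E_congr fun F => ?_
      congr 2
      ext a
      constructor
      · rintro ⟨⟨⟨ha1, hp⟩, ha2⟩, haF⟩
        exact ⟨⟨⟨ha1, ha2⟩, haF⟩, hp⟩
      · rintro ⟨⟨⟨ha1, ha2⟩, haF⟩, hp⟩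
        exact ⟨⟨⟨ha1, hp⟩, ha2⟩, haF⟩
    have hfin : qq (m + 1) (rectc A1 A2) =
        E (fun F : Fin m → Fin (N1 + N2) × Fin (N1 + N2) =>
          E (fun c : Fin (N1 + N2) × Fin (N1 + N2) =>
          ind (rectc A1 A2 ∩ d4S F ∩ d4P c).Nonempty)) := by
      rw [d4_succ, ← E_comm]
      refine E_congr fun c => ?_
      rw [d4_qq]
      refine E_congr fun F => ?_
      congr 2
      ext a
      constructor
      · rintro ⟨⟨ha, hc⟩, haF⟩
        exact ⟨⟨ha, haF⟩, hc⟩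
      · rintro ⟨⟨ha, haF⟩, hc⟩
        exact ⟨⟨ha, hc⟩, haF⟩
    rw [hfin]
    refine (add_le_add (mul_le_mul_of_nonneg_left hA' hq0)
      (mul_le_mul_of_nonneg_left hB' hp0)).trans ?_
    rw [← E_mul_left, ← E_mul_left, ← E_add]
    refine E_mono fun F => ?_
    have := d4_step k h1 h2 (rectc A1 A2 ∩ d4S F)
    linarith

/-! ### Task D4 (interpolation) -/
theorem interp_col (N1 N2 k m : ℕ) (h1 : 0 < N1) (h2 : 0 < N2)
    (A1 : Set (Cg N1 k)) (A2 : Set (Cg N2 k)) :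
    ∑ j ∈ range (m + 1), (m.choose j : ℝ) * ((N1 : ℝ) / (N1 + N2)) ^ j *
      ((N2 : ℝ) / (N1 + N2)) ^ (m - j) * (qq j A1 * qq (m - j) A2) ≤
      qq m (rectc A1 A2) := by
  have := d4_anti k m h1 h2 A1 A2
  rw [Finset.Nat.sum_antidiagonal_eq_sum_range_succ
    (fun i j => (m.choose i : ℝ) * (((N1 : ℝ) / (N1 + N2)) ^ i *
      ((N2 : ℝ) / (N1 + N2)) ^ j * (qq i A1 * qq j A2)))] at this
  refine le_trans (le_of_eq ?_) this
  refine Finset.sum_congr rfl fun j _ => ?_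
  ring

end Pool.Agent.H290R2.Col
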