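import Pool.Agent.H290R2.Col.Defs

/-! Task D7 (helper782): first facts about the abstract probabilities (adapted from helper999's
`Pool.Agent.H999R2.KSat.CV1`). -/

set_option autoImplicit false

namespace Pool.Agent.H290R2.Col
open Finset Filter Pool.Agent.H999R2.KSat

theorem HypC.anti {θ : ℝ} {p : ℕ → ℕ → ℝ} (h : HypC θ p) (n : ℕ) {m m' : ℕ} (hm : m ≤ m') :
    p n m' ≤ p n m :=
  antitone_nat_of_succ_le (h.hanti n) hm

theorem HypC.le_one {θ : ℝ} {p : ℕ → ℕ → ℝ} (h : HypC θ p) (n m : ℕ) : p n m ≤ 1 := by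
  have h1 := h.anti n (Nat.zero_le m)
  rw [h.h0] at h1
  exact h1

theorem HypC.first_bound {θ : ℝ} {p : ℕ → ℕ → ℝ} (h : HypC θ p) (δ : ℝ) (hδ : 0 < δ) :
    ∃ Λ : ℝ, 0 < Λ ∧ ∃ n1 : ℕ, ∀ n m : ℕ, n1 ≤ n → δ ≤ p n m → (m : ℝ) ≤ Λ * n := by
  obtain ⟨K, q, n1, hK, hq0, hq1, hq⟩ := h.hfm
  rcases hq0.eq_or_lt with h0 | h0
  · refine ⟨1, one_pos, max n1 1, ?_⟩
    intro n m hn hp
    have h1 := hq n m (le_trans (le_max_left _ _) hn)
    rcases Nat.eq_zero_or_pos m with hm | hm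
    · subst hm
      simp
    · rw [← h0, zero_pow (by omega), mul_zero] at h1
      linarith
  · have hL : 0 < -Real.log q := by
      have := Real.log_neg h0 hq1
      linarith
    have hlogK : 0 ≤ Real.log K := Real.log_nonneg hK
    refine ⟨(Real.log K + |Real.log δ| + 1) / (-Real.log q), by positivity, max n1 1, ?_⟩
    intro n m hn hp
    have hn1 : n1 ≤ n := le_trans (le_max_left _ _) hn
    have hn2 : 1 ≤ n := le_trans (le_max_right _ _) hn
    have hn' : (1 : ℝ) ≤ n := by exact_mod_cast hn2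
    have h1 : δ ≤ K ^ n * q ^ m := hp.trans (hq n m hn1)
    have h2 := Real.log_le_log hδ h1
    have hK0 : 0 < K := by linarith
    rw [Real.log_mul (by positivity) (by positivity), Real.log_pow, Real.log_pow] at h2
    have h3 : -|Real.log δ| ≤ Real.log δ := neg_abs_le _
    have h4 : |Real.log δ| ≤ |Real.log δ| * n := by
      have := abs_nonneg (Real.log δ)
      nlinarith
    rw [div_mul_eq_mul_div, le_div_iff₀ hL]
    nlinarith

theorem HypC.Mxc_spec {θ : ℝ} {p : ℕ → ℕ → ℝ} (h : HypC θ p) :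
    ∃ n1 : ℕ, ∀ n : ℕ, n1 ≤ n → 1 / 2 ≤ p n (Mxc p n) ∧ ∀ m, 1 / 2 ≤ p n m → m ≤ Mxc p n := by
  obtain ⟨Λ, _, n1, hb⟩ := h.first_bound (1 / 2) (by norm_num)
  refine ⟨n1, ?_⟩
  intro n hn
  have hne : {m : ℕ | 1 / 2 ≤ p n m}.Nonempty := by
    refine ⟨0, ?_⟩
    show 1 / 2 ≤ p n 0
    rw [h.h0]
    norm_num
  have hbdd : BddAbove {m : ℕ | 1 / 2 ≤ p n m} := by
    refine ⟨⌊Λ * n⌋₊, ?_⟩
    intro m hm
    exact Nat.le_floor (hb n m hn hm)
  constructor
  · exact Nat.sSup_mem hne hbdd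
  · intro m hm
    exact le_csSup hbdd hm

end Pool.Agent.H290R2.Col
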