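import Pool.Agent.H290R2.Col.D7

/-!
Task D8: convergence argument, steps A and A prime (helper403).
-/

set_option autoImplicit false

namespace Pool.Agent.H290R2.Col
open Finset Filter Pool.Agent.H999R2.KSat

/-! ### Task D8 (uses D7) -/
theorem HypC.stepA {θ : ℝ} {p : ℕ → ℕ → ℝ} (h : HypC θ p) (δ : ℝ) (hδ : 0 < δ) :
    ∃ n0 : ℕ, ∀ n m : ℕ, n0 ≤ n → δ ≤ p n m → (m : ℝ) ≤ Mxc p n + (n : ℝ) ^ (1 - θ) := by
  obtain ⟨Λ, _, n1, h1⟩ := h.first_bound δ hδ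
  obtain ⟨n2, h2⟩ := h.Mxc_spec
  obtain ⟨n3, h3⟩ := h.hsharp Λ (δ ^ 2 / 4) (by positivity)
  refine ⟨max n1 (max n2 n3), fun n m hn hm => ?_⟩
  have hn1 : n1 ≤ n := le_trans (le_max_left _ _) hn
  have hn2 : n2 ≤ n := le_trans (le_trans (le_max_left _ _) (le_max_right _ _)) hn
  have hn3 : n3 ≤ n := le_trans (le_trans (le_max_right _ _) (le_max_right _ _)) hn
  by_contra hcon
  rw [not_le] at hcon
  set s := ⌊(n : ℝ) ^ (1 - θ)⌋₊ with hs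
  have hs1 : (s : ℝ) ≤ (n : ℝ) ^ (1 - θ) := Nat.floor_le (by positivity)
  have hlt : ((Mxc p n + s : ℕ) : ℝ) < m := by push_cast; linarith
  have hlt' : Mxc p n + s < m := by exact_mod_cast hlt
  obtain ⟨_, h22⟩ := h2 n hn2
  have hp1 : p n (Mxc p n + 1) < 1 / 2 := by
    by_contra hge
    rw [not_lt] at hge
    have := h22 _ hge
    omega
  have hp2 : δ ≤ p n (Mxc p n + 1 + s) := hm.trans (h.anti n (by omega))
  have hmΛ : ((Mxc p n + 1 : ℕ) : ℝ) ≤ Λ * n := by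
    refine le_trans ?_ (h1 n m hn1 hm)
    exact_mod_cast (by omega : Mxc p n + 1 ≤ m)
  have h5 := h3 n (Mxc p n + 1) hn3 hmΛ
  have h6 : δ ^ 2 ≤ p n (Mxc p n + 1 + s) ^ 2 := pow_le_pow_left₀ hδ.le hp2 2
  have h7 : 1 / 2 * δ ^ 2 ≤ (1 - p n (Mxc p n + 1)) * p n (Mxc p n + 1 + s) ^ 2 :=
    mul_le_mul (by linarith) h6 (by positivity) (by linarith)
  have h8 : 0 < δ ^ 2 := by positivity
  linarith

theorem HypC.stepA' {θ : ℝ} {p : ℕ → ℕ → ℝ} (h : HypC θ p) (ε : ℝ) (hε : 0 < ε) :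
    ∃ n0 : ℕ, ∀ n m : ℕ, n0 ≤ n → (m : ℝ) + (n : ℝ) ^ (1 - θ) ≤ Mxc p n → 1 - ε ≤ p n m := by
  obtain ⟨Λ, _, n1, h1⟩ := h.first_bound (1 / 2) (by norm_num)
  obtain ⟨n2, h2⟩ := h.Mxc_spec
  obtain ⟨n3, h3⟩ := h.hsharp Λ (ε / 4) (by positivity)
  refine ⟨max n1 (max n2 n3), fun n m hn hm => ?_⟩
  have hn1 : n1 ≤ n := le_trans (le_max_left _ _) hn
  have hn2 : n2 ≤ n := le_trans (le_trans (le_max_left _ _) (le_max_right _ _)) hn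
  have hn3 : n3 ≤ n := le_trans (le_trans (le_max_right _ _) (le_max_right _ _)) hn
  set s := ⌊(n : ℝ) ^ (1 - θ)⌋₊ with hs
  have hs0 : (0 : ℝ) ≤ (n : ℝ) ^ (1 - θ) := by positivity
  have hs1 : (s : ℝ) ≤ (n : ℝ) ^ (1 - θ) := Nat.floor_le hs0
  have hlt : ((m + s : ℕ) : ℝ) ≤ Mxc p n := by push_cast; linarith
  have hlt' : m + s ≤ Mxc p n := by exact_mod_cast hlt
  obtain ⟨h21, _⟩ := h2 n hn2
  have hp2 : 1 / 2 ≤ p n (m + s) := h21.trans (h.anti n hlt')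
  have hmΛ : (m : ℝ) ≤ Λ * n := by
    refine le_trans ?_ (h1 n _ hn1 h21)
    linarith
  have h5 := h3 n m hn3 hmΛ
  have h6 : (1 / 2 : ℝ) ^ 2 ≤ p n (m + s) ^ 2 := pow_le_pow_left₀ (by norm_num) hp2 2
  have h7 : 0 ≤ 1 - p n m := by linarith [h.le_one n m]
  have h8 : (1 - p n m) * (1 / 2 : ℝ) ^ 2 ≤ (1 - p n m) * p n (m + s) ^ 2 :=
    mul_le_mul_of_nonneg_left h6 h7
  linarith

end Pool.Agent.H290R2.Col
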