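import Pool.Agent.H290R2.Col.D8

set_option autoImplicit false

namespace Pool.Agent.H290R2.Col
open Finset Filter Pool.Agent.H999R2.KSat

theorem D9.aux {θ : ℝ} {p : ℕ → ℕ → ℝ} (h : HypC θ p)
    (hfb : ∀ δ : ℝ, 0 < δ →
      ∃ Λ : ℝ, 0 < Λ ∧ ∃ n1 : ℕ, ∀ n m : ℕ, n1 ≤ n → δ ≤ p n m → (m : ℝ) ≤ Λ * n)
    (hspec : ∃ n1 : ℕ, ∀ n : ℕ, n1 ≤ n →
      1 / 2 ≤ p n (Mxc p n) ∧ ∀ m, 1 / 2 ≤ p n m → m ≤ Mxc p n)
    (hA : ∀ δ : ℝ, 0 < δ →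
      ∃ n0 : ℕ, ∀ n m : ℕ, n0 ≤ n → δ ≤ p n m → (m : ℝ) ≤ Mxc p n + (n : ℝ) ^ (1 - θ)) :
    ∃ C : ℝ, 0 < C ∧ ∃ n0 : ℕ, ∀ N1 N2 : ℕ, n0 ≤ N1 → n0 ≤ N2 →
      N1 + N2 ≤ 4 * N1 → N1 + N2 ≤ 4 * N2 →
      min ((Mxc p N1 : ℝ) / N1) ((Mxc p N2 : ℝ) / N2) -
        C * ((N1 + N2 : ℕ) : ℝ) ^ (-θ) ≤
        (Mxc p (N1 + N2) : ℝ) / ((N1 + N2 : ℕ) : ℝ) := by
  obtain ⟨L0, hL0, n2, hL⟩ := hfb (1 / 2) (by norm_num)
  obtain ⟨n3, hspec⟩ := hspec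
  set L : ℝ := max L0 1 with hLdef
  have hL1 : 1 ≤ L := le_max_right _ _
  obtain ⟨γ, hγ, htwo⟩ := h.htwo L
  obtain ⟨n1, hn1⟩ := hA (γ / 4) (by positivity)
  refine ⟨8 * Real.sqrt L + 2, by positivity, n1 + n2 + n3 + 2, ?_⟩
  intro N1 N2 h1 h2 h3 h4
  have hN1 : 2 ≤ N1 := by omega
  have hN2 : 2 ≤ N2 := by omega
  have hN1' : (0 : ℝ) < N1 := by exact_mod_cast (by omega : 0 < N1)
  have hN2' : (0 : ℝ) < N2 := by exact_mod_cast (by omega : 0 < N2)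
  set x : ℝ := ((N1 + N2 : ℕ) : ℝ) with hx
  have hxs : x = (N1 : ℝ) + N2 := by rw [hx]; push_cast; ring
  have hx1 : 1 ≤ x := by
    have : (1 : ℝ) ≤ N1 := by exact_mod_cast (by omega : 1 ≤ N1)
    linarith
  have hx0 : 0 < x := by linarith
  have h3' : x ≤ 4 * N1 := by rw [hx]; exact_mod_cast h3
  have h4' : x ≤ 4 * N2 := by rw [hx]; exact_mod_cast h4
  have hc0 : 0 < θ := h.θ0
  have hc2 : θ ≤ 1 / 2 := h.θ1.le
  have e1 : x ^ (1 - θ) = x * x ^ (-θ) := by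
    rw [sub_eq_add_neg, Real.rpow_add hx0, Real.rpow_one]
  have e2 : 1 ≤ x * x ^ (-θ) := by
    rw [← e1]; exact Real.one_le_rpow hx1 (by linarith)
  have e3 : Real.sqrt x ≤ x * x ^ (-θ) := by
    rw [← e1, Real.sqrt_eq_rpow]
    exact Real.rpow_le_rpow_of_exponent_le hx1 (by linarith)
  set y : ℝ := x * x ^ (-θ) with hy
  set ρ : ℝ := min ((Mxc p N1 : ℝ) / N1) ((Mxc p N2 : ℝ) / N2) with hρ
  have hρ1 : ρ * N1 ≤ Mxc p N1 := by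
    have : ρ ≤ (Mxc p N1 : ℝ) / N1 := min_le_left _ _
    rwa [le_div_iff₀ hN1'] at this
  have hρ2 : ρ * N2 ≤ Mxc p N2 := by
    have : ρ ≤ (Mxc p N2 : ℝ) / N2 := min_le_right _ _
    rwa [le_div_iff₀ hN2'] at this
  have hρ0 : 0 ≤ ρ := le_min (by positivity) (by positivity)
  have hρL : ρ ≤ L := by
    have a1 := hL N1 _ (by omega) (hspec N1 (by omega)).1
    have a2 : (Mxc p N1 : ℝ) / N1 ≤ L0 := by rw [div_le_iff₀ hN1']; exact a1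
    exact (min_le_left _ _).trans (a2.trans (le_max_left _ _))
  set d : ℝ := 2 * Real.sqrt (L * x) with hd
  have hd0 : 0 ≤ d := by positivity
  have hdd : d ^ 2 = 4 * (L * x) := by
    rw [hd, mul_pow, Real.sq_sqrt (by positivity)]; ring
  have hdy : 4 * d ≤ 8 * Real.sqrt L * y := by
    rw [hd, Real.sqrt_mul (by linarith)]
    have : Real.sqrt L * Real.sqrt x ≤ Real.sqrt L * y :=
      mul_le_mul_of_nonneg_left e3 (Real.sqrt_nonneg _)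
    linarith
  -- it suffices to multiply by x
  suffices hs : ρ * x - (8 * Real.sqrt L + 2) * y ≤ Mxc p (N1 + N2) by
    rw [le_div_iff₀ hx0]
    have : (ρ - (8 * Real.sqrt L + 2) * x ^ (-θ)) * x =
        ρ * x - (8 * Real.sqrt L + 2) * y := by rw [hy]; ring
    rw [this]; exact hs
  by_cases hcase : ρ * x < 4 * d
  · have hM0 : (0 : ℝ) ≤ Mxc p (N1 + N2) := Nat.cast_nonneg _
    have hy0 : 0 ≤ y := by linarith
    nlinarith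
  · push Not at hcase
    set m : ℕ := ⌊ρ * x - 4 * d⌋₊ with hm
    have hm1 : (m : ℝ) ≤ ρ * x - 4 * d := Nat.floor_le (by linarith)
    have hm2 : ρ * x - 4 * d < m + 1 := Nat.lt_floor_add_one _
    have hLx : ρ * x ≤ L * x := mul_le_mul_of_nonneg_right hρL hx0.le
    have hmm : 4 * (m : ℝ) ≤ d ^ 2 := by
      rw [hdd]
      linarith
    have hmL : (m : ℝ) ≤ L * (N1 + N2) := by
      rw [← hxs]; linarith
    have key : ∀ t : ℝ, 0 < t → x ≤ 4 * t → m * t / x + d ≤ ρ * t := by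
      intro t ht hxt
      have b1 : (m : ℝ) * t / x ≤ (ρ * x - 4 * d) * t / x := by
        apply div_le_div_of_nonneg_right _ hx0.le
        exact mul_le_mul_of_nonneg_right hm1 ht.le
      have b2 : (ρ * x - 4 * d) * t / x = ρ * t - d * (4 * t / x) := by
        field_simp
      have b3 : 1 ≤ 4 * t / x := by rwa [le_div_iff₀ hx0, one_mul]
      have b4 : d * 1 ≤ d * (4 * t / x) := mul_le_mul_of_nonneg_left b3 hd0
      linarith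
    have k1 := htwo N1 N2 m (Mxc p N1) (Mxc p N2) d hN1 hN2 h3 h4 hd0 hmm hmL
      (by rw [← hxs]; exact (key N1 hN1' h3').trans hρ1)
      (by rw [← hxs]; exact (key N2 hN2' h4').trans hρ2)
    have k2 := (hspec N1 (by omega)).1
    have k3 := (hspec N2 (by omega)).1
    have k4 : γ / 4 ≤ p (N1 + N2) m := by
      have k6 := mul_le_mul k2 k3 (by norm_num) (by linarith : (0 : ℝ) ≤ p N1 (Mxc p N1))
      have k7 := mul_le_mul_of_nonneg_left k6 hγ.le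
      nlinarith [k7, k1]
    have k5 := hn1 (N1 + N2) m (by omega) k4
    rw [e1] at k5
    nlinarith [e2]

theorem HypC.stepB {θ : ℝ} {p : ℕ → ℕ → ℝ} (h : HypC θ p) :
    ∃ C : ℝ, 0 < C ∧ ∃ n0 : ℕ, ∀ N1 N2 : ℕ, n0 ≤ N1 → n0 ≤ N2 →
      N1 + N2 ≤ 4 * N1 → N1 + N2 ≤ 4 * N2 →
      min ((Mxc p N1 : ℝ) / N1) ((Mxc p N2 : ℝ) / N2) -
        C * ((N1 + N2 : ℕ) : ℝ) ^ (-θ) ≤
        (Mxc p (N1 + N2) : ℝ) / ((N1 + N2 : ℕ) : ℝ) :=
  D9.aux h (fun δ hδ => h.first_bound δ hδ) h.Mxc_spec (fun δ hδ => h.stepA δ hδ)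

end Pool.Agent.H290R2.Col
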