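import Pool.Agent.H999R2.KSat.Defs

/-!
# Colouring sparse random graphs: definitions

`E f` (average of `f` over a finite type) and `ind P` (indicator) come from
`Pool.Agent.H999R2.KSat.Defs`. The random graph is given by `m` independent uniform ordered pairs
of distinct vertices (`Fin m → NL n`).
-/

set_option autoImplicit false

namespace Pool.Agent.H290R2.Col
open Finset Filter Pool.Agent.H999R2.KSat

/-- colourings of `n` vertices with `k` colours -/
abbrev Cg (n k : ℕ) := Fin n → Fin k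

/-- ordered pairs of distinct vertices -/
abbrev NL (n : ℕ) := {e : Fin n × Fin n // e.1 ≠ e.2}

/-- the colouring `a` is proper on the pair `e` -/
def pr {n k : ℕ} (a : Cg n k) (e : NL n) : Prop := a e.1.1 ≠ a e.1.2

/-- colourings proper on all pairs of `F` -/
def Col {n k m : ℕ} (F : Fin m → NL n) : Set (Cg n k) := {a | ∀ j, pr a (F j)}

/-- probability that `m` random pairs form a `k`-colourable graph -/
noncomputable def pc (k n m : ℕ) : ℝ :=
  E (fun F : Fin m → NL n => ind ((Col F : Set (Cg n k)).Nonempty))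

/-- the tuple `N` restricted to the positions in `S` kills `A`: every `a ∈ A` shows all `k`
colours on it -/
def ks {n k D : ℕ} (A : Set (Cg n k)) (N : Fin D → Fin n) (S : Finset (Fin D)) : Prop :=
  ∀ a ∈ A, ∀ c : Fin k, ∃ i ∈ S, a (N i) = c

/-- probability that `D` random vertices kill `A` -/
noncomputable def TD {n k : ℕ} (D : ℕ) (A : Set (Cg n k)) : ℝ :=
  E (fun N : Fin D → Fin n => ind (ks A N univ))

/-- survival probability of `A` under `t` random pairs -/
noncomputable def svv {n k : ℕ} (t : ℕ) (A : Set (Cg n k)) : ℝ :=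
  E (fun W : Fin t → NL n => ind (A ∩ Col W).Nonempty)

/-- the smoothed survival functional with `s` probing pairs -/
noncomputable def RC {n k : ℕ} (s : ℕ) (A : Set (Cg n k)) : ℝ :=
  E (fun W : Fin s → NL n =>
    ∑ u ∈ range s, ind (∃ a ∈ A, ∀ l : Fin s, l.val < u → pr a (W l)))

/-- normalised size of a set of vertices -/
noncomputable def mu {n : ℕ} (S : Set (Fin n)) : ℝ := E (fun v : Fin n => ind (v ∈ S))

/-- no pair of `W` lies inside `S` -/
def indep {n t : ℕ} (W : Fin t → NL n) (S : Set (Fin n)) : Prop :=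
  ∀ j, ¬ ((W j).1.1 ∈ S ∧ (W j).1.2 ∈ S)

/-- the static theorem: if `t` random pairs leave `A` nonempty with probability at least `1/2`,
then `D` random vertices kill `A` with probability at most `C * B^D * t^(-(1+c))` -/
def Static (k : ℕ) (c C B : ℝ) : Prop :=
  ∀ (n t D : ℕ) (A : Set (Cg n k)), A.Nonempty → (n : ℝ) ^ ((2 : ℝ) / 5) ≤ t → t ≤ n →
    1 / 2 ≤ svv t A → TD D A ≤ C * B ^ D * (t : ℝ) ^ (-(1 + c))

/-! ### Irreducible killers -/

/-- irreducible killer: `N` on the positions `S` kills `A`, and for every position `i ∈ S` the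
proportion of vertices that can be put at `i` is less than `b` -/
def i1 {n k D : ℕ} (b : ℝ) (A : Set (Cg n k)) (N : Fin D → Fin n) (S : Finset (Fin D)) : Prop :=
  ks A N S ∧ ∀ i ∈ S, E (fun v : Fin n => ind (ks A (Function.update N i v) S)) < b

/-- doubly irreducible killer: irreducible, and for all positions `i ≠ l` in `S` the density of the
pairs that can be put at `(i, l)` keeping an irreducible killer is less than `lam` -/
def i2 {n k D : ℕ} (b lam : ℝ) (A : Set (Cg n k)) (N : Fin D → Fin n) (S : Finset (Fin D)) :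
    Prop :=
  i1 b A N S ∧ ∀ i ∈ S, ∀ l ∈ S, i ≠ l →
    E (fun v : Fin n => E (fun f : Fin n =>
      ind (i1 b A (Function.update (Function.update N i v) l f) S))) < lam

/-- probability that `D` random vertices form a doubly irreducible killer -/
noncomputable def tau {n k : ℕ} (b lam : ℝ) (D : ℕ) (A : Set (Cg n k)) : ℝ :=
  E (fun N : Fin D → Fin n => ind (i2 b lam A N univ))

/-! ### Containers -/

/-- number of scales -/
def Lg (n : ℕ) : ℕ := Nat.log 2 n + 2

/-- the error bound of the graph container theorem `KWP` -/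
noncomputable def kwb (n t : ℕ) (lam Dl : ℝ) : ℝ :=
  3 * Lg n * Real.exp (-(t * (lam / (32 * Lg n * Dl)) ^ 2 / 4))

/-- link density of `p` -/
noncomputable def lk {n m : ℕ} (T : (Fin m → Fin n) → Fin n → Fin n → Prop)
    (p : Fin m → Fin n) : ℝ := E (fun v : Fin n => E (fun f : Fin n => ind (T p v f)))

/-- degree in the link graph of `p`, first coordinate -/
noncomputable def dg1 {n m : ℕ} (T : (Fin m → Fin n) → Fin n → Fin n → Prop)
    (p : Fin m → Fin n) (v : Fin n) : ℝ := E (fun f : Fin n => ind (T p v f))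

/-- degree in the link graph of `p`, second coordinate -/
noncomputable def dg2 {n m : ℕ} (T : (Fin m → Fin n) → Fin n → Fin n → Prop)
    (p : Fin m → Fin n) (f : Fin n) : ℝ := E (fun v : Fin n => ind (T p v f))

/-- hypotheses on a hypergraph whose edges are `(p, v, f)` -/
structure TH {n m : ℕ} (T : (Fin m → Fin n) → Fin n → Fin n → Prop) (b nu lam ta : ℝ) :
    Prop where
  hp : ∀ v f, E (fun p : Fin m → Fin n => ind (T p v f)) ≤ b
  hv : ∀ v, E (fun p : Fin m → Fin n => E (fun f : Fin n => ind (T p v f))) ≤ nu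
  hf : ∀ f, E (fun p : Fin m → Fin n => E (fun v : Fin n => ind (T p v f))) ≤ nu
  hvf : ∀ p, lk T p ≤ lam
  h1 : ∀ p v, dg1 T p v ≤ b
  h2 : ∀ p f, dg2 T p f ≤ b
  ht : ta ≤ E (fun p : Fin m → Fin n => lk T p)

/-- rich sequences: many links, small overlaps, small correlations of the degrees -/
def rich {n m g : ℕ} (T : (Fin m → Fin n) → Fin n → Fin n → Prop) (l a : ℝ)
    (P : Fin g → (Fin m → Fin n)) : Prop :=
  ∀ j, l ≤ lk T (P j) ∧
    E (fun v : Fin n => E (fun f : Fin n => ind (T (P j) v f ∧ ∃ i, i < j ∧ T (P i) v f))) ≤ l / 2 ∧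
    E (fun v : Fin n => dg1 T (P j) v * ∑ i ∈ univ.filter (fun i => i < j), dg1 T (P i) v) ≤
      a * ∑ i ∈ univ.filter (fun i => i < j), lk T (P i) ∧
    E (fun f : Fin n => dg2 T (P j) f * ∑ i ∈ univ.filter (fun i => i < j), dg2 T (P i) f) ≤
      a * ∑ i ∈ univ.filter (fun i => i < j), lk T (P i)

/-! ### The star of a vertex -/

/-- the pair represented by `(r, y, z)` relative to the vertex `v`: for `r < 2` it is a pair
containing `v` whose other endpoint is `z`, otherwise it is the pair `y` of the other vertices -/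
def Ph {n : ℕ} (v : Fin (n + 1)) (r : Fin (n + 1)) (y : NL n) (z : Fin n) : NL (n + 1) :=
  if r.val = 0 then ⟨(v, v.succAbove z), (Fin.succAbove_ne v z).symm⟩
  else if r.val = 1 then ⟨(v.succAbove z, v), Fin.succAbove_ne v z⟩
  else ⟨(v.succAbove y.1.1, v.succAbove y.1.2),
    fun h => y.2 (Fin.succAbove_right_injective h)⟩

/-- colourings proper on the pairs `Y j`, `j < u`, at the positions with `r j ≥ 2` -/
def BS {n k M : ℕ} (r : Fin M → Fin (n + 1)) (Y : Fin M → NL n) (u : ℕ) : Set (Cg n k) :=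
  {a | ∀ j : Fin M, j.val < u → ¬ (r j).val < 2 → pr a (Y j)}

/-- colourings proper on the first `u` pairs of `Y` -/
def PF {n k M : ℕ} (Y : Fin M → NL n) (u : ℕ) : Set (Cg n k) :=
  {a | ∀ j : Fin M, j.val < u → pr a (Y j)}

/-- number of positions `j < u` with `r j < 2` -/
def nst {n M : ℕ} (r : Fin M → Fin (n + 1)) (u : ℕ) : ℕ :=
  (univ.filter (fun j : Fin M => j.val < u ∧ (r j).val < 2)).card

/-- every `a ∈ B` shows all colours on the star endpoints of `G`, the first `u` of `W`, and `z` -/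
def kk {n k M s : ℕ} (B : Set (Cg n k)) (rG : Fin M → Fin (n + 1)) (Z : Fin M → Fin n)
    (r : Fin s → Fin (n + 1)) (Z' : Fin s → Fin n) (u : ℕ) (z : Fin n) : Prop :=
  ∀ a ∈ B, ∀ c : Fin k, (∃ j : Fin M, (rG j).val < 2 ∧ a (Z j) = c) ∨
    (∃ l : Fin s, l.val < u ∧ (r l).val < 2 ∧ a (Z' l) = c) ∨ a z = c

/-- the rate function -/
noncomputable def rhf {n k : ℕ} (c : ℝ) (i0 i1 : ℕ) (A : Set (Cg n k)) : ℝ :=
  ind (svv (2 ^ i0) A < 1 / 2) +
  ∑ i ∈ Ico i0 i1, ((2 : ℝ) ^ i) ^ (-((1 + c) / 2)) * ind (svv (2 ^ (i + 1)) A < 1 / 2) +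
  ((2 : ℝ) ^ i1) ^ (-((1 + c) / 2))

/-! ### Killing loops, interpolation -/

/-- survival of `A` under `m` uniform pairs of (possibly equal) vertices; a loop kills -/
noncomputable def qq {n k : ℕ} (m : ℕ) (A : Set (Cg n k)) : ℝ :=
  E (fun F : Fin m → Fin n × Fin n => ind (∃ a ∈ A, ∀ j, a (F j).1 ≠ a (F j).2))

/-- product set -/
def rectc {N1 N2 k : ℕ} (A1 : Set (Cg N1 k)) (A2 : Set (Cg N2 k)) : Set (Cg (N1 + N2) k) :=
  {a | (fun i => a (Fin.castAdd N2 i)) ∈ A1 ∧ (fun i => a (Fin.natAdd N1 i)) ∈ A2}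

/-! ### Abstract hypotheses for the convergence argument -/

/-- the properties of `p n m = pc k n m` used in the convergence argument -/
structure HypC (θ : ℝ) (p : ℕ → ℕ → ℝ) : Prop where
  θ0 : 0 < θ
  θ1 : θ < 1 / 2
  h0 : ∀ n : ℕ, p n 0 = 1
  hnn : ∀ n m : ℕ, 0 ≤ p n m
  hanti : ∀ n m : ℕ, p n (m + 1) ≤ p n m
  hfm : ∃ (K q : ℝ) (n1 : ℕ), 1 ≤ K ∧ 0 ≤ q ∧ q < 1 ∧ ∀ n m : ℕ, n1 ≤ n → p n m ≤ K ^ n * q ^ m
  hsharp : ∀ Λ δ : ℝ, 0 < δ → ∃ n0 : ℕ, ∀ n m : ℕ, n0 ≤ n → (m : ℝ) ≤ Λ * n →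
      (1 - p n m) * p n (m + ⌊(n : ℝ) ^ (1 - θ)⌋₊) ^ 2 ≤ δ
  hone : ∀ Λ : ℝ, ∃ γ : ℝ, 0 < γ ∧ ∀ n m : ℕ, 2 ≤ n → (m : ℝ) ≤ Λ * n →
      γ * p n m ≤ p (n + 1) m
  htwo : ∀ Λ : ℝ, ∃ γ : ℝ, 0 < γ ∧ ∀ (N1 N2 m m1 m2 : ℕ) (d : ℝ), 2 ≤ N1 → 2 ≤ N2 →
      N1 + N2 ≤ 4 * N1 → N1 + N2 ≤ 4 * N2 → 0 ≤ d → 4 * (m : ℝ) ≤ d ^ 2 →
      (m : ℝ) ≤ Λ * (N1 + N2) →
      m * (N1 : ℝ) / (N1 + N2) + d ≤ m1 → m * (N2 : ℝ) / (N1 + N2) + d ≤ m2 →
      γ * p N1 m1 * p N2 m2 ≤ p (N1 + N2) m

/-- the largest `m` with `p n m ≥ 1/2` (if it exists) -/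
noncomputable def Mxc (p : ℕ → ℕ → ℝ) (n : ℕ) : ℕ := sSup {m : ℕ | 1 / 2 ≤ p n m}

/-! ### Simple graphs -/

/-- the underlying unordered pairs are distinct -/
def dst {n m : ℕ} (F : Fin m → NL n) : Prop :=
  Function.Injective (fun j => s((F j).1.1, (F j).1.2))

end Pool.Agent.H290R2.Col
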