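import Pool.Agent.H290R2.Col.Defs

/-!
# Counting simple graphs by tuples of pairs
-/

set_option autoImplicit false

namespace Pool.Agent.H290R2.Col
open Finset Filter Pool.Agent.H999R2.KSat

/-- the graph of a tuple of pairs -/
def t1_GF {n m : ℕ} (F : Fin m → NL n) : SimpleGraph (Fin n) :=
  SimpleGraph.fromEdgeSet (Set.range fun j => s((F j).1.1, (F j).1.2))

theorem t1_edgeSet {n m : ℕ} (F : Fin m → NL n) :
    (t1_GF F).edgeSet = Set.range fun j => s((F j).1.1, (F j).1.2) := by
  unfold t1_GF
  rw [SimpleGraph.edgeSet_fromEdgeSet]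
  ext e
  constructor
  · exact fun h => h.1
  · rintro ⟨j, rfl⟩
    refine ⟨⟨j, rfl⟩, ?_⟩
    intro h
    exact (F j).2 h

/-- an ordered pair of distinct vertices is an unordered pair and an orientation -/
noncomputable def t1_phi (n : ℕ) : NL n ≃ {e : Sym2 (Fin n) // ¬ e.IsDiag} × Bool :=
  Equiv.ofBijective
    (fun p => (⟨s(p.1.1, p.1.2), fun h => p.2 h⟩, decide (p.1.1 < p.1.2)))
    (by
      constructor
      · rintro ⟨⟨x, y⟩, h⟩ ⟨⟨x', y'⟩, h'⟩ hh
        simp only [Prod.mk.injEq, Subtype.mk.injEq, Sym2.eq_iff, decide_eq_decide] at hh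
        obtain ⟨h1, h2⟩ := hh
        rcases h1 with ⟨rfl, rfl⟩ | ⟨rfl, rfl⟩
        · rfl
        · exfalso
          simp only [ne_eq] at h
          rcases lt_or_gt_of_ne h with h3 | h3
          · exact lt_asymm h3 (h2.1 h3)
          · exact lt_asymm h3 (h2.2 h3)
      · rintro ⟨⟨e, he⟩, b⟩
        induction e using Sym2.ind with
        | _ x y =>
          have hxy : x ≠ y := fun h => he h
          rcases lt_or_gt_of_ne hxy with h | h
          · cases b
            · refine ⟨⟨(y, x), hxy.symm⟩, ?_⟩
              simp [Sym2.eq_swap, h.le]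
            · refine ⟨⟨(x, y), hxy⟩, ?_⟩
              simp [h]
          · cases b
            · refine ⟨⟨(x, y), hxy⟩, ?_⟩
              simp [h.le]
            · refine ⟨⟨(y, x), hxy.symm⟩, ?_⟩
              simp [Sym2.eq_swap, h])

theorem t1_phi_fst {n : ℕ} (p : NL n) : (t1_phi n p).1.1 = s(p.1.1, p.1.2) := rfl

open Classical in
theorem t1_fibre {n m : ℕ} (G : SimpleGraph (Fin n)) (hG : G.edgeSet.ncard = m) :
    (univ.filter (fun F : Fin m → NL n => dst F ∧ t1_GF F = G)).card = 2 ^ m * m.factorial := by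
  have hcard : Fintype.card G.edgeSet = m := by
    rw [← hG, Set.ncard_eq_toFinset_card', Set.toFinset_card]
  have key : ∀ F : Fin m → NL n, t1_GF F = G →
      ∀ j, s((F j).1.1, (F j).1.2) ∈ G.edgeSet := by
    intro F hF j
    rw [← hF, t1_edgeSet]
    exact ⟨j, rfl⟩
  let Φ : {F : Fin m → NL n // dst F ∧ t1_GF F = G} → (Fin m ≃ G.edgeSet) × (Fin m → Bool) :=
    fun F => (Equiv.ofBijective
      (fun j => (⟨s((F.1 j).1.1, (F.1 j).1.2), key F.1 F.2.2 j⟩ : G.edgeSet))
      (by
        constructor
        · intro i j hij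
          exact F.2.1 (congrArg Subtype.val hij)
        · rintro ⟨e, he⟩
          have he' := he
          rw [← F.2.2, t1_edgeSet] at he'
          obtain ⟨j, hj⟩ := he'
          exact ⟨j, Subtype.ext hj⟩), fun j => (t1_phi n (F.1 j)).2)
  have hΦ : Function.Bijective Φ := by
    constructor
    · rintro F F' h
      refine Subtype.ext (funext fun j => (t1_phi n).injective (Prod.ext ?_ ?_))
      · refine Subtype.ext ?_
        have h1 := congrArg (fun x : (Fin m ≃ G.edgeSet) × (Fin m → Bool) => (x.1 j).1) h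
        exact h1
      · have h1 := congrArg (fun x : (Fin m ≃ G.edgeSet) × (Fin m → Bool) => x.2 j) h
        exact h1
    · rintro ⟨e, b⟩
      let F : Fin m → NL n := fun j =>
        (t1_phi n).symm (⟨(e j).1, G.not_isDiag_of_mem_edgeSet (e j).2⟩, b j)
      have hF : ∀ j, s((F j).1.1, (F j).1.2) = (e j).1 := by
        intro j
        rw [← t1_phi_fst]
        simp only [F, Equiv.apply_symm_apply]
      have h1 : dst F := by
        intro i j hij
        simp only [hF] at hij
        exact e.injective (Subtype.ext hij)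
      have h2 : t1_GF F = G := by
        rw [← SimpleGraph.edgeSet_inj, t1_edgeSet]
        ext x
        constructor
        · rintro ⟨j, rfl⟩
          simp only [hF]
          exact (e j).2
        · intro hx
          obtain ⟨j, hj⟩ := e.surjective ⟨x, hx⟩
          refine ⟨j, ?_⟩
          simp only [hF, hj]
      refine ⟨⟨F, h1, h2⟩, Prod.ext ?_ ?_⟩
      · refine Equiv.ext fun j => Subtype.ext ?_
        exact hF j
      · funext j
        change (t1_phi n (F j)).2 = b j
        simp only [F, Equiv.apply_symm_apply]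
  rw [← Fintype.card_subtype, Fintype.card_congr (Equiv.ofBijective Φ hΦ), Fintype.card_prod,
    Fintype.card_equiv (Fintype.equivOfCardEq (by rw [hcard, Fintype.card_fin])),
    Fintype.card_fun, Fintype.card_fin, Fintype.card_bool, mul_comm]

open Classical in
theorem t1_count (n m : ℕ) (P : SimpleGraph (Fin n) → Prop) :
    Nat.card {G : SimpleGraph (Fin n) // G.edgeSet.ncard = m ∧ P G} * (2 ^ m * m.factorial) =
      (univ.filter (fun F : Fin m → NL n => dst F ∧ P (t1_GF F))).card := by
  rw [Nat.card_eq_fintype_card, Fintype.card_subtype]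
  rw [Finset.card_eq_sum_card_fiberwise (f := t1_GF)
    (t := univ.filter (fun G : SimpleGraph (Fin n) => G.edgeSet.ncard = m ∧ P G))]
  · rw [Finset.sum_congr rfl (g := fun _ => 2 ^ m * m.factorial)]
    · rw [Finset.sum_const, smul_eq_mul]
    · intro G hG
      rw [mem_filter] at hG
      rw [← t1_fibre G hG.2.1, Finset.filter_filter]
      congr 1
      refine Finset.filter_congr fun F _ => ?_
      constructor
      · rintro ⟨⟨h1, _⟩, h2⟩
        exact ⟨h1, h2⟩
      · rintro ⟨h1, h2⟩
        exact ⟨⟨h1, h2 ▸ hG.2.2⟩, h2⟩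
  · intro F hF
    rw [mem_coe, mem_filter] at hF
    rw [mem_coe, mem_filter]
    refine ⟨mem_univ _, ?_, hF.2.2⟩
    rw [t1_edgeSet, ← Set.image_univ, Set.ncard_image_of_injective _ hF.2.1, Set.ncard_univ,
      Nat.card_eq_fintype_card, Fintype.card_fin]

open Classical in
theorem count_all (n m : ℕ) :
    Nat.card {G : SimpleGraph (Fin n) // G.edgeSet.ncard = m} * (2 ^ m * m.factorial) =
      (univ.filter (fun F : Fin m → NL n => dst F)).card := by
  have h := t1_count n m (fun _ => True)
  simpa using h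

open Classical in
theorem count_col (n k m : ℕ) :
    Nat.card {G : SimpleGraph (Fin n) // G.edgeSet.ncard = m ∧ G.Colorable k} *
      (2 ^ m * m.factorial) =
      (univ.filter (fun F : Fin m → NL n => dst F ∧ (Col F : Set (Cg n k)).Nonempty)).card := by
  rw [t1_count n m (fun G => G.Colorable k)]
  congr 1
  refine Finset.filter_congr fun F _ => and_congr_right fun _ => ?_
  constructor
  · rintro ⟨c⟩
    refine ⟨fun v => c v, fun j => ?_⟩
    refine c.valid ?_
    rw [← SimpleGraph.mem_edgeSet, t1_edgeSet]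
    exact ⟨j, rfl⟩
  · rintro ⟨a, ha⟩
    refine ⟨SimpleGraph.Coloring.mk a ?_⟩
    intro x y hxy
    rw [← SimpleGraph.mem_edgeSet, t1_edgeSet] at hxy
    obtain ⟨j, hj⟩ := hxy
    have h1 := ha j
    unfold pr at h1
    simp only [Sym2.eq_iff] at hj
    rcases hj with ⟨rfl, rfl⟩ | ⟨rfl, rfl⟩
    · exact h1
    · exact h1.symm

end Pool.Agent.H290R2.Col
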