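import Pool.Agent.H290R2.Col.Defs

/-! Task T2: a random tuple of pairs is simple with probability bounded below. -/

set_option autoImplicit false

namespace Pool.Agent.H290R2.Col
open Finset Filter Pool.Agent.H999R2.KSat

theorem t2_exp {x : ℝ} (h0 : 0 ≤ x) (h1 : x ≤ 1 / 2) : Real.exp (-(2 * x)) ≤ 1 - x := by
  rw [Real.exp_neg]
  have h2 : 1 + 2 * x ≤ Real.exp (2 * x) := by
    have := Real.add_one_le_exp (2 * x)
    linarith
  have h3 : (Real.exp (2 * x))⁻¹ ≤ (1 + 2 * x)⁻¹ := inv_anti₀ (by linarith) h2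
  refine h3.trans ?_
  rw [inv_le_iff_one_le_mul₀ (by linarith)]
  nlinarith

/-- the unordered pair -/
def t2_s {n : ℕ} (e : NL n) : Sym2 (Fin n) := s(e.1.1, e.1.2)

theorem t2_card_NL (n : ℕ) : Fintype.card (NL n) = n * n - n := by
  classical
  rw [Fintype.card_subtype]
  have : (univ.filter (fun e : Fin n × Fin n => e.1 ≠ e.2)) = (univ : Finset (Fin n)).offDiag := by
    ext e
    simp [Finset.mem_offDiag]
  rw [this, Finset.offDiag_card]
  simp

open Classical in
theorem t2_good {n m : ℕ} (F : Fin m → NL n) :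
    Fintype.card (NL n) - 2 * m ≤
      (univ.filter (fun e : NL n => ∀ j, t2_s e ≠ t2_s (F j))).card := by
  have h1 := Finset.card_filter_add_card_filter_not (s := (univ : Finset (NL n)))
    (fun e : NL n => ∀ j, t2_s e ≠ t2_s (F j))
  have h2 : (univ.filter (fun e : NL n => ¬ ∀ j, t2_s e ≠ t2_s (F j))).card ≤ 2 * m := by
    have h3 : univ.filter (fun e : NL n => ¬ ∀ j, t2_s e ≠ t2_s (F j)) ⊆
        univ.image (fun p : Fin m × Bool =>
          if p.2 then F p.1 else ⟨((F p.1).1.2, (F p.1).1.1), (F p.1).2.symm⟩) := by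
      intro e he
      simp only [Finset.mem_filter, Finset.mem_univ, true_and, not_forall, not_not] at he
      obtain ⟨j, hj⟩ := he
      unfold t2_s at hj
      rw [Sym2.eq_iff] at hj
      rw [Finset.mem_image]
      rcases hj with ⟨h4, h5⟩ | ⟨h4, h5⟩
      · refine ⟨(j, true), Finset.mem_univ _, ?_⟩
        simp only [if_true]
        exact Subtype.ext (Prod.ext h4.symm h5.symm)
      · refine ⟨(j, false), Finset.mem_univ _, ?_⟩
        simp only [Bool.false_eq_true, if_false]
        exact Subtype.ext (Prod.ext h4.symm h5.symm)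
    refine (Finset.card_le_card h3).trans (Finset.card_image_le.trans ?_)
    rw [Finset.card_univ, Fintype.card_prod, Fintype.card_fin, Fintype.card_bool]
    omega
  rw [Finset.card_univ] at h1
  omega

open Classical in
theorem t2_step (n m : ℕ) :
    (univ.filter (fun F : Fin m → NL n => dst F)).card * (Fintype.card (NL n) - 2 * m) ≤
      (univ.filter (fun F : Fin (m + 1) → NL n => dst F)).card := by
  have h1 : (univ.filter (fun F : Fin m → NL n => dst F)).card * (Fintype.card (NL n) - 2 * m) ≤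
      ((univ.filter (fun F : Fin m → NL n => dst F)).sigma
        (fun F => univ.filter (fun e : NL n => ∀ j, t2_s e ≠ t2_s (F j)))).card := by
    rw [Finset.card_sigma, ← smul_eq_mul, ← Finset.sum_const]
    exact Finset.sum_le_sum fun F _ => t2_good F
  refine h1.trans ?_
  refine Finset.card_le_card_of_injOn
    (fun p => (Fin.snoc (α := fun _ => NL n) p.1 p.2 : Fin (m + 1) → NL n)) ?_ ?_
  · rintro ⟨F, e⟩ hp
    simp only [Finset.coe_sigma, Set.mem_sigma_iff, Finset.coe_filter, Finset.mem_univ, true_and,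
      Set.mem_ofPred_eq] at hp ⊢
    obtain ⟨hF, he⟩ := hp
    unfold dst at hF ⊢
    intro i j hij
    induction i using Fin.lastCases with
    | last =>
      induction j using Fin.lastCases with
      | last => rfl
      | cast j =>
        simp only [Fin.snoc_last, Fin.snoc_castSucc] at hij
        exact absurd hij (he j)
    | cast i =>
      induction j using Fin.lastCases with
      | last =>
        simp only [Fin.snoc_last, Fin.snoc_castSucc] at hij
        exact absurd hij.symm (he i)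
      | cast j =>
        simp only [Fin.snoc_castSucc] at hij
        rw [hF hij]
  · rintro ⟨F, e⟩ _ ⟨F', e'⟩ _ h
    simp only at h
    have h2 := Fin.snoc_injective2 h
    obtain ⟨rfl, rfl⟩ := h2
    rfl

open Classical in
theorem t2_pow (n M : ℕ) : ∀ m, m ≤ M → (Fintype.card (NL n) - 2 * M) ^ m ≤
    (univ.filter (fun F : Fin m → NL n => dst F)).card := by
  intro m
  induction m with
  | zero =>
    intro _
    rw [pow_zero, Nat.one_le_iff_ne_zero, ← Nat.pos_iff_ne_zero, Finset.card_pos]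
    refine ⟨fun i => i.elim0, ?_⟩
    rw [Finset.mem_filter]
    exact ⟨Finset.mem_univ _, fun i => i.elim0⟩
  | succ m ih =>
    intro hm
    rw [pow_succ]
    refine le_trans ?_ (t2_step n m)
    exact Nat.mul_le_mul (ih (by omega)) (by omega)

open Classical in
theorem dst_lower (Λ : ℝ) : ∃ c : ℝ, 0 < c ∧ ∃ n0 : ℕ, ∀ n m : ℕ, n0 ≤ n →
    (m : ℝ) ≤ Λ * n → c * (Fintype.card (Fin m → NL n) : ℝ) ≤
      (univ.filter (fun F : Fin m → NL n => dst F)).card := by
  refine ⟨Real.exp (-(8 * Λ ^ 2)), Real.exp_pos _, ⌈8 * |Λ|⌉₊ + 2, fun n m hn hm => ?_⟩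
  have hn2 : 2 ≤ n := by omega
  have hnR : (2 : ℝ) ≤ n := by exact_mod_cast hn2
  have hΛn : 8 * |Λ| ≤ n := by
    have h1 : 8 * |Λ| ≤ ⌈8 * |Λ|⌉₊ := Nat.le_ceil _
    have h2 : (⌈8 * |Λ|⌉₊ : ℝ) ≤ n := by exact_mod_cast (by omega : ⌈8 * |Λ|⌉₊ ≤ n)
    linarith
  have hΛ0 : 0 ≤ Λ := by
    by_contra h
    push Not at h
    have h1 : (0 : ℝ) ≤ m := Nat.cast_nonneg m
    nlinarith
  rw [abs_of_nonneg hΛ0] at hΛn
  have hm0 : (0 : ℝ) ≤ m := Nat.cast_nonneg m
  -- the number of pairs
  have hq : ((Fintype.card (NL n) : ℕ) : ℝ) = n * n - n := by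
    rw [t2_card_NL, Nat.cast_sub (Nat.le_mul_self n)]
    push_cast
    ring
  set q : ℝ := ((Fintype.card (NL n) : ℕ) : ℝ) with hqd
  have hq2 : (n : ℝ) ^ 2 / 2 ≤ q := by
    rw [hq]; nlinarith
  have hq0 : 0 < q := by
    have : (0:ℝ) < (n : ℝ) ^ 2 / 2 := by positivity
    linarith
  set x : ℝ := 2 * m / q with hx
  have hx0 : 0 ≤ x := by positivity
  have hx1 : x ≤ 1 / 2 := by
    rw [hx, div_le_iff₀ hq0]
    nlinarith
  have h2m : 2 * (m : ℝ) ≤ q := by
    have : x * q = 2 * m := by rw [hx]; field_simp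
    nlinarith
  have h2mN : 2 * m ≤ Fintype.card (NL n) := by
    rw [hqd] at h2m
    exact_mod_cast h2m
  have hexp := t2_exp hx0 hx1
  have hmx : (m : ℝ) * (2 * x) ≤ 8 * Λ ^ 2 := by
    rw [hx]
    have h1 : (m : ℝ) * (2 * (2 * m / q)) = 4 * (m : ℝ) ^ 2 / q := by ring
    rw [h1, div_le_iff₀ hq0]
    have h3 : (m : ℝ) ^ 2 ≤ (Λ * n) ^ 2 := pow_le_pow_left₀ hm0 hm 2
    have h4 : 8 * Λ ^ 2 * ((n : ℝ) ^ 2 / 2) ≤ 8 * Λ ^ 2 * q :=
      mul_le_mul_of_nonneg_left hq2 (by positivity)
    nlinarith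
  have hpow := t2_pow n m m le_rfl
  have hpowR : (q - 2 * m) ^ m ≤ ((univ.filter (fun F : Fin m → NL n => dst F)).card : ℝ) := by
    have h1 : (((Fintype.card (NL n) - 2 * m) ^ m : ℕ) : ℝ) ≤
        ((univ.filter (fun F : Fin m → NL n => dst F)).card : ℝ) := by exact_mod_cast hpow
    rw [Nat.cast_pow, Nat.cast_sub h2mN] at h1
    push_cast at h1
    exact h1
  refine le_trans ?_ hpowR
  rw [Fintype.card_fun, Fintype.card_fin]
  push_cast
  calc Real.exp (-(8 * Λ ^ 2)) * q ^ m ≤ Real.exp (-(2 * x)) ^ m * q ^ m := by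
        refine mul_le_mul_of_nonneg_right ?_ (by positivity)
        rw [← Real.exp_nat_mul]
        apply Real.exp_le_exp.2
        linarith
    _ ≤ (1 - x) ^ m * q ^ m :=
        mul_le_mul_of_nonneg_right (pow_le_pow_left₀ (Real.exp_pos _).le hexp m) (by positivity)
    _ = (q - 2 * m) ^ m := by
        rw [← mul_pow]
        congr 1
        rw [hx]
        field_simp

end Pool.Agent.H290R2.Col
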