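import Pool.Agent.H290R2.Col.T1
import Pool.Agent.H290R2.Col.T2

/-!
Task T3: limit transfer (helper403).
-/

set_option autoImplicit false

namespace Pool.Agent.H290R2.Col
open Finset Filter Pool.Agent.H999R2.KSat

theorem t3_ratio (a b f A B : ℕ) (hf : 0 < f) (h1 : a * f = A) (h2 : b * f = B) :
    (a : ℝ) / b = (A : ℝ) / B := by
  rw [← h1, ← h2]
  push_cast
  have hf' : (f : ℝ) ≠ 0 := by exact_mod_cast hf.ne'
  rw [mul_div_mul_right _ _ hf']

open Classical in
theorem t3_pc_card (k n m : ℕ) (hX : 0 < Fintype.card (Fin m → NL n)) :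
    pc k n m * (Fintype.card (Fin m → NL n) : ℝ) =
      ((univ.filter (fun F : Fin m → NL n => (Col F : Set (Cg n k)).Nonempty)).card : ℝ) := by
  have hX' : (Fintype.card (Fin m → NL n) : ℝ) ≠ 0 := by exact_mod_cast hX.ne'
  unfold pc E
  rw [div_mul_cancel₀ _ hX', Finset.card_filter]
  push_cast
  apply Finset.sum_congr rfl
  intro F _
  unfold ind
  congr

open Classical in
theorem t3_bounds (k : ℕ) (r : ℝ) : ∃ c : ℝ, 0 < c ∧ ∃ n0 : ℕ, ∀ n : ℕ, n0 ≤ n →
    ∀ S D : ℝ,
    S = ((univ.filter (fun F : Fin ⌊r * (n : ℝ)⌋₊ → NL n =>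
      dst F ∧ (Col F : Set (Cg n k)).Nonempty)).card : ℝ) →
    D = ((univ.filter (fun F : Fin ⌊r * (n : ℝ)⌋₊ → NL n => dst F)).card : ℝ) →
    0 ≤ S / D ∧ S / D ≤ pc k n ⌊r * (n : ℝ)⌋₊ / c ∧
    0 ≤ 1 - S / D ∧ 1 - S / D ≤ (1 - pc k n ⌊r * (n : ℝ)⌋₊) / c := by
  obtain ⟨c, hc, n0, h⟩ := dst_lower (max r 0)
  refine ⟨c, hc, max n0 2, ?_⟩
  intro n hn S D hS hD
  have hn0 : n0 ≤ n := le_trans (le_max_left _ _) hn
  have hn1 : 2 ≤ n := le_trans (le_max_right _ _) hn
  have hnpos : (0 : ℝ) < n := by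
    have : 0 < n := by omega
    exact_mod_cast this
  generalize hm : ⌊r * (n : ℝ)⌋₊ = m at *
  have hmle : (m : ℝ) ≤ max r 0 * n := by
    rw [← hm]
    rcases le_or_gt 0 r with hr | hr
    · calc ((⌊r * (n : ℝ)⌋₊ : ℕ) : ℝ) ≤ r * n := Nat.floor_le (mul_nonneg hr hnpos.le)
        _ ≤ max r 0 * n := mul_le_mul_of_nonneg_right (le_max_left _ _) hnpos.le
    · have : ⌊r * (n : ℝ)⌋₊ = 0 := Nat.floor_of_nonpos (by nlinarith)
      rw [this]
      push_cast
      exact mul_nonneg (le_max_right _ _) hnpos.le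
  have : Nonempty (NL n) := ⟨⟨(⟨0, by omega⟩, ⟨1, by omega⟩), by simp [Fin.ext_iff]⟩⟩
  have hXn : 0 < Fintype.card (Fin m → NL n) := Fintype.card_pos
  have hpc := t3_pc_card k n m hXn
  have h1 := h n m hn0 hmle
  rw [← hD] at h1
  have hX : (0 : ℝ) < (Fintype.card (Fin m → NL n) : ℝ) := by exact_mod_cast hXn
  -- the comparison of the counts
  have e0 : (univ.filter (fun F : Fin m → NL n => dst F)).card =
      (univ.filter (fun F : Fin m → NL n => dst F ∧ (Col F : Set (Cg n k)).Nonempty)).card +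
      (univ.filter (fun F : Fin m → NL n => dst F ∧ ¬ (Col F : Set (Cg n k)).Nonempty)).card := by
    rw [← Finset.card_filter_add_card_filter_not (s := univ.filter (fun F : Fin m → NL n => dst F))
      (fun F => (Col F : Set (Cg n k)).Nonempty), Finset.filter_filter, Finset.filter_filter]
  have e1 : Fintype.card (Fin m → NL n) =
      (univ.filter (fun F : Fin m → NL n => (Col F : Set (Cg n k)).Nonempty)).card +
      (univ.filter (fun F : Fin m → NL n => ¬ (Col F : Set (Cg n k)).Nonempty)).card := by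
    rw [Finset.card_filter_add_card_filter_not, Finset.card_univ]
  have e2 : (univ.filter (fun F : Fin m → NL n => dst F ∧ (Col F : Set (Cg n k)).Nonempty)).card ≤
      (univ.filter (fun F : Fin m → NL n => (Col F : Set (Cg n k)).Nonempty)).card :=
    Finset.card_le_card (fun F hF => by
      rw [mem_filter] at hF ⊢
      exact ⟨hF.1, hF.2.2⟩)
  have e3 : (univ.filter (fun F : Fin m → NL n => dst F ∧ ¬ (Col F : Set (Cg n k)).Nonempty)).card ≤
      (univ.filter (fun F : Fin m → NL n => ¬ (Col F : Set (Cg n k)).Nonempty)).card :=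
    Finset.card_le_card (fun F hF => by
      rw [mem_filter] at hF ⊢
      exact ⟨hF.1, hF.2.2⟩)
  have e0' : D = S + ((univ.filter (fun F : Fin m → NL n =>
      dst F ∧ ¬ (Col F : Set (Cg n k)).Nonempty)).card : ℝ) := by
    rw [hD, hS]
    exact_mod_cast e0
  have e1' : (Fintype.card (Fin m → NL n) : ℝ) =
      ((univ.filter (fun F : Fin m → NL n => (Col F : Set (Cg n k)).Nonempty)).card : ℝ) +
      ((univ.filter (fun F : Fin m → NL n => ¬ (Col F : Set (Cg n k)).Nonempty)).card : ℝ) := by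
    exact_mod_cast e1
  have e2' : S ≤ ((univ.filter (fun F : Fin m → NL n =>
      (Col F : Set (Cg n k)).Nonempty)).card : ℝ) := by
    rw [hS]
    exact_mod_cast e2
  have e3' : ((univ.filter (fun F : Fin m → NL n =>
      dst F ∧ ¬ (Col F : Set (Cg n k)).Nonempty)).card : ℝ) ≤
      ((univ.filter (fun F : Fin m → NL n => ¬ (Col F : Set (Cg n k)).Nonempty)).card : ℝ) := by
    exact_mod_cast e3
  have hs0 : (0 : ℝ) ≤ S := by rw [hS]; exact Nat.cast_nonneg _
  have hd0 : (0 : ℝ) ≤ ((univ.filter (fun F : Fin m → NL n =>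
      dst F ∧ ¬ (Col F : Set (Cg n k)).Nonempty)).card : ℝ) := Nat.cast_nonneg _
  rw [← hpc] at e1' e2'
  generalize ((univ.filter (fun F : Fin m → NL n =>
      dst F ∧ ¬ (Col F : Set (Cg n k)).Nonempty)).card : ℝ) = S' at *
  generalize ((univ.filter (fun F : Fin m → NL n =>
      ¬ (Col F : Set (Cg n k)).Nonempty)).card : ℝ) = T' at *
  generalize (Fintype.card (Fin m → NL n) : ℝ) = X at *
  have h2 : S ≤ pc k n m * X := e2'
  have h3 : D - S ≤ (1 - pc k n m) * X := by linarith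
  have h4 : S ≤ D := by linarith
  have hcX : 0 < c * X := mul_pos hc hX
  have hDp : (0 : ℝ) < D := lt_of_lt_of_le hcX h1
  have hpX : 0 ≤ pc k n m * X := le_trans hs0 h2
  have hp0 : 0 ≤ pc k n m := nonneg_of_mul_nonneg_left hpX hX
  have hqX : 0 ≤ (1 - pc k n m) * X := le_trans (by linarith) h3
  have hq0 : 0 ≤ 1 - pc k n m := nonneg_of_mul_nonneg_left hqX hX
  have e1 : (1 : ℝ) - S / D = (D - S) / D := by
    field_simp
  refine ⟨div_nonneg hs0 hDp.le, ?_, ?_, ?_⟩
  · rw [div_le_div_iff₀ hDp hc]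
    calc S * c ≤ pc k n m * X * c := mul_le_mul_of_nonneg_right h2 hc.le
      _ = pc k n m * (c * X) := by ring
      _ ≤ pc k n m * D := mul_le_mul_of_nonneg_left h1 hp0
  · rw [e1]
    exact div_nonneg (by linarith) hDp.le
  · rw [e1, div_le_div_iff₀ hDp hc]
    calc (D - S) * c ≤ (1 - pc k n m) * X * c :=
          mul_le_mul_of_nonneg_right h3 hc.le
      _ = (1 - pc k n m) * (c * X) := by ring
      _ ≤ (1 - pc k n m) * D := mul_le_mul_of_nonneg_left h1 hq0

open Classical in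
theorem t3_key (k n m : ℕ) :
    (Nat.card {G : SimpleGraph (Fin n) // G.edgeSet.ncard = m ∧ G.Colorable k} : ℝ) /
      (Nat.card {G : SimpleGraph (Fin n) // G.edgeSet.ncard = m} : ℝ) =
    ((univ.filter (fun F : Fin m → NL n => dst F ∧ (Col F : Set (Cg n k)).Nonempty)).card : ℝ) /
      ((univ.filter (fun F : Fin m → NL n => dst F)).card : ℝ) :=
  t3_ratio _ _ (2 ^ m * m.factorial) _ _ (by positivity) (count_col n k m) (count_all n m)

theorem transfer_col (k : ℕ) (rs : ℝ)
    (h1 : ∀ r, r < rs → Tendsto (fun n : ℕ => pc k n ⌊r * (n : ℝ)⌋₊) atTop (nhds 1))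
    (h0 : ∀ r, rs < r → Tendsto (fun n : ℕ => pc k n ⌊r * (n : ℝ)⌋₊) atTop (nhds 0)) :
    ∀ ε : ℝ, 0 < ε →
      Filter.Tendsto
        (fun n : ℕ =>
          (Nat.card {G : SimpleGraph (Fin n) //
              G.edgeSet.ncard = ⌊(rs - ε) * (n : ℝ)⌋₊ ∧ G.Colorable k} : ℝ) /
          (Nat.card {G : SimpleGraph (Fin n) //
              G.edgeSet.ncard = ⌊(rs - ε) * (n : ℝ)⌋₊} : ℝ))
        Filter.atTop (nhds 1) ∧
      Filter.Tendsto
        (fun n : ℕ =>
          (Nat.card {G : SimpleGraph (Fin n) //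
              G.edgeSet.ncard = ⌊(rs + ε) * (n : ℝ)⌋₊ ∧ G.Colorable k} : ℝ) /
          (Nat.card {G : SimpleGraph (Fin n) //
              G.edgeSet.ncard = ⌊(rs + ε) * (n : ℝ)⌋₊} : ℝ))
        Filter.atTop (nhds 0) := by
  classical
  intro ε hε
  constructor
  · obtain ⟨c, hc, n0, hb⟩ := t3_bounds k (rs - ε)
    have hlim : Tendsto (fun n : ℕ => (1 - pc k n ⌊(rs - ε) * (n : ℝ)⌋₊) / c) atTop (nhds 0) := by
      have := ((tendsto_const_nhds (x := (1 : ℝ))).sub (h1 (rs - ε) (by linarith))).div_const c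
      simpa using this
    simp_rw [t3_key]
    have hsq := squeeze_zero' (f := fun n : ℕ => 1 -
        (((univ.filter (fun F : Fin ⌊(rs - ε) * (n : ℝ)⌋₊ → NL n =>
          dst F ∧ (Col F : Set (Cg n k)).Nonempty)).card : ℝ) /
          ((univ.filter (fun F : Fin ⌊(rs - ε) * (n : ℝ)⌋₊ → NL n => dst F)).card : ℝ))) ?_ ?_ hlim
    · have := (tendsto_const_nhds (x := (1 : ℝ))).sub hsq
      simpa using this
    · filter_upwards [eventually_ge_atTop n0] with n hn
      exact (hb n hn _ _ rfl rfl).2.2.1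
    · filter_upwards [eventually_ge_atTop n0] with n hn
      exact (hb n hn _ _ rfl rfl).2.2.2
  · obtain ⟨c, hc, n0, hb⟩ := t3_bounds k (rs + ε)
    have hlim : Tendsto (fun n : ℕ => pc k n ⌊(rs + ε) * (n : ℝ)⌋₊ / c) atTop (nhds 0) := by
      have := (h0 (rs + ε) (by linarith)).div_const c
      simpa using this
    simp_rw [t3_key]
    apply squeeze_zero' _ _ hlim
    · filter_upwards [eventually_ge_atTop n0] with n hn
      exact (hb n hn _ _ rfl rfl).1
    · filter_upwards [eventually_ge_atTop n0] with n hn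
      exact (hb n hn _ _ rfl rfl).2.1

end Pool.Agent.H290R2.Col
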